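import Pool.Agent.TH996.HW.Dual

open MeasureTheory ProbabilityTheory Filter
open scoped NNReal ENNReal Topology

namespace Pool.Agent.TH996.HW

theorem flow_hit {ν : Measure ℝ} {β δ : ℝ} (hδ : 0 < δ)
    (H : ∀ (n : ℕ) (x : Fin n → ℝ) (Ω : Type) [MeasurableSpace Ω] (P : Measure Ω)
      [IsProbabilityMeasure P] (X : ℝ≥0 → Ω → (Fin n → ℝ)), IsHWMotion β ν x P X →
      ∀ (T : ℝ≥0) (a : ℝ), 1 ≤ T → P.real {ω | ∃ i, X T ω i ∈ Set.Icc a (a + 1)} ≤ 1 - δ)
    {Ω : Type} [MeasurableSpace Ω] {P : Measure Ω} [IsProbabilityMeasure P]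
    {K : ℝ → ℝ → Ω → ℝ → Measure ℝ} (hK : IsHWFlow β ν P K) (t a x : ℝ) (ht : 1 ≤ t) :
    δ ≤ P.real {ω | K 0 t ω x (Set.Icc a (a + 1)) = 0} := by
  have ht0 : (0 : ℝ) ≤ t := le_trans zero_le_one ht
  obtain ⟨T, hT⟩ : ∃ T : ℝ≥0, T = ⟨t, ht0⟩ := ⟨_, rfl⟩
  have hTt : (T : ℝ) = t := by rw [hT]; rfl
  have hT1 : 1 ≤ T := by
    rw [← NNReal.coe_le_coe, hTt]
    exact ht
  -- measurability
  have hmA : Measurable (fun ω => K 0 t ω x (Set.Icc a (a + 1))) :=
    (hK.meas 0 t ht0 _ measurableSet_Icc).comp (measurable_id.prodMk measurable_const)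
  have hmB : Measurable (fun ω => K 0 t ω x (Set.Icc a (a + 1))ᶜ) :=
    (hK.meas 0 t ht0 _ measurableSet_Icc.compl).comp (measurable_id.prodMk measurable_const)
  have hle1 : ∀ ω, K 0 t ω x (Set.Icc a (a + 1))ᶜ ≤ 1 := by
    intro ω
    have := hK.prob 0 t ht0 ω x
    exact prob_le_one
  -- lower bound for all n
  have hn : ∀ n : ℕ, ENNReal.ofReal δ ≤ ∫⁻ ω, (K 0 t ω x (Set.Icc a (a + 1))ᶜ) ^ n ∂P := by
    intro n
    obtain ⟨Ω', mΩ', P', hP', X, hX, hfd⟩ := hK.motion n (fun _ => x)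
    have h1 := H n (fun _ => x) Ω' P' X hX T a hT1
    have h2 := hfd T (fun _ => (Set.Icc a (a + 1))ᶜ) (fun _ => measurableSet_Icc.compl)
    rw [hTt] at h2
    have h3 : ∀ ω, (∏ _i : Fin n, K 0 t ω x (Set.Icc a (a + 1))ᶜ) =
        (K 0 t ω x (Set.Icc a (a + 1))ᶜ) ^ n := by
      intro ω
      rw [Finset.prod_const, Finset.card_univ, Fintype.card_fin]
    simp only [h3] at h2
    rw [← h2]
    have hmeasX : Measurable (X T) := (hX.meas T).measurable
    have hset : MeasurableSet {ω | ∃ i, X T ω i ∈ Set.Icc a (a + 1)} := by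
      have e : {ω | ∃ i, X T ω i ∈ Set.Icc a (a + 1)} =
          ⋃ i, (fun ω => X T ω i) ⁻¹' (Set.Icc a (a + 1)) := by
        ext ω; simp
      rw [e]
      exact MeasurableSet.iUnion (fun i => (measurable_pi_iff.1 hmeasX i) measurableSet_Icc)
    have e : {ω | ∀ i, X T ω i ∈ (Set.Icc a (a + 1))ᶜ} =
        {ω | ∃ i, X T ω i ∈ Set.Icc a (a + 1)}ᶜ := by
      ext ω
      simp
    rw [e]
    rw [← ENNReal.ofReal_toReal (measure_ne_top P' _)]
    apply ENNReal.ofReal_le_ofReal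
    have h4 : P'.real {ω | ∃ i, X T ω i ∈ Set.Icc a (a + 1)}ᶜ =
        1 - P'.real {ω | ∃ i, X T ω i ∈ Set.Icc a (a + 1)} := by
      rw [measureReal_compl hset]
      simp
    have h5 : δ ≤ P'.real {ω | ∃ i, X T ω i ∈ Set.Icc a (a + 1)}ᶜ := by
      rw [h4]; linarith
    exact h5
  -- limit
  have hlim : Tendsto (fun n : ℕ => ∫⁻ ω, (K 0 t ω x (Set.Icc a (a + 1))ᶜ) ^ n ∂P) atTop
      (𝓝 (∫⁻ ω, ({ω | K 0 t ω x (Set.Icc a (a + 1)) = 0}.indicator (fun _ => (1 : ℝ≥0∞)) ω) ∂P)) := by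
    refine tendsto_lintegral_of_dominated_convergence (fun _ => (1 : ℝ≥0∞)) ?_ ?_ ?_ ?_
    · intro n
      exact hmB.pow_const n
    · intro n
      exact Eventually.of_forall (fun ω => pow_le_one₀ (zero_le) (hle1 ω))
    · simp
    · refine Eventually.of_forall (fun ω => ?_)
      have := hK.prob 0 t ht0 ω x
      by_cases h0 : K 0 t ω x (Set.Icc a (a + 1)) = 0
      · have hc : K 0 t ω x (Set.Icc a (a + 1))ᶜ = 1 := by
          rw [prob_compl_eq_one_iff measurableSet_Icc]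
          exact h0
        have : (ω ∈ {ω | K 0 t ω x (Set.Icc a (a + 1)) = 0}) := h0
        rw [Set.indicator_of_mem this, hc]
        simp
      · have hc : K 0 t ω x (Set.Icc a (a + 1))ᶜ < 1 := by
          rw [prob_compl_eq_one_sub measurableSet_Icc]
          exact ENNReal.sub_lt_self ENNReal.one_ne_top one_ne_zero h0
        have : (ω ∉ {ω | K 0 t ω x (Set.Icc a (a + 1)) = 0}) := h0
        rw [Set.indicator_of_notMem this]
        exact ENNReal.tendsto_pow_atTop_nhds_zero_of_lt_one hc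
  have hfin := ge_of_tendsto hlim (Eventually.of_forall hn)
  have hms : MeasurableSet {ω | K 0 t ω x (Set.Icc a (a + 1)) = 0} :=
    hmA (measurableSet_singleton 0)
  rw [lintegral_indicator hms, lintegral_const] at hfin
  simp only [one_mul, Measure.restrict_apply MeasurableSet.univ, Set.univ_inter] at hfin
  have hfin' : ENNReal.ofReal δ ≤ P {ω | K 0 t ω x (Set.Icc a (a + 1)) = 0} := hfin
  have := ENNReal.toReal_mono (measure_ne_top P _) hfin'
  rw [ENNReal.toReal_ofReal hδ.le] at this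
  exact this

end Pool.Agent.TH996.HW
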