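import Pool.Agent.TH996.HW.Dual

/-!
# The scaling limit forces hitting (MP_b213bc_pr)
-/

set_option autoImplicit false

open MeasureTheory ProbabilityTheory Filter
open scoped NNReal ENNReal Topology

namespace Pool.Agent.TH996.HW

private lemma scale_pos {κ : ℝ≥0∞} (hκ : κ = 0) (c t : ℝ) {a : ℝ} (ha : 0 < a) (s : ℝ) :
    ¬ ((-(ENNReal.log κ) - ((c * t : ℝ) : EReal)) / (a : EReal) ≤ (s : EReal)) := by
  rw [hκ, ENNReal.log_zero, EReal.neg_bot, EReal.top_sub_coe,
    EReal.top_div_of_pos_ne_top (by exact_mod_cast ha) (EReal.coe_ne_top a)]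
  exact not_le.2 (EReal.coe_lt_top s)

private lemma scale_neg {κ : ℝ≥0∞} (hκ : κ = 0) (c t : ℝ) {a : ℝ} (ha : a < 0) (s : ℝ) :
    ((-(ENNReal.log κ) - ((c * t : ℝ) : EReal)) / (a : EReal) ≤ (s : EReal)) := by
  rw [hκ, ENNReal.log_zero, EReal.neg_bot, EReal.top_sub_coe,
    EReal.top_div_of_neg_ne_bot (by exact_mod_cast ha) (EReal.coe_ne_bot a)]
  exact bot_le

private lemma scale_cont (μ : Measure ℝ) [IsProbabilityMeasure μ] (a : ℝ) :
    ∃ s, a < s ∧ s < a + 1 ∧ μ {s} = 0 := by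
  have h : Set.Countable {s : ℝ | 0 < μ {s}} := by
    refine Measure.countable_meas_pos_of_disjoint_iUnion (μ := μ) (As := fun s : ℝ => {s})
      (fun s => measurableSet_singleton s) ?_
    intro s t hst
    simpa using hst
  obtain ⟨s, hs, h1⟩ := (h.dense_compl ℝ).exists_between (show a < a + 1 by linarith)
  exact ⟨s, h1.1, h1.2, by simpa using hs⟩

theorem scales_hit {Ω : Type} [MeasurableSpace Ω] {P : Measure Ω} [IsProbabilityMeasure P]
    {κ : ℝ → Ω → ℝ≥0∞} (hκ : ∀ t, 0 ≤ t → Measurable (κ t)) {c σ : ℝ} (hσ : σ ≠ 0)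
    {μ : Measure ℝ} [IsProbabilityMeasure μ] (h : ScalesTo P κ c σ μ) :
    Tendsto (fun t : ℝ => P {ω | κ t ω = 0}) atTop (𝓝 0) := by
  rw [ENNReal.tendsto_nhds_zero]
  intro ε hε
  rcases lt_or_gt_of_ne hσ with hσ | hσ
  · -- negative
    have h1 : Tendsto (fun s : ℝ => μ (Set.Iic s)) atBot (𝓝 0) := by
      have h2 := ENNReal.tendsto_ofReal (tendsto_cdf_atBot μ)
      simp only [ofReal_cdf, ENNReal.ofReal_zero] at h2
      exact h2
    obtain ⟨a, ha⟩ := eventually_atBot.1 (h1.eventually_lt_const hε)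
    obtain ⟨s, _, hs, hs0⟩ := scale_cont μ (a - 1)
    have h2 := ha s (by linarith)
    filter_upwards [(h s hs0).eventually_lt_const h2, eventually_gt_atTop 0] with t ht ht0
    refine le_trans (measure_mono ?_) ht.le
    intro ω hω
    exact scale_neg hω c t (mul_neg_of_neg_of_pos hσ (Real.rpow_pos_of_pos ht0 _)) s
  · -- positive
    have h1 : Tendsto (fun s : ℝ => 1 - μ (Set.Iic s)) atTop (𝓝 0) := by
      have h2 := tendsto_measure_Iic_atTop μ
      rw [measure_univ] at h2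
      have h3 := ENNReal.Tendsto.sub (tendsto_const_nhds (x := (1 : ℝ≥0∞))) h2
        (Or.inl ENNReal.one_ne_top)
      rwa [tsub_self] at h3
    obtain ⟨a, ha⟩ := eventually_atTop.1 (h1.eventually_lt_const hε)
    obtain ⟨s, hs, _, hs0⟩ := scale_cont μ a
    have h2 := ha s hs.le
    have h3 := ENNReal.Tendsto.sub (tendsto_const_nhds (x := (1 : ℝ≥0∞))) (h s hs0)
        (Or.inl ENNReal.one_ne_top)
    filter_upwards [h3.eventually_lt_const h2, eventually_gt_atTop 0] with t ht ht0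
    refine le_trans ?_ ht.le
    have hm : MeasurableSet {ω | κ t ω = 0} := hκ t ht0.le (measurableSet_singleton 0)
    have h4 : P {ω | κ t ω = 0} = 1 - P {ω | κ t ω = 0}ᶜ := by
      rw [← prob_compl_eq_one_sub hm.compl, compl_compl]
    rw [h4]
    refine tsub_le_tsub_left (measure_mono ?_) 1
    intro ω hω hω'
    exact scale_pos hω' c t (mul_pos hσ (Real.rpow_pos_of_pos ht0 _)) s hω

end Pool.Agent.TH996.HW
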