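import Pool.Agent.TH996.HW.Dual

/-!
# The drifts betaPlus (MP_b213bc_pr)
-/

open MeasureTheory ProbabilityTheory Filter
open scoped NNReal ENNReal Topology

namespace Pool.Agent.TH996.HW

variable {n : ℕ} {f : ℝ → ℝ}

private lemma Beta_ae {ν : Measure ℝ} (hν : GoodNu ν) : ∀ᵐ q ∂ν, 0 < q ∧ q < 1 := by
  have h1 : ∀ᵐ q ∂ν, q ∈ Set.Icc (0:ℝ) 1 := hν.supp
  have hm : Measurable (fun q : ℝ => (ENNReal.ofReal (q * (1 - q)))⁻¹) := by fun_prop
  have h2 := ae_lt_top hm hν.int.ne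
  filter_upwards [h1, h2] with q hq hq2
  rw [ENNReal.inv_lt_top, ENNReal.ofReal_pos] at hq2
  constructor
  · rcases hq.1.lt_or_eq with h | h
    · exact h
    · rw [← h] at hq2; simp at hq2
  · rcases hq.2.lt_or_eq with h | h
    · exact h
    · rw [h] at hq2; simp at hq2

private lemma Beta_int0 {ν : Measure ℝ} (hν : GoodNu ν) :
    Integrable (fun q : ℝ => (q * (1 - q))⁻¹) ν := by
  refine ⟨(by fun_prop : Measurable (fun q : ℝ => (q * (1 - q))⁻¹)).aestronglyMeasurable, ?_⟩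
  rw [hasFiniteIntegral_iff_enorm]
  have : ∫⁻ q, ‖(q * (1 - q))⁻¹‖ₑ ∂ν = ∫⁻ q, (ENNReal.ofReal (q * (1 - q)))⁻¹ ∂ν := by
    apply lintegral_congr_ae
    filter_upwards [Beta_ae hν] with q hq
    have hp : 0 < q * (1 - q) := mul_pos hq.1 (by linarith [hq.2])
    rw [← ENNReal.ofReal_inv_of_pos hp, Real.enorm_eq_ofReal (inv_pos.mpr hp).le]
  rw [this]
  exact hν.int

private lemma Beta_int1 {ν : Measure ℝ} (hν : GoodNu ν) :
    Integrable (fun q : ℝ => 1 / q) ν := by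
  apply (Beta_int0 hν).mono'
    (by fun_prop : Measurable (fun q : ℝ => 1 / q)).aestronglyMeasurable
  filter_upwards [Beta_ae hν] with q hq
  have hp : 0 < q * (1 - q) := mul_pos hq.1 (by linarith [hq.2])
  rw [Real.norm_eq_abs, abs_of_pos (by have := hq.1; positivity), one_div]
  apply inv_anti₀ hp
  exact mul_le_of_le_one_right hq.1.le (by linarith [hq.1])

private lemma Beta_int2 {ν : Measure ℝ} (hν : GoodNu ν) :
    Integrable (fun q : ℝ => 1 / (1 - q)) ν := by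
  apply (Beta_int0 hν).mono'
    (by fun_prop : Measurable (fun q : ℝ => 1 / (1 - q))).aestronglyMeasurable
  filter_upwards [Beta_ae hν] with q hq
  have h1 : 0 < 1 - q := by linarith [hq.2]
  have hp : 0 < q * (1 - q) := mul_pos hq.1 h1
  rw [Real.norm_eq_abs, abs_of_pos (by positivity), one_div]
  apply inv_anti₀ hp
  exact mul_le_of_le_one_left h1.le hq.2.le

private lemma Beta_intS {ν : Measure ℝ} (hν : GoodNu ν) (N : ℕ) :
    Integrable (fun q : ℝ => ∑ k ∈ Finset.range N, (1 - q) ^ k) ν := by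
  have := hν.fin
  apply integrable_finsetSum
  intro k _
  apply Integrable.of_bound (C := 1)
    (by fun_prop : Measurable (fun q : ℝ => (1 - q) ^ k)).aestronglyMeasurable
  filter_upwards [Beta_ae hν] with q hq
  rw [Real.norm_eq_abs, abs_of_nonneg (pow_nonneg (by linarith [hq.2]) k)]
  exact pow_le_one₀ (by linarith [hq.2]) (by linarith [hq.1])

private lemma Beta_geom (q : ℝ) (hq : q ≠ 0) (N : ℕ) :
    ∑ k ∈ Finset.range N, (1 - q) ^ k = (1 - (1 - q) ^ N) / q := by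
  rw [geom_sum_eq (by intro h; apply hq; linarith)]
  rw [div_eq_div_iff (by intro h; apply hq; linarith) hq]
  ring

theorem betaPlus_one (β : ℝ) (ν : Measure ℝ) : betaPlus β ν 1 = β := by
  simp [betaPlus]

theorem betaPlus_bounds {ν : Measure ℝ} (hν : GoodNu ν) (β : ℝ) (m : ℕ) :
    β ≤ betaPlus β ν m ∧ betaPlus β ν m ≤ bp β ν := by
  unfold betaPlus bp
  have h1 : 0 ≤ ∫ q, ∑ k ∈ Finset.range (m - 1), (1 - q) ^ k ∂ν := by
    apply integral_nonneg_of_ae
    filter_upwards [Beta_ae hν] with q hq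
    exact Finset.sum_nonneg fun k _ => pow_nonneg (by linarith [hq.2]) k
  have h2 : ∫ q, ∑ k ∈ Finset.range (m - 1), (1 - q) ^ k ∂ν ≤ ∫ q, 1 / q ∂ν := by
    apply integral_mono_ae (Beta_intS hν _) (Beta_int1 hν)
    filter_upwards [Beta_ae hν] with q hq
    rw [Beta_geom q hq.1.ne']
    have := hq.1
    gcongr
    have : 0 ≤ (1 - q) ^ (m - 1) := pow_nonneg (by linarith [hq.2]) _
    linarith
  constructor <;> linarith

theorem bm_le {ν : Measure ℝ} (hν : GoodNu ν) (β : ℝ) : bm β ν ≤ β ∧ β ≤ bp β ν := by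
  unfold bm bp
  have h1 : 0 ≤ ∫ q, 1 / (1 - q) ∂ν := by
    apply integral_nonneg_of_ae
    filter_upwards [Beta_ae hν] with q hq
    exact div_nonneg zero_le_one (by linarith [hq.2])
  have h2 : 0 ≤ ∫ q, 1 / q ∂ν := by
    apply integral_nonneg_of_ae
    filter_upwards [Beta_ae hν] with q hq
    exact div_nonneg zero_le_one hq.1.le
  constructor <;> linarith

private lemma Beta_binom (g : ℕ) (x : ℝ) :
    ∑ j ∈ Finset.range g, (-1 : ℝ) ^ j * (g.choose (j + 1)) * x ^ (j + 1) = 1 - (1 - x) ^ g := by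
  have h := add_pow (-x) 1 g
  rw [Finset.sum_range_succ'] at h
  simp only [one_pow, mul_one, pow_zero, Nat.choose_zero_right, Nat.cast_one] at h
  have h2 : ∀ j, (-x) ^ (j + 1) * (g.choose (j + 1) : ℝ) =
      -((-1 : ℝ) ^ j * (g.choose (j + 1)) * x ^ (j + 1)) := by
    intro j
    rw [neg_pow, pow_succ (-1 : ℝ) j]
    ring
  simp only [h2] at h
  rw [Finset.sum_neg_distrib] at h
  have h3 : (-x + 1) = 1 - x := by ring
  rw [h3] at h
  linarith

private lemma Beta_point (g : ℕ) (hg : 1 ≤ g) {q : ℝ} (h0 : 0 < q) (h1 : q < 1) :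
    -(1 / (1 - q)) ≤ ∑ j ∈ Finset.range g, (-1 : ℝ) ^ j * (g.choose (j + 1)) *
      ∑ k ∈ Finset.range j, (1 - q) ^ k := by
  have hx : 0 < 1 - q := by linarith
  have e1 : ∑ j ∈ Finset.range g, (-1 : ℝ) ^ j * (g.choose (j + 1)) *
      ∑ k ∈ Finset.range j, (1 - q) ^ k =
      (1 / q) * ∑ j ∈ Finset.range g, (-1 : ℝ) ^ j * (g.choose (j + 1)) * 1 ^ (j + 1) -
      (1 / (q * (1 - q))) * ∑ j ∈ Finset.range g, (-1 : ℝ) ^ j * (g.choose (j + 1)) *
        (1 - q) ^ (j + 1) := by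
    rw [Finset.mul_sum, Finset.mul_sum, ← Finset.sum_sub_distrib]
    apply Finset.sum_congr rfl
    intro j _
    rw [Beta_geom q h0.ne']
    field_simp
    ring
  rw [e1, Beta_binom, Beta_binom]
  obtain ⟨k, rfl⟩ : ∃ k, g = k + 1 := ⟨g - 1, by omega⟩
  have e2 : 1 / q * (1 - (1 - 1) ^ (k + 1)) - 1 / (q * (1 - q)) * (1 - (1 - (1 - q)) ^ (k + 1)) =
      -(1 / (1 - q)) + q ^ k / (1 - q) := by
    have : (1:ℝ) - (1 - q) = q := by ring
    rw [this, sub_self, zero_pow (by omega)]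
    field_simp
    ring
  rw [e2]
  have : 0 ≤ q ^ k / (1 - q) := by positivity
  linarith

theorem betaPlus_alt {ν : Measure ℝ} (hν : GoodNu ν) (β : ℝ) (g : ℕ) (hg : 1 ≤ g) :
    bm β ν ≤ ∑ j ∈ Finset.range g, (-1 : ℝ) ^ j * (g.choose (j + 1)) * betaPlus β ν (j + 1) := by
  have e0 : ∑ j ∈ Finset.range g, (-1 : ℝ) ^ j * (g.choose (j + 1)) = 1 := by
    have := Beta_binom g 1
    simp only [one_pow, mul_one, sub_self] at this
    rw [this, zero_pow (by omega), sub_zero]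
  have e1 : ∑ j ∈ Finset.range g, (-1 : ℝ) ^ j * (g.choose (j + 1)) * betaPlus β ν (j + 1) =
      β + 2 * ∫ q, ∑ j ∈ Finset.range g, (-1 : ℝ) ^ j * (g.choose (j + 1)) *
        ∑ k ∈ Finset.range j, (1 - q) ^ k ∂ν := by
    rw [integral_finsetSum _ (fun j _ => (Beta_intS hν j).const_mul _)]
    simp only [integral_const_mul, betaPlus, Nat.add_sub_cancel]
    rw [Finset.mul_sum]
    have : β = ∑ j ∈ Finset.range g, ((-1 : ℝ) ^ j * (g.choose (j + 1))) * β := by
      rw [← Finset.sum_mul, e0, one_mul]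
    conv_rhs => rw [this]
    rw [← Finset.sum_add_distrib]
    apply Finset.sum_congr rfl
    intro j _
    ring
  rw [e1]
  unfold bm
  have h2 : -∫ q, 1 / (1 - q) ∂ν ≤ ∫ q, ∑ j ∈ Finset.range g,
      (-1 : ℝ) ^ j * (g.choose (j + 1)) * ∑ k ∈ Finset.range j, (1 - q) ^ k ∂ν := by
    rw [← integral_neg]
    apply integral_mono_ae (Beta_int2 hν).neg
      (integrable_finsetSum _ (fun j _ => (Beta_intS hν j).const_mul _))
    filter_upwards [Beta_ae hν] with q hq
    exact Beta_point g hg hq.1 hq.2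
  linarith

end Pool.Agent.TH996.HW
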