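import Pool.Agent.TH996.HW.Dual

/-!
# Dual functional: exact formula and measurability (MP_b213bc_pr)
-/

set_option autoImplicit false

open MeasureTheory ProbabilityTheory Filter
open scoped NNReal ENNReal Topology

namespace Pool.Agent.TH996.HW

variable {n : ℕ} {f : ℝ → ℝ}

theorem exists_bump : ∃ f : ℝ → ℝ, Bump f := by
  let b : ContDiffBump (-1 / 2 : ℝ) := ⟨1 / 4, 1 / 2, by norm_num, by norm_num⟩
  refine ⟨b.normed volume, ?_, b.nonneg_normed, ?_, b.integral_normed⟩
  · have h := b.contDiff_normed (μ := volume) (n := 3)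
    exact_mod_cast h
  · intro x hx
    have h1 : x ∈ Function.support (b.normed volume) := hx
    rw [b.support_normed_eq, Metric.mem_ball, Real.dist_eq, abs_lt] at h1
    have h2 : b.rOut = 1 / 2 := rfl
    rw [h2] at h1
    constructor <;> linarith [h1.1, h1.2]

theorem Comb_cont (hf : Bump f) : Continuous f := hf.smooth.continuous

theorem Comb_dens (hf : Bump f) (y y' : ℝ) :
    Measurable (fun z : ℝ × ℝ => ENNReal.ofReal (f (z.1 - y) * f (y' - z.2))) := by
  have h := Comb_cont hf
  have h1 : Continuous (fun z : ℝ × ℝ => f (z.1 - y) * f (y' - z.2)) := by fun_prop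
  exact h1.measurable.ennreal_ofReal

theorem Comb_lint (hf : Bump f) : ∫⁻ x, ENNReal.ofReal (f x) = 1 := by
  rw [← ofReal_integral_eq_lintegral_ofReal (integrable_of_integral_eq_one hf.int)
    (Eventually.of_forall hf.nonneg), hf.int, ENNReal.ofReal_one]

theorem isProb_dm (hf : Bump f) (y y' : ℝ) : IsProbabilityMeasure (dm f y y') := by
  constructor
  have hm := (Comb_cont hf).measurable.ennreal_ofReal
  unfold dm
  rw [withDensity_apply _ MeasurableSet.univ, Measure.restrict_univ]
  have e : ∀ z : ℝ × ℝ, ENNReal.ofReal (f (z.1 - y) * f (y' - z.2)) =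
      ENNReal.ofReal (f (z.1 - y)) * ENNReal.ofReal (f (y' - z.2)) := fun z =>
    ENNReal.ofReal_mul (hf.nonneg _)
  simp_rw [e]
  rw [Measure.volume_eq_prod]
  rw [lintegral_prod_mul (f := fun a => ENNReal.ofReal (f (a - y)))
    (g := fun l => ENNReal.ofReal (f (y' - l)))
    (hm.comp (measurable_id.sub_const y)).aemeasurable
    (hm.comp (measurable_const.sub measurable_id)).aemeasurable]
  have h1 : ∫⁻ a, ENNReal.ofReal (f (a - y)) = 1 := by
    rw [lintegral_sub_right_eq_self (fun a => ENNReal.ofReal (f a)) y]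
    exact Comb_lint hf
  have h2 : ∫⁻ l, ENNReal.ofReal (f (y' - l)) = 1 := by
    rw [lintegral_sub_left_eq_self (fun a => ENNReal.ofReal (f a)) y']
    exact Comb_lint hf
  rw [h1, h2, one_mul]

theorem Comb_supp (hf : Bump f) (y y' : ℝ) : ∀ᵐ z ∂(dm f y y'),
    y - 1 ≤ z.1 ∧ z.1 ≤ y ∧ y' ≤ z.2 ∧ z.2 ≤ y' + 1 := by
  unfold dm
  rw [ae_withDensity_iff (Comb_dens hf y y')]
  refine Eventually.of_forall fun z hz => ?_
  have h1 : f (z.1 - y) * f (y' - z.2) ≠ 0 := by
    intro h
    rw [h, ENNReal.ofReal_zero] at hz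
    exact hz rfl
  obtain ⟨a1, a2⟩ := hf.supp _ (left_ne_zero_of_mul h1)
  obtain ⟨a3, a4⟩ := hf.supp _ (right_ne_zero_of_mul h1)
  refine ⟨by linarith, by linarith, by linarith, by linarith⟩

theorem Comb_lo (D : Finset (Fin n)) (v : Fin n → ℝ) (y : ℝ) {i : Fin n} (hi : i ∈ D) :
    v i ≤ lo D v y := by
  unfold lo
  rw [dif_pos ⟨i, hi⟩]
  exact Finset.le_sup' v hi

theorem Comb_hi (D : Finset (Fin n)) (v : Fin n → ℝ) (y' : ℝ) {i : Fin n} (hi' : i ∉ D) :
    hi D v y' ≤ v i := by
  classical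
  unfold hi
  have h : i ∈ Finset.univ \ D := Finset.mem_sdiff.mpr ⟨Finset.mem_univ i, hi'⟩
  rw [dif_pos ⟨i, by convert h⟩]
  exact Finset.inf'_le v (by convert h)

theorem Comb_lo_lt (D : Finset (Fin n)) (v : Fin n → ℝ) (y x : ℝ) (h : ∀ i ∈ D, v i < x)
    (hy : y - 2 < x) : lo D v y < x := by
  unfold lo
  split_ifs with hD
  · rw [Finset.sup'_lt_iff]
    exact h
  · exact hy

theorem Comb_lt_hi (D : Finset (Fin n)) (v : Fin n → ℝ) (y' x : ℝ) (h : ∀ i ∉ D, x < v i)
    (hy : x < y' + 2) : x < hi D v y' := by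
  unfold hi
  split_ifs with hD
  · rw [Finset.lt_inf'_iff]
    intro i hi'
    exact h i (Finset.mem_sdiff.mp hi').2
  · exact hy

theorem UU_hit (hf : Bump f) {y y' : ℝ} (hy : y < y') {v : Fin n → ℝ}
    (h : ∃ i, y ≤ v i ∧ v i ≤ y') : UU f y y' v = 1 := by
  have := isProb_dm hf y y'
  unfold UU
  obtain ⟨i, h1, h2⟩ := h
  have he : {z : ℝ × ℝ | z.1 < z.2 ∧ ∃ i, z.1 ≤ v i ∧ v i ≤ z.2} =ᵐ[dm f y y'] Set.univ := by
    rw [eventuallyEq_set]
    filter_upwards [Comb_supp hf y y'] with z hz
    refine iff_of_true ⟨by linarith [hz.2.1, hz.2.2.1], i, by linarith [hz.2.1],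
      by linarith [hz.2.2.1]⟩ (Set.mem_univ z)
  rw [measureReal_congr he]
  exact probReal_univ

theorem UU_eq (hf : Bump f) (y y' : ℝ) (v : Fin n → ℝ) :
    UU f y y' v = cc f y y' - ∑ D : Finset (Fin n), FF f y y' (lo D v y) (hi D v y') := by
  have := isProb_dm hf y y'
  set S : Set (ℝ × ℝ) := {z | z.1 < z.2} with hS
  set H : Set (ℝ × ℝ) := {z | z.1 < z.2 ∧ ∃ i, z.1 ≤ v i ∧ v i ≤ z.2} with hH
  set E : Finset (Fin n) → Set (ℝ × ℝ) := fun D =>
    {z | lo D v y < z.1 ∧ z.1 < z.2 ∧ z.2 < hi D v y'} with hE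
  have hmlt : MeasurableSet {z : ℝ × ℝ | z.1 < z.2} := measurableSet_lt measurable_fst measurable_snd
  have hmH : MeasurableSet H := by
    have e : H = {z : ℝ × ℝ | z.1 < z.2} ∩ ⋃ i, ({z : ℝ × ℝ | z.1 ≤ v i} ∩ {z : ℝ × ℝ | v i ≤ z.2}) := by
      ext z
      simp [hH]
    rw [e]
    exact hmlt.inter (MeasurableSet.iUnion fun i =>
      (measurableSet_le measurable_fst measurable_const).inter
        (measurableSet_le measurable_const measurable_snd))
  have hmE : ∀ D, MeasurableSet (E D) := by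
    intro D
    exact (measurableSet_lt measurable_const measurable_fst).inter
      (hmlt.inter (measurableSet_lt measurable_snd measurable_const))
  have hED : ∀ D z, z ∈ E D → ∀ i, i ∈ D ↔ v i < z.1 := by
    intro D z hz i
    constructor
    · intro hi'
      exact lt_of_le_of_lt (Comb_lo D v y hi') hz.1
    · intro hi'
      by_contra hc
      have := Comb_hi D v y' hc
      linarith [hz.2.1, hz.2.2]
  have hdisj : Pairwise (Function.onFun Disjoint E) := by
    intro D D' hne
    show Disjoint (E D) (E D')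
    rw [Set.disjoint_left]
    intro z hz hz'
    apply hne
    ext i
    rw [hED D z hz i, hED D' z hz' i]
  have hdH : Disjoint H (⋃ D, E D) := by
    rw [Set.disjoint_left]
    rintro z ⟨h1, i, h2, h3⟩ hz
    obtain ⟨D, hD⟩ := Set.mem_iUnion.mp hz
    by_cases hi' : i ∈ D
    · have := Comb_lo D v y hi'
      linarith [hD.1]
    · have := Comb_hi D v y' hi'
      linarith [hD.2.2]
  have hcov : S =ᵐ[dm f y y'] (H ∪ ⋃ D, E D : Set (ℝ × ℝ)) := by
    rw [eventuallyEq_set]
    filter_upwards [Comb_supp hf y y'] with z hz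
    constructor
    · intro hzS
      by_cases hzH : z ∈ H
      · exact Or.inl hzH
      · right
        classical
        refine Set.mem_iUnion.mpr ⟨Finset.univ.filter (fun i => v i < z.1), ?_, hzS, ?_⟩
        · apply Comb_lo_lt
          · intro i hi'
            exact (Finset.mem_filter.mp hi').2
          · linarith [hz.1]
        · apply Comb_lt_hi
          · intro i hi'
            rw [Finset.mem_filter, not_and, not_lt] at hi'
            have h1 := hi' (Finset.mem_univ i)
            by_contra hc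
            push Not at hc
            exact hzH ⟨hzS, i, h1, hc⟩
          · linarith [hz.2.2.2]
    · rintro (hz1 | hz1)
      · exact hz1.1
      · obtain ⟨D, hD⟩ := Set.mem_iUnion.mp hz1
        exact hD.2.1
  have h1 : cc f y y' = (dm f y y').real H + ∑ D, (dm f y y').real (E D) := by
    unfold cc
    rw [measureReal_congr hcov, measureReal_union hdH (MeasurableSet.iUnion hmE),
      measureReal_iUnion_fintype hdisj hmE]
  have h2 : UU f y y' v = (dm f y y').real H := rfl
  have h3 : ∀ D, FF f y y' (lo D v y) (hi D v y') = (dm f y y').real (E D) := fun D => rfl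
  rw [h2, h1]
  simp_rw [h3]
  ring

/-- the measure `dm` is a translate of `dm f 0 0` -/
theorem Comb_shift (hf : Bump f) (y y' : ℝ) {S : Set (ℝ × ℝ)} (hS : MeasurableSet S) :
    dm f y y' S = dm f 0 0 {z | (z.1 + y, z.2 + y') ∈ S} := by
  have hmp : MeasurePreserving (fun z : ℝ × ℝ => z + (y, y')) volume volume :=
    measurePreserving_add_right volume (y, y')
  have hpre : {z : ℝ × ℝ | (z.1 + y, z.2 + y') ∈ S} = (fun z : ℝ × ℝ => z + (y, y')) ⁻¹' S := by
    ext z
    rfl
  unfold dm
  rw [hpre, withDensity_apply _ hS, withDensity_apply _ (hmp.measurable hS),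
    ← hmp.setLIntegral_comp_preimage hS (Comb_dens hf y y')]
  refine lintegral_congr fun z => ?_
  simp only [Prod.fst_add, Prod.snd_add]
  congr 3 <;> ring

theorem Comb_param {A : Type*} [MeasurableSpace A] (hf : Bump f) {T : Set (A × (ℝ × ℝ))}
    (hT : MeasurableSet T) : Measurable (fun a => (dm f 0 0).real {z | (a, z) ∈ T}) := by
  have := isProb_dm hf 0 0
  exact (measurable_measure_prodMk_left hT).ennreal_toReal

theorem measurable_UU (hf : Bump f) :
    Measurable (fun z : (ℝ × ℝ) × (Fin n → ℝ) => UU f z.1.1 z.1.2 z.2) := by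
  set T : Set (((ℝ × ℝ) × (Fin n → ℝ)) × (ℝ × ℝ)) :=
    {q | q.2.1 + q.1.1.1 < q.2.2 + q.1.1.2} ∩
      ⋃ i, ({q | q.2.1 + q.1.1.1 ≤ q.1.2 i} ∩ {q | q.1.2 i ≤ q.2.2 + q.1.1.2}) with hT
  have hTm : MeasurableSet T := by
    refine (measurableSet_lt (by fun_prop) (by fun_prop)).inter (MeasurableSet.iUnion fun i => ?_)
    exact (measurableSet_le (by fun_prop) (by fun_prop)).inter
      (measurableSet_le (by fun_prop) (by fun_prop))
  have h := Comb_param hf hTm
  have e : (fun z : (ℝ × ℝ) × (Fin n → ℝ) => UU f z.1.1 z.1.2 z.2) =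
      fun a => (dm f 0 0).real {z | (a, z) ∈ T} := by
    funext a
    unfold UU
    have hm : MeasurableSet {z : ℝ × ℝ | z.1 < z.2 ∧ ∃ i, z.1 ≤ a.2 i ∧ a.2 i ≤ z.2} := by
      have e : {z : ℝ × ℝ | z.1 < z.2 ∧ ∃ i, z.1 ≤ a.2 i ∧ a.2 i ≤ z.2} =
          {z : ℝ × ℝ | z.1 < z.2} ∩ ⋃ i, ({z : ℝ × ℝ | z.1 ≤ a.2 i} ∩ {z : ℝ × ℝ | a.2 i ≤ z.2}) := by
        ext z
        simp
      rw [e]
      exact (measurableSet_lt measurable_fst measurable_snd).inter (MeasurableSet.iUnion fun i =>
        (measurableSet_le measurable_fst measurable_const).inter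
          (measurableSet_le measurable_const measurable_snd))
    rw [measureReal_def, Comb_shift hf _ _ hm, measureReal_def]
    congr 2
    ext z
    simp [hT]
  rw [e]
  exact h

theorem measurable_FF (hf : Bump f) :
    Measurable (fun z : (ℝ × ℝ) × (ℝ × ℝ) => FF f z.1.1 z.1.2 z.2.1 z.2.2) := by
  set T : Set (((ℝ × ℝ) × (ℝ × ℝ)) × (ℝ × ℝ)) :=
    {q | q.1.2.1 < q.2.1 + q.1.1.1} ∩ ({q | q.2.1 + q.1.1.1 < q.2.2 + q.1.1.2} ∩
      {q | q.2.2 + q.1.1.2 < q.1.2.2}) with hT
  have hTm : MeasurableSet T :=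
    (measurableSet_lt (by fun_prop) (by fun_prop)).inter
      ((measurableSet_lt (by fun_prop) (by fun_prop)).inter
        (measurableSet_lt (by fun_prop) (by fun_prop)))
  have h := Comb_param hf hTm
  have e : (fun z : (ℝ × ℝ) × (ℝ × ℝ) => FF f z.1.1 z.1.2 z.2.1 z.2.2) =
      fun a => (dm f 0 0).real {z | (a, z) ∈ T} := by
    funext a
    unfold FF
    have hm : MeasurableSet {z : ℝ × ℝ | a.2.1 < z.1 ∧ z.1 < z.2 ∧ z.2 < a.2.2} :=
      (measurableSet_lt measurable_const measurable_fst).inter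
        ((measurableSet_lt measurable_fst measurable_snd).inter
          (measurableSet_lt measurable_snd measurable_const))
    rw [measureReal_def, Comb_shift hf _ _ hm, measureReal_def]
    rfl
  rw [e]
  exact h

theorem measurable_cc (hf : Bump f) : Measurable (fun z : ℝ × ℝ => cc f z.1 z.2) := by
  set T : Set ((ℝ × ℝ) × (ℝ × ℝ)) := {q | q.2.1 + q.1.1 < q.2.2 + q.1.2} with hT
  have hTm : MeasurableSet T := measurableSet_lt (by fun_prop) (by fun_prop)
  have h := Comb_param hf hTm
  have e : (fun z : ℝ × ℝ => cc f z.1 z.2) = fun a => (dm f 0 0).real {z | (a, z) ∈ T} := by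
    funext a
    unfold cc
    rw [measureReal_def, Comb_shift hf _ _ (measurableSet_lt measurable_fst measurable_snd),
      measureReal_def]
    rfl
  rw [e]
  exact h

theorem measurable_lo (D : Finset (Fin n)) (y : ℝ) :
    Measurable (fun v : Fin n → ℝ => lo D v y) := by
  unfold lo
  split_ifs with h
  · refine measurable_of_Iic fun x => ?_
    have e : (fun v : Fin n → ℝ => D.sup' h v) ⁻¹' Set.Iic x = ⋂ i ∈ D, {v : Fin n → ℝ | v i ≤ x} := by
      ext v
      simp
    rw [e]
    exact Finset.measurableSet_biInter D fun i _ =>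
      measurableSet_le (measurable_pi_apply i) measurable_const
  · exact measurable_const

theorem measurable_hi (D : Finset (Fin n)) (y' : ℝ) :
    Measurable (fun v : Fin n → ℝ => hi D v y') := by
  unfold hi
  split_ifs with h
  · refine measurable_of_Ici fun x => ?_
    have e : (fun v : Fin n → ℝ => (Finset.univ \ D).inf' h v) ⁻¹' Set.Ici x =
        ⋂ i ∈ (Finset.univ \ D), {v : Fin n → ℝ | x ≤ v i} := by
      ext v
      simp [Finset.le_inf'_iff]
    rw [e]
    exact Finset.measurableSet_biInter _ fun i _ =>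
      measurableSet_le measurable_const (measurable_pi_apply i)
  · exact measurable_const

theorem measurable_scut (D : Finset (Fin n)) : MeasurableSet {v : Fin n → ℝ | scut v D} := by
  unfold scut
  simp only [Set.ofPred_forall]
  exact MeasurableSet.iInter fun i => MeasurableSet.iInter fun _ => MeasurableSet.iInter fun j =>
    MeasurableSet.iInter fun _ => measurableSet_lt (measurable_pi_apply i) (measurable_pi_apply j)

theorem measurable_rr (η : ℝ) : Measurable (fun v : Fin n → ℝ => rr η v) := by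
  classical
  unfold rr
  refine Finset.measurable_sum _ fun D _ => ?_
  refine Measurable.ite ?_ measurable_const measurable_const
  have h1 : MeasurableSet {v : Fin n → ℝ | hi D v 0 - lo D v 0 < η} :=
    measurableSet_lt ((measurable_hi D 0).sub (measurable_lo D 0)) measurable_const
  exact (MeasurableSet.const _).inter ((MeasurableSet.const _).inter ((measurable_scut D).inter h1))

theorem rr_bounds (η : ℝ) (v : Fin n → ℝ) : 0 ≤ rr η v ∧ rr η v ≤ 2 ^ n := by
  unfold rr
  constructor
  · refine Finset.sum_nonneg fun D _ => ?_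
    split_ifs
    · exact zero_le_one
    · exact le_rfl
  · refine (Finset.sum_le_sum (g := fun _ => (1 : ℝ)) fun D _ => ?_).trans (le_of_eq ?_)
    · split_ifs
      · exact le_rfl
      · exact zero_le_one
    · simp

theorem rr_zero (v : Fin n → ℝ) : ∃ η₀ > 0, ∀ η ≤ η₀, rr η v = 0 := by
  have hone : ∀ D : Finset (Fin n), ∃ η₀ : ℝ, 0 < η₀ ∧ ∀ η ≤ η₀,
      ¬ (D.Nonempty ∧ (Finset.univ \ D).Nonempty ∧ scut v D ∧ hi D v 0 - lo D v 0 < η) := by
    intro D
    by_cases h : D.Nonempty ∧ (Finset.univ \ D).Nonempty ∧ scut v D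
    · obtain ⟨h1, h2, h3⟩ := h
      have h4 : lo D v 0 < hi D v 0 := by
        unfold lo hi
        rw [dif_pos h1]
        split_ifs
        rw [Finset.sup'_lt_iff]
        intro i hi'
        rw [Finset.lt_inf'_iff]
        intro j hj
        exact h3 i hi' j (Finset.mem_sdiff.mp hj).2
      refine ⟨hi D v 0 - lo D v 0, by linarith, fun η hη hc => ?_⟩
      linarith [hc.2.2.2]
    · refine ⟨1, one_pos, fun η _ hc => h ⟨hc.1, hc.2.1, hc.2.2.1⟩⟩
  choose g hg1 hg2 using hone
  refine ⟨Finset.univ.inf' Finset.univ_nonempty g, ?_, fun η hη => ?_⟩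
  · rw [gt_iff_lt, Finset.lt_inf'_iff]
    intro D _
    exact hg1 D
  · unfold rr
    refine Finset.sum_eq_zero fun D _ => ?_
    have h1 : η ≤ g D := hη.trans (Finset.inf'_le g (Finset.mem_univ D))
    have h2 := hg2 D η h1
    rw [if_neg]
    convert h2

end Pool.Agent.TH996.HW
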