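import Pool.Agent.TH996.HW.Dual

/-!
# Drift of the maximum (job 3947, written by helper634)
-/

set_option autoImplicit false

open MeasureTheory ProbabilityTheory Filter
open scoped NNReal ENNReal Topology

namespace Pool.Agent.TH996.HW

namespace MaxDriftAux

variable {ν : Measure ℝ}

theorem ae_Ioo (hν : GoodNu ν) : ∀ᵐ q ∂ν, 0 < q ∧ q < 1 := by
  have h1 : ∀ᵐ q ∂ν, (ENNReal.ofReal (q * (1 - q)))⁻¹ < ⊤ :=
    ae_lt_top (by fun_prop) hν.int.ne
  filter_upwards [h1] with q hq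
  have h2 : ENNReal.ofReal (q * (1 - q)) ≠ 0 := by
    intro h0
    rw [h0, ENNReal.inv_zero] at hq
    exact lt_irrefl _ hq
  have h3 : 0 < q * (1 - q) := by
    rw [Ne, ENNReal.ofReal_eq_zero, not_le] at h2
    exact h2
  constructor
  · by_contra h
    have h4 : q ≤ 0 := not_lt.1 h
    nlinarith
  · by_contra h
    have h4 : 1 ≤ q := not_lt.1 h
    nlinarith

theorem integrable_inv (hν : GoodNu ν) : Integrable (fun q : ℝ => 1 / q) ν := by
  have hae := ae_Ioo hν
  refine ⟨by fun_prop, ?_⟩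
  refine lt_of_le_of_lt ?_ hν.int
  refine lintegral_mono_ae ?_
  filter_upwards [hae] with q hq
  obtain ⟨h0, h1⟩ := hq
  have h2 : 0 < q * (1 - q) := mul_pos h0 (sub_pos.2 h1)
  rw [← ENNReal.ofReal_inv_of_pos h2, Real.enorm_eq_ofReal (by positivity)]
  refine ENNReal.ofReal_le_ofReal ?_
  rw [one_div]
  refine inv_anti₀ h2 ?_
  nlinarith

theorem sum_bounds {q : ℝ} (h0 : 0 < q) (h1 : q < 1) (m : ℕ) :
    0 ≤ ∑ k ∈ Finset.range m, (1 - q) ^ k ∧ ∑ k ∈ Finset.range m, (1 - q) ^ k ≤ 1 / q := by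
  have h2 : 0 ≤ 1 - q := by linarith
  refine ⟨Finset.sum_nonneg (fun k _ => pow_nonneg h2 k), ?_⟩
  rw [le_div_iff₀ h0]
  have h3 := geom_sum_mul_neg (1 - q) m
  have h4 : (1 : ℝ) - (1 - q) = q := by ring
  rw [h4] at h3
  rw [h3]
  have := pow_nonneg h2 m
  linarith

theorem bounds (hν : GoodNu ν) (β : ℝ) (m : ℕ) :
    β ≤ betaPlus β ν m ∧ betaPlus β ν m ≤ bp β ν := by
  have hae := ae_Ioo hν
  have hi := integrable_inv hν
  unfold betaPlus bp
  constructor
  · have h1 : 0 ≤ ∫ q, ∑ k ∈ Finset.range (m - 1), (1 - q) ^ k ∂ν := by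
      refine integral_nonneg_of_ae ?_
      filter_upwards [hae] with q hq
      exact (sum_bounds hq.1 hq.2 _).1
    linarith
  · have h1 : ∫ q, ∑ k ∈ Finset.range (m - 1), (1 - q) ^ k ∂ν ≤ ∫ q, 1 / q ∂ν := by
      refine integral_mono_ae ?_ hi ?_
      · refine hi.mono' (by fun_prop) ?_
        filter_upwards [hae] with q hq
        obtain ⟨h2, h3⟩ := sum_bounds hq.1 hq.2 (m - 1)
        rw [Real.norm_of_nonneg h2]
        exact h3
      · filter_upwards [hae] with q hq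
        exact (sum_bounds hq.1 hq.2 _).2
    linarith

theorem continuous_sup {n : ℕ} {D : Finset (Fin n)} (hD : D.Nonempty) :
    Continuous (fun v : Fin n → ℝ => D.sup' hD v) :=
  Continuous.finset_sup'_apply hD (fun i _ => continuous_apply i)

theorem measurable_gmax {n : ℕ} {D : Finset (Fin n)} (hD : D.Nonempty) {Z : ℝ → Fin n → ℝ}
    (hZ : Continuous Z) : Measurable (fun s => gmax D hD (Z s)) := by
  have h1 : (fun s => gmax D hD (Z s)) =
      fun s => ∑ i ∈ D, if Z s i = fmax D hD (Z s) then 1 else 0 := by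
    funext s
    unfold gmax
    rw [Finset.card_filter]
  rw [h1]
  refine Finset.measurable_sum _ (fun i _ => ?_)
  refine Measurable.ite ?_ measurable_const measurable_const
  exact (isClosed_eq ((continuous_apply i).comp hZ) ((continuous_sup hD).comp hZ)).measurableSet

/-- a bounded function of the past is orthogonal to the increments of a martingale -/
theorem mart_test {Ω : Type} [m0 : MeasurableSpace Ω] {P : Measure Ω} [IsProbabilityMeasure P]
    {F : Filtration ℝ≥0 m0} {M : ℝ≥0 → Ω → ℝ} (hM : Martingale M F P) {t t' : ℝ≥0} (htt : t ≤ t')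
    {Y : Ω → ℝ} (hY : StronglyMeasurable[F t] Y) {C : ℝ} (hC : ∀ ω, |Y ω| ≤ C) :
    ∫ ω, Y ω * M t' ω ∂P = ∫ ω, Y ω * M t ω ∂P := by
  have h1 := condExp_stronglyMeasurable_mul_of_bound (F.le t) hY (hM.integrable t') C
    (Eventually.of_forall hC)
  have h2 := hM.condExp_ae_eq htt
  have h3 : ∫ ω, Y ω * M t' ω ∂P = ∫ ω, (P[Y * M t' | F t]) ω ∂P :=
    (integral_condExp (f := Y * M t') (F.le t)).symm
  rw [h3]
  refine integral_congr_ae ?_
  filter_upwards [h1, h2] with ω e1 e2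
  rw [e1, Pi.mul_apply, e2]

end MaxDriftAux

open MaxDriftAux

variable {n : ℕ} {f : ℝ → ℝ}
variable {β : ℝ} {ν : Measure ℝ} {x : Fin n → ℝ} {Ω : Type} [MeasurableSpace Ω]
  {P : Measure Ω} [IsProbabilityMeasure P] {X : ℝ≥0 → Ω → (Fin n → ℝ)}

theorem max_drift (hν : GoodNu ν) (hX : IsHWMotion β ν x P X) {D : Finset (Fin n)}
    (hD : D.Nonempty) {t t' : ℝ≥0} (htt : t ≤ t') {Y : Ω → ℝ}
    (hY : StronglyMeasurable[Filtration.natural X hX.meas t] Y) (h0 : ∀ ω, 0 ≤ Y ω) {C : ℝ}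
    (hC : ∀ ω, Y ω ≤ C) :
    ∫ ω, Y ω * (D.sup' hD (X t' ω) - D.sup' hD (X t ω)) ∂P ≤
      bp β ν * ((t' : ℝ) - t) * ∫ ω, Y ω ∂P := by
  have hCY : ∀ ω, |Y ω| ≤ C := fun ω => by rw [abs_of_nonneg (h0 ω)]; exact hC ω
  have hYm : AEStronglyMeasurable Y P :=
    (hY.mono ((Filtration.natural X hX.meas).le t)).aestronglyMeasurable
  have hYb : ∀ᵐ ω ∂P, ‖Y ω‖ ≤ C := Eventually.of_forall hCY
  have hM := hX.maxMart D hD
  obtain ⟨M, hMdef⟩ : ∃ M : ℝ≥0 → Ω → ℝ, M = fun (t : ℝ≥0) ω => fmax D hD (X t ω) -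
      ∫ s in (0 : ℝ)..t, betaPlus β ν (gmax D hD (X s.toNNReal ω)) := ⟨_, rfl⟩
  rw [← hMdef] at hM
  have hMt : ∀ (r : ℝ≥0) ω, M r ω = fmax D hD (X r ω) -
      ∫ s in (0 : ℝ)..r, betaPlus β ν (gmax D hD (X s.toNNReal ω)) := fun r ω => by rw [hMdef]
  -- integrability of the maximum
  have hsup : ∀ r, Integrable (fun ω => D.sup' hD (X r ω)) P := by
    intro r
    have h1 : Integrable (fun ω => ∑ i, |X r ω i|) P :=
      integrable_finsetSum _ (fun i _ => ((hX.sq r i).integrable (by norm_num)).abs)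
    refine h1.mono' ((continuous_sup hD).comp_stronglyMeasurable (hX.meas r)).aestronglyMeasurable ?_
    refine Eventually.of_forall (fun ω => ?_)
    obtain ⟨i, hi, he⟩ := Finset.exists_mem_eq_sup' hD (X r ω)
    rw [he, Real.norm_eq_abs]
    exact Finset.single_le_sum (f := fun i => |X r ω i|) (fun _ _ => abs_nonneg _)
      (Finset.mem_univ i)
  -- the pointwise bound
  have hpt : ∀ ω, D.sup' hD (X t' ω) - D.sup' hD (X t ω) ≤
      M t' ω - M t ω + bp β ν * ((t' : ℝ) - t) := by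
    intro ω
    have hmeas : Measurable (fun s : ℝ => betaPlus β ν (gmax D hD (X s.toNNReal ω))) :=
      (measurable_from_nat (f := betaPlus β ν)).comp
        (measurable_gmax hD ((hX.cont ω).comp continuous_real_toNNReal))
    have hint : ∀ a b : ℝ, IntervalIntegrable
        (fun s : ℝ => betaPlus β ν (gmax D hD (X s.toNNReal ω))) volume a b := by
      intro a b
      refine (intervalIntegrable_const (c := max |β| |bp β ν|)).mono_fun'
        hmeas.aestronglyMeasurable ?_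
      refine Eventually.of_forall (fun s => ?_)
      obtain ⟨h2, h3⟩ := bounds hν β (gmax D hD (X s.toNNReal ω))
      exact abs_le_max_abs_abs h2 h3
    have h4 := intervalIntegral.integral_interval_sub_left (hint 0 t') (hint 0 t)
    have h5 : ∫ s in (t : ℝ)..t', betaPlus β ν (gmax D hD (X s.toNNReal ω)) ≤
        bp β ν * ((t' : ℝ) - t) := by
      have h6 := intervalIntegral.integral_mono (μ := volume) (NNReal.coe_le_coe.2 htt)
        (hint t t') (intervalIntegrable_const (c := bp β ν)) (fun s =>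
          (bounds hν β (gmax D hD (X s.toNNReal ω))).2)
      rw [intervalIntegral.integral_const, smul_eq_mul, mul_comm] at h6
      exact h6
    have h7 : fmax D hD (X t' ω) = D.sup' hD (X t' ω) := rfl
    have h8 : fmax D hD (X t ω) = D.sup' hD (X t ω) := rfl
    rw [hMt, hMt, h7, h8]
    linarith
  have hi1 : Integrable (fun ω => Y ω * (D.sup' hD (X t' ω) - D.sup' hD (X t ω))) P :=
    ((hsup t').sub (hsup t)).bdd_mul hYm hYb
  have hi2 : Integrable (fun ω => Y ω * M t' ω) P := (hM.integrable t').bdd_mul hYm hYb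
  have hi3 : Integrable (fun ω => Y ω * M t ω) P := (hM.integrable t).bdd_mul hYm hYb
  have hi4 : Integrable (fun ω => Y ω * (bp β ν * ((t' : ℝ) - t))) P :=
    (integrable_const _).bdd_mul hYm hYb
  calc ∫ ω, Y ω * (D.sup' hD (X t' ω) - D.sup' hD (X t ω)) ∂P ≤
      ∫ ω, (Y ω * M t' ω - Y ω * M t ω + Y ω * (bp β ν * ((t' : ℝ) - t))) ∂P := by
        refine integral_mono hi1 ((hi2.sub hi3).add hi4) (fun ω => ?_)
        have := mul_le_mul_of_nonneg_left (hpt ω) (h0 ω)
        refine this.trans (le_of_eq ?_)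
        ring
    _ = (∫ ω, Y ω * M t' ω ∂P - ∫ ω, Y ω * M t ω ∂P) +
        ∫ ω, Y ω * (bp β ν * ((t' : ℝ) - t)) ∂P := by
        have e1 : ∫ ω, (Y ω * M t' ω - Y ω * M t ω + Y ω * (bp β ν * ((t' : ℝ) - t))) ∂P =
            ∫ ω, (Y ω * M t' ω - Y ω * M t ω) ∂P + ∫ ω, Y ω * (bp β ν * ((t' : ℝ) - t)) ∂P :=
          integral_add (hi2.sub hi3) hi4
        have e2 : ∫ ω, (Y ω * M t' ω - Y ω * M t ω) ∂P =
            ∫ ω, Y ω * M t' ω ∂P - ∫ ω, Y ω * M t ω ∂P := integral_sub hi2 hi3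
        rw [e1, e2]
    _ = bp β ν * ((t' : ℝ) - t) * ∫ ω, Y ω ∂P := by
        rw [mart_test hM htt hY hCY, sub_self, zero_add, integral_mul_const]
        ring

end Pool.Agent.TH996.HW
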