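import Pool.Agent.TH996.HW.Dual
import Pool.Agent.TH996.HW.Beta

/-!
# The drift of the minimum of a set of particles (MP_b213bc_pr)
-/

open MeasureTheory ProbabilityTheory Filter
open scoped NNReal ENNReal Topology
namespace Pool.Agent.TH996.HW
variable {n : ℕ}

/-- value of a function of the level and the size of the top cluster of `Γ` -/
noncomputable def MinDrift.T (h : ℝ → ℕ → ℝ) (Γ : Finset (Fin n)) (u : Fin n → ℝ) : ℝ :=
  if hΓ : Γ.Nonempty then h (fmax Γ hΓ u) (gmax Γ hΓ u) else 0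

theorem MinDrift.T_insert (h : ℝ → ℕ → ℝ) (Γ : Finset (Fin n)) (u : Fin n → ℝ) (i k : Fin n)
    (hk : k ∈ Γ) (hik : u i < u k) :
    MinDrift.T h (insert i Γ) u = MinDrift.T h Γ u := by
  have hΓ : Γ.Nonempty := ⟨k, hk⟩
  have hΓ' : (insert i Γ).Nonempty := Finset.insert_nonempty i Γ
  unfold MinDrift.T
  rw [dif_pos hΓ, dif_pos hΓ']
  have hku : u k ≤ Γ.sup' hΓ u := Finset.le_sup' u hk
  have h1 : fmax (insert i Γ) hΓ' u = fmax Γ hΓ u := by
    unfold fmax
    rw [Finset.sup'_insert (H := hΓ)]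
    exact sup_eq_right.2 (hik.le.trans hku)
  have h2 : gmax (insert i Γ) hΓ' u = gmax Γ hΓ u := by
    unfold gmax
    rw [h1, Finset.filter_insert, if_neg]
    intro h3
    have h4 : u i = Γ.sup' hΓ u := h3
    linarith
  rw [h1, h2]

theorem MinDrift.incl (h : ℝ → ℕ → ℝ) (D : Finset (Fin n)) (hD : D.Nonempty) (u : Fin n → ℝ) :
    ∑ Γ ∈ D.powerset, (-1 : ℝ) ^ (Γ.card + 1) * MinDrift.T h Γ u =
      ∑ j ∈ Finset.range (D.filter (fun i => u i = D.inf' hD u)).card,
        (-1 : ℝ) ^ j * ((D.filter (fun i => u i = D.inf' hD u)).card.choose (j + 1)) *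
          h (D.inf' hD u) (j + 1) := by
  classical
  set m : ℝ := D.inf' hD u with hm
  set C : Finset (Fin n) := D.filter (fun i => u i = m) with hC
  obtain ⟨i0, hi0D, hi0⟩ := Finset.exists_mem_eq_inf' hD u
  have hi0m : u i0 = m := hi0.symm
  have hCD : C ⊆ D := Finset.filter_subset _ _
  rw [← Finset.sum_filter_add_sum_filter_not D.powerset (fun Γ => Γ ⊆ C)]
  have hrest : ∑ Γ ∈ D.powerset.filter (fun Γ => ¬ Γ ⊆ C),
      (-1 : ℝ) ^ (Γ.card + 1) * MinDrift.T h Γ u = 0 := by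
    have hex : ∀ Γ ∈ D.powerset.filter (fun Γ => ¬ Γ ⊆ C), ∃ k ∈ Γ, m < u k := by
      intro Γ hΓ
      rw [Finset.mem_filter, Finset.mem_powerset] at hΓ
      obtain ⟨k, hk, hkC⟩ := Finset.not_subset.1 hΓ.2
      refine ⟨k, hk, lt_of_le_of_ne (Finset.inf'_le u (hΓ.1 hk)) ?_⟩
      intro h1
      exact hkC (Finset.mem_filter.2 ⟨hΓ.1 hk, h1.symm⟩)
    refine Finset.sum_involution (fun Γ _ => if i0 ∈ Γ then Γ.erase i0 else insert i0 Γ)
      ?_ ?_ ?_ ?_
    · intro Γ hΓ
      obtain ⟨k, hk, hkm⟩ := hex Γ hΓ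
      by_cases hi : i0 ∈ Γ
      · rw [if_pos hi]
        have hki : k ≠ i0 := by
          rintro rfl
          linarith
        have h1 := MinDrift.T_insert h (Γ.erase i0) u i0 k 
          (Finset.mem_erase.2 ⟨hki, hk⟩) (by rw [hi0m]; exact hkm)
        rw [Finset.insert_erase hi] at h1
        rw [h1]
        have h2 : Γ.card = (Γ.erase i0).card + 1 := (Finset.card_erase_add_one hi).symm
        rw [h2, pow_succ _ ((Γ.erase i0).card + 1)]
        ring
      · rw [if_neg hi]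
        rw [MinDrift.T_insert h Γ u i0 k hk (by rw [hi0m]; exact hkm),
          Finset.card_insert_of_notMem hi, pow_succ _ (Γ.card + 1)]
        ring
    · intro Γ _ _
      by_cases hi : i0 ∈ Γ
      · rw [if_pos hi]
        intro h1
        rw [← h1] at hi
        exact Finset.notMem_erase _ _ hi
      · rw [if_neg hi]
        intro h1
        apply hi
        rw [← h1]
        exact Finset.mem_insert_self _ _
    · intro Γ hΓ
      obtain ⟨k, hk, hkm⟩ := hex Γ hΓ
      have hki : k ≠ i0 := by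
        rintro rfl
        linarith
      rw [Finset.mem_filter, Finset.mem_powerset] at hΓ
      have hkC : k ∉ C := by
        intro h1
        have := (Finset.mem_filter.1 h1).2
        linarith
      by_cases hi : i0 ∈ Γ
      · simp only [if_pos hi]
        rw [Finset.mem_filter, Finset.mem_powerset]
        exact ⟨(Finset.erase_subset _ _).trans hΓ.1, fun h1 =>
          hkC (h1 (Finset.mem_erase.2 ⟨hki, hk⟩))⟩
      · simp only [if_neg hi]
        rw [Finset.mem_filter, Finset.mem_powerset]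
        exact ⟨Finset.insert_subset hi0D hΓ.1, fun h1 => hkC (h1 (Finset.mem_insert_of_mem hk))⟩
    · intro Γ _
      by_cases hi : i0 ∈ Γ
      · simp only [if_pos hi, Finset.notMem_erase, if_false]
        exact Finset.insert_erase hi
      · simp only [if_neg hi, Finset.mem_insert_self, if_true]
        exact Finset.erase_insert hi
  rw [hrest, add_zero]
  have hfil : D.powerset.filter (fun Γ => Γ ⊆ C) = C.powerset := by
    ext Γ
    rw [Finset.mem_filter, Finset.mem_powerset, Finset.mem_powerset]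
    exact ⟨fun h1 => h1.2, fun h1 => ⟨h1.trans hCD, h1⟩⟩
  rw [hfil]
  have hval : ∀ Γ ∈ C.powerset, (-1 : ℝ) ^ (Γ.card + 1) * MinDrift.T h Γ u =
      (fun k : ℕ => if k = 0 then (0 : ℝ) else (-1 : ℝ) ^ (k + 1) * h m k) Γ.card := by
    intro Γ hΓ
    rw [Finset.mem_powerset] at hΓ
    unfold MinDrift.T
    by_cases hne : Γ.Nonempty
    · rw [dif_pos hne]
      have hc : Γ.card ≠ 0 := Finset.card_ne_zero.2 hne
      simp only [if_neg hc]
      have hu : ∀ i ∈ Γ, u i = m := fun i hi => (Finset.mem_filter.1 (hΓ hi)).2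
      have h1 : fmax Γ hne u = m := by
        unfold fmax
        apply le_antisymm
        · exact Finset.sup'_le hne u fun i hi => (hu i hi).le
        · obtain ⟨i, hi⟩ := hne
          rw [← hu i hi]
          exact Finset.le_sup' u hi
      have h2 : gmax Γ hne u = Γ.card := by
        unfold gmax
        rw [h1, Finset.filter_true_of_mem hu]
      rw [h1, h2]
    · rw [dif_neg hne, mul_zero]
      rw [Finset.not_nonempty_iff_eq_empty] at hne
      simp only [hne, Finset.card_empty, if_true]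
  rw [Finset.sum_congr rfl hval]
  refine (Finset.sum_powerset_apply_card (x := C) (fun k : ℕ =>
    if k = 0 then (0 : ℝ) else (-1 : ℝ) ^ (k + 1) * h m k)).trans ?_
  rw [Finset.sum_range_succ']
  simp only [if_true, smul_zero, add_zero, Nat.add_eq_zero_iff, one_ne_zero, and_false, if_false]
  refine Finset.sum_congr rfl fun j _ => ?_
  rw [nsmul_eq_mul, pow_succ, pow_succ]
  ring


theorem MinDrift.alt_one (g : ℕ) (hg : g ≠ 0) :
    ∑ j ∈ Finset.range g, (-1 : ℝ) ^ j * (g.choose (j + 1) : ℝ) = 1 := by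
  have h1 := Int.alternating_sum_range_choose_of_ne hg
  rw [Finset.sum_range_succ'] at h1
  simp only [pow_zero, Nat.choose_zero_right, Nat.cast_one, mul_one] at h1
  have h2 : ∑ j ∈ Finset.range g, (-1 : ℤ) ^ j * (g.choose (j + 1) : ℤ) = 1 := by
    have h3 : ∑ j ∈ Finset.range g, (-1 : ℤ) ^ (j + 1) * (g.choose (j + 1) : ℤ) =
        - ∑ j ∈ Finset.range g, (-1 : ℤ) ^ j * (g.choose (j + 1) : ℤ) := by
      rw [← Finset.sum_neg_distrib]
      refine Finset.sum_congr rfl fun j _ => ?_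
      rw [pow_succ]
      ring
    rw [h3] at h1
    linarith
  have h4 := congrArg (fun z : ℤ => (z : ℝ)) h2
  push_cast at h4
  exact h4

theorem MinDrift.card_pos (D : Finset (Fin n)) (hD : D.Nonempty) (u : Fin n → ℝ) :
    1 ≤ (D.filter (fun i => u i = D.inf' hD u)).card := by
  obtain ⟨i0, hi0D, hi0⟩ := Finset.exists_mem_eq_inf' hD u
  exact Finset.card_pos.2 ⟨i0, Finset.mem_filter.2 ⟨hi0D, hi0.symm⟩⟩

theorem MinDrift.min_eq (D : Finset (Fin n)) (hD : D.Nonempty) (u : Fin n → ℝ) :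
    ∑ Γ ∈ D.powerset, (-1 : ℝ) ^ (Γ.card + 1) * MinDrift.T (fun p _ => p) Γ u = D.inf' hD u := by
  rw [MinDrift.incl _ D hD u, ← Finset.sum_mul, MinDrift.alt_one _
    (Nat.one_le_iff_ne_zero.1 (MinDrift.card_pos D hD u)), one_mul]

theorem MinDrift.drift_ge {β : ℝ} {ν : Measure ℝ} (hν : GoodNu ν) (D : Finset (Fin n))
    (hD : D.Nonempty) (u : Fin n → ℝ) :
    bm β ν ≤ ∑ Γ ∈ D.powerset, (-1 : ℝ) ^ (Γ.card + 1) *
      MinDrift.T (fun _ k => betaPlus β ν k) Γ u := by
  rw [MinDrift.incl _ D hD u]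
  exact betaPlus_alt hν β _ (MinDrift.card_pos D hD u)

theorem MinDrift.meas_fmax (Γ : Finset (Fin n)) (hΓ : Γ.Nonempty) : Measurable (fmax Γ hΓ) := by
  have h : Continuous (fun u : Fin n → ℝ => Γ.sup' hΓ fun i => u i) :=
    Continuous.finset_sup'_apply hΓ fun i _ => continuous_apply i
  exact h.measurable

theorem MinDrift.meas_gmax (Γ : Finset (Fin n)) (hΓ : Γ.Nonempty) : Measurable (gmax Γ hΓ) := by
  have h : gmax Γ hΓ = fun u => ∑ i ∈ Γ, if u i = fmax Γ hΓ u then 1 else 0 := by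
    funext u
    unfold gmax
    rw [Finset.card_filter]
  rw [h]
  refine Finset.measurable_sum _ fun i _ => ?_
  refine Measurable.ite ?_ measurable_const measurable_const
  exact measurableSet_eq_fun (measurable_pi_apply i) (MinDrift.meas_fmax Γ hΓ)

theorem MinDrift.meas_T (b : ℕ → ℝ) (Γ : Finset (Fin n)) :
    Measurable (MinDrift.T (fun _ k => b k) Γ) := by
  by_cases hΓ : Γ.Nonempty
  · have h : MinDrift.T (fun _ k => b k) Γ = fun u => b (gmax Γ hΓ u) := by
      funext u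
      unfold MinDrift.T
      rw [dif_pos hΓ]
    rw [h]
    exact (measurable_of_countable b).comp (MinDrift.meas_gmax Γ hΓ)
  · have h : MinDrift.T (fun _ k => b k) Γ = fun _ => (0 : ℝ) := by
      funext u
      unfold MinDrift.T
      rw [dif_neg hΓ]
    rw [h]
    exact measurable_const

theorem MinDrift.bdd_T {b : ℕ → ℝ} {K : ℝ} (hK : 0 ≤ K) (hb : ∀ k, |b k| ≤ K)
    (Γ : Finset (Fin n)) (u : Fin n → ℝ) : |MinDrift.T (fun _ k => b k) Γ u| ≤ K := by
  unfold MinDrift.T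
  by_cases hΓ : Γ.Nonempty
  · rw [dif_pos hΓ]
    exact hb _
  · rw [dif_neg hΓ, abs_zero]
    exact hK

theorem MinDrift.intv {b : ℕ → ℝ} {K : ℝ} (hK : 0 ≤ K) (hb : ∀ k, |b k| ≤ K)
    (Γ : Finset (Fin n)) {g : ℝ≥0 → (Fin n → ℝ)} (hg : Continuous g) (s s' : ℝ) :
    IntervalIntegrable (fun r : ℝ => MinDrift.T (fun _ k => b k) Γ (g r.toNNReal)) volume s s' := by
  rw [intervalIntegrable_iff]
  refine Measure.integrableOn_of_bounded (M := K) ?_ ?_ ?_
  · rw [Set.uIoc, Real.volume_Ioc]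
    exact ENNReal.ofReal_ne_top
  · exact ((MinDrift.meas_T b Γ).comp (hg.comp continuous_real_toNNReal).measurable).aestronglyMeasurable
  · exact Eventually.of_forall fun r => by
      rw [Real.norm_eq_abs]
      exact MinDrift.bdd_T hK hb Γ _

theorem MinDrift.mart {Ω : Type} [mΩ : MeasurableSpace Ω] {P : Measure Ω} [IsProbabilityMeasure P]
    {ℱ : Filtration ℝ≥0 mΩ} {M : ℝ≥0 → Ω → ℝ} (hM : Martingale M ℱ P) {t t' : ℝ≥0}
    (htt : t ≤ t') {Y : Ω → ℝ} (hY : StronglyMeasurable[ℱ t] Y) {C : ℝ}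
    (hC : ∀ ω, |Y ω| ≤ C) :
    Integrable (fun ω => Y ω * (M t' ω - M t ω)) P ∧ ∫ ω, Y ω * (M t' ω - M t ω) ∂P = 0 := by
  have hYm : AEStronglyMeasurable Y P := (hY.mono (ℱ.le t)).aestronglyMeasurable
  have hb : ∀ᵐ ω ∂P, ‖Y ω‖ ≤ C := Eventually.of_forall fun ω => by
    rw [Real.norm_eq_abs]
    exact hC ω
  have hi' : Integrable (Y * M t') P := (hM.integrable t').bdd_mul hYm hb
  have hi : Integrable (Y * M t) P := (hM.integrable t).bdd_mul hYm hb
  have h1 := condExp_mul_of_stronglyMeasurable_left hY hi' (hM.integrable t')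
  have h2 := hM.condExp_ae_eq htt
  have h3 : ∫ ω, (Y * M t') ω ∂P = ∫ ω, (Y * M t) ω ∂P := by
    rw [← integral_condExp (ℱ.le t)]
    refine integral_congr_ae ?_
    filter_upwards [h1, h2] with ω ha hb'
    rw [ha, Pi.mul_apply, hb', Pi.mul_apply]
  have e : (fun ω => Y ω * (M t' ω - M t ω)) = fun ω => (Y * M t') ω - (Y * M t) ω := by
    funext ω
    simp only [Pi.mul_apply]
    ring
  rw [e]
  refine ⟨hi'.sub hi, ?_⟩
  rw [integral_sub hi' hi, h3, sub_self]

variable {f : ℝ → ℝ}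
variable {β : ℝ} {ν : Measure ℝ} {x : Fin n → ℝ} {Ω : Type} [MeasurableSpace Ω]
  {P : Measure Ω} [IsProbabilityMeasure P] {X : ℝ≥0 → Ω → (Fin n → ℝ)}

/-- the drift integral -/
noncomputable def MinDrift.J (β : ℝ) (ν : Measure ℝ) (X : ℝ≥0 → Ω → (Fin n → ℝ))
    (Γ : Finset (Fin n)) (t : ℝ≥0) (ω : Ω) : ℝ :=
  ∫ s in (0 : ℝ)..t, MinDrift.T (fun _ k => betaPlus β ν k) Γ (X s.toNNReal ω)

omit [IsProbabilityMeasure P] in
theorem MinDrift.mart_T (hX : IsHWMotion β ν x P X) (Γ : Finset (Fin n)) :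
    Martingale (fun (t : ℝ≥0) ω => MinDrift.T (fun p _ => p) Γ (X t ω) - MinDrift.J β ν X Γ t ω)
      (Filtration.natural X hX.meas) P := by
  by_cases hΓ : Γ.Nonempty
  · have h := hX.maxMart Γ hΓ
    have e : (fun (t : ℝ≥0) ω => MinDrift.T (fun p _ => p) Γ (X t ω) - MinDrift.J β ν X Γ t ω) =
        fun (t : ℝ≥0) ω => fmax Γ hΓ (X t ω) -
          ∫ s in (0 : ℝ)..t, betaPlus β ν (gmax Γ hΓ (X s.toNNReal ω)) := by
      funext t ω
      unfold MinDrift.J MinDrift.T
      simp only [dif_pos hΓ]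
    rw [e]
    exact h
  · have e : (fun (t : ℝ≥0) ω => MinDrift.T (fun p _ => p) Γ (X t ω) - MinDrift.J β ν X Γ t ω) =
        (0 : ℝ≥0 → Ω → ℝ) := by
      funext t ω
      unfold MinDrift.J MinDrift.T
      simp only [dif_neg hΓ, intervalIntegral.integral_zero, sub_zero, Pi.zero_apply]
    rw [e]
    exact martingale_zero ℝ _ P

theorem MinDrift.int_min (hX : IsHWMotion β ν x P X) {D : Finset (Fin n)} (hD : D.Nonempty)
    (t : ℝ≥0) : Integrable (fun ω => D.inf' hD (X t ω)) P := by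
  have hc : Continuous (fun u : Fin n → ℝ => D.inf' hD fun i => u i) :=
    Continuous.finset_inf'_apply hD fun i _ => continuous_apply i
  have hs : Integrable (fun ω => ∑ i, |X t ω i|) P :=
    integrable_finsetSum _ fun i _ => ((hX.sq t i).integrable one_le_two).abs
  refine hs.mono' ?_ (Eventually.of_forall fun ω => ?_)
  · exact (hc.comp_stronglyMeasurable (hX.meas t)).aestronglyMeasurable
  · obtain ⟨i0, hi0D, hi0⟩ := Finset.exists_mem_eq_inf' hD (X t ω)
    rw [Real.norm_eq_abs, hi0]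
    exact Finset.single_le_sum (f := fun i => |X t ω i|) (fun i _ => abs_nonneg _)
      (Finset.mem_univ i0)

theorem min_drift (hν : GoodNu ν) (hX : IsHWMotion β ν x P X) {D : Finset (Fin n)}
    (hD : D.Nonempty) {t t' : ℝ≥0} (htt : t ≤ t') {Y : Ω → ℝ}
    (hY : StronglyMeasurable[Filtration.natural X hX.meas t] Y) (h0 : ∀ ω, 0 ≤ Y ω) {C : ℝ}
    (hC : ∀ ω, Y ω ≤ C) :
    bm β ν * ((t' : ℝ) - t) * ∫ ω, Y ω ∂P ≤
      ∫ ω, Y ω * (D.inf' hD (X t' ω) - D.inf' hD (X t ω)) ∂P := by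
  have hCa : ∀ ω, |Y ω| ≤ C := fun ω => by
    rw [abs_of_nonneg (h0 ω)]
    exact hC ω
  have hYm : AEStronglyMeasurable Y P :=
    (hY.mono ((Filtration.natural X hX.meas).le t)).aestronglyMeasurable
  have hYb : ∀ᵐ ω ∂P, ‖Y ω‖ ≤ C := Eventually.of_forall fun ω => by
    rw [Real.norm_eq_abs]
    exact hCa ω
  set K : ℝ := max |β| |bp β ν| with hK
  have hK0 : 0 ≤ K := (abs_nonneg β).trans (le_max_left _ _)
  have hb : ∀ k, |betaPlus β ν k| ≤ K := fun k => by
    obtain ⟨h1, h2⟩ := betaPlus_bounds hν β k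
    rw [abs_le]
    constructor
    · have := neg_abs_le β
      have := le_max_left |β| |bp β ν|
      linarith
    · exact h2.trans ((le_abs_self _).trans (le_max_right _ _))
  -- the martingale part
  let M : Finset (Fin n) → ℝ≥0 → Ω → ℝ := fun Γ t ω =>
    MinDrift.T (fun p _ => p) Γ (X t ω) - MinDrift.J β ν X Γ t ω
  have hm : ∀ Γ, Integrable (fun ω => Y ω * (M Γ t' ω - M Γ t ω)) P ∧
      ∫ ω, Y ω * (M Γ t' ω - M Γ t ω) ∂P = 0 := fun Γ =>
    MinDrift.mart (MinDrift.mart_T hX Γ) htt hY hCa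
  have hsum : ∫ ω, ∑ Γ ∈ D.powerset, (-1 : ℝ) ^ (Γ.card + 1) *
      (Y ω * (M Γ t' ω - M Γ t ω)) ∂P = 0 := by
    rw [integral_finsetSum _ fun Γ _ => (hm Γ).1.const_mul _]
    refine Finset.sum_eq_zero fun Γ _ => ?_
    rw [integral_const_mul, (hm Γ).2, mul_zero]
  have hsi : Integrable (fun ω => ∑ Γ ∈ D.powerset, (-1 : ℝ) ^ (Γ.card + 1) *
      (Y ω * (M Γ t' ω - M Γ t ω))) P :=
    integrable_finsetSum _ fun Γ _ => (hm Γ).1.const_mul _
  -- the drift part
  let JJ : Ω → ℝ := fun ω => ∑ Γ ∈ D.powerset, (-1 : ℝ) ^ (Γ.card + 1) *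
    (MinDrift.J β ν X Γ t' ω - MinDrift.J β ν X Γ t ω)
  have hJ : ∀ ω, bm β ν * ((t' : ℝ) - t) ≤ JJ ω := by
    intro ω
    have h1 : ∀ Γ, MinDrift.J β ν X Γ t' ω - MinDrift.J β ν X Γ t ω =
        ∫ s in (t : ℝ)..t', MinDrift.T (fun _ k => betaPlus β ν k) Γ (X s.toNNReal ω) := by
      intro Γ
      unfold MinDrift.J
      exact intervalIntegral.integral_interval_sub_left
        (MinDrift.intv hK0 hb Γ (hX.cont ω) _ _) (MinDrift.intv hK0 hb Γ (hX.cont ω) _ _)
    have h2 : JJ ω = ∫ s in (t : ℝ)..t', ∑ Γ ∈ D.powerset, (-1 : ℝ) ^ (Γ.card + 1) *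
        MinDrift.T (fun _ k => betaPlus β ν k) Γ (X s.toNNReal ω) := by
      rw [intervalIntegral.integral_finsetSum fun Γ _ =>
        (MinDrift.intv hK0 hb Γ (hX.cont ω) _ _).const_mul _]
      refine Finset.sum_congr rfl fun Γ _ => ?_
      rw [h1 Γ, intervalIntegral.integral_const_mul]
    have h3 : bm β ν * ((t' : ℝ) - t) = ∫ _ in (t : ℝ)..t', bm β ν := by
      rw [intervalIntegral.integral_const, smul_eq_mul, mul_comm]
    rw [h2, h3]
    refine intervalIntegral.integral_mono_on (by exact_mod_cast htt)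
      intervalIntegrable_const ?_ fun s _ => MinDrift.drift_ge hν D hD _
    have h4 := IntervalIntegrable.sum D.powerset (μ := volume) (a := (t : ℝ)) (b := t')
      (f := fun (Γ : Finset (Fin n)) (s : ℝ) => (-1 : ℝ) ^ (Γ.card + 1) *
        MinDrift.T (fun _ k => betaPlus β ν k) Γ (X s.toNNReal ω)) fun Γ _ =>
        (MinDrift.intv hK0 hb Γ (hX.cont ω) _ _).const_mul _
    refine h4.congr ?_
    intro s _
    simp only [Finset.sum_apply]
  -- decomposition
  have hdec : ∀ ω, Y ω * (D.inf' hD (X t' ω) - D.inf' hD (X t ω)) =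
      Y ω * JJ ω + ∑ Γ ∈ D.powerset, (-1 : ℝ) ^ (Γ.card + 1) *
        (Y ω * (M Γ t' ω - M Γ t ω)) := by
    intro ω
    rw [← MinDrift.min_eq D hD (X t' ω), ← MinDrift.min_eq D hD (X t ω),
      ← Finset.sum_sub_distrib, Finset.mul_sum, Finset.mul_sum, ← Finset.sum_add_distrib]
    refine Finset.sum_congr rfl fun Γ _ => ?_
    simp only [M]
    ring
  have hI : Integrable (fun ω => Y ω * (D.inf' hD (X t' ω) - D.inf' hD (X t ω))) P :=
    ((MinDrift.int_min hX hD t').sub (MinDrift.int_min hX hD t)).bdd_mul hYm hYb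
  have hIJ : Integrable (fun ω => Y ω * JJ ω) P := by
    refine (hI.sub hsi).congr (Eventually.of_forall fun ω => ?_)
    simp only [Pi.sub_apply]
    rw [hdec ω]
    ring
  have hYi : Integrable Y P := by
    have h := (integrable_const (μ := P) (1 : ℝ)).bdd_mul hYm hYb
    simpa only [mul_one] using h
  calc bm β ν * ((t' : ℝ) - t) * ∫ ω, Y ω ∂P
      = ∫ ω, Y ω * (bm β ν * ((t' : ℝ) - t)) ∂P := by
        rw [integral_mul_const]
        ring
    _ ≤ ∫ ω, Y ω * JJ ω ∂P := by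
        refine integral_mono (hYi.mul_const _) hIJ fun ω => ?_
        exact mul_le_mul_of_nonneg_left (hJ ω) (h0 ω)
    _ = ∫ ω, Y ω * (D.inf' hD (X t' ω) - D.inf' hD (X t ω)) ∂P := by
        simp only [hdec]
        rw [integral_add hIJ hsi, hsum, add_zero]

end Pool.Agent.TH996.HW
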