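import Pool.Agent.TH996.HW.Incr
import Pool.Agent.TH996.HW.MaxDrift
import Pool.Agent.TH996.HW.MinDrift
import Pool.Agent.TH996.HW.Beta

/-!
# The cross moment of the increments of the two end points (MP_b213bc_pr)
-/

set_option autoImplicit false

open MeasureTheory ProbabilityTheory Filter
open scoped NNReal ENNReal Topology

namespace Pool.Agent.TH996.HW

variable {n : ℕ}

theorem cross_rho_nonneg (x : ℝ) : 0 ≤ rho x :=
  le_min (sq_nonneg _) (by positivity)

theorem cross_rho_le (x : ℝ) : rho x ≤ x ^ 2 := min_le_left _ _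

/-- outside `[-κ, κ]`, `x²` is at most a multiple of `rho x` -/
theorem cross_sq_le {κ : ℝ} (hκ : 0 < κ) {x : ℝ} (hx : κ < |x|) :
    x ^ 2 ≤ max 1 (1 / κ) * rho x := by
  have h1 : x ^ 2 = |x| ^ 2 := (sq_abs x).symm
  have hm1 : (1 : ℝ) ≤ max 1 (1 / κ) := le_max_left _ _
  have hm2 : 1 / κ ≤ max 1 (1 / κ) := le_max_right _ _
  have h0 : 0 ≤ |x| ^ 2 := by positivity
  unfold rho
  rcases le_total (x ^ 2) (|x| ^ 3) with h | h
  · rw [min_eq_left h]
    nlinarith [sq_nonneg x]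
  · rw [min_eq_right h]
    have h3 : |x| ^ 2 * κ ≤ |x| ^ 3 := by
      have : |x| ^ 3 = |x| ^ 2 * |x| := by ring
      rw [this]
      exact mul_le_mul_of_nonneg_left hx.le h0
    have h4 : x ^ 2 ≤ 1 / κ * |x| ^ 3 := by
      rw [h1]
      rw [one_div, inv_mul_eq_div, le_div_iff₀ hκ]
      exact h3
    have h5 : (0 : ℝ) ≤ |x| ^ 3 := by positivity
    exact h4.trans (mul_le_mul_of_nonneg_right hm2 h5)

/-- the deterministic estimate -/
theorem cross_pt {D E : Finset (Fin n)} (hD : D.Nonempty) (hE : E.Nonempty) (u v : Fin n → ℝ)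
    {κ : ℝ} (hκ : 0 < κ) {i j : Fin n} (hi : i ∈ D) (hj : j ∈ E) (hui : u i = D.sup' hD u)
    (huj : u j = E.inf' hE u) :
    |(D.sup' hD v - D.sup' hD u) * (E.inf' hE v - E.inf' hE u) -
      (v i - u i) * (v j - u j)| ≤
      κ * (((D.sup' hD v - D.sup' hD u) - (v i - u i)) +
        ((v j - u j) - (E.inf' hE v - E.inf' hE u))) +
      4 * max 1 (1 / κ) * ∑ k, rho (v k - u k) := by
  obtain ⟨k0, -, hk0⟩ := Finset.exists_max_image (Finset.univ : Finset (Fin n))
    (fun k => |v k - u k|) ⟨i, Finset.mem_univ i⟩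
  set R := |v k0 - u k0| with hR
  have hRk : ∀ k, |v k - u k| ≤ R := fun k => hk0 k (Finset.mem_univ k)
  have hR0 : 0 ≤ R := abs_nonneg _
  have hle : ∀ k, v k ≤ u k + R := fun k => by
    have := (abs_le.1 (hRk k)).2
    linarith
  have hge : ∀ k, u k ≤ v k + R := fun k => by
    have := (abs_le.1 (hRk k)).1
    linarith
  set δ := D.sup' hD v - D.sup' hD u with hδ
  set δ' := E.inf' hE v - E.inf' hE u with hδ'
  have d1 : δ ≤ R := by
    have : D.sup' hD v ≤ D.sup' hD u + R := by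
      refine Finset.sup'_le _ _ (fun k hk => (hle k).trans ?_)
      have := Finset.le_sup' u hk
      linarith
    rw [hδ]; linarith
  have d2 : -R ≤ δ := by
    have : D.sup' hD u ≤ D.sup' hD v + R := by
      refine Finset.sup'_le _ _ (fun k hk => (hge k).trans ?_)
      have := Finset.le_sup' v hk
      linarith
    rw [hδ]; linarith
  have d3 : δ' ≤ R := by
    have : E.inf' hE v - R ≤ E.inf' hE u := by
      refine Finset.le_inf' _ _ (fun k hk => ?_)
      have h1 := Finset.inf'_le v hk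
      have h2 := hle k
      linarith
    rw [hδ']; linarith
  have d4 : -R ≤ δ' := by
    have : E.inf' hE u - R ≤ E.inf' hE v := by
      refine Finset.le_inf' _ _ (fun k hk => ?_)
      have h1 := Finset.inf'_le u hk
      have h2 := hge k
      linarith
    rw [hδ']; linarith
  have e1 : 0 ≤ δ - (v i - u i) := by
    have := Finset.le_sup' v hi
    rw [hδ, ← hui]; linarith
  have e2 : 0 ≤ (v j - u j) - δ' := by
    have := Finset.inf'_le v hj
    rw [hδ', ← huj]; linarith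
  have hi1 := abs_le.1 (hRk i)
  have hj1 := abs_le.1 (hRk j)
  have key : |δ * δ' - (v i - u i) * (v j - u j)| ≤
      R * ((δ - (v i - u i)) + ((v j - u j) - δ')) := by
    have e : δ * δ' - (v i - u i) * (v j - u j) =
        (δ - (v i - u i)) * δ' - (v i - u i) * ((v j - u j) - δ') := by ring
    rw [e]
    refine (abs_sub _ _).trans ?_
    rw [abs_mul, abs_mul, abs_of_nonneg e1, abs_of_nonneg e2]
    have a1 : |δ'| ≤ R := abs_le.2 ⟨d4, d3⟩
    have a2 := hRk i
    nlinarith [mul_le_mul_of_nonneg_left a1 e1, mul_le_mul_of_nonneg_right a2 e2]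
  have hs0 : 0 ≤ ∑ k, rho (v k - u k) := Finset.sum_nonneg fun k _ => cross_rho_nonneg _
  have hm : 0 ≤ max 1 (1 / κ) := le_trans zero_le_one (le_max_left _ _)
  rcases le_or_gt R κ with h | h
  · have h1 : R * ((δ - (v i - u i)) + ((v j - u j) - δ')) ≤
        κ * ((δ - (v i - u i)) + ((v j - u j) - δ')) :=
      mul_le_mul_of_nonneg_right h (by linarith)
    have h2 : 0 ≤ 4 * max 1 (1 / κ) * ∑ k, rho (v k - u k) := by positivity
    linarith
  · have h1 : R * ((δ - (v i - u i)) + ((v j - u j) - δ')) ≤ 4 * R ^ 2 := by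
      have : (δ - (v i - u i)) + ((v j - u j) - δ') ≤ 4 * R := by linarith [hi1.1, hj1.2]
      nlinarith
    have h2 : R ^ 2 ≤ max 1 (1 / κ) * rho (v k0 - u k0) := by
      have := cross_sq_le hκ (x := v k0 - u k0) h
      rwa [hR, sq_abs]
    have h3 : rho (v k0 - u k0) ≤ ∑ k, rho (v k - u k) :=
      Finset.single_le_sum (f := fun k => rho (v k - u k)) (fun k _ => cross_rho_nonneg _)
        (Finset.mem_univ k0)
    have h4 : 0 ≤ κ * ((δ - (v i - u i)) + ((v j - u j) - δ')) :=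
      mul_nonneg hκ.le (by linarith)
    have h5 : R ^ 2 ≤ max 1 (1 / κ) * ∑ k, rho (v k - u k) :=
      h2.trans (mul_le_mul_of_nonneg_left h3 hm)
    nlinarith

open Classical in
/-- weights supported on the indices of `D` whose position is `m` -/
noncomputable def cross_w (D : Finset (Fin n)) (m : ℝ) (u : Fin n → ℝ) (i : Fin n) : ℝ :=
  (if u i = m then 1 else 0) / ∑ k ∈ D, if u k = m then (1 : ℝ) else 0

theorem cross_w_sum {D : Finset (Fin n)} {m : ℝ} {u : Fin n → ℝ} (h : ∃ k ∈ D, u k = m) :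
    ∑ i ∈ D, cross_w D m u i = 1 := by
  classical
  unfold cross_w
  rw [← Finset.sum_div, div_self]
  obtain ⟨k, hk, hkm⟩ := h
  have : (0 : ℝ) < ∑ k ∈ D, if u k = m then (1 : ℝ) else 0 := by
    refine Finset.sum_pos' (fun i _ => by split_ifs <;> norm_num) ⟨k, hk, by simp [hkm]⟩
  exact this.ne'

theorem cross_w_nonneg (D : Finset (Fin n)) (m : ℝ) (u : Fin n → ℝ) (i : Fin n) :
    0 ≤ cross_w D m u i := by
  classical
  unfold cross_w
  refine div_nonneg (by split_ifs <;> norm_num) (Finset.sum_nonneg fun k _ => ?_)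
  split_ifs <;> norm_num

theorem cross_w_le {D : Finset (Fin n)} (m : ℝ) (u : Fin n → ℝ) {i : Fin n} (hi : i ∈ D) :
    cross_w D m u i ≤ 1 := by
  classical
  unfold cross_w
  refine div_le_one_of_le₀ ?_ (Finset.sum_nonneg fun k _ => by split_ifs <;> norm_num)
  exact Finset.single_le_sum (f := fun k => if u k = m then (1 : ℝ) else 0)
    (fun k _ => by split_ifs <;> norm_num) hi

theorem cross_w_ne {D : Finset (Fin n)} {m : ℝ} {u : Fin n → ℝ} {i : Fin n}
    (h : cross_w D m u i ≠ 0) : u i = m := by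
  classical
  by_contra hne
  exact h (by unfold cross_w; simp [hne])

section

variable {β : ℝ} {ν : Measure ℝ} {x : Fin n → ℝ} {Ω : Type} [MeasurableSpace Ω]
  {P : Measure Ω} [IsProbabilityMeasure P] {X : ℝ≥0 → Ω → (Fin n → ℝ)}

omit [IsProbabilityMeasure P] in
theorem cross_meas (hX : IsHWMotion β ν x P X) (t : ℝ≥0) :
    Measurable[Filtration.natural X hX.meas t] (X t) :=
  ((Filtration.stronglyAdapted_natural hX.meas) t).measurable

omit [IsProbabilityMeasure P] in
theorem cross_joint (hX : IsHWMotion β ν x P X) (i j : Fin n) :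
    Measurable (fun p : ℝ × Ω => if X p.1.toNNReal p.2 i = X p.1.toNNReal p.2 j
      then (1 : ℝ) else 0) := by
  classical
  have h1 : Measurable (Function.uncurry fun (s : ℝ) ω => X s.toNNReal ω) :=
    measurable_uncurry_of_continuous_of_measurable
      (fun ω => (hX.cont ω).comp continuous_real_toNNReal)
      (fun s => (hX.meas s.toNNReal).measurable)
  have h2 : ∀ k, Measurable (fun p : ℝ × Ω => X p.1.toNNReal p.2 k) := fun k =>
    (measurable_pi_apply k).comp h1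
  exact Measurable.ite (measurableSet_eq_fun (h2 i) (h2 j)) measurable_const measurable_const

/-- `Z` bounded by one, measurable at time `t`, and `X_i`, `X_j` are `η`-apart at time `t` when
`Z ≠ 0` -/
theorem cross_meet_pt (hX : IsHWMotion β ν x P X) (i j : Fin n) {t : ℝ≥0} {Z : Ω → ℝ}
    (hZ : StronglyMeasurable[Filtration.natural X hX.meas t] Z) (h0 : ∀ ω, 0 ≤ Z ω)
    (h1 : ∀ ω, Z ω ≤ 1) {η : ℝ} (hη : 0 < η) (hs : ∀ ω, Z ω ≠ 0 → η ≤ X t ω j - X t ω i)
    {s : ℝ≥0} (hts : t ≤ s) :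
    ∫ ω, Z ω * (if X s ω i = X s ω j then (1 : ℝ) else 0) ∂P ≤ 2 * ((s : ℝ) - t) / η ^ 2 := by
  classical
  have hab : ∀ ω, |Z ω| ≤ 1 := fun ω => abs_le.2 ⟨by linarith [h0 ω], h1 ω⟩
  set M : Fin n → Ω → ℝ := fun k ω => (X s ω k - β * s) - (X t ω k - β * t) with hM
  have hL : ∀ k, MemLp (M k) 2 P := fun k => (incr_memLp hX k s).sub (incr_memLp hX k t)
  have hZm : AEStronglyMeasurable Z P :=
    (hZ.mono ((Filtration.natural X hX.meas).le t)).aestronglyMeasurable
  have hbd : ∀ g : Ω → ℝ, Integrable g P → Integrable (fun ω => Z ω * g ω) P := fun g hg =>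
    Integrable.bdd_mul (c := 1) hg hZm (Eventually.of_forall hab)
  have hI : ∀ k l, Integrable (fun ω => Z ω * (M k ω * M l ω)) P := fun k l =>
    hbd _ ((hL k).integrable_mul (hL l))
  have hZi : Integrable Z P := Integrable.of_bound hZm 1 (Eventually.of_forall hab)
  have b1 : ∀ k, ∫ ω, Z ω * (M k ω * M k ω) ∂P = ((s : ℝ) - t) * ∫ ω, Z ω ∂P := by
    intro k
    have := bracket_inc hX k k hts hZ hab
    rw [show (∫ ω, Z ω * (M k ω * M k ω) ∂P) = _ from this]
    simp only [if_true, intervalIntegral.integral_const, smul_eq_mul, mul_one]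
    rw [integral_mul_const, mul_comm]
  have b2 : 0 ≤ ∫ ω, Z ω * (M i ω * M j ω) ∂P := by
    have := bracket_inc hX i j hts hZ hab
    rw [show (∫ ω, Z ω * (M i ω * M j ω) ∂P) = _ from this]
    refine integral_nonneg (fun ω => mul_nonneg (h0 ω) ?_)
    refine intervalIntegral.integral_nonneg (by exact_mod_cast hts) (fun r _ => ?_)
    split_ifs <;> norm_num
  have hZ1 : ∫ ω, Z ω ∂P ≤ 1 := by
    calc ∫ ω, Z ω ∂P ≤ ∫ _, (1 : ℝ) ∂P := integral_mono hZi (integrable_const _) h1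
      _ = 1 := by simp
  have hst : (0 : ℝ) ≤ (s : ℝ) - t := sub_nonneg.2 (by exact_mod_cast hts)
  have hsq : ∫ ω, Z ω * (M i ω - M j ω) ^ 2 ∂P ≤ 2 * ((s : ℝ) - t) := by
    have e : ∀ ω, Z ω * (M i ω - M j ω) ^ 2 =
        Z ω * (M i ω * M i ω) + Z ω * (M j ω * M j ω) - 2 * (Z ω * (M i ω * M j ω)) := by
      intro ω; ring
    have c1 : Integrable (fun ω => Z ω * (M i ω * M i ω) + Z ω * (M j ω * M j ω)) P :=
      (hI i i).add (hI j j)
    rw [integral_congr_ae (Eventually.of_forall e), integral_sub c1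
      ((hI i j).const_mul 2), integral_add (hI i i) (hI j j), b1, b1, integral_const_mul]
    nlinarith
  have hI2 : Integrable (fun ω => Z ω * (M i ω - M j ω) ^ 2) P := by
    have : Integrable (fun ω => (M i ω - M j ω) ^ 2) P := ((hL i).sub (hL j)).integrable_sq
    exact hbd _ this
  have hsing : Integrable (fun ω => if X s ω i = X s ω j then (1 : ℝ) else 0) P := by
    have hmk : ∀ k, Measurable (fun ω => X s ω k) := fun k =>
      (measurable_pi_apply k).comp (hX.meas s).measurable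
    refine Integrable.of_bound (Measurable.ite (measurableSet_eq_fun (hmk i) (hmk j))
      measurable_const measurable_const).aestronglyMeasurable 1 (Eventually.of_forall fun ω => ?_)
    split_ifs <;> simp
  have hpt : ∀ ω, Z ω * (if X s ω i = X s ω j then (1 : ℝ) else 0) ≤
      Z ω * (M i ω - M j ω) ^ 2 / η ^ 2 := by
    intro ω
    rw [le_div_iff₀ (by positivity)]
    by_cases hz : Z ω = 0
    · simp [hz]
    · split_ifs with he
      · have h2 := hs ω hz
        have h3 : M i ω - M j ω = X t ω j - X t ω i := by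
          simp only [hM]
          rw [he]; ring
        rw [h3]
        have h4 : η ^ 2 ≤ (X t ω j - X t ω i) ^ 2 := pow_le_pow_left₀ hη.le h2 2
        nlinarith [h0 ω]
      · have := mul_nonneg (h0 ω) (sq_nonneg (M i ω - M j ω))
        simpa using this
  calc ∫ ω, Z ω * (if X s ω i = X s ω j then (1 : ℝ) else 0) ∂P
      ≤ ∫ ω, Z ω * (M i ω - M j ω) ^ 2 / η ^ 2 ∂P :=
        integral_mono (hbd _ hsing) (hI2.div_const _) hpt
    _ = (∫ ω, Z ω * (M i ω - M j ω) ^ 2 ∂P) / η ^ 2 := integral_div _ _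
    _ ≤ 2 * ((s : ℝ) - t) / η ^ 2 := div_le_div_of_nonneg_right hsq (by positivity)

theorem cross_meet (hX : IsHWMotion β ν x P X) (i j : Fin n) {t h : ℝ≥0} {Z : Ω → ℝ}
    (hZ : StronglyMeasurable[Filtration.natural X hX.meas t] Z)
    (h1 : ∀ ω, |Z ω| ≤ 1) {η : ℝ} (hη : 0 < η) (hs : ∀ ω, Z ω ≠ 0 → η ≤ X t ω j - X t ω i) :
    |∫ ω, Z ω * (∫ s in (t : ℝ)..((t + h : ℝ≥0) : ℝ),
      if X s.toNNReal ω i = X s.toNNReal ω j then (1 : ℝ) else 0) ∂P| ≤ (h : ℝ) ^ 2 / η ^ 2 := by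
  classical
  have hth : (t : ℝ) ≤ ((t + h : ℝ≥0) : ℝ) := by
    rw [NNReal.coe_add]; linarith [h.coe_nonneg]
  set J : Ω → ℝ := fun ω => ∫ s in (t : ℝ)..((t + h : ℝ≥0) : ℝ),
      if X s.toNNReal ω i = X s.toNNReal ω j then (1 : ℝ) else 0 with hJ
  have hJ0 : ∀ ω, 0 ≤ J ω := fun ω =>
    intervalIntegral.integral_nonneg hth (fun r _ => by split_ifs <;> norm_num)
  have hZ' : StronglyMeasurable[Filtration.natural X hX.meas t] (fun ω => |Z ω|) := hZ.norm
  have hstep : |∫ ω, Z ω * J ω ∂P| ≤ ∫ ω, |Z ω| * J ω ∂P := by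
    refine (abs_integral_le_integral_abs).trans (le_of_eq ?_)
    refine integral_congr_ae (Eventually.of_forall fun ω => ?_)
    show |Z ω * J ω| = |Z ω| * J ω
    rw [abs_mul, abs_of_nonneg (hJ0 ω)]
  refine hstep.trans ?_
  -- Fubini
  have hjm := cross_joint hX i j
  have hZm : Measurable (fun ω => |Z ω|) :=
    (hZ'.mono ((Filtration.natural X hX.meas).le t)).measurable
  have hint : Integrable (Function.uncurry fun (ω : Ω) (s : ℝ) => |Z ω| *
      (if X s.toNNReal ω i = X s.toNNReal ω j then (1 : ℝ) else 0))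
      (P.prod (volume.restrict (Set.Ioc (t : ℝ) ((t + h : ℝ≥0) : ℝ)))) := by
    have hm : Measurable (Function.uncurry fun (ω : Ω) (s : ℝ) => |Z ω| *
      (if X s.toNNReal ω i = X s.toNNReal ω j then (1 : ℝ) else 0)) :=
      (hZm.comp measurable_fst).mul (hjm.comp measurable_swap)
    refine Integrable.of_bound hm.aestronglyMeasurable 1 (Eventually.of_forall fun p => ?_)
    simp only [Function.uncurry]
    rw [norm_mul, Real.norm_eq_abs, Real.norm_eq_abs, abs_abs]
    have : |(if X p.2.toNNReal p.1 i = X p.2.toNNReal p.1 j then (1 : ℝ) else 0)| ≤ 1 := by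
      split_ifs <;> simp
    exact mul_le_one₀ (h1 _) (abs_nonneg _) this
  have hfub : ∫ ω, |Z ω| * J ω ∂P = ∫ s in (t : ℝ)..((t + h : ℝ≥0) : ℝ),
      ∫ ω, |Z ω| * (if X s.toNNReal ω i = X s.toNNReal ω j then (1 : ℝ) else 0) ∂P := by
    rw [intervalIntegral.integral_of_le hth]
    rw [← integral_integral_swap hint]
    refine integral_congr_ae (Eventually.of_forall fun ω => ?_)
    simp only [hJ]
    rw [intervalIntegral.integral_of_le hth, integral_const_mul]
  rw [hfub]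
  have hbnd : ∀ s ∈ Set.Icc (t : ℝ) ((t + h : ℝ≥0) : ℝ),
      ∫ ω, |Z ω| * (if X s.toNNReal ω i = X s.toNNReal ω j then (1 : ℝ) else 0) ∂P ≤
      2 * (s - t) / η ^ 2 := by
    intro s hsm
    have hs0 : 0 ≤ s := le_trans t.coe_nonneg hsm.1
    have hts : t ≤ s.toNNReal := by
      rw [← NNReal.coe_le_coe, Real.coe_toNNReal s hs0]; exact hsm.1
    have := cross_meet_pt hX i j hZ' (fun ω => abs_nonneg _) h1 hη
      (fun ω hne => hs ω (fun h0 => hne (by simp [h0]))) hts
    rwa [Real.coe_toNNReal s hs0] at this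
  have hii : IntervalIntegrable (fun s : ℝ => ∫ ω, |Z ω| *
      (if X s.toNNReal ω i = X s.toNNReal ω j then (1 : ℝ) else 0) ∂P) volume (t : ℝ)
      ((t + h : ℝ≥0) : ℝ) := by
    rw [intervalIntegrable_iff_integrableOn_Ioc_of_le hth]
    exact hint.integral_prod_right
  calc ∫ s in (t : ℝ)..((t + h : ℝ≥0) : ℝ),
      ∫ ω, |Z ω| * (if X s.toNNReal ω i = X s.toNNReal ω j then (1 : ℝ) else 0) ∂P
      ≤ ∫ s in (t : ℝ)..((t + h : ℝ≥0) : ℝ), 2 * (s - t) / η ^ 2 := by
        refine intervalIntegral.integral_mono_on hth hii ?_ hbnd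
        exact (by fun_prop : Continuous fun s : ℝ => 2 * (s - (t : ℝ)) / η ^ 2).intervalIntegrable _ _
    _ = (h : ℝ) ^ 2 / η ^ 2 := by
        rw [intervalIntegral.integral_div]
        congr 1
        rw [intervalIntegral.integral_const_mul, intervalIntegral.integral_sub
          intervalIntegral.intervalIntegrable_id intervalIntegrable_const]
        simp only [integral_id, intervalIntegral.integral_const, smul_eq_mul, NNReal.coe_add]
        ring

theorem cross_sup_le {D : Finset (Fin n)} (hD : D.Nonempty) (u v : Fin n → ℝ) :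
    |D.sup' hD v - D.sup' hD u| ≤ ∑ k, |v k - u k| := by
  have hk : ∀ k, |v k - u k| ≤ ∑ k, |v k - u k| := fun k =>
    Finset.single_le_sum (f := fun k => |v k - u k|) (fun k _ => abs_nonneg _) (Finset.mem_univ k)
  have a1 : D.sup' hD v ≤ D.sup' hD u + ∑ k, |v k - u k| := by
    refine Finset.sup'_le _ _ (fun k hkD => ?_)
    have h1 := Finset.le_sup' u hkD
    have h2 := (abs_le.1 (hk k)).2
    linarith
  have a2 : D.sup' hD u ≤ D.sup' hD v + ∑ k, |v k - u k| := by
    refine Finset.sup'_le _ _ (fun k hkD => ?_)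
    have h1 := Finset.le_sup' v hkD
    have h2 := (abs_le.1 (hk k)).1
    linarith
  exact abs_le.2 ⟨by linarith, by linarith⟩

theorem cross_inf_le {D : Finset (Fin n)} (hD : D.Nonempty) (u v : Fin n → ℝ) :
    |D.inf' hD v - D.inf' hD u| ≤ ∑ k, |v k - u k| := by
  have hk : ∀ k, |v k - u k| ≤ ∑ k, |v k - u k| := fun k =>
    Finset.single_le_sum (f := fun k => |v k - u k|) (fun k _ => abs_nonneg _) (Finset.mem_univ k)
  have a1 : D.inf' hD v - ∑ k, |v k - u k| ≤ D.inf' hD u := by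
    refine Finset.le_inf' _ _ (fun k hkD => ?_)
    have h1 := Finset.inf'_le v hkD
    have h2 := (abs_le.1 (hk k)).2
    linarith
  have a2 : D.inf' hD u - ∑ k, |v k - u k| ≤ D.inf' hD v := by
    refine Finset.le_inf' _ _ (fun k hkD => ?_)
    have h1 := Finset.inf'_le u hkD
    have h2 := (abs_le.1 (hk k)).1
    linarith
  exact abs_le.2 ⟨by linarith, by linarith⟩

theorem cross_alg (D E : Finset (Fin n)) (a b d : Fin n → ℝ) (ha : ∀ i, 0 ≤ a i)
    (hb : ∀ j, 0 ≤ b j) (hDa : ∑ i ∈ D, a i = 1) (hEb : ∑ j ∈ E, b j = 1) {y A B κ r : ℝ}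
    (hy : |y| ≤ 1)
    (hyp : ∀ i ∈ D, ∀ j ∈ E, a i ≠ 0 → b j ≠ 0 →
      |A * B - d i * d j| ≤ κ * ((A - d i) + (d j - B)) + r) :
    |y * (A * B) - ∑ i ∈ D, ∑ j ∈ E, (y * (a i * b j)) * (d i * d j)| ≤
      κ * ((A - ∑ i ∈ D, a i * d i) + ((∑ j ∈ E, b j * d j) - B)) + r := by
  have e1 : y * (A * B) = ∑ i ∈ D, ∑ j ∈ E, (a i * b j) * (y * (A * B)) := by
    simp_rw [mul_assoc, ← Finset.mul_sum, ← Finset.sum_mul, hEb, one_mul, hDa, one_mul]
  have e2 : y * (A * B) - ∑ i ∈ D, ∑ j ∈ E, (y * (a i * b j)) * (d i * d j) =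
      ∑ i ∈ D, ∑ j ∈ E, (a i * b j) * (y * (A * B - d i * d j)) := by
    conv_lhs => rw [e1]
    rw [← Finset.sum_sub_distrib]
    refine Finset.sum_congr rfl fun i _ => ?_
    rw [← Finset.sum_sub_distrib]
    refine Finset.sum_congr rfl fun j _ => ?_
    ring
  rw [e2]
  have e3 : ∑ i ∈ D, ∑ j ∈ E, (a i * b j) * (κ * ((A - d i) + (d j - B)) + r) =
      κ * ((A - ∑ i ∈ D, a i * d i) + ((∑ j ∈ E, b j * d j) - B)) + r := by
    have e4 : ∀ i ∈ D, ∑ j ∈ E, (a i * b j) * (κ * ((A - d i) + (d j - B)) + r) =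
        a i * (κ * (A - B + ∑ j ∈ E, b j * d j) + r) - κ * (a i * d i) := by
      intro i _
      have : ∀ j ∈ E, (a i * b j) * (κ * ((A - d i) + (d j - B)) + r) =
          b j * (a i * (κ * (A - d i - B) + r)) + (a i * κ) * (b j * d j) := by
        intro j _; ring
      rw [Finset.sum_congr rfl this, Finset.sum_add_distrib, ← Finset.sum_mul, hEb,
        ← Finset.mul_sum]
      ring
    rw [Finset.sum_congr rfl e4, Finset.sum_sub_distrib, ← Finset.sum_mul, hDa,
      ← Finset.mul_sum]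
    ring
  rw [← e3]
  refine (Finset.abs_sum_le_sum_abs _ _).trans (Finset.sum_le_sum fun i hi => ?_)
  refine (Finset.abs_sum_le_sum_abs _ _).trans (Finset.sum_le_sum fun j hj => ?_)
  have hab : 0 ≤ a i * b j := mul_nonneg (ha i) (hb j)
  rw [abs_mul, abs_of_nonneg hab]
  by_cases h1 : a i = 0
  · simp [h1]
  by_cases h2 : b j = 0
  · simp [h2]
  refine mul_le_mul_of_nonneg_left ?_ hab
  rw [abs_mul]
  calc |y| * |A * B - d i * d j| ≤ 1 * |A * B - d i * d j| :=
        mul_le_mul_of_nonneg_right hy (abs_nonneg _)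
    _ = |A * B - d i * d j| := one_mul _
    _ ≤ _ := hyp i hi j hj h1 h2

theorem cross_sup_meas {D : Finset (Fin n)} (hD : D.Nonempty) :
    Measurable (fun u : Fin n → ℝ => D.sup' hD u) :=
  (Continuous.finset_sup'_apply hD (fun i _ => continuous_apply i)).measurable

theorem cross_inf_meas {D : Finset (Fin n)} (hD : D.Nonempty) :
    Measurable (fun u : Fin n → ℝ => D.inf' hD u) :=
  (Continuous.finset_inf'_apply hD (fun i _ => continuous_apply i)).measurable

theorem cross_w_meas (D : Finset (Fin n)) {g : (Fin n → ℝ) → ℝ} (hg : Measurable g)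
    (i : Fin n) : Measurable (fun u : Fin n → ℝ => cross_w D (g u) u i) := by
  classical
  have h1 : ∀ k, Measurable (fun u : Fin n → ℝ => if u k = g u then (1 : ℝ) else 0) := fun k =>
    Measurable.ite (measurableSet_eq_fun (measurable_pi_apply k) hg) measurable_const
      measurable_const
  have h2 : (fun u : Fin n → ℝ => cross_w D (g u) u i) = fun u : Fin n → ℝ =>
      (if u i = g u then (1 : ℝ) else 0) / ∑ k ∈ D, if u k = g u then (1 : ℝ) else 0 := by
    funext u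
    unfold cross_w
    congr
  rw [h2]
  exact (h1 i).div (Finset.measurable_fun_sum D (fun k _ => h1 k))

theorem cross_rho_cont : Continuous rho := by
  unfold rho
  fun_prop

theorem cross_rho_sub (a b : ℝ) : rho (a - b) ≤ 8 * (rho a + rho b) := by
  have key : ∀ m c : ℝ, 0 ≤ m → |c| ≤ 2 * m → rho c ≤ 8 * rho m := by
    intro m c hm hc
    have h1 : c ^ 2 ≤ 4 * m ^ 2 := by
      rw [← sq_abs c]
      nlinarith [abs_nonneg c]
    have h2 : |c| ^ 3 ≤ 8 * m ^ 3 := by
      calc |c| ^ 3 ≤ (2 * m) ^ 3 := pow_le_pow_left₀ (abs_nonneg c) hc 3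
        _ = 8 * m ^ 3 := by ring
    unfold rho
    rw [abs_of_nonneg hm]
    rcases le_total (m ^ 2) (m ^ 3) with h | h
    · rw [min_eq_left h]
      exact (min_le_left _ _).trans (by nlinarith [sq_nonneg m])
    · rw [min_eq_right h]
      exact (min_le_right _ _).trans h2
  have hr : ∀ c : ℝ, rho |c| = rho c := fun c => by unfold rho; rw [sq_abs, abs_abs]
  rcases le_total |a| |b| with h | h
  · have h1 := key |b| (a - b) (abs_nonneg b) ((abs_sub _ _).trans (by linarith))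
    rw [hr] at h1
    linarith [cross_rho_nonneg a]
  · have h1 := key |a| (a - b) (abs_nonneg a) ((abs_sub _ _).trans (by linarith))
    rw [hr] at h1
    linarith [cross_rho_nonneg b]

theorem cross_main (hν : GoodNu ν) (hX : IsHWMotion β ν x P X) {D E : Finset (Fin n)}
    (hD : D.Nonempty) (hE : E.Nonempty) {κ η : ℝ} (hκ : 0 < κ) (hη : 0 < η) {t h : ℝ≥0}
    {Y : Ω → ℝ} (hY : StronglyMeasurable[Filtration.natural X hX.meas t] Y)
    (h1 : ∀ ω, |Y ω| ≤ 1)
    (hs : ∀ ω, Y ω ≠ 0 → η ≤ E.inf' hE (X t ω) - D.sup' hD (X t ω)) :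
    |∫ ω, Y ω * ((D.sup' hD (X (t + h) ω) - D.sup' hD (X t ω)) *
        (E.inf' hE (X (t + h) ω) - E.inf' hE (X t ω))) ∂P| ≤
      (n : ℝ) ^ 2 * ((h : ℝ) ^ 2 / η ^ 2 + (β * h) ^ 2) +
      (κ * ((bp β ν - bm β ν) * h) +
        4 * max 1 (1 / κ) * (8 * (lind β P X t h + n * (β * h) ^ 2))) := by
  classical
  set ℱ := Filtration.natural X hX.meas with hℱ
  set t' : ℝ≥0 := t + h with ht'
  have htt : t ≤ t' := le_self_add
  have hct : ((t' : ℝ≥0) : ℝ) = t + h := by rw [ht', NNReal.coe_add]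
  -- increments
  set d : Fin n → Ω → ℝ := fun k ω => X t' ω k - X t ω k with hd
  set A : Ω → ℝ := fun ω => D.sup' hD (X t' ω) - D.sup' hD (X t ω) with hA
  set B : Ω → ℝ := fun ω => E.inf' hE (X t' ω) - E.inf' hE (X t ω) with hB
  set a : Fin n → Ω → ℝ := fun i ω => cross_w D (D.sup' hD (X t ω)) (X t ω) i with ha
  set b : Fin n → Ω → ℝ := fun j ω => cross_w E (E.inf' hE (X t ω)) (X t ω) j with hb
  have hXm : ∀ s, Measurable (X s) := fun s => (hX.meas s).measurable
  have hdL : ∀ k, MemLp (d k) 2 P := fun k => (hX.sq t' k).sub (hX.sq t k)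
  have hsumL : MemLp (fun ω => ∑ k, |d k ω|) 2 P :=
    memLp_finsetSum _ (fun k _ => (hdL k).norm)
  have hAm : AEStronglyMeasurable A P :=
    (((cross_sup_meas hD).comp (hXm t')).sub
      ((cross_sup_meas hD).comp (hXm t))).aestronglyMeasurable
  have hBm : AEStronglyMeasurable B P :=
    (((cross_inf_meas hE).comp (hXm t')).sub
      ((cross_inf_meas hE).comp (hXm t))).aestronglyMeasurable
  have hAL : MemLp A 2 P := by
    refine hsumL.mono hAm (Eventually.of_forall fun ω => ?_)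
    have := cross_sup_le hD (X t ω) (X t' ω)
    rw [Real.norm_eq_abs, Real.norm_eq_abs]
    exact this.trans (le_abs_self _)
  have hBL : MemLp B 2 P := by
    refine hsumL.mono hBm (Eventually.of_forall fun ω => ?_)
    have := cross_inf_le hE (X t ω) (X t' ω)
    rw [Real.norm_eq_abs, Real.norm_eq_abs]
    exact this.trans (le_abs_self _)
  have hYm : AEStronglyMeasurable Y P := (hY.mono (ℱ.le t)).aestronglyMeasurable
  -- weights
  have ham : ∀ i, StronglyMeasurable[ℱ t] (a i) := fun i =>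
    ((cross_w_meas D (cross_sup_meas hD) i).comp (cross_meas hX t)).stronglyMeasurable
  have hbm : ∀ j, StronglyMeasurable[ℱ t] (b j) := fun j =>
    ((cross_w_meas E (cross_inf_meas hE) j).comp (cross_meas hX t)).stronglyMeasurable
  have ha0 : ∀ i ω, 0 ≤ a i ω := fun i ω => cross_w_nonneg _ _ _ _
  have hb0 : ∀ j ω, 0 ≤ b j ω := fun j ω => cross_w_nonneg _ _ _ _
  have ha1 : ∀ i ∈ D, ∀ ω, a i ω ≤ 1 := fun i hi ω => cross_w_le _ _ hi
  have hb1 : ∀ j ∈ E, ∀ ω, b j ω ≤ 1 := fun j hj ω => cross_w_le _ _ hj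
  have haabs : ∀ i ∈ D, ∀ ω, |a i ω| ≤ 1 := fun i hi ω =>
    abs_le.2 ⟨by linarith [ha0 i ω], ha1 i hi ω⟩
  have hbabs : ∀ j ∈ E, ∀ ω, |b j ω| ≤ 1 := fun j hj ω =>
    abs_le.2 ⟨by linarith [hb0 j ω], hb1 j hj ω⟩
  have hasum : ∀ ω, ∑ i ∈ D, a i ω = 1 := by
    intro ω
    refine cross_w_sum ?_
    obtain ⟨k, hk, hk2⟩ := Finset.exists_mem_eq_sup' hD (X t ω)
    exact ⟨k, hk, hk2.symm⟩
  have hbsum : ∀ ω, ∑ j ∈ E, b j ω = 1 := by
    intro ω
    refine cross_w_sum ?_
    obtain ⟨k, hk, hk2⟩ := Finset.exists_mem_eq_inf' hE (X t ω)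
    exact ⟨k, hk, hk2.symm⟩
  -- products with bounded functions
  have hbd : ∀ (W : Ω → ℝ), StronglyMeasurable[ℱ t] W → (∀ ω, |W ω| ≤ 1) → ∀ g : Ω → ℝ,
      Integrable g P → Integrable (fun ω => W ω * g ω) P := fun W hW hW1 g hg =>
    Integrable.bdd_mul (c := 1) hg (hW.mono (ℱ.le t)).aestronglyMeasurable
      (Eventually.of_forall hW1)
  have hint1 : ∀ (W : Ω → ℝ), StronglyMeasurable[ℱ t] W → (∀ ω, |W ω| ≤ 1) →
      Integrable W P := fun W hW hW1 =>
    Integrable.of_bound (hW.mono (ℱ.le t)).aestronglyMeasurable 1 (Eventually.of_forall hW1)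
  have hdi : ∀ k, Integrable (d k) P := fun k => (hdL k).integrable one_le_two
  have hddi : ∀ k l, Integrable (fun ω => d k ω * d l ω) P := fun k l =>
    (hdL k).integrable_mul (hdL l)
  have hAi : Integrable A P := hAL.integrable one_le_two
  have hBi : Integrable B P := hBL.integrable one_le_two
  have hABi : Integrable (fun ω => A ω * B ω) P := hAL.integrable_mul hBL
  -- first moments
  have hfirst : ∀ (k : Fin n) (W : Ω → ℝ), StronglyMeasurable[ℱ t] W → (∀ ω, |W ω| ≤ 1) →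
      ∫ ω, W ω * d k ω ∂P = β * h * ∫ ω, W ω ∂P := by
    intro k W hW hW1
    have h2 := mart_inc hX k htt hW hW1
    have e : ∀ ω, W ω * ((X t' ω k - β * t') - (X t ω k - β * t)) =
        W ω * d k ω - (β * h) * W ω := by
      intro ω
      simp only [hd]
      rw [hct]; ring
    rw [integral_congr_ae (Eventually.of_forall e), integral_sub (hbd W hW hW1 _ (hdi k))
      ((hint1 W hW hW1).const_mul _), integral_const_mul] at h2
    linarith
  -- second moments
  have hsecond : ∀ (i j : Fin n) (W : Ω → ℝ), StronglyMeasurable[ℱ t] W → (∀ ω, |W ω| ≤ 1) →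
      (∀ ω, W ω ≠ 0 → η ≤ X t ω j - X t ω i) →
      |∫ ω, W ω * (d i ω * d j ω) ∂P| ≤ (h : ℝ) ^ 2 / η ^ 2 + (β * h) ^ 2 := by
    intro i j W hW hW1 hWs
    have h2 := bracket_inc hX i j htt hW hW1
    have h3 := cross_meet hX i j (h := h) hW hW1 hη hWs
    rw [← ht'] at h3
    rw [← h2] at h3
    have e : ∀ ω, W ω * (((X t' ω i - β * t') - (X t ω i - β * t)) *
        ((X t' ω j - β * t') - (X t ω j - β * t))) =
        W ω * (d i ω * d j ω) - (β * h) * (W ω * d i ω) - (β * h) * (W ω * d j ω) +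
          (β * h) ^ 2 * W ω := by
      intro ω
      simp only [hd]
      rw [hct]; ring
    have c0 := hbd W hW hW1 _ (hddi i j)
    have c1 : Integrable (fun ω => (β * h) * (W ω * d i ω)) P :=
      (hbd W hW hW1 _ (hdi i)).const_mul _
    have c2 : Integrable (fun ω => (β * h) * (W ω * d j ω)) P :=
      (hbd W hW hW1 _ (hdi j)).const_mul _
    have c3 : Integrable (fun ω => (β * h) ^ 2 * W ω) P := (hint1 W hW hW1).const_mul _
    have c4 : Integrable (fun ω => W ω * (d i ω * d j ω) - (β * h) * (W ω * d i ω)) P :=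
      c0.sub c1
    have c5 : Integrable (fun ω => W ω * (d i ω * d j ω) - (β * h) * (W ω * d i ω) -
        (β * h) * (W ω * d j ω)) P := c4.sub c2
    rw [integral_congr_ae (Eventually.of_forall e), integral_add c5 c3, integral_sub c4 c2,
      integral_sub c0 c1, integral_const_mul, integral_const_mul, integral_const_mul,
      hfirst i W hW hW1, hfirst j W hW hW1] at h3
    have h4 : |∫ ω, W ω ∂P| ≤ 1 := by
      refine (abs_integral_le_integral_abs).trans ?_
      calc ∫ ω, |W ω| ∂P ≤ ∫ _, (1 : ℝ) ∂P :=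
            integral_mono (hint1 W hW hW1).abs (integrable_const _) hW1
        _ = 1 := by simp
    have h5 : ∫ ω, W ω * (d i ω * d j ω) ∂P =
        (∫ ω, W ω * (d i ω * d j ω) ∂P - β * h * (β * h * ∫ ω, W ω ∂P) -
          β * h * (β * h * ∫ ω, W ω ∂P) + (β * h) ^ 2 * ∫ ω, W ω ∂P) +
          (β * h) ^ 2 * ∫ ω, W ω ∂P := by ring
    rw [h5]
    refine (abs_add_le _ _).trans (add_le_add h3 ?_)
    rw [abs_mul, abs_of_nonneg (sq_nonneg _)]
    exact mul_le_of_le_one_right (sq_nonneg _) h4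
  -- rho of increments
  have hrhoi : ∀ k, Integrable (fun ω => rho (d k ω)) P := by
    intro k
    refine Integrable.mono' (hdL k).integrable_sq
      (cross_rho_cont.comp_aestronglyMeasurable (hdL k).aestronglyMeasurable)
      (Eventually.of_forall fun ω => ?_)
    rw [Real.norm_eq_abs, abs_of_nonneg (cross_rho_nonneg _)]
    exact cross_rho_le _
  have hrho : ∫ ω, ∑ k, rho (d k ω) ∂P ≤ 8 * (lind β P X t h + n * (β * h) ^ 2) := by
    rw [integral_finsetSum _ (fun k _ => hrhoi k)]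
    have h2 : ∀ k, ∫ ω, rho (d k ω) ∂P ≤
        8 * (∫ ω, rho ((X (t + h) ω k - β * (t + h)) - (X t ω k - β * t)) ∂P +
          (β * h) ^ 2) := by
      intro k
      set g : Ω → ℝ := fun ω => (X (t + h) ω k - β * (t + h)) - (X t ω k - β * t) with hg
      have hgL : MemLp g 2 P :=
        ((hX.sq (t + h) k).sub (memLp_const _)).sub ((hX.sq t k).sub (memLp_const _))
      have hgi : Integrable (fun ω => rho (g ω)) P := by
        refine Integrable.mono' hgL.integrable_sq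
          (cross_rho_cont.comp_aestronglyMeasurable hgL.aestronglyMeasurable)
          (Eventually.of_forall fun ω => ?_)
        rw [Real.norm_eq_abs, abs_of_nonneg (cross_rho_nonneg _)]
        exact cross_rho_le _
      have hp : ∀ ω, rho (d k ω) ≤ 8 * (rho (g ω) + (β * h) ^ 2) := by
        intro ω
        have e : d k ω = g ω - (-(β * h)) := by
          simp only [hd, hg, ht']; ring
        rw [e]
        refine (cross_rho_sub _ _).trans ?_
        have := cross_rho_le (-(β * h))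
        rw [neg_sq] at this
        linarith
      calc ∫ ω, rho (d k ω) ∂P ≤ ∫ ω, 8 * (rho (g ω) + (β * h) ^ 2) ∂P :=
            integral_mono (hrhoi k) ((hgi.add (integrable_const _)).const_mul _) hp
        _ = 8 * (∫ ω, rho (g ω) ∂P + (β * h) ^ 2) := by
            rw [integral_const_mul, integral_add hgi (integrable_const _)]
            simp
    calc ∑ k, ∫ ω, rho (d k ω) ∂P ≤ ∑ k, 8 * (∫ ω, rho ((X (t + h) ω k - β * (t + h)) -
            (X t ω k - β * t)) ∂P + (β * h) ^ 2) := Finset.sum_le_sum fun k _ => h2 k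
      _ = 8 * (lind β P X t h + n * (β * h) ^ 2) := by
          rw [← Finset.mul_sum, Finset.sum_add_distrib]
          simp [lind]
  -- the drifts
  have hone : StronglyMeasurable[ℱ t] (fun _ : Ω => (1 : ℝ)) := stronglyMeasurable_const
  have hAdr : ∫ ω, A ω ∂P ≤ bp β ν * h := by
    have := max_drift hν hX hD htt hone (fun _ => zero_le_one) (fun _ => le_refl (1 : ℝ))
    simp only [one_mul, integral_const, probReal_univ, smul_eq_mul, mul_one] at this
    rw [hct] at this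
    calc ∫ ω, A ω ∂P ≤ bp β ν * ((t : ℝ) + h - t) := this
      _ = bp β ν * h := by ring
  have hBdr : bm β ν * h ≤ ∫ ω, B ω ∂P := by
    have := min_drift hν hX hE htt hone (fun _ => zero_le_one) (fun _ => le_refl (1 : ℝ))
    simp only [one_mul, integral_const, probReal_univ, smul_eq_mul, mul_one] at this
    rw [hct] at this
    calc bm β ν * h = bm β ν * ((t : ℝ) + h - t) := by ring
      _ ≤ ∫ ω, B ω ∂P := this
  have hadi : ∀ i ∈ D, Integrable (fun ω => a i ω * d i ω) P := fun i hi =>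
    hbd _ (ham i) (haabs i hi) _ (hdi i)
  have hbdi : ∀ j ∈ E, Integrable (fun ω => b j ω * d j ω) P := fun j hj =>
    hbd _ (hbm j) (hbabs j hj) _ (hdi j)
  have hasi : Integrable (fun ω => ∑ i ∈ D, a i ω * d i ω) P := integrable_finsetSum _ hadi
  have hbsi : Integrable (fun ω => ∑ j ∈ E, b j ω * d j ω) P := integrable_finsetSum _ hbdi
  have hamean : ∫ ω, ∑ i ∈ D, a i ω * d i ω ∂P = β * h := by
    rw [integral_finsetSum _ hadi, Finset.sum_congr rfl
      (fun i hi => hfirst i (a i) (ham i) (haabs i hi)), ← Finset.mul_sum,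
      ← integral_finsetSum _ (fun i hi => hint1 _ (ham i) (haabs i hi))]
    simp [hasum]
  have hbmean : ∫ ω, ∑ j ∈ E, b j ω * d j ω ∂P = β * h := by
    rw [integral_finsetSum _ hbdi, Finset.sum_congr rfl
      (fun j hj => hfirst j (b j) (hbm j) (hbabs j hj)), ← Finset.mul_sum,
      ← integral_finsetSum _ (fun j hj => hint1 _ (hbm j) (hbabs j hj))]
    simp [hbsum]
  -- the main term
  have hWm : ∀ i j, StronglyMeasurable[ℱ t] (fun ω => Y ω * (a i ω * b j ω)) := fun i j =>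
    hY.mul ((ham i).mul (hbm j))
  have hW1 : ∀ i ∈ D, ∀ j ∈ E, ∀ ω, |Y ω * (a i ω * b j ω)| ≤ 1 := by
    intro i hi j hj ω
    rw [abs_mul, abs_mul]
    exact mul_le_one₀ (h1 ω) (by positivity)
      (mul_le_one₀ (haabs i hi ω) (abs_nonneg _) (hbabs j hj ω))
  have hWs : ∀ i j, ∀ ω, Y ω * (a i ω * b j ω) ≠ 0 → η ≤ X t ω j - X t ω i := by
    intro i j ω hne
    have n1 : Y ω ≠ 0 := left_ne_zero_of_mul hne
    have n2 : a i ω ≠ 0 := left_ne_zero_of_mul (right_ne_zero_of_mul hne)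
    have n3 : b j ω ≠ 0 := right_ne_zero_of_mul (right_ne_zero_of_mul hne)
    rw [cross_w_ne n2, cross_w_ne n3]
    exact hs ω n1
  have hmi : ∀ i ∈ D, ∀ j ∈ E, Integrable (fun ω => (Y ω * (a i ω * b j ω)) *
      (d i ω * d j ω)) P := fun i hi j hj =>
    hbd _ (hWm i j) (hW1 i hi j hj) _ (hddi i j)
  have hmi2 : ∀ i ∈ D, Integrable (fun ω => ∑ j ∈ E, (Y ω * (a i ω * b j ω)) *
      (d i ω * d j ω)) P := fun i hi => integrable_finsetSum _ (hmi i hi)
  have hmi3 : Integrable (fun ω => ∑ i ∈ D, ∑ j ∈ E, (Y ω * (a i ω * b j ω)) *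
      (d i ω * d j ω)) P := integrable_finsetSum _ hmi2
  have hmain : |∫ ω, ∑ i ∈ D, ∑ j ∈ E, (Y ω * (a i ω * b j ω)) * (d i ω * d j ω) ∂P| ≤
      (n : ℝ) ^ 2 * ((h : ℝ) ^ 2 / η ^ 2 + (β * h) ^ 2) := by
    rw [integral_finsetSum _ hmi2]
    have hq : 0 ≤ (h : ℝ) ^ 2 / η ^ 2 + (β * h) ^ 2 := by positivity
    have hcD : (D.card : ℝ) ≤ n := by
      have := D.card_le_univ
      rw [Fintype.card_fin] at this
      exact_mod_cast this
    have hcE : (E.card : ℝ) ≤ n := by
      have := E.card_le_univ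
      rw [Fintype.card_fin] at this
      exact_mod_cast this
    calc |∑ i ∈ D, ∫ ω, ∑ j ∈ E, (Y ω * (a i ω * b j ω)) * (d i ω * d j ω) ∂P|
        ≤ ∑ i ∈ D, |∫ ω, ∑ j ∈ E, (Y ω * (a i ω * b j ω)) * (d i ω * d j ω) ∂P| :=
          Finset.abs_sum_le_sum_abs _ _
      _ ≤ ∑ i ∈ D, ∑ j ∈ E, ((h : ℝ) ^ 2 / η ^ 2 + (β * h) ^ 2) := by
          refine Finset.sum_le_sum fun i hi => ?_
          rw [integral_finsetSum _ (hmi i hi)]
          refine (Finset.abs_sum_le_sum_abs _ _).trans (Finset.sum_le_sum fun j hj => ?_)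
          exact hsecond i j _ (hWm i j) (hW1 i hi j hj) (hWs i j)
      _ = (D.card : ℝ) * ((E.card : ℝ) * ((h : ℝ) ^ 2 / η ^ 2 + (β * h) ^ 2)) := by
          simp only [Finset.sum_const, nsmul_eq_mul]
      _ ≤ (n : ℝ) * ((n : ℝ) * ((h : ℝ) ^ 2 / η ^ 2 + (β * h) ^ 2)) := by gcongr
      _ = _ := by ring
  -- the remainder
  have hrem : ∀ ω, |Y ω * (A ω * B ω) -
      ∑ i ∈ D, ∑ j ∈ E, (Y ω * (a i ω * b j ω)) * (d i ω * d j ω)| ≤
      κ * ((A ω - ∑ i ∈ D, a i ω * d i ω) + ((∑ j ∈ E, b j ω * d j ω) - B ω)) +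
        4 * max 1 (1 / κ) * ∑ k, rho (d k ω) := by
    intro ω
    refine cross_alg D E (fun i => a i ω) (fun j => b j ω) (fun k => d k ω)
      (fun i => ha0 i ω) (fun j => hb0 j ω) (hasum ω) (hbsum ω) (h1 ω) ?_
    intro i hi j hj hai hbj
    exact cross_pt hD hE (X t ω) (X t' ω) hκ hi hj (cross_w_ne hai) (cross_w_ne hbj)
  have hYABi : Integrable (fun ω => Y ω * (A ω * B ω)) P := hbd Y hY h1 _ hABi
  have hsr : Integrable (fun ω => ∑ k, rho (d k ω)) P :=
    integrable_finsetSum _ (fun k _ => hrhoi k)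
  have r1 : Integrable (fun ω => A ω - ∑ i ∈ D, a i ω * d i ω) P := hAi.sub hasi
  have r2 : Integrable (fun ω => (∑ j ∈ E, b j ω * d j ω) - B ω) P := hbsi.sub hBi
  have r3 : Integrable (fun ω => κ * ((A ω - ∑ i ∈ D, a i ω * d i ω) +
      ((∑ j ∈ E, b j ω * d j ω) - B ω))) P := (r1.add r2).const_mul κ
  have r4 : Integrable (fun ω => 4 * max 1 (1 / κ) * ∑ k, rho (d k ω)) P := hsr.const_mul _
  have hdiff : |∫ ω, Y ω * (A ω * B ω) ∂P -
      ∫ ω, ∑ i ∈ D, ∑ j ∈ E, (Y ω * (a i ω * b j ω)) * (d i ω * d j ω) ∂P| ≤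
      κ * ((bp β ν - bm β ν) * h) +
        4 * max 1 (1 / κ) * (8 * (lind β P X t h + n * (β * h) ^ 2)) := by
    rw [← integral_sub hYABi hmi3]
    refine (abs_integral_le_integral_abs).trans ?_
    have h2 : ∫ ω, |Y ω * (A ω * B ω) -
        ∑ i ∈ D, ∑ j ∈ E, (Y ω * (a i ω * b j ω)) * (d i ω * d j ω)| ∂P ≤
        ∫ ω, (κ * ((A ω - ∑ i ∈ D, a i ω * d i ω) + ((∑ j ∈ E, b j ω * d j ω) - B ω)) +
        4 * max 1 (1 / κ) * ∑ k, rho (d k ω)) ∂P :=
      integral_mono (hYABi.sub hmi3).abs (r3.add r4) hrem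
    refine h2.trans ?_
    rw [integral_add r3 r4, integral_const_mul, integral_const_mul, integral_add r1 r2,
      integral_sub hAi hasi, integral_sub hbsi hBi, hamean, hbmean]
    refine add_le_add ?_ ?_
    · refine mul_le_mul_of_nonneg_left ?_ hκ.le
      have e : (bp β ν - bm β ν) * (h : ℝ) = bp β ν * h - bm β ν * h := by ring
      rw [e]
      linarith
    · refine mul_le_mul_of_nonneg_left hrho ?_
      positivity
  have hfin : ∫ ω, Y ω * (A ω * B ω) ∂P =
      ∫ ω, ∑ i ∈ D, ∑ j ∈ E, (Y ω * (a i ω * b j ω)) * (d i ω * d j ω) ∂P +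
      (∫ ω, Y ω * (A ω * B ω) ∂P -
        ∫ ω, ∑ i ∈ D, ∑ j ∈ E, (Y ω * (a i ω * b j ω)) * (d i ω * d j ω) ∂P) := by ring
  show |∫ ω, Y ω * (A ω * B ω) ∂P| ≤ _
  rw [hfin]
  exact (abs_add_le _ _).trans (add_le_add hmain hdiff)

end

variable {n : ℕ} {f : ℝ → ℝ}

theorem cross {ν : Measure ℝ} (hν : GoodNu ν) (β : ℝ) (n : ℕ) : ∃ C : ℝ, 0 ≤ C ∧
    ∀ κ η : ℝ, 0 < κ → 0 < η → ∃ C' : ℝ, 0 ≤ C' ∧ ∀ (x : Fin n → ℝ) (Ω : Type)
      [MeasurableSpace Ω] (P : Measure Ω) [IsProbabilityMeasure P] (X : ℝ≥0 → Ω → (Fin n → ℝ))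
      (hX : IsHWMotion β ν x P X) (D E : Finset (Fin n)) (hD : D.Nonempty) (hE : E.Nonempty)
      (t h : ℝ≥0) (Y : Ω → ℝ),
      h ≤ 1 → StronglyMeasurable[Filtration.natural X hX.meas t] Y → (∀ ω, |Y ω| ≤ 1) →
      (∀ ω, Y ω ≠ 0 → η ≤ E.inf' hE (X t ω) - D.sup' hD (X t ω)) →
      |∫ ω, Y ω * ((D.sup' hD (X (t + h) ω) - D.sup' hD (X t ω)) *
        (E.inf' hE (X (t + h) ω) - E.inf' hE (X t ω))) ∂P| ≤
        C * κ * h + C' * (lind β P X t h + h ^ 2) := by
  obtain ⟨hb1, hb2⟩ := bm_le hν β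
  refine ⟨bp β ν - bm β ν, by linarith, ?_⟩
  intro κ η hκ hη
  have hm : (0 : ℝ) ≤ max 1 (1 / κ) := le_trans zero_le_one (le_max_left _ _)
  refine ⟨(n : ℝ) ^ 2 * (1 / η ^ 2 + β ^ 2) + 32 * max 1 (1 / κ) * (1 + n * β ^ 2),
    by positivity, ?_⟩
  intro x Ω _ P _ X hX D E hD hE t h Y _ hY h1 hs
  refine (cross_main hν hX hD hE hκ hη hY h1 hs).trans ?_
  have hl : 0 ≤ lind β P X t h := by
    unfold lind
    exact Finset.sum_nonneg fun k _ => integral_nonneg fun ω => cross_rho_nonneg _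
  have e1 : (n : ℝ) ^ 2 * ((h : ℝ) ^ 2 / η ^ 2 + (β * h) ^ 2) =
      (n : ℝ) ^ 2 * (1 / η ^ 2 + β ^ 2) * h ^ 2 := by ring
  have e2 : 4 * max 1 (1 / κ) * (8 * (lind β P X t h + n * (β * h) ^ 2)) =
      32 * max 1 (1 / κ) * (lind β P X t h + (n * β ^ 2) * h ^ 2) := by ring
  rw [e1, e2]
  have hq : 0 ≤ (n : ℝ) ^ 2 * (1 / η ^ 2 + β ^ 2) := by positivity
  have hh : 0 ≤ (h : ℝ) ^ 2 := by positivity
  have hnb : 0 ≤ (n : ℝ) * β ^ 2 := by positivity
  have i1 : (n : ℝ) ^ 2 * (1 / η ^ 2 + β ^ 2) * (h : ℝ) ^ 2 ≤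
      (n : ℝ) ^ 2 * (1 / η ^ 2 + β ^ 2) * (lind β P X t h + h ^ 2) :=
    mul_le_mul_of_nonneg_left (by linarith) hq
  have i2 : lind β P X t h + (n * β ^ 2) * (h : ℝ) ^ 2 ≤
      (1 + n * β ^ 2) * (lind β P X t h + h ^ 2) := by
    nlinarith [mul_nonneg hnb hl]
  have i3 : 32 * max 1 (1 / κ) * (lind β P X t h + (n * β ^ 2) * (h : ℝ) ^ 2) ≤
      32 * max 1 (1 / κ) * ((1 + n * β ^ 2) * (lind β P X t h + h ^ 2)) :=
    mul_le_mul_of_nonneg_left i2 (by positivity)
  calc (n : ℝ) ^ 2 * (1 / η ^ 2 + β ^ 2) * (h : ℝ) ^ 2 + (κ * ((bp β ν - bm β ν) * h) +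
        32 * max 1 (1 / κ) * (lind β P X t h + (n * β ^ 2) * (h : ℝ) ^ 2))
      ≤ (n : ℝ) ^ 2 * (1 / η ^ 2 + β ^ 2) * (lind β P X t h + h ^ 2) +
        (κ * ((bp β ν - bm β ν) * h) +
        32 * max 1 (1 / κ) * ((1 + n * β ^ 2) * (lind β P X t h + h ^ 2))) := by linarith
    _ = (bp β ν - bm β ν) * κ * h + ((n : ℝ) ^ 2 * (1 / η ^ 2 + β ^ 2) +
        32 * max 1 (1 / κ) * (1 + n * β ^ 2)) * (lind β P X t h + h ^ 2) := by ring

end Pool.Agent.TH996.HW
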