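import Pool.Agent.TH996.HW.Dual

/-!
# Gaussian expectations of Taylor expansions (MP_b213bc_pr)
-/

set_option autoImplicit false

open MeasureTheory ProbabilityTheory Filter
open scoped NNReal ENNReal Topology

namespace Pool.Agent.TH996.HW

variable {n : ℕ} {f : ℝ → ℝ}

lemma GaussTaylor_rho_nonneg (x : ℝ) : 0 ≤ rho x := by
  unfold rho
  exact le_min (by positivity) (by positivity)

lemma GaussTaylor_rho_mono {x y : ℝ} (h : |x| ≤ |y|) : rho x ≤ rho y := by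
  unfold rho
  refine min_le_min ?_ ?_
  · rw [← sq_abs x, ← sq_abs y]
    gcongr
  · gcongr

lemma GaussTaylor_rho_two (x : ℝ) : rho (2 * x) ≤ 8 * rho x := by
  unfold rho
  have h1 : (2 * x) ^ 2 ≤ 8 * x ^ 2 := by nlinarith [sq_nonneg x]
  have h2 : |2 * x| ^ 3 = 8 * |x| ^ 3 := by
    rw [abs_mul, mul_pow]
    norm_num
  rw [h2, mul_min_of_nonneg _ _ (by norm_num : (0:ℝ) ≤ 8)]
  exact min_le_min h1 le_rfl

theorem rho_sub (a b : ℝ) : rho (a - b) ≤ 8 * (rho a + rho b) := by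
  have ha := GaussTaylor_rho_nonneg a
  have hb := GaussTaylor_rho_nonneg b
  have h1 : |a - b| ≤ |a| + |b| := abs_sub a b
  rcases le_total |a| |b| with h | h
  · have h2 : rho (a - b) ≤ rho (2 * b) := by
      apply GaussTaylor_rho_mono
      rw [abs_mul, abs_two]
      linarith
    have h3 := GaussTaylor_rho_two b
    linarith
  · have h2 : rho (a - b) ≤ rho (2 * a) := by
      apply GaussTaylor_rho_mono
      rw [abs_mul, abs_two]
      linarith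
    have h3 := GaussTaylor_rho_two a
    linarith

lemma GaussTaylor_std (b : ℝ) (s : ℝ≥0) :
    gaussianReal b s = (gaussianReal 0 1).map (fun z => √(s : ℝ) * z + b) := by
  have h1 : (gaussianReal 0 1).map (fun z => √(s : ℝ) * z) = gaussianReal 0 s := by
    rw [gaussianReal_map_const_mul]
    congr 1
    · simp
    · ext
      simp
  have h2 := gaussianReal_map_add_const (μ := 0) (v := s) b
  rw [← h1, Measure.map_map (by fun_prop) (by fun_prop), zero_add] at h2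
  exact h2.symm

lemma GaussTaylor_int3 (m : ℝ) (v : ℝ≥0) : Integrable (fun x => |x| ^ 3) (gaussianReal m v) := by
  have h := (memLp_id_gaussianReal (μ := m) (v := v) 3).integrable_norm_pow (p := 3) (by norm_num)
  simpa using h

lemma GaussTaylor_int2 (m : ℝ) (v : ℝ≥0) : Integrable (fun x => x ^ 2) (gaussianReal m v) := by
  have h := (memLp_id_gaussianReal (μ := m) (v := v) 2).integrable_sq
  simpa using h

lemma GaussTaylor_int1 (m : ℝ) (v : ℝ≥0) : Integrable (fun x => x) (gaussianReal m v) := by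
  exact (memLp_id_gaussianReal (μ := m) (v := v) 1).integrable (by norm_num)

lemma GaussTaylor_m1 (m : ℝ) (v : ℝ≥0) : ∫ x, x ∂(gaussianReal m v) = m := by
  exact integral_id_gaussianReal

lemma GaussTaylor_m2 (m : ℝ) (v : ℝ≥0) : ∫ x, x ^ 2 ∂(gaussianReal m v) = v + m ^ 2 := by
  have h1 := variance_id_gaussianReal (μ := m) (v := v)
  rw [variance_eq_sub (memLp_id_gaussianReal (μ := m) (v := v) 2)] at h1
  have h2 : ∫ x, (id : ℝ → ℝ) x ∂(gaussianReal m v) = m := integral_id_gaussianReal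
  rw [h2] at h1
  have h3 : ∫ x, x ^ 2 ∂(gaussianReal m v) = ∫ x, ((id : ℝ → ℝ) ^ 2) x ∂(gaussianReal m v) := rfl
  rw [h3]
  linarith

lemma GaussTaylor_sqrt {h : ℝ} (h0 : 0 ≤ h) (h1 : h ≤ 1) : h ^ 2 ≤ h * √h := by
  have h2 : h ≤ √h := by
    apply Real.le_sqrt_of_sq_le
    nlinarith
  nlinarith

lemma GaussTaylor_m3 (b : ℝ) : ∃ c : ℝ, 0 ≤ c ∧ ∀ h : ℝ≥0, h ≤ 1 →
    ∫ x, |x| ^ 3 ∂(gaussianReal (b * h) h) ≤ c * (h * √h) := by
  refine ⟨4 * (∫ z, |z| ^ 3 ∂(gaussianReal 0 1)) + 4 * |b| ^ 3, by positivity, ?_⟩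
  intro h hh
  have hh' : (h:ℝ) ≤ 1 := by exact_mod_cast hh
  rw [GaussTaylor_std, integral_map (by fun_prop) (by fun_prop)]
  have hs : √(h:ℝ) ^ 3 = h * √(h:ℝ) := by
    rw [pow_succ, Real.sq_sqrt h.coe_nonneg]
  have h3 : (h:ℝ) ^ 3 ≤ h * √(h:ℝ) := by
    have := GaussTaylor_sqrt h.coe_nonneg hh'
    have h4 : (h:ℝ) ^ 3 ≤ (h:ℝ) ^ 2 := by
      apply pow_le_pow_of_le_one h.coe_nonneg hh' (by norm_num)
    exact h4.trans this
  have hpt : ∀ z : ℝ, |√(h:ℝ) * z + b * h| ^ 3 ≤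
      4 * (h * √(h:ℝ)) * |z| ^ 3 + 4 * |b| ^ 3 * (h * √(h:ℝ)) := by
    intro z
    have h5 : |√(h:ℝ) * z + b * h| ≤ |√(h:ℝ) * z| + |b * h| := abs_add_le _ _
    have h6 := add_pow_le (abs_nonneg (√(h:ℝ) * z)) (abs_nonneg (b * h)) 3
    have h7 : |√(h:ℝ) * z| ^ 3 = (h * √(h:ℝ)) * |z| ^ 3 := by
      rw [abs_mul, mul_pow, abs_of_nonneg (Real.sqrt_nonneg _), hs]
    have h8 : |b * h| ^ 3 = |b| ^ 3 * (h:ℝ) ^ 3 := by
      rw [abs_mul, mul_pow, abs_of_nonneg h.coe_nonneg]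
    have h9 : |b| ^ 3 * (h:ℝ) ^ 3 ≤ |b| ^ 3 * (h * √(h:ℝ)) :=
      mul_le_mul_of_nonneg_left h3 (by positivity)
    calc |√(h:ℝ) * z + b * h| ^ 3 ≤ (|√(h:ℝ) * z| + |b * h|) ^ 3 := by gcongr
      _ ≤ 2 ^ (3 - 1) * (|√(h:ℝ) * z| ^ 3 + |b * h| ^ 3) := h6
      _ ≤ _ := by
        rw [h7, h8]
        norm_num
        linarith
  have hint : Integrable (fun z => 4 * (h * √(h:ℝ)) * |z| ^ 3 + 4 * |b| ^ 3 * (h * √(h:ℝ)))
      (gaussianReal 0 1) :=
    ((GaussTaylor_int3 0 1).const_mul _).add (integrable_const _)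
  have hmono := integral_mono_of_nonneg (μ := gaussianReal 0 1)
    (f := fun z => |√(h:ℝ) * z + b * h| ^ 3) (ae_of_all _ fun z => by positivity) hint
    (ae_of_all _ hpt)
  refine hmono.trans (le_of_eq ?_)
  rw [integral_add ((GaussTaylor_int3 0 1).const_mul _) (integrable_const _),
    integral_const_mul, integral_const]
  simp
  ring

lemma GaussTaylor_core (μ μ' : Measure ℝ) [IsProbabilityMeasure μ] [IsProbabilityMeasure μ']
    (φ : ℝ → ℝ → ℝ) (hφ : Measurable (fun z : ℝ × ℝ => φ z.1 z.2)) (P : ℝ × ℝ → ℝ)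
    (hP : Integrable P (μ.prod μ')) (Q : ℝ → ℝ) (hQ : Integrable Q μ) (hQ' : Integrable Q μ')
    (C0 : ℝ) (h : ∀ δ δ', |φ δ δ' - P (δ, δ')| ≤ C0 * (Q δ + Q δ')) :
    |∫ x, ∫ x', φ x x' ∂μ' ∂μ - ∫ z, P z ∂(μ.prod μ')| ≤ C0 * (∫ x, Q x ∂μ + ∫ x, Q x ∂μ') := by
  have hQ1 : Integrable (fun z : ℝ × ℝ => Q z.1) (μ.prod μ') := hQ.comp_fst μ'
  have hQ2 : Integrable (fun z : ℝ × ℝ => Q z.2) (μ.prod μ') := hQ'.comp_snd μ
  have hB : Integrable (fun z : ℝ × ℝ => C0 * (Q z.1 + Q z.2)) (μ.prod μ') :=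
    (hQ1.add hQ2).const_mul C0
  have hd : Integrable (fun z : ℝ × ℝ => φ z.1 z.2 - P z) (μ.prod μ') := by
    refine hB.mono' (hφ.aestronglyMeasurable.sub hP.aestronglyMeasurable) ?_
    exact ae_of_all _ fun z => by rw [Real.norm_eq_abs]; exact h z.1 z.2
  have hφi : Integrable (fun z : ℝ × ℝ => φ z.1 z.2) (μ.prod μ') := by
    have := hd.add hP
    refine this.congr (ae_of_all _ fun z => ?_)
    simp
  rw [← integral_prod (fun z : ℝ × ℝ => φ z.1 z.2) hφi, ← integral_sub hφi hP]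
  have h1 : ‖∫ z, (φ z.1 z.2 - P z) ∂(μ.prod μ')‖ ≤ ∫ z, C0 * (Q z.1 + Q z.2) ∂(μ.prod μ') :=
    norm_integral_le_of_norm_le hB (ae_of_all _ fun z => by
      rw [Real.norm_eq_abs]; exact h z.1 z.2)
  rw [Real.norm_eq_abs] at h1
  refine h1.trans (le_of_eq ?_)
  rw [integral_const_mul, integral_add hQ1 hQ2, integral_fun_fst, integral_fun_snd]
  simp

theorem gauss_fine (b b' : ℝ) : ∃ C : ℝ, 0 ≤ C ∧ ∀ (φ : ℝ → ℝ → ℝ) (F0 d1 d2 d11 d12 d22 K C0 : ℝ)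
    (h : ℝ≥0), h ≤ 1 → Measurable (fun z : ℝ × ℝ => φ z.1 z.2) → 0 ≤ K → 0 ≤ C0 →
    |d1| ≤ K → |d2| ≤ K → |d11| ≤ K → |d12| ≤ K → |d22| ≤ K →
    (∀ δ δ', |φ δ δ' - F0 - d1 * δ - d2 * δ' - d11 / 2 * δ ^ 2 - d12 * (δ * δ') -
      d22 / 2 * δ' ^ 2| ≤ C0 * (rho δ + rho δ')) →
    |∫ x, ∫ x', φ x x' ∂(gaussianReal (b' * h) h) ∂(gaussianReal (b * h) h) - F0 -
      h * (b * d1 + b' * d2 + d11 / 2 + d22 / 2)| ≤ C * (K + C0) * (h * √h) := by
  obtain ⟨c, hc, hcb⟩ := GaussTaylor_m3 b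
  obtain ⟨c', hc', hcb'⟩ := GaussTaylor_m3 b'
  refine ⟨c + c' + (b ^ 2 + |b * b'| + b' ^ 2), by positivity, ?_⟩
  intro φ F0 d1 d2 d11 d12 d22 K C0 h hh hφ hK hC0 h1 h2 h11 h12 h22 hφP
  have hh' : (h:ℝ) ≤ 1 := by exact_mod_cast hh
  have hh0 : (0:ℝ) ≤ h := h.coe_nonneg
  set μ := gaussianReal (b * h) h with hμ
  set μ' := gaussianReal (b' * h) h with hμ'
  have i1 : Integrable (fun z : ℝ × ℝ => z.1) (μ.prod μ') := (GaussTaylor_int1 _ _).comp_fst μ'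
  have i2 : Integrable (fun z : ℝ × ℝ => z.2) (μ.prod μ') := (GaussTaylor_int1 _ _).comp_snd μ
  have i11 : Integrable (fun z : ℝ × ℝ => z.1 ^ 2) (μ.prod μ') :=
    (GaussTaylor_int2 _ _).comp_fst μ'
  have i22 : Integrable (fun z : ℝ × ℝ => z.2 ^ 2) (μ.prod μ') :=
    (GaussTaylor_int2 _ _).comp_snd μ
  have i12 : Integrable (fun z : ℝ × ℝ => z.1 * z.2) (μ.prod μ') :=
    (GaussTaylor_int1 _ _).mul_prod (GaussTaylor_int1 _ _)
  have e1 : ∫ z : ℝ × ℝ, z.1 ∂(μ.prod μ') = b * h := by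
    rw [integral_fun_fst (fun x : ℝ => x), GaussTaylor_m1]; simp
  have e2 : ∫ z : ℝ × ℝ, z.2 ∂(μ.prod μ') = b' * h := by
    rw [integral_fun_snd (fun x : ℝ => x), GaussTaylor_m1]; simp
  have e11 : ∫ z : ℝ × ℝ, z.1 ^ 2 ∂(μ.prod μ') = h + (b * h) ^ 2 := by
    rw [integral_fun_fst (fun x : ℝ => x ^ 2), GaussTaylor_m2]; simp
  have e22 : ∫ z : ℝ × ℝ, z.2 ^ 2 ∂(μ.prod μ') = h + (b' * h) ^ 2 := by
    rw [integral_fun_snd (fun x : ℝ => x ^ 2), GaussTaylor_m2]; simp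
  have e12 : ∫ z : ℝ × ℝ, z.1 * z.2 ∂(μ.prod μ') = (b * h) * (b' * h) := by
    rw [integral_prod_mul (fun x : ℝ => x) (fun x : ℝ => x), GaussTaylor_m1, GaussTaylor_m1]
  have hP : Integrable (fun z : ℝ × ℝ => F0 + d1 * z.1 + d2 * z.2 + d11 / 2 * z.1 ^ 2 +
      d12 * (z.1 * z.2) + d22 / 2 * z.2 ^ 2) (μ.prod μ') :=
    ((((((integrable_const F0).add (i1.const_mul d1))).add (i2.const_mul d2)).add
      (i11.const_mul (d11 / 2))).add (i12.const_mul d12)).add (i22.const_mul (d22 / 2))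
  have hcore := GaussTaylor_core μ μ' φ hφ _ hP (fun x => |x| ^ 3) (GaussTaylor_int3 _ _)
    (GaussTaylor_int3 _ _) C0 (fun δ δ' => by
      have e : φ δ δ' - (F0 + d1 * δ + d2 * δ' + d11 / 2 * δ ^ 2 + d12 * (δ * δ') +
          d22 / 2 * δ' ^ 2) = φ δ δ' - F0 - d1 * δ - d2 * δ' - d11 / 2 * δ ^ 2 - d12 * (δ * δ') -
          d22 / 2 * δ' ^ 2 := by ring
      simp only [e]
      refine (hφP δ δ').trans (mul_le_mul_of_nonneg_left ?_ hC0)
      exact add_le_add (min_le_right _ _) (min_le_right _ _))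
  have hPe : ∫ z : ℝ × ℝ, (F0 + d1 * z.1 + d2 * z.2 + d11 / 2 * z.1 ^ 2 +
      d12 * (z.1 * z.2) + d22 / 2 * z.2 ^ 2) ∂(μ.prod μ') =
      F0 + d1 * (b * h) + d2 * (b' * h) + d11 / 2 * (h + (b * h) ^ 2) +
      d12 * ((b * h) * (b' * h)) + d22 / 2 * (h + (b' * h) ^ 2) := by
    have j1 : Integrable (fun z : ℝ × ℝ => F0 + d1 * z.1) (μ.prod μ') :=
      (integrable_const F0).add (i1.const_mul d1)
    have j2 : Integrable (fun z : ℝ × ℝ => F0 + d1 * z.1 + d2 * z.2) (μ.prod μ') :=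
      j1.add (i2.const_mul d2)
    have j3 : Integrable (fun z : ℝ × ℝ => F0 + d1 * z.1 + d2 * z.2 + d11 / 2 * z.1 ^ 2)
      (μ.prod μ') := j2.add (i11.const_mul (d11 / 2))
    have j4 : Integrable (fun z : ℝ × ℝ => F0 + d1 * z.1 + d2 * z.2 + d11 / 2 * z.1 ^ 2 +
      d12 * (z.1 * z.2)) (μ.prod μ') := j3.add (i12.const_mul d12)
    rw [integral_add j4 (i22.const_mul (d22 / 2)), integral_add j3 (i12.const_mul d12),
      integral_add j2 (i11.const_mul (d11 / 2)), integral_add j1 (i2.const_mul d2),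
      integral_add (integrable_const F0) (i1.const_mul d1)]
    simp only [integral_const_mul, e1, e2, e11, e22, e12, integral_const]
    simp
  rw [hPe] at hcore
  have hb3 := hcb h hh
  have hb3' := hcb' h hh
  have hs0 : 0 ≤ (h:ℝ) * √(h:ℝ) := by positivity
  have hsq := GaussTaylor_sqrt hh0 hh'
  set A := ∫ x, ∫ x', φ x x' ∂μ' ∂μ with hA
  have hX : |d11 / 2 * (b * h) ^ 2 + d12 * ((b * h) * (b' * h)) + d22 / 2 * (b' * h) ^ 2| ≤
      K * (b ^ 2 + |b * b'| + b' ^ 2) * (h * √(h:ℝ)) := by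
    have t1 : |d11 / 2 * (b * h) ^ 2| ≤ K * b ^ 2 * (h:ℝ) ^ 2 := by
      rw [abs_mul, abs_div, abs_two, mul_pow, abs_of_nonneg (by positivity : 0 ≤ b ^ 2 * (h:ℝ) ^ 2)]
      have : |d11| / 2 ≤ K := by linarith [abs_nonneg d11]
      calc _ ≤ K * (b ^ 2 * (h:ℝ) ^ 2) := mul_le_mul_of_nonneg_right this (by positivity)
        _ = _ := by ring
    have t2 : |d12 * ((b * h) * (b' * h))| ≤ K * |b * b'| * (h:ℝ) ^ 2 := by
      have : (b * h) * (b' * h) = (b * b') * (h:ℝ) ^ 2 := by ring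
      rw [this, abs_mul, abs_mul, abs_of_nonneg (by positivity : 0 ≤ (h:ℝ) ^ 2), mul_assoc K]
      exact mul_le_mul_of_nonneg_right h12 (by positivity)
    have t3 : |d22 / 2 * (b' * h) ^ 2| ≤ K * b' ^ 2 * (h:ℝ) ^ 2 := by
      rw [abs_mul, abs_div, abs_two, mul_pow, abs_of_nonneg (by positivity : 0 ≤ b' ^ 2 * (h:ℝ) ^ 2)]
      have : |d22| / 2 ≤ K := by linarith [abs_nonneg d22]
      calc _ ≤ K * (b' ^ 2 * (h:ℝ) ^ 2) := mul_le_mul_of_nonneg_right this (by positivity)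
        _ = _ := by ring
    have t4 := abs_add_three (d11 / 2 * (b * h) ^ 2) (d12 * ((b * h) * (b' * h)))
      (d22 / 2 * (b' * h) ^ 2)
    have t5 : K * (b ^ 2 + |b * b'| + b' ^ 2) * (h:ℝ) ^ 2 ≤
        K * (b ^ 2 + |b * b'| + b' ^ 2) * (h * √(h:ℝ)) :=
      mul_le_mul_of_nonneg_left hsq (by positivity)
    linarith
  have hY : C0 * (∫ x, |x| ^ 3 ∂μ + ∫ x, |x| ^ 3 ∂μ') ≤ C0 * (c + c') * (h * √(h:ℝ)) := by
    rw [mul_assoc]
    apply mul_le_mul_of_nonneg_left _ hC0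
    linarith
  have hfin : A - F0 - h * (b * d1 + b' * d2 + d11 / 2 + d22 / 2) =
      (A - (F0 + d1 * (b * h) + d2 * (b' * h) + d11 / 2 * (h + (b * h) ^ 2) +
      d12 * ((b * h) * (b' * h)) + d22 / 2 * (h + (b' * h) ^ 2))) +
      (d11 / 2 * (b * h) ^ 2 + d12 * ((b * h) * (b' * h)) + d22 / 2 * (b' * h) ^ 2) := by ring
  rw [hfin]
  refine (abs_add_le _ _).trans ((add_le_add (hcore.trans hY) hX).trans ?_)
  rw [← add_mul]
  apply mul_le_mul_of_nonneg_right _ hs0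
  have e1 : 0 ≤ (c + c') * K := by positivity
  have e2 : 0 ≤ (b ^ 2 + |b * b'| + b' ^ 2) * C0 := by positivity
  linarith

theorem gauss_crude (b b' : ℝ) : ∃ C : ℝ, 0 ≤ C ∧ ∀ (φ : ℝ → ℝ → ℝ) (F0 d1 d2 K C0 : ℝ)
    (h : ℝ≥0), h ≤ 1 → Measurable (fun z : ℝ × ℝ => φ z.1 z.2) → 0 ≤ K → 0 ≤ C0 →
    |d1| ≤ K → |d2| ≤ K →
    (∀ δ δ', |φ δ δ' - F0 - d1 * δ - d2 * δ'| ≤ C0 * (δ ^ 2 + δ' ^ 2)) →
    |∫ x, ∫ x', φ x x' ∂(gaussianReal (b' * h) h) ∂(gaussianReal (b * h) h) - F0| ≤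
      C * (K + C0) * h := by
  refine ⟨2 + b ^ 2 + b' ^ 2 + |b| + |b'|, by positivity, ?_⟩
  intro φ F0 d1 d2 K C0 h hh hφ hK hC0 h1 h2 hφP
  have hh' : (h:ℝ) ≤ 1 := by exact_mod_cast hh
  have hh0 : (0:ℝ) ≤ h := h.coe_nonneg
  set μ := gaussianReal (b * h) h with hμ
  set μ' := gaussianReal (b' * h) h with hμ'
  have i1 : Integrable (fun z : ℝ × ℝ => z.1) (μ.prod μ') := (GaussTaylor_int1 _ _).comp_fst μ'
  have i2 : Integrable (fun z : ℝ × ℝ => z.2) (μ.prod μ') := (GaussTaylor_int1 _ _).comp_snd μ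
  have e1 : ∫ z : ℝ × ℝ, z.1 ∂(μ.prod μ') = b * h := by
    rw [integral_fun_fst (fun x : ℝ => x), GaussTaylor_m1]; simp
  have e2 : ∫ z : ℝ × ℝ, z.2 ∂(μ.prod μ') = b' * h := by
    rw [integral_fun_snd (fun x : ℝ => x), GaussTaylor_m1]; simp
  have hP : Integrable (fun z : ℝ × ℝ => F0 + d1 * z.1 + d2 * z.2) (μ.prod μ') :=
    (((integrable_const F0).add (i1.const_mul d1))).add (i2.const_mul d2)
  have hcore := GaussTaylor_core μ μ' φ hφ _ hP (fun x => x ^ 2) (GaussTaylor_int2 _ _)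
    (GaussTaylor_int2 _ _) C0 (fun δ δ' => by
      have e : φ δ δ' - (F0 + d1 * δ + d2 * δ') = φ δ δ' - F0 - d1 * δ - d2 * δ' := by ring
      simp only [e]
      exact hφP δ δ')
  have hPe : ∫ z : ℝ × ℝ, (F0 + d1 * z.1 + d2 * z.2) ∂(μ.prod μ') =
      F0 + d1 * (b * h) + d2 * (b' * h) := by
    have j1 : Integrable (fun z : ℝ × ℝ => F0 + d1 * z.1) (μ.prod μ') :=
      (integrable_const F0).add (i1.const_mul d1)
    rw [integral_add j1 (i2.const_mul d2),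
      integral_add (integrable_const F0) (i1.const_mul d1)]
    simp only [integral_const_mul, e1, e2, integral_const]
    simp
  rw [hPe] at hcore
  rw [GaussTaylor_m2, GaussTaylor_m2] at hcore
  have hsq : (h:ℝ) ^ 2 ≤ h := by nlinarith
  set A := ∫ x, ∫ x', φ x x' ∂μ' ∂μ with hA
  have hX : |d1 * (b * h) + d2 * (b' * h)| ≤ K * (|b| + |b'|) * h := by
    have t1 : |d1 * (b * h)| ≤ K * |b| * h := by
      rw [abs_mul, abs_mul, abs_of_nonneg hh0, mul_assoc]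
      exact mul_le_mul_of_nonneg_right h1 (by positivity)
    have t2 : |d2 * (b' * h)| ≤ K * |b'| * h := by
      rw [abs_mul, abs_mul, abs_of_nonneg hh0, mul_assoc]
      exact mul_le_mul_of_nonneg_right h2 (by positivity)
    have t3 := abs_add_le (d1 * (b * h)) (d2 * (b' * h))
    linarith
  have hY : C0 * ((h + (b * h) ^ 2) + (h + (b' * h) ^ 2)) ≤ C0 * (2 + b ^ 2 + b' ^ 2) * h := by
    rw [mul_assoc]
    apply mul_le_mul_of_nonneg_left _ hC0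
    have t1 : b ^ 2 * (h:ℝ) ^ 2 ≤ b ^ 2 * h := mul_le_mul_of_nonneg_left hsq (by positivity)
    have t2 : b' ^ 2 * (h:ℝ) ^ 2 ≤ b' ^ 2 * h := mul_le_mul_of_nonneg_left hsq (by positivity)
    nlinarith
  have hfin : A - F0 = (A - (F0 + d1 * (b * h) + d2 * (b' * h))) +
      (d1 * (b * h) + d2 * (b' * h)) := by ring
  rw [hfin]
  refine (abs_add_le _ _).trans ((add_le_add (hcore.trans hY) hX).trans ?_)
  rw [← add_mul]
  apply mul_le_mul_of_nonneg_right _ hh0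
  have e1 : 0 ≤ (2 + b ^ 2 + b' ^ 2) * K := by positivity
  have e2 : 0 ≤ (|b| + |b'|) * C0 := by positivity
  linarith

end Pool.Agent.TH996.HW
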