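import Pool.Agent.TH996.HW.Dual

/-!
# Increments of the martingales (MP_b213bc_pr)
-/

set_option autoImplicit false

open MeasureTheory ProbabilityTheory Filter
open scoped NNReal ENNReal Topology

namespace Pool.Agent.TH996.HW

/-- The increments of a martingale are orthogonal to the past. -/
theorem incr_gen {Ω : Type} {m0 : MeasurableSpace Ω} {P : Measure Ω} [IsProbabilityMeasure P]
    {ℱ : Filtration ℝ≥0 m0} {N : ℝ≥0 → Ω → ℝ} (hN : Martingale N ℱ P) {t t' : ℝ≥0} (htt : t ≤ t')
    {G : Ω → ℝ} (hG : StronglyMeasurable[ℱ t] G)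
    (hi : Integrable (fun ω => G ω * (N t' ω - N t ω)) P) :
    ∫ ω, G ω * (N t' ω - N t ω) ∂P = 0 := by
  have h1 : P[(fun ω => G ω * (N t' ω - N t ω)) | ℱ t] =ᵐ[P]
      G * P[(fun ω => N t' ω - N t ω) | ℱ t] :=
    condExp_mul_of_stronglyMeasurable_left hG hi ((hN.integrable t').sub (hN.integrable t))
  have h2 : P[(fun ω => N t' ω - N t ω) | ℱ t] =ᵐ[P] 0 := by
    have h3 : P[N t' - N t | ℱ t] =ᵐ[P] P[N t' | ℱ t] - P[N t | ℱ t] :=
      condExp_sub (hN.integrable t') (hN.integrable t) _
    refine h3.trans ?_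
    have h4 := hN.condExp_ae_eq htt
    have h5 := hN.condExp_ae_eq (le_refl t)
    filter_upwards [h4, h5] with ω h4 h5
    simp only [Pi.sub_apply, Pi.zero_apply, h4, h5, sub_self]
  rw [← integral_condExp (ℱ.le t)]
  rw [integral_congr_ae (h1.trans (h2.mono fun ω h => by
    show (G * P[(fun ω => N t' ω - N t ω) | ℱ t]) ω = 0
    rw [Pi.mul_apply, h, Pi.zero_apply, mul_zero]))]
  simp

variable {n : ℕ} {f : ℝ → ℝ}
variable {β : ℝ} {ν : Measure ℝ} {x : Fin n → ℝ} {Ω : Type} [MeasurableSpace Ω]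
  {P : Measure Ω} [IsProbabilityMeasure P] {X : ℝ≥0 → Ω → (Fin n → ℝ)}

omit [IsProbabilityMeasure P] in
/-- `X_i(t) - β t` is a martingale. -/
theorem incr_mart (hX : IsHWMotion β ν x P X) (i : Fin n) :
    Martingale (fun (t : ℝ≥0) ω => X t ω i - β * t) (Filtration.natural X hX.meas) P := by
  classical
  have h := hX.maxMart {i} (Finset.singleton_nonempty i)
  have e : (fun (t : ℝ≥0) ω => fmax {i} (Finset.singleton_nonempty i) (X t ω) -
      ∫ s in (0 : ℝ)..t, betaPlus β ν (gmax {i} (Finset.singleton_nonempty i)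
        (X s.toNNReal ω))) = fun (t : ℝ≥0) ω => X t ω i - β * t := by
    funext t ω
    have h1 : ∀ u : Fin n → ℝ, fmax {i} (Finset.singleton_nonempty i) u = u i := by
      intro u
      unfold fmax
      exact Finset.sup'_singleton u
    have h2 : ∀ u : Fin n → ℝ, gmax {i} (Finset.singleton_nonempty i) u = 1 := by
      intro u
      unfold gmax
      rw [h1, Finset.filter_true_of_mem, Finset.card_singleton]
      intro j hj
      rw [Finset.mem_singleton.1 hj]
    have h3 : betaPlus β ν 1 = β := by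
      unfold betaPlus
      simp
    simp only [h1, h2, h3, intervalIntegral.integral_const, smul_eq_mul, sub_zero]
    ring
  rw [e] at h
  exact h

theorem incr_memLp (hX : IsHWMotion β ν x P X) (i : Fin n) (t : ℝ≥0) :
    MemLp (fun ω => X t ω i - β * t) 2 P :=
  (hX.sq t i).sub (memLp_const _)

theorem mart_inc (hX : IsHWMotion β ν x P X) (i : Fin n)
    {t t' : ℝ≥0} (htt : t ≤ t') {Y : Ω → ℝ}
    (hY : StronglyMeasurable[Filtration.natural X hX.meas t] Y) {C : ℝ} (hC : ∀ ω, |Y ω| ≤ C) :
    ∫ ω, Y ω * ((X t' ω i - β * t') - (X t ω i - β * t)) ∂P = 0 := by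
  have hM := incr_mart hX i
  refine incr_gen (N := fun (t : ℝ≥0) ω => X t ω i - β * t) hM htt hY ?_
  refine Integrable.bdd_mul (c := C) ((hM.integrable t').sub (hM.integrable t))
    (hY.mono ((Filtration.natural X hX.meas).le t)).aestronglyMeasurable
    (Eventually.of_forall hC)

omit [IsProbabilityMeasure P] in
/-- interval integrability of the indicator of a meeting -/
theorem incr_ii (hX : IsHWMotion β ν x P X) (i j : Fin n) (ω : Ω) (a b : ℝ) :
    IntervalIntegrable (fun s : ℝ => if X s.toNNReal ω i = X s.toNNReal ω j then (1 : ℝ) else 0)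
      volume a b := by
  classical
  have hc : Continuous (fun s : ℝ => X s.toNNReal ω) :=
    (hX.cont ω).comp continuous_real_toNNReal
  have hci : ∀ k, Continuous (fun s : ℝ => X s.toNNReal ω k) := fun k =>
    (continuous_apply k).comp hc
  have hs : MeasurableSet {s : ℝ | X s.toNNReal ω i = X s.toNNReal ω j} :=
    (isClosed_eq (hci i) (hci j)).measurableSet
  have hm : Measurable (fun s : ℝ => if X s.toNNReal ω i = X s.toNNReal ω j then (1 : ℝ) else 0) :=
    Measurable.ite hs measurable_const measurable_const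
  refine (intervalIntegrable_const (c := (1 : ℝ))).mono_fun hm.aestronglyMeasurable ?_
  refine Eventually.of_forall (fun s => ?_)
  dsimp only
  split_ifs <;> simp

theorem bracket_inc (hX : IsHWMotion β ν x P X) (i j : Fin n)
    {t t' : ℝ≥0} (htt : t ≤ t') {Y : Ω → ℝ}
    (hY : StronglyMeasurable[Filtration.natural X hX.meas t] Y) {C : ℝ} (hC : ∀ ω, |Y ω| ≤ C) :
    ∫ ω, Y ω * (((X t' ω i - β * t') - (X t ω i - β * t)) *
      ((X t' ω j - β * t') - (X t ω j - β * t))) ∂P =
      ∫ ω, Y ω * (∫ s in (t : ℝ)..t',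
        if X s.toNNReal ω i = X s.toNNReal ω j then (1 : ℝ) else 0) ∂P := by
  classical
  set ℱ := Filtration.natural X hX.meas with hℱ
  have hYm : AEStronglyMeasurable Y P := (hY.mono (ℱ.le t)).aestronglyMeasurable
  have hbd : ∀ g : Ω → ℝ, Integrable g P → Integrable (fun ω => Y ω * g ω) P := fun g hg =>
    Integrable.bdd_mul (c := C) hg hYm (Eventually.of_forall hC)
  set M : Fin n → ℝ≥0 → Ω → ℝ := fun k r ω => X r ω k - β * r with hMdef
  have hM : ∀ k, Martingale (M k) ℱ P := fun k => incr_mart hX k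
  have hL : ∀ k r, MemLp (M k r) 2 P := fun k r => incr_memLp hX k r
  have hMM : ∀ k l r r', Integrable (fun ω => M k r ω * M l r' ω) P := fun k l r r' =>
    (hL k r).integrable_mul (hL l r')
  set B : ℝ≥0 → Ω → ℝ := fun r ω => ∫ s in (0 : ℝ)..r,
    if X s.toNNReal ω i = X s.toNNReal ω j then (1 : ℝ) else 0 with hBdef
  set Z : ℝ≥0 → Ω → ℝ := fun r ω => M i r ω * M j r ω - B r ω with hZdef
  have hZ : Martingale Z ℱ P := hX.bracket i j
  have hBi : ∀ r, Integrable (B r) P := by
    intro r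
    have := (hMM i j r r).sub (hZ.integrable r)
    refine this.congr (Eventually.of_forall (fun ω => ?_))
    simp only [hZdef, Pi.sub_apply]
    ring
  have hBd : ∀ ω, (∫ s in (t : ℝ)..t',
      if X s.toNNReal ω i = X s.toNNReal ω j then (1 : ℝ) else 0) = B t' ω - B t ω := by
    intro ω
    simp only [hBdef]
    rw [intervalIntegral.integral_interval_sub_left (incr_ii hX i j ω _ _)
      (incr_ii hX i j ω _ _)]
  simp only [hBd]
  -- the cross terms
  have hcross : ∀ k l, Integrable (fun ω => (Y ω * M k t ω) * (M l t' ω - M l t ω)) P ∧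
      ∫ ω, (Y ω * M k t ω) * (M l t' ω - M l t ω) ∂P = 0 := by
    intro k l
    have h1 : Integrable (fun ω => (Y ω * M k t ω) * (M l t' ω - M l t ω)) P := by
      have h2 := hbd _ ((hMM k l t t').sub (hMM k l t t))
      refine h2.congr (Eventually.of_forall (fun ω => ?_))
      simp only [Pi.sub_apply]
      ring
    refine ⟨h1, ?_⟩
    exact incr_gen (hM l) htt (G := fun ω => Y ω * M k t ω)
      (hY.mul ((hM k).stronglyMeasurable t)) h1
  have hZi : Integrable (fun ω => Y ω * (Z t' ω - Z t ω)) P :=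
    hbd _ ((hZ.integrable t').sub (hZ.integrable t))
  have hZ0 : ∫ ω, Y ω * (Z t' ω - Z t ω) ∂P = 0 := incr_gen hZ htt hY hZi
  have hBB : Integrable (fun ω => Y ω * (B t' ω - B t ω)) P := hbd _ ((hBi t').sub (hBi t))
  have e1 : ∀ ω, Y ω * ((M i t' ω - M i t ω) * (M j t' ω - M j t ω)) =
      Y ω * (B t' ω - B t ω) + (Y ω * (Z t' ω - Z t ω) -
        ((Y ω * M i t ω) * (M j t' ω - M j t ω) + (Y ω * M j t ω) * (M i t' ω - M i t ω))) := by
    intro ω
    simp only [hZdef]
    ring
  calc ∫ ω, Y ω * ((M i t' ω - M i t ω) * (M j t' ω - M j t ω)) ∂P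
      = ∫ ω, (Y ω * (B t' ω - B t ω) + (Y ω * (Z t' ω - Z t ω) -
        ((Y ω * M i t ω) * (M j t' ω - M j t ω) + (Y ω * M j t ω) * (M i t' ω - M i t ω)))) ∂P :=
        integral_congr_ae (Eventually.of_forall e1)
    _ = ∫ ω, Y ω * (B t' ω - B t ω) ∂P := by
        have c1 : Integrable (fun ω => (Y ω * M i t ω) * (M j t' ω - M j t ω) +
            (Y ω * M j t ω) * (M i t' ω - M i t ω)) P := (hcross i j).1.add (hcross j i).1
        have c2 : Integrable (fun ω => Y ω * (Z t' ω - Z t ω) -
            ((Y ω * M i t ω) * (M j t' ω - M j t ω) +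
              (Y ω * M j t ω) * (M i t' ω - M i t ω))) P := hZi.sub c1
        rw [integral_add hBB c2, integral_sub hZi c1, hZ0,
          integral_add (hcross i j).1 (hcross j i).1, (hcross i j).2, (hcross j i).2]
        ring

end Pool.Agent.TH996.HW
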