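import Pool.Agent.TH996.HW.Dual
import Pool.Agent.TH996.HW.Incr
import Pool.Agent.TH996.HW.MaxDrift
import Pool.Agent.TH996.HW.MinDrift
import Pool.Agent.TH996.HW.GaussTaylor
import Pool.Agent.TH996.HW.Beta

/-!
# Second moments of the increments of maxima and minima (MP_b213bc_pr)
-/

open MeasureTheory ProbabilityTheory Filter
open scoped NNReal ENNReal Topology

namespace Pool.Agent.TH996.HW

variable {n : ℕ} {f : ℝ → ℝ}

namespace SqMax

lemma rho_nonneg (x : ℝ) : 0 ≤ rho x := le_min (sq_nonneg _) (pow_nonneg (abs_nonneg _) 3)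

lemma rho_neg (x : ℝ) : rho (-x) = rho x := by
  unfold rho
  rw [neg_sq, abs_neg]

lemma rho_le_sq (x : ℝ) : rho x ≤ x ^ 2 := min_le_left _ _

lemma rho_cont : Continuous rho := by
  unfold rho
  fun_prop

lemma sq_le_rho {κ x : ℝ} (hκ : 0 < κ) (hx : κ < |x|) : x ^ 2 ≤ max 1 (1 / κ) * rho x := by
  have hM1 : 1 ≤ max 1 (1 / κ) := le_max_left _ _
  have hM2 : 1 ≤ max 1 (1 / κ) * |x| := by
    have h1 : 1 / κ * κ = 1 := by field_simp
    calc (1 : ℝ) = 1 / κ * κ := h1.symm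
      _ ≤ max 1 (1 / κ) * |x| := by
        refine mul_le_mul (le_max_right _ _) hx.le hκ.le (by positivity)
  unfold rho
  rw [mul_min_of_nonneg _ _ (by positivity)]
  refine le_min ?_ ?_
  · nlinarith [sq_nonneg x]
  · have h1 : |x| ^ 3 = |x| * x ^ 2 := by rw [← sq_abs x]; ring
    rw [h1, ← mul_assoc]
    nlinarith [sq_nonneg x]

lemma pt {κ : ℝ} (hκ : 0 < κ) {ui uj vi vj : ℝ} (h1 : vi ≤ vj) (h2 : uj ≤ ui) {S : ℝ}
    (hi : rho (vi - ui) ≤ S) (hj : rho (vj - uj) ≤ S) :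
    |(vj - ui) ^ 2 - (vi - ui) ^ 2| ≤ 2 * κ * (vj - vi) + 4 * max 1 (1 / κ) * S := by
  have hS : 0 ≤ S := (rho_nonneg _).trans hi
  have hM : 0 < max 1 (1 / κ) := lt_of_lt_of_le one_pos (le_max_left _ _)
  have he : 0 ≤ vj - vi := sub_nonneg.mpr h1
  obtain ⟨R, hR⟩ : ∃ R, R = max |vi - ui| |vj - uj| := ⟨_, rfl⟩
  have hRi : |vi - ui| ≤ R := by rw [hR]; exact le_max_left _ _
  have hRj : |vj - uj| ≤ R := by rw [hR]; exact le_max_right _ _
  have hR0 : 0 ≤ R := (abs_nonneg _).trans hRi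
  have hRi' := abs_le.mp hRi
  have hRj' := abs_le.mp hRj
  have key : |(vj - ui) ^ 2 - (vi - ui) ^ 2| ≤ 2 * R * (vj - vi) := by
    have h3 : (vj - ui) ^ 2 - (vi - ui) ^ 2 = (vj - vi) * ((vj - ui) + (vi - ui)) := by ring
    rw [h3, abs_mul, abs_of_nonneg he]
    have h4 : |(vj - ui) + (vi - ui)| ≤ 2 * R := abs_le.mpr ⟨by linarith, by linarith⟩
    calc (vj - vi) * |(vj - ui) + (vi - ui)| ≤ (vj - vi) * (2 * R) :=
          mul_le_mul_of_nonneg_left h4 he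
      _ = 2 * R * (vj - vi) := by ring
  rcases le_or_gt R κ with h | h
  · have h3 : 2 * R * (vj - vi) ≤ 2 * κ * (vj - vi) :=
      mul_le_mul_of_nonneg_right (by linarith) he
    have h4 : 0 ≤ 4 * max 1 (1 / κ) * S := by positivity
    linarith
  · have h3 : R ^ 2 ≤ max 1 (1 / κ) * S := by
      rcases max_choice |vi - ui| |vj - uj| with h4 | h4
      · have h5 : κ < |vi - ui| := by rw [← h4, ← hR]; exact h
        rw [hR, h4, sq_abs]
        exact (sq_le_rho hκ h5).trans (mul_le_mul_of_nonneg_left hi hM.le)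
      · have h5 : κ < |vj - uj| := by rw [← h4, ← hR]; exact h
        rw [hR, h4, sq_abs]
        exact (sq_le_rho hκ h5).trans (mul_le_mul_of_nonneg_left hj hM.le)
    have h4 : vj - vi ≤ 2 * R := by linarith
    have h5 : 2 * R * (vj - vi) ≤ 2 * R * (2 * R) :=
      mul_le_mul_of_nonneg_left h4 (by positivity)
    have h6 : 0 ≤ 2 * κ * (vj - vi) := by positivity
    nlinarith

open Classical in
/-- indicator: `i` is the first index of `D` with `u i = g u` -/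
noncomputable def bi (g : (Fin n → ℝ) → ℝ) (D : Finset (Fin n)) (i : Fin n)
    (u : Fin n → ℝ) : ℝ :=
  if u i = g u ∧ ∀ k ∈ D, k < i → u k ≠ g u then 1 else 0

lemma bi_nonneg (g : (Fin n → ℝ) → ℝ) (D : Finset (Fin n)) (i : Fin n) (u : Fin n → ℝ) :
    0 ≤ bi g D i u := by
  unfold bi
  split_ifs <;> norm_num

lemma bi_le_one (g : (Fin n → ℝ) → ℝ) (D : Finset (Fin n)) (i : Fin n) (u : Fin n → ℝ) :
    bi g D i u ≤ 1 := by
  unfold bi
  split_ifs <;> norm_num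

lemma bi_eq {g : (Fin n → ℝ) → ℝ} {D : Finset (Fin n)} {i : Fin n} {u : Fin n → ℝ}
    (h : bi g D i u ≠ 0) : u i = g u := by
  unfold bi at h
  by_contra hc
  apply h
  rw [if_neg]
  exact fun h' => hc h'.1

lemma bi_sum {g : (Fin n → ℝ) → ℝ} {D : Finset (Fin n)} {u : Fin n → ℝ}
    (hg : ∃ i ∈ D, u i = g u) : ∑ i ∈ D, bi g D i u = 1 := by
  classical
  obtain ⟨A, hA⟩ : ∃ A : Finset (Fin n), A = D.filter (fun i => u i = g u) := ⟨_, rfl⟩
  have hAne : A.Nonempty := by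
    obtain ⟨i, hi, hi2⟩ := hg
    exact ⟨i, by rw [hA]; exact Finset.mem_filter.mpr ⟨hi, hi2⟩⟩
  have hAm : ∀ i, i ∈ A ↔ i ∈ D ∧ u i = g u := fun i => by rw [hA, Finset.mem_filter]
  have hm2 := (hAm _).mp (A.min'_mem hAne)
  rw [Finset.sum_eq_single (A.min' hAne)]
  · unfold bi
    rw [if_pos]
    refine ⟨hm2.2, fun k hk hlt hc => ?_⟩
    have h1 : k ∈ A := by rw [hA]; exact Finset.mem_filter.mpr ⟨hk, hc⟩
    exact absurd (A.min'_le k h1) (not_le.mpr hlt)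
  · intro i hi hne
    unfold bi
    rw [if_neg]
    rintro ⟨h1, h2⟩
    have h3 : i ∈ A := by rw [hA]; exact Finset.mem_filter.mpr ⟨hi, h1⟩
    have h4 := A.min'_le i h3
    have h5 : A.min' hAne < i := lt_of_le_of_ne h4 (Ne.symm hne)
    exact h2 _ hm2.1 h5 hm2.2
  · intro h
    exact absurd hm2.1 h

lemma bi_meas {g : (Fin n → ℝ) → ℝ} (hg : Continuous g) (D : Finset (Fin n)) (i : Fin n) :
    Measurable (bi g D i) := by
  classical
  have h1 : ∀ k : Fin n, MeasurableSet {u : Fin n → ℝ | u k = g u} := fun k =>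
    measurableSet_eq_fun (measurable_pi_apply k) hg.measurable
  have h2 : MeasurableSet {u : Fin n → ℝ | u i = g u ∧ ∀ k ∈ D, k < i → u k ≠ g u} := by
    have h3 : {u : Fin n → ℝ | u i = g u ∧ ∀ k ∈ D, k < i → u k ≠ g u} =
        {u : Fin n → ℝ | u i = g u} ∩ ⋂ k : Fin n, ⋂ (_ : k ∈ D), ⋂ (_ : k < i),
          {u : Fin n → ℝ | u k = g u}ᶜ := by
      ext u
      simp
    rw [h3]
    refine (h1 i).inter (MeasurableSet.iInter fun k => MeasurableSet.iInter fun _ =>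
      MeasurableSet.iInter fun _ => (h1 k).compl)
  unfold bi
  exact Measurable.ite h2 measurable_const measurable_const

variable {β : ℝ} {ν : Measure ℝ} {x : Fin n → ℝ} {Ω : Type} [MeasurableSpace Ω]
  {P : Measure Ω} [IsProbabilityMeasure P] {X : ℝ≥0 → Ω → (Fin n → ℝ)}

omit [IsProbabilityMeasure P] in
lemma adapted (hX : IsHWMotion β ν x P X) (t : ℝ≥0) {F : (Fin n → ℝ) → ℝ} (hF : Measurable F) :
    StronglyMeasurable[Filtration.natural X hX.meas t] (fun ω => F (X t ω)) := by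
  have h1 := Filtration.stronglyAdapted_natural hX.meas t
  exact (hF.comp h1.measurable).stronglyMeasurable

omit [IsProbabilityMeasure P] in
lemma memLp_g (hX : IsHWMotion β ν x P X) (t : ℝ≥0) {g : (Fin n → ℝ) → ℝ} (hg : Continuous g)
    (hgD : ∀ u, ∃ i, u i = g u) : MemLp (fun ω => g (X t ω)) 2 P := by
  have h1 : MemLp (fun ω => ∑ i, |X t ω i|) 2 P :=
    memLp_finsetSum _ (fun i _ => (hX.sq t i).abs)
  refine h1.mono (hg.comp_stronglyMeasurable (hX.meas t)).aestronglyMeasurable ?_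
  refine Eventually.of_forall fun ω => ?_
  obtain ⟨i, hi⟩ := hgD (X t ω)
  rw [← hi, Real.norm_eq_abs, Real.norm_eq_abs]
  refine le_trans ?_ (le_abs_self _)
  exact Finset.single_le_sum (f := fun i => |X t ω i|) (fun _ _ => abs_nonneg _)
    (Finset.mem_univ i)

omit [IsProbabilityMeasure P] in
lemma bint {Y F : Ω → ℝ} (hY : StronglyMeasurable Y) {C : ℝ} (hC : ∀ ω, |Y ω| ≤ C)
    (hF : Integrable F P) : Integrable (fun ω => Y ω * F ω) P :=
  hF.bdd_mul (c := C) hY.aestronglyMeasurable (Eventually.of_forall fun ω => by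
    rw [Real.norm_eq_abs]; exact hC ω)

lemma core (hX : IsHWMotion β ν x P X) {g : (Fin n → ℝ) → ℝ} (hg : Continuous g)
    (D : Finset (Fin n)) (hgD : ∀ u, ∃ i ∈ D, u i = g u) (σ b κ : ℝ) (hκ : 0 < κ) (t h : ℝ≥0)
    (hpt : ∀ u v : Fin n → ℝ, ∀ i ∈ D, u i = g u → |(g v - g u) ^ 2 - (v i - u i) ^ 2| ≤
      2 * κ * (σ * ((g v - g u) - (v i - u i))) + 4 * max 1 (1 / κ) * ∑ k, rho (v k - u k))
    (hdr : ∀ χ : Ω → ℝ, StronglyMeasurable[Filtration.natural X hX.meas t] χ →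
      (∀ ω, 0 ≤ χ ω) → (∀ ω, χ ω ≤ 1) →
      σ * ∫ ω, χ ω * (g (X (t + h) ω) - g (X t ω)) ∂P ≤ b * h * ∫ ω, χ ω ∂P)
    (Y : Ω → ℝ) (hY : StronglyMeasurable[Filtration.natural X hX.meas t] Y)
    (hY1 : ∀ ω, |Y ω| ≤ 1) :
    |∫ ω, Y ω * (g (X (t + h) ω) - g (X t ω)) ^ 2 ∂P - h * ∫ ω, Y ω ∂P| ≤
      2 * κ * ((b - σ * β) * h) + 4 * max 1 (1 / κ) * (8 * (lind β P X t h + n * (β ^ 2 * h ^ 2)))
        + β ^ 2 * h ^ 2 := by
  have hle : Filtration.natural X hX.meas t ≤ _ := (Filtration.natural X hX.meas).le t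
  have hYm : StronglyMeasurable Y := hY.mono hle
  have hM0 : 0 ≤ max 1 (1 / κ) := le_trans zero_le_one (le_max_left _ _)
  have htt : t ≤ t + h := le_self_add
  -- the indicators
  obtain ⟨χ, hχ⟩ : ∃ χ : Fin n → Ω → ℝ, χ = fun i ω => bi g D i (X t ω) := ⟨_, rfl⟩
  have hχF : ∀ i, StronglyMeasurable[Filtration.natural X hX.meas t] (χ i) := by
    intro i
    rw [hχ]
    exact adapted hX t (bi_meas hg D i)
  have hχm : ∀ i, StronglyMeasurable (χ i) := fun i => (hχF i).mono hle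
  have hχ0 : ∀ i ω, 0 ≤ χ i ω := by
    intro i ω
    rw [hχ]
    exact bi_nonneg _ _ _ _
  have hχ1 : ∀ i ω, χ i ω ≤ 1 := by
    intro i ω
    rw [hχ]
    exact bi_le_one _ _ _ _
  have hχabs : ∀ i ω, |χ i ω| ≤ 1 := fun i ω => by
    rw [abs_of_nonneg (hχ0 i ω)]
    exact hχ1 i ω
  have hχs : ∀ ω, ∑ i ∈ D, χ i ω = 1 := by
    intro ω
    rw [hχ]
    exact bi_sum (hgD (X t ω))
  have hχe : ∀ i ω, χ i ω ≠ 0 → X t ω i = g (X t ω) := by
    intro i ω hne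
    rw [hχ] at hne
    exact bi_eq hne
  have hYχF : ∀ i, StronglyMeasurable[Filtration.natural X hX.meas t] (fun ω => Y ω * χ i ω) :=
    fun i => hY.mul (hχF i)
  have hYχm : ∀ i, StronglyMeasurable (fun ω => Y ω * χ i ω) := fun i => (hYχF i).mono hle
  have hYχ1 : ∀ i ω, |Y ω * χ i ω| ≤ 1 := by
    intro i ω
    rw [abs_mul]
    exact mul_le_one₀ (hY1 ω) (abs_nonneg _) (hχabs i ω)
  -- increments
  obtain ⟨δ, hδ⟩ : ∃ δ : Ω → ℝ, δ = fun ω => g (X (t + h) ω) - g (X t ω) := ⟨_, rfl⟩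
  obtain ⟨Δ, hΔ⟩ : ∃ Δ : Fin n → Ω → ℝ, Δ = fun i ω => X (t + h) ω i - X t ω i := ⟨_, rfl⟩
  obtain ⟨N, hN⟩ : ∃ N : Fin n → Ω → ℝ, N = fun i ω =>
    (X (t + h) ω i - β * (t + h)) - (X t ω i - β * t) := ⟨_, rfl⟩
  have hNΔ : ∀ i ω, Δ i ω = N i ω + β * h := by
    intro i ω
    rw [hN, hΔ]
    ring
  have hgD' : ∀ u : Fin n → ℝ, ∃ i, u i = g u := fun u => by
    obtain ⟨i, _, hi⟩ := hgD u
    exact ⟨i, hi⟩
  have hδL : MemLp δ 2 P := by
    rw [hδ]
    exact (memLp_g hX (t + h) hg hgD').sub (memLp_g hX t hg hgD')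
  have hΔL : ∀ i, MemLp (Δ i) 2 P := by
    intro i
    rw [hΔ]
    exact (hX.sq (t + h) i).sub (hX.sq t i)
  have hNL : ∀ i, MemLp (N i) 2 P := by
    intro i
    rw [hN]
    exact ((hX.sq (t + h) i).sub (memLp_const _)).sub ((hX.sq t i).sub (memLp_const _))
  have hδi : Integrable δ P := hδL.integrable (by norm_num)
  have hΔi : ∀ i, Integrable (Δ i) P := fun i => (hΔL i).integrable (by norm_num)
  have hNi : ∀ i, Integrable (N i) P := fun i => (hNL i).integrable (by norm_num)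
  have hδ2 : Integrable (fun ω => δ ω ^ 2) P := hδL.integrable_sq
  have hΔ2 : ∀ i, Integrable (fun ω => Δ i ω ^ 2) P := fun i => (hΔL i).integrable_sq
  have hN2 : ∀ i, Integrable (fun ω => N i ω ^ 2) P := fun i => (hNL i).integrable_sq
  have hρ : ∀ {F : Ω → ℝ}, MemLp F 2 P → Integrable (fun ω => rho (F ω)) P := by
    intro F hF
    refine Integrable.mono' hF.integrable_sq (rho_cont.comp_aestronglyMeasurable hF.1) ?_
    refine Eventually.of_forall fun ω => ?_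
    rw [Real.norm_eq_abs, abs_of_nonneg (rho_nonneg _)]
    exact rho_le_sq _
  have hYi : Integrable Y P := by
    have := bint (P := P) hYm hY1 (integrable_const (1 : ℝ))
    simpa using this
  have hχi : ∀ i, Integrable (χ i) P := fun i => by
    have := bint (P := P) (hχm i) (hχabs i) (integrable_const (1 : ℝ))
    simpa using this
  have hYχi : ∀ i, Integrable (fun ω => Y ω * χ i ω) P := fun i => by
    have := bint (P := P) (hYχm i) (hYχ1 i) (integrable_const (1 : ℝ))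
    simpa using this
  obtain ⟨S, hS⟩ : ∃ S : Ω → ℝ, S = fun ω => ∑ k, rho (Δ k ω) := ⟨_, rfl⟩
  have hSi : Integrable S P := by
    rw [hS]
    exact integrable_finsetSum _ (fun k _ => hρ (hΔL k))
  -- martingale facts
  have hm1 : ∀ i, ∀ Z : Ω → ℝ, StronglyMeasurable[Filtration.natural X hX.meas t] Z →
      (∀ ω, |Z ω| ≤ 1) → ∫ ω, Z ω * N i ω ∂P = 0 := by
    intro i Z hZ hZ1
    have h1 := mart_inc hX i htt hZ hZ1
    rw [hN]
    push_cast at h1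
    exact h1
  have hm2 : ∀ i, ∀ Z : Ω → ℝ, StronglyMeasurable[Filtration.natural X hX.meas t] Z →
      (∀ ω, |Z ω| ≤ 1) → ∫ ω, Z ω * N i ω ^ 2 ∂P = h * ∫ ω, Z ω ∂P := by
    intro i Z hZ hZ1
    have h1 := bracket_inc hX i i htt hZ hZ1
    simp only [if_true, intervalIntegral.integral_const, smul_eq_mul, mul_one] at h1
    push_cast at h1
    rw [hN]
    have h2 : ∀ ω, Z ω * ((X (t + h) ω i - β * (t + h)) - (X t ω i - β * t)) ^ 2 =
        Z ω * (((X (t + h) ω i - β * (t + h)) - (X t ω i - β * t)) *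
          ((X (t + h) ω i - β * (t + h)) - (X t ω i - β * t))) := fun ω => by ring
    simp only [h2]
    rw [h1, integral_mul_const]
    ring
  -- first moments
  have hΔ1 : ∀ i, ∫ ω, χ i ω * Δ i ω ∂P = β * h * ∫ ω, χ i ω ∂P := by
    intro i
    have h1 : ∀ ω, χ i ω * Δ i ω = χ i ω * N i ω + χ i ω * (β * h) := fun ω => by
      rw [hNΔ]; ring
    simp only [h1]
    rw [integral_add (bint (hχm i) (hχabs i) (hNi i)) ((hχi i).mul_const _),
      hm1 i (χ i) (hχF i) (hχabs i), integral_mul_const]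
    ring
  -- second moments
  have hΔsq : ∀ i, ∫ ω, (Y ω * χ i ω) * Δ i ω ^ 2 ∂P =
      (h + β ^ 2 * h ^ 2) * ∫ ω, Y ω * χ i ω ∂P := by
    intro i
    have h1 : ∀ ω, (Y ω * χ i ω) * Δ i ω ^ 2 = ((Y ω * χ i ω) * N i ω ^ 2 +
        (2 * β * h) * ((Y ω * χ i ω) * N i ω)) + (β ^ 2 * h ^ 2) * (Y ω * χ i ω) := fun ω => by
      rw [hNΔ]; ring
    simp only [h1]
    rw [integral_add, integral_add, integral_const_mul, integral_const_mul,
      hm1 i _ (hYχF i) (hYχ1 i), hm2 i _ (hYχF i) (hYχ1 i)]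
    · ring
    · exact bint (hYχm i) (hYχ1 i) (hN2 i)
    · exact (bint (hYχm i) (hYχ1 i) (hNi i)).const_mul _
    · exact (bint (hYχm i) (hYχ1 i) (hN2 i)).add ((bint (hYχm i) (hYχ1 i) (hNi i)).const_mul _)
    · exact (hYχi i).const_mul _
  -- decomposition
  have hsumY : ∑ i ∈ D, ∫ ω, Y ω * χ i ω ∂P = ∫ ω, Y ω ∂P := by
    rw [← integral_finsetSum _ (fun i _ => hYχi i)]
    refine integral_congr_ae (Eventually.of_forall fun ω => ?_)
    show ∑ i ∈ D, Y ω * χ i ω = Y ω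
    rw [← Finset.mul_sum, hχs, mul_one]
  have hsumχ : ∑ i ∈ D, ∫ ω, χ i ω ∂P = 1 := by
    rw [← integral_finsetSum _ (fun i _ => hχi i)]
    simp only [hχs]
    simp
  have hI : ∀ i, Integrable (fun ω => (Y ω * χ i ω) * (δ ω ^ 2 - Δ i ω ^ 2)) P := fun i =>
    bint (hYχm i) (hYχ1 i) (hδ2.sub (hΔ2 i))
  have hmain : ∫ ω, Y ω * δ ω ^ 2 ∂P = ∑ i ∈ D, ∫ ω, (Y ω * χ i ω) * (δ ω ^ 2 - Δ i ω ^ 2) ∂P +
      (h + β ^ 2 * h ^ 2) * ∫ ω, Y ω ∂P := by
    have h1 : ∫ ω, Y ω * δ ω ^ 2 ∂P = ∑ i ∈ D, ∫ ω, (Y ω * χ i ω) * δ ω ^ 2 ∂P := by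
      rw [← integral_finsetSum _ (fun i _ => bint (hYχm i) (hYχ1 i) hδ2)]
      refine integral_congr_ae (Eventually.of_forall fun ω => ?_)
      show Y ω * δ ω ^ 2 = ∑ i ∈ D, (Y ω * χ i ω) * δ ω ^ 2
      rw [← Finset.sum_mul, ← Finset.mul_sum, hχs, mul_one]
    rw [h1, ← hsumY, Finset.mul_sum, ← Finset.sum_add_distrib]
    refine Finset.sum_congr rfl fun i _ => ?_
    rw [← hΔsq i, ← integral_add (hI i) (bint (hYχm i) (hYχ1 i) (hΔ2 i))]
    refine integral_congr_ae (Eventually.of_forall fun ω => ?_)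
    show (Y ω * χ i ω) * δ ω ^ 2 = (Y ω * χ i ω) * (δ ω ^ 2 - Δ i ω ^ 2) +
      (Y ω * χ i ω) * Δ i ω ^ 2
    ring
  -- error terms
  have herr : ∀ i ∈ D, |∫ ω, (Y ω * χ i ω) * (δ ω ^ 2 - Δ i ω ^ 2) ∂P| ≤
      2 * κ * ((b - σ * β) * h * ∫ ω, χ i ω ∂P) +
        4 * max 1 (1 / κ) * ∫ ω, χ i ω * S ω ∂P := by
    intro i hi
    have hint : Integrable (fun ω => 2 * κ * (σ * (χ i ω * δ ω) - σ * (χ i ω * Δ i ω)) +
        4 * max 1 (1 / κ) * (χ i ω * S ω)) P := by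
      refine (((((bint (hχm i) (hχabs i) hδi).const_mul σ)).sub
        ((bint (hχm i) (hχabs i) (hΔi i)).const_mul σ)).const_mul _).add
        ((bint (hχm i) (hχabs i) hSi).const_mul _)
    have h1 : |∫ ω, (Y ω * χ i ω) * (δ ω ^ 2 - Δ i ω ^ 2) ∂P| ≤
        ∫ ω, (2 * κ * (σ * (χ i ω * δ ω) - σ * (χ i ω * Δ i ω)) +
        4 * max 1 (1 / κ) * (χ i ω * S ω)) ∂P := by
      refine (abs_integral_le_integral_abs).trans ?_
      refine integral_mono (hI i).abs hint fun ω => ?_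
      show |(Y ω * χ i ω) * (δ ω ^ 2 - Δ i ω ^ 2)| ≤ _
      by_cases hz : χ i ω = 0
      · rw [hz]
        simp
      · have h2 := hpt (X t ω) (X (t + h) ω) i hi (hχe i ω hz)
        have h3 : |Y ω * χ i ω * (δ ω ^ 2 - Δ i ω ^ 2)| ≤ χ i ω * |δ ω ^ 2 - Δ i ω ^ 2| := by
          rw [abs_mul, abs_mul, abs_of_nonneg (hχ0 i ω)]
          refine mul_le_mul_of_nonneg_right ?_ (abs_nonneg _)
          calc |Y ω| * χ i ω ≤ 1 * χ i ω := mul_le_mul_of_nonneg_right (hY1 ω) (hχ0 i ω)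
            _ = χ i ω := one_mul _
        have h4 : |δ ω ^ 2 - Δ i ω ^ 2| ≤ 2 * κ * (σ * (δ ω - Δ i ω)) +
            4 * max 1 (1 / κ) * S ω := by
          rw [hδ, hΔ, hS, hΔ]
          exact h2
        calc |Y ω * χ i ω * (δ ω ^ 2 - Δ i ω ^ 2)| ≤ χ i ω * |δ ω ^ 2 - Δ i ω ^ 2| := h3
          _ ≤ χ i ω * (2 * κ * (σ * (δ ω - Δ i ω)) + 4 * max 1 (1 / κ) * S ω) :=
              mul_le_mul_of_nonneg_left h4 (hχ0 i ω)
          _ = _ := by ring
    refine h1.trans ?_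
    have h5 : ∫ ω, (2 * κ * (σ * (χ i ω * δ ω) - σ * (χ i ω * Δ i ω)) +
        4 * max 1 (1 / κ) * (χ i ω * S ω)) ∂P =
        2 * κ * (σ * ∫ ω, χ i ω * δ ω ∂P - σ * ∫ ω, χ i ω * Δ i ω ∂P) +
        4 * max 1 (1 / κ) * ∫ ω, χ i ω * S ω ∂P := by
      rw [integral_add, integral_const_mul, integral_sub, integral_const_mul, integral_const_mul,
        integral_const_mul]
      · exact (bint (hχm i) (hχabs i) hδi).const_mul σ
      · exact (bint (hχm i) (hχabs i) (hΔi i)).const_mul σ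
      · exact (((bint (hχm i) (hχabs i) hδi).const_mul σ).sub
          ((bint (hχm i) (hχabs i) (hΔi i)).const_mul σ)).const_mul _
      · exact (bint (hχm i) (hχabs i) hSi).const_mul _
    rw [h5, hΔ1 i]
    have h6 := hdr (χ i) (hχF i) (hχ0 i) (hχ1 i)
    have h7 : ∫ ω, χ i ω * (g (X (t + h) ω) - g (X t ω)) ∂P = ∫ ω, χ i ω * δ ω ∂P := by
      rw [hδ]
    rw [h7] at h6
    have h8 : σ * ∫ ω, χ i ω * δ ω ∂P - σ * (β * h * ∫ ω, χ i ω ∂P) ≤
        (b - σ * β) * h * ∫ ω, χ i ω ∂P := by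
      have h9 : (b - σ * β) * h * ∫ ω, χ i ω ∂P = b * h * ∫ ω, χ i ω ∂P -
          σ * (β * h * ∫ ω, χ i ω ∂P) := by ring
      rw [h9]
      linarith
    have h10 := mul_le_mul_of_nonneg_left h8 (show 0 ≤ 2 * κ by positivity)
    linarith
  have hsumS : ∑ i ∈ D, ∫ ω, χ i ω * S ω ∂P = ∫ ω, S ω ∂P := by
    rw [← integral_finsetSum _ (fun i _ => bint (hχm i) (hχabs i) hSi)]
    refine integral_congr_ae (Eventually.of_forall fun ω => ?_)
    show ∑ i ∈ D, χ i ω * S ω = S ω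
    rw [← Finset.sum_mul, hχs, one_mul]
  have hSle : ∫ ω, S ω ∂P ≤ 8 * (lind β P X t h + n * (β ^ 2 * h ^ 2)) := by
    have h1 : ∫ ω, S ω ∂P = ∑ k, ∫ ω, rho (Δ k ω) ∂P := by
      rw [hS]
      exact integral_finsetSum _ (fun k _ => hρ (hΔL k))
    have h2 : ∀ k, ∫ ω, rho (Δ k ω) ∂P ≤ 8 * (∫ ω, rho (N k ω) ∂P + β ^ 2 * h ^ 2) := by
      intro k
      have h3 : ∫ ω, rho (Δ k ω) ∂P ≤ ∫ ω, 8 * (rho (N k ω) + β ^ 2 * h ^ 2) ∂P := by
        refine integral_mono (hρ (hΔL k))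
          (((hρ (hNL k)).add (integrable_const _)).const_mul 8) fun ω => ?_
        show rho (Δ k ω) ≤ 8 * (rho (N k ω) + β ^ 2 * h ^ 2)
        have h4 := rho_sub (N k ω) (-(β * h))
        have h5 : N k ω - -(β * h) = Δ k ω := by
          rw [hNΔ]; ring
        rw [h5, rho_neg] at h4
        have h6 := rho_le_sq (β * h)
        have h7 : (β * (h : ℝ)) ^ 2 = β ^ 2 * h ^ 2 := by ring
        linarith
      refine h3.trans (le_of_eq ?_)
      rw [integral_const_mul, integral_add (hρ (hNL k)) (integrable_const _)]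
      simp
    rw [h1]
    refine (Finset.sum_le_sum fun k _ => h2 k).trans (le_of_eq ?_)
    rw [← Finset.mul_sum, Finset.sum_add_distrib]
    unfold lind
    rw [hN]
    simp
  -- conclusion
  have hYint : |∫ ω, Y ω ∂P| ≤ 1 := by
    refine (abs_integral_le_integral_abs).trans ?_
    have h1 : ∫ ω, |Y ω| ∂P ≤ ∫ _ : Ω, (1 : ℝ) ∂P :=
      integral_mono hYi.abs (integrable_const _) hY1
    simpa using h1
  have hgoal : ∫ ω, Y ω * (g (X (t + h) ω) - g (X t ω)) ^ 2 ∂P = ∫ ω, Y ω * δ ω ^ 2 ∂P := by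
    rw [hδ]
  rw [hgoal, hmain]
  have h1 : ∑ i ∈ D, ∫ ω, (Y ω * χ i ω) * (δ ω ^ 2 - Δ i ω ^ 2) ∂P +
      (h + β ^ 2 * h ^ 2) * ∫ ω, Y ω ∂P - h * ∫ ω, Y ω ∂P =
      ∑ i ∈ D, ∫ ω, (Y ω * χ i ω) * (δ ω ^ 2 - Δ i ω ^ 2) ∂P +
      β ^ 2 * h ^ 2 * ∫ ω, Y ω ∂P := by ring
  rw [h1]
  refine (abs_add_le _ _).trans ?_
  have h2 : |β ^ 2 * (h : ℝ) ^ 2 * ∫ ω, Y ω ∂P| ≤ β ^ 2 * h ^ 2 := by
    rw [abs_mul, abs_of_nonneg (show (0 : ℝ) ≤ β ^ 2 * h ^ 2 by positivity)]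
    calc β ^ 2 * (h : ℝ) ^ 2 * |∫ ω, Y ω ∂P| ≤ β ^ 2 * h ^ 2 * 1 :=
          mul_le_mul_of_nonneg_left hYint (by positivity)
      _ = β ^ 2 * h ^ 2 := mul_one _
  have h3 : |∑ i ∈ D, ∫ ω, (Y ω * χ i ω) * (δ ω ^ 2 - Δ i ω ^ 2) ∂P| ≤
      2 * κ * ((b - σ * β) * h) + 4 * max 1 (1 / κ) * ∫ ω, S ω ∂P := by
    refine (Finset.abs_sum_le_sum_abs _ _).trans ((Finset.sum_le_sum herr).trans (le_of_eq ?_))
    rw [Finset.sum_add_distrib, ← Finset.mul_sum, ← Finset.mul_sum, ← Finset.mul_sum, hsumχ, hsumS,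
      mul_one]
  have h4 := mul_le_mul_of_nonneg_left hSle (show 0 ≤ 4 * max 1 (1 / κ) by positivity)
  linarith

lemma rho_le_sum (u v : Fin n → ℝ) (i : Fin n) : rho (v i - u i) ≤ ∑ k, rho (v k - u k) :=
  Finset.single_le_sum (f := fun k => rho (v k - u k)) (fun _ _ => rho_nonneg _)
    (Finset.mem_univ i)

/-- the form of the bound -/
lemma fin_bound {β κ B L h : ℝ} (hL : 0 ≤ L) :
    2 * κ * (B * h) + 4 * max 1 (1 / κ) * (8 * (L + n * (β ^ 2 * h ^ 2))) + β ^ 2 * h ^ 2 ≤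
      2 * B * κ * h + (32 * max 1 (1 / κ) * (1 + n * β ^ 2) + β ^ 2) * (L + h ^ 2) := by
  have hM0 : 0 ≤ max 1 (1 / κ) := le_trans zero_le_one (le_max_left _ _)
  have h1 : 0 ≤ max 1 (1 / κ) * (n * β ^ 2) * L := by positivity
  have h2 : 0 ≤ max 1 (1 / κ) * h ^ 2 := by positivity
  have h3 : 0 ≤ β ^ 2 * L := by positivity
  nlinarith

omit [IsProbabilityMeasure P] in
lemma lind_nonneg (t h : ℝ≥0) : 0 ≤ lind β P X t h := by
  unfold lind
  exact Finset.sum_nonneg fun i _ => integral_nonneg fun ω => rho_nonneg _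

end SqMax

theorem sq_max {ν : Measure ℝ} (hν : GoodNu ν) (β : ℝ) (n : ℕ) : ∃ C : ℝ, 0 ≤ C ∧
    ∀ κ : ℝ, 0 < κ → ∃ C' : ℝ, 0 ≤ C' ∧ ∀ (x : Fin n → ℝ) (Ω : Type) [MeasurableSpace Ω]
      (P : Measure Ω) [IsProbabilityMeasure P] (X : ℝ≥0 → Ω → (Fin n → ℝ))
      (hX : IsHWMotion β ν x P X) (D : Finset (Fin n)) (hD : D.Nonempty) (t h : ℝ≥0) (Y : Ω → ℝ),
      h ≤ 1 → StronglyMeasurable[Filtration.natural X hX.meas t] Y → (∀ ω, |Y ω| ≤ 1) →
      |∫ ω, Y ω * (D.sup' hD (X (t + h) ω) - D.sup' hD (X t ω)) ^ 2 ∂P - h * ∫ ω, Y ω ∂P| ≤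
        C * κ * h + C' * (lind β P X t h + h ^ 2) := by
  have hb := bm_le hν β
  refine ⟨2 * (bp β ν - β), by linarith [hb.2], fun κ hκ => ?_⟩
  have hM0 : 0 ≤ max 1 (1 / κ) := le_trans zero_le_one (le_max_left _ _)
  refine ⟨32 * max 1 (1 / κ) * (1 + n * β ^ 2) + β ^ 2, by positivity, ?_⟩
  intro x Ω _ P _ X hX D hD t h Y _ hY hY1
  have hg : Continuous (fun u : Fin n → ℝ => D.sup' hD u) :=
    Continuous.finset_sup'_apply hD (fun i _ => continuous_apply i)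
  have hgD : ∀ u : Fin n → ℝ, ∃ i ∈ D, u i = D.sup' hD u := by
    intro u
    obtain ⟨i, hi, hi2⟩ := Finset.exists_mem_eq_sup' hD u
    exact ⟨i, hi, hi2.symm⟩
  have h1 := SqMax.core hX hg D hgD 1 (bp β ν) κ hκ t h (by
    intro u v i hi hui
    obtain ⟨j, hj, hvj⟩ := hgD v
    have h2 : v i ≤ v j := by rw [hvj]; exact Finset.le_sup' v hi
    have h3 : u j ≤ u i := by rw [hui]; exact Finset.le_sup' u hj
    have h4 := SqMax.pt hκ h2 h3 (SqMax.rho_le_sum u v i) (SqMax.rho_le_sum u v j)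
    show |(D.sup' hD v - D.sup' hD u) ^ 2 - (v i - u i) ^ 2| ≤
      2 * κ * (1 * ((D.sup' hD v - D.sup' hD u) - (v i - u i))) +
        4 * max 1 (1 / κ) * ∑ k, rho (v k - u k)
    rw [← hui, ← hvj]
    have h5 : 1 * (v j - u i - (v i - u i)) = v j - v i := by ring
    rw [h5]
    exact h4) (by
    intro χ hχ hχ0 hχ1
    have h2 := max_drift hν hX hD (show t ≤ t + h from le_self_add) hχ hχ0 hχ1
    push_cast at h2
    rw [add_sub_cancel_left] at h2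
    rw [one_mul]
    exact h2) Y hY hY1
  refine h1.trans ?_
  rw [one_mul]
  exact SqMax.fin_bound (SqMax.lind_nonneg t h)

theorem sq_min {ν : Measure ℝ} (hν : GoodNu ν) (β : ℝ) (n : ℕ) : ∃ C : ℝ, 0 ≤ C ∧
    ∀ κ : ℝ, 0 < κ → ∃ C' : ℝ, 0 ≤ C' ∧ ∀ (x : Fin n → ℝ) (Ω : Type) [MeasurableSpace Ω]
      (P : Measure Ω) [IsProbabilityMeasure P] (X : ℝ≥0 → Ω → (Fin n → ℝ))
      (hX : IsHWMotion β ν x P X) (D : Finset (Fin n)) (hD : D.Nonempty) (t h : ℝ≥0) (Y : Ω → ℝ),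
      h ≤ 1 → StronglyMeasurable[Filtration.natural X hX.meas t] Y → (∀ ω, |Y ω| ≤ 1) →
      |∫ ω, Y ω * (D.inf' hD (X (t + h) ω) - D.inf' hD (X t ω)) ^ 2 ∂P - h * ∫ ω, Y ω ∂P| ≤
        C * κ * h + C' * (lind β P X t h + h ^ 2) := by
  have hb := bm_le hν β
  refine ⟨2 * (β - bm β ν), by linarith [hb.1], fun κ hκ => ?_⟩
  have hM0 : 0 ≤ max 1 (1 / κ) := le_trans zero_le_one (le_max_left _ _)
  refine ⟨32 * max 1 (1 / κ) * (1 + n * β ^ 2) + β ^ 2, by positivity, ?_⟩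
  intro x Ω _ P _ X hX D hD t h Y _ hY hY1
  have hg : Continuous (fun u : Fin n → ℝ => D.inf' hD u) :=
    Continuous.finset_inf'_apply hD (fun i _ => continuous_apply i)
  have hgD : ∀ u : Fin n → ℝ, ∃ i ∈ D, u i = D.inf' hD u := by
    intro u
    obtain ⟨i, hi, hi2⟩ := Finset.exists_mem_eq_inf' hD u
    exact ⟨i, hi, hi2.symm⟩
  have h1 := SqMax.core hX hg D hgD (-1) (-(bm β ν)) κ hκ t h (by
    intro u v i hi hui
    obtain ⟨j, hj, hvj⟩ := hgD v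
    have h2 : v j ≤ v i := by rw [hvj]; exact Finset.inf'_le v hi
    have h3 : u i ≤ u j := by rw [hui]; exact Finset.inf'_le u hj
    have h4 := SqMax.pt (ui := -u i) (uj := -u j) (vi := -v i) (vj := -v j)
      (S := ∑ k, rho (v k - u k)) hκ (neg_le_neg h2) (neg_le_neg h3)
      (by
        rw [← SqMax.rho_neg, show -(-v i - -u i) = v i - u i by ring]
        exact SqMax.rho_le_sum u v i)
      (by
        rw [← SqMax.rho_neg, show -(-v j - -u j) = v j - u j by ring]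
        exact SqMax.rho_le_sum u v j)
    show |(D.inf' hD v - D.inf' hD u) ^ 2 - (v i - u i) ^ 2| ≤
      2 * κ * (-1 * ((D.inf' hD v - D.inf' hD u) - (v i - u i))) +
        4 * max 1 (1 / κ) * ∑ k, rho (v k - u k)
    rw [← hui, ← hvj]
    have h5 : -1 * (v j - u i - (v i - u i)) = -v j - -v i := by ring
    have h6 : (v j - u i) ^ 2 - (v i - u i) ^ 2 = (-v j - -u i) ^ 2 - (-v i - -u i) ^ 2 := by ring
    rw [h5, h6]
    exact h4) (by
    intro χ hχ hχ0 hχ1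
    have h2 := min_drift hν hX hD (show t ≤ t + h from le_self_add) hχ hχ0 hχ1
    push_cast at h2
    rw [add_sub_cancel_left] at h2
    linarith) Y hY hY1
  refine h1.trans ?_
  have h2 : -(bm β ν) - -1 * β = β - bm β ν := by ring
  rw [h2]
  exact SqMax.fin_bound (SqMax.lind_nonneg t h)

end Pool.Agent.TH996.HW
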