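import Pool.Agent.TH996.HW.Dual

/-!
# Taylor bounds for `FF` (MP_b213bc_pr)
-/

open MeasureTheory ProbabilityTheory Filter
open scoped NNReal ENNReal Topology

namespace Pool.Agent.TH996.HW

namespace TaylorAux

variable {f : ℝ → ℝ}

theorem cont (hf : Bump f) : Continuous f := hf.smooth.continuous

theorem cpt (hf : Bump f) : HasCompactSupport f :=
  HasCompactSupport.intro (isCompact_Icc (a := (-1 : ℝ)) (b := 0)) (fun x hx => by
    by_contra h
    exact hx (hf.supp x h))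

theorem intg (hf : Bump f) : Integrable f :=
  (cont hf).integrable_of_hasCompactSupport (cpt hf)

theorem d1 (hf : Bump f) (x : ℝ) : HasDerivAt f (deriv f x) x :=
  (hf.smooth.differentiable (by norm_num) x).hasDerivAt

theorem smooth1 (hf : Bump f) : ContDiff ℝ 2 (deriv f) := by
  have h : ContDiff ℝ (2 + 1) f := by
    have := hf.smooth
    norm_num
    exact this
  exact (contDiff_succ_iff_deriv.1 h).2.2

theorem d2 (hf : Bump f) (x : ℝ) : HasDerivAt (deriv f) (deriv (deriv f) x) x :=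
  ((smooth1 hf).differentiable (by norm_num) x).hasDerivAt

theorem cont2 (hf : Bump f) : Continuous (deriv (deriv f)) := by
  have h : ContDiff ℝ (1 + 1) (deriv f) := by
    have := smooth1 hf
    norm_num
    exact this
  exact (contDiff_succ_iff_deriv.1 h).2.2.continuous

theorem bdd (hf : Bump f) : ∃ K : ℝ, 0 ≤ K ∧ ∀ x, |f x| ≤ K ∧ |deriv f x| ≤ K ∧
    |deriv (deriv f) x| ≤ K := by
  obtain ⟨K0, h0⟩ := (cont hf).bounded_above_of_compact_support (cpt hf)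
  obtain ⟨K1, h1⟩ := (smooth1 hf).continuous.bounded_above_of_compact_support (cpt hf).deriv
  obtain ⟨K2, h2⟩ := (cont2 hf).bounded_above_of_compact_support (cpt hf).deriv.deriv
  refine ⟨max K0 (max K1 K2), (norm_nonneg _).trans ((h0 0).trans (le_max_left _ _)), fun x =>
    ⟨(h0 x).trans (le_max_left _ _), (h1 x).trans ((le_max_left _ _).trans (le_max_right _ _)),
      (h2 x).trans ((le_max_right _ _).trans (le_max_right _ _))⟩⟩

/-- a primitive -/
noncomputable def prim (f : ℝ → ℝ) (x : ℝ) : ℝ := ∫ s in (0 : ℝ)..x, f s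

theorem prim_der {g : ℝ → ℝ} (hg : Continuous g) (x : ℝ) : HasDerivAt (prim g) (g x) x :=
  intervalIntegral.integral_hasDerivAt_right (hg.intervalIntegrable _ _)
    (hg.stronglyMeasurableAtFilter _ _) hg.continuousAt

theorem prim_cont {g : ℝ → ℝ} (hg : Continuous g) : Continuous (prim g) :=
  continuous_iff_continuousAt.2 fun x => (prim_der hg x).continuousAt

theorem prim_sub {g : ℝ → ℝ} (hg : Continuous g) (a b : ℝ) :
    ∫ s in a..b, g s = prim g b - prim g a := by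
  unfold prim
  rw [intervalIntegral.integral_interval_sub_left (hg.intervalIntegrable _ _)
    (hg.intervalIntegrable _ _)]

theorem prim_left (hf : Bump f) (a b c : ℝ) :
    ∫ l in a..b, f (c - l) = prim f (c - a) - prim f (c - b) := by
  rw [intervalIntegral.integral_comp_sub_left (fun x => f x), prim_sub (cont hf)]

theorem prim_right (hf : Bump f) (a b c : ℝ) :
    ∫ l in a..b, f (l - c) = prim f (b - c) - prim f (a - c) := by
  rw [intervalIntegral.integral_comp_sub_right (fun x => f x), prim_sub (cont hf)]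

theorem prim_le (hf : Bump f) {u v : ℝ} (h : u ≤ v) : prim f u ≤ prim f v := by
  rw [← sub_nonneg, ← prim_sub (cont hf)]
  exact intervalIntegral.integral_nonneg h fun x _ => hf.nonneg x

theorem prim_one (hf : Bump f) (u v : ℝ) : |prim f u - prim f v| ≤ 1 := by
  rw [← prim_sub (cont hf), ← Real.norm_eq_abs]
  refine (intervalIntegral.norm_integral_le_integral_norm_uIoc).trans ?_
  rw [← hf.int]
  have h1 : ∀ x, ‖f x‖ = f x := fun x => Real.norm_of_nonneg (hf.nonneg x)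
  simp only [h1]
  exact setIntegral_le_integral (intg hf) (Eventually.of_forall hf.nonneg)

theorem prim_lip (hf : Bump f) {K : ℝ} (hK : ∀ x, |f x| ≤ K) (u v : ℝ) :
    |prim f u - prim f v| ≤ K * |u - v| := by
  rw [← prim_sub (cont hf), ← Real.norm_eq_abs]
  exact intervalIntegral.norm_integral_le_of_norm_le_const fun x _ => hK x

/-! ### the smooth extension of `FF` -/

/-- auxiliary primitive -/
noncomputable def WW (f : ℝ → ℝ) (y y' : ℝ) : ℝ → ℝ := prim fun s => f (s - y) * prim f (y' - s)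

theorem WW_cont (hf : Bump f) (y y' : ℝ) : Continuous fun s => f (s - y) * prim f (y' - s) := by
  have h1 := cont hf
  have h2 := prim_cont h1
  fun_prop

/-- the smooth extension -/
noncomputable def GG (f : ℝ → ℝ) (y y' p p' : ℝ) : ℝ :=
  WW f y y' p' - WW f y y' p - prim f (y' - p') * (prim f (p' - y) - prim f (p - y))

theorem GG_eq (hf : Bump f) (y y' p p' : ℝ) :
    GG f y y' p p' = ∫ x in p..p', f (x - y) * (prim f (y' - x) - prim f (y' - p')) := by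
  have h1 := cont hf
  have h2 := prim_cont h1
  have h3 : ∀ x, f (x - y) * (prim f (y' - x) - prim f (y' - p')) =
      f (x - y) * prim f (y' - x) - prim f (y' - p') * f (x - y) := fun x => by ring
  simp only [h3]
  rw [intervalIntegral.integral_sub ((WW_cont hf y y').intervalIntegrable _ _)
    (Continuous.intervalIntegrable (by fun_prop) _ _), prim_sub (WW_cont hf y y'),
    intervalIntegral.integral_const_mul, prim_right hf]
  rfl

theorem FF_zero (f : ℝ → ℝ) (y y' : ℝ) {p p' : ℝ} (h : p' ≤ p) : FF f y y' p p' = 0 := by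
  unfold FF
  have : {z : ℝ × ℝ | p < z.1 ∧ z.1 < z.2 ∧ z.2 < p'} = ∅ := by
    ext z
    simp only [Set.mem_ofPred_eq, Set.mem_empty_iff_false, iff_false]
    rintro ⟨h1, h2, h3⟩
    linarith
  rw [this]
  simp

theorem FF_eq (hf : Bump f) (y y' : ℝ) {p p' : ℝ} (h : p ≤ p') :
    FF f y y' p p' = GG f y y' p p' := by
  have h1 := cont hf
  have h2 := prim_cont h1
  have hS : MeasurableSet {z : ℝ × ℝ | p < z.1 ∧ z.1 < z.2 ∧ z.2 < p'} :=
    (measurableSet_lt measurable_const measurable_fst).inter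
      ((measurableSet_lt measurable_fst measurable_snd).inter
        (measurableSet_lt measurable_snd measurable_const))
  have hint : Integrable (fun z : ℝ × ℝ => f (z.1 - y) * f (y' - z.2)) (volume.prod volume) :=
    ((intg hf).comp_sub_right y).mul_prod ((intg hf).comp_sub_left y')
  have hnn : ∀ z : ℝ × ℝ, 0 ≤ f (z.1 - y) * f (y' - z.2) := fun z =>
    mul_nonneg (hf.nonneg _) (hf.nonneg _)
  have e1 : FF f y y' p p' =
      ∫ z in {z : ℝ × ℝ | p < z.1 ∧ z.1 < z.2 ∧ z.2 < p'}, f (z.1 - y) * f (y' - z.2) := by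
    unfold FF dm
    rw [measureReal_def, withDensity_apply _ hS,
      integral_eq_lintegral_of_nonneg_ae (Eventually.of_forall hnn)
        (by exact (Continuous.aestronglyMeasurable (by fun_prop)))]
  rw [e1, ← integral_indicator hS, GG_eq hf, Measure.volume_eq_prod,
    integral_prod _ (hint.indicator hS), intervalIntegral.integral_of_le h,
    ← integral_indicator measurableSet_Ioc]
  refine integral_congr_ae ?_
  have hne : ∀ᵐ x : ℝ, x ≠ p' := by
    rw [ae_iff]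
    simp
  filter_upwards [hne] with x hx
  by_cases hxp : x ∈ Set.Ioc p p'
  · rw [Set.indicator_of_mem hxp]
    have hx2 : x < p' := lt_of_le_of_ne hxp.2 hx
    have e2 : ∀ l : ℝ, ({z : ℝ × ℝ | p < z.1 ∧ z.1 < z.2 ∧ z.2 < p'}.indicator
        (fun z : ℝ × ℝ => f (z.1 - y) * f (y' - z.2)) (x, l)) =
        (Set.Ioo x p').indicator (fun l => f (x - y) * f (y' - l)) l := by
      intro l
      by_cases hl : l ∈ Set.Ioo x p'
      · rw [Set.indicator_of_mem hl, Set.indicator_of_mem]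
        exact ⟨hxp.1, hl.1, hl.2⟩
      · rw [Set.indicator_of_notMem hl, Set.indicator_of_notMem]
        rintro ⟨_, h4, h5⟩
        exact hl ⟨h4, h5⟩
    simp only [e2]
    rw [integral_indicator measurableSet_Ioo, integral_const_mul, ← integral_Ioc_eq_integral_Ioo,
      ← intervalIntegral.integral_of_le hx2.le, prim_left hf]
  · rw [Set.indicator_of_notMem hxp]
    have e2 : ∀ l : ℝ, ({z : ℝ × ℝ | p < z.1 ∧ z.1 < z.2 ∧ z.2 < p'}.indicator
        (fun z : ℝ × ℝ => f (z.1 - y) * f (y' - z.2)) (x, l)) = 0 := by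
      intro l
      rw [Set.indicator_of_notMem]
      rintro ⟨h4, h5, h6⟩
      exact hxp ⟨h4, (lt_trans h5 h6).le⟩
    simp only [e2, integral_zero]

/-! ### Taylor in one variable -/

theorem T0 {φ φ1 : ℝ → ℝ} {C : ℝ} (h0 : ∀ t, HasDerivAt φ (φ1 t) t)
    (hC : ∀ t ∈ Set.Icc (0 : ℝ) 1, |φ1 t| ≤ C) {t : ℝ} (ht : t ∈ Set.Icc (0 : ℝ) 1) :
    |φ t - φ 0| ≤ C := by
  have hC0 : 0 ≤ C := (abs_nonneg _).trans (hC 0 ⟨le_rfl, zero_le_one⟩)
  have h := Convex.norm_image_sub_le_of_norm_hasDerivWithin_le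
    (f := φ) (f' := φ1) (s := Set.Icc (0 : ℝ) 1) (C := C)
    (fun x _ => (h0 x).hasDerivWithinAt) (fun x hx => hC x hx) (convex_Icc 0 1)
    (x := 0) (y := t) ⟨le_rfl, zero_le_one⟩ ht
  rw [Real.norm_eq_abs, Real.norm_eq_abs, sub_zero, abs_of_nonneg ht.1] at h
  refine h.trans ?_
  nlinarith [ht.2]

theorem T1 {φ φ1 φ2 : ℝ → ℝ} {C : ℝ} (h0 : ∀ t, HasDerivAt φ (φ1 t) t)
    (h1 : ∀ t, HasDerivAt φ1 (φ2 t) t)
    (hC : ∀ t ∈ Set.Icc (0 : ℝ) 1, |φ2 t| ≤ C) {t : ℝ} (ht : t ∈ Set.Icc (0 : ℝ) 1) :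
    |φ t - φ 0 - φ1 0 * t| ≤ C := by
  have h := T0 (φ := fun t => φ t - φ1 0 * t) (φ1 := fun t => φ1 t - φ1 0) (C := C)
    (fun t => by
      have := (h0 t).fun_sub ((hasDerivAt_id t).const_mul (φ1 0))
      simpa using this)
    (fun t ht => T0 h1 hC ht) ht
  have e : φ t - φ1 0 * t - (φ 0 - φ1 0 * 0) = φ t - φ 0 - φ1 0 * t := by ring
  rwa [e] at h

theorem T2 {φ φ1 φ2 φ3 : ℝ → ℝ} {C : ℝ} (h0 : ∀ t, HasDerivAt φ (φ1 t) t)
    (h1 : ∀ t, HasDerivAt φ1 (φ2 t) t) (h2 : ∀ t, HasDerivAt φ2 (φ3 t) t)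
    (hC : ∀ t ∈ Set.Icc (0 : ℝ) 1, |φ3 t| ≤ C) :
    |φ 1 - φ 0 - φ1 0 - φ2 0 / 2| ≤ C := by
  have h := T0 (φ := fun t => φ t - φ1 0 * t - φ2 0 / 2 * t ^ 2)
    (φ1 := fun t => φ1 t - φ1 0 - φ2 0 * t) (C := C)
    (fun t => by
      have e1 := (h0 t).fun_sub ((hasDerivAt_id t).const_mul (φ1 0))
      have e2 := ((hasDerivAt_id t).fun_pow 2).const_mul (φ2 0 / 2)
      have e3 := e1.fun_sub e2
      refine e3.congr_deriv ?_
      simp only [id]
      ring)
    (fun t ht => T1 h1 h2 hC ht) (t := 1) ⟨zero_le_one, le_rfl⟩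
  have e : φ 1 - φ1 0 * 1 - φ2 0 / 2 * 1 ^ 2 - (φ 0 - φ1 0 * 0 - φ2 0 / 2 * 0 ^ 2) =
      φ 1 - φ 0 - φ1 0 - φ2 0 / 2 := by ring
  rwa [e] at h

/-! ### derivatives along a segment -/

theorem comp_line {g g' : ℝ → ℝ} (hg : ∀ x, HasDerivAt g (g' x) x) (c d t : ℝ) :
    HasDerivAt (fun t => g (c + t * d)) (g' (c + t * d) * d) t := by
  have h1 : HasDerivAt (fun t : ℝ => c + t * d) d t := by
    have := ((hasDerivAt_id t).mul_const d).const_add c
    simpa using this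
  exact (hg (c + t * d)).comp t h1

section line
variable (f) (y y' p p' δ δ' t : ℝ)

/-- values at the moving end points -/
noncomputable def P0 : ℝ := f (p - y + t * δ)
/-- derivative -/
noncomputable def P1 : ℝ := deriv f (p - y + t * δ)
/-- second derivative -/
noncomputable def P2 : ℝ := deriv (deriv f) (p - y + t * δ)
/-- values at the moving end points -/
noncomputable def Q0 : ℝ := f (y' - p' + t * -δ')
/-- derivative -/
noncomputable def Q1 : ℝ := deriv f (y' - p' + t * -δ')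
/-- second derivative -/
noncomputable def Q2 : ℝ := deriv (deriv f) (y' - p' + t * -δ')
/-- values at the moving end points -/
noncomputable def R0 : ℝ := f (y' - p + t * -δ)
/-- derivative -/
noncomputable def R1 : ℝ := deriv f (y' - p + t * -δ)
/-- values at the moving end points -/
noncomputable def S0 : ℝ := f (p' - y + t * δ')
/-- derivative -/
noncomputable def S1 : ℝ := deriv f (p' - y + t * δ')
/-- integral -/
noncomputable def I0 : ℝ := prim f (y' - p + t * -δ) - prim f (y' - p' + t * -δ')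
/-- integral -/
noncomputable def J0 : ℝ := prim f (p' - y + t * δ') - prim f (p - y + t * δ)

/-- value -/
noncomputable def L0 : ℝ := GG f y y' (p + t * δ) (p' + t * δ')
/-- first derivative -/
noncomputable def L1 : ℝ := -(δ * (P0 f y p δ t * I0 f y' p p' δ δ' t)) +
  δ' * (Q0 f y' p' δ' t * J0 f y p p' δ δ' t)
/-- second derivative -/
noncomputable def L2 : ℝ :=
  δ ^ 2 * (-(P1 f y p δ t * I0 f y' p p' δ δ' t) + P0 f y p δ t * R0 f y' p δ t) +
  δ * δ' * (-2 * (P0 f y p δ t * Q0 f y' p' δ' t)) +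
  δ' ^ 2 * (-(Q1 f y' p' δ' t * J0 f y p p' δ δ' t) + Q0 f y' p' δ' t * S0 f y p' δ' t)
/-- third derivative -/
noncomputable def L3 : ℝ :=
  δ ^ 2 * (-(P2 f y p δ t * δ * I0 f y' p p' δ δ' t +
      P1 f y p δ t * (R0 f y' p δ t * -δ - Q0 f y' p' δ' t * -δ')) +
    (P1 f y p δ t * δ * R0 f y' p δ t + P0 f y p δ t * (R1 f y' p δ t * -δ))) +
  δ * δ' * (-2 * (P1 f y p δ t * δ * Q0 f y' p' δ' t + P0 f y p δ t * (Q1 f y' p' δ' t * -δ'))) +
  δ' ^ 2 * (-(Q2 f y' p' δ' t * -δ' * J0 f y p p' δ δ' t +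
      Q1 f y' p' δ' t * (S0 f y p' δ' t * δ' - P0 f y p δ t * δ)) +
    (Q1 f y' p' δ' t * -δ' * S0 f y p' δ' t + Q0 f y' p' δ' t * (S1 f y p' δ' t * δ')))

end line

theorem hL0 (hf : Bump f) (y y' p p' δ δ' t : ℝ) :
    HasDerivAt (fun t => L0 f y y' p p' δ δ' t) (L1 f y y' p p' δ δ' t) t := by
  have hW := prim_der (WW_cont hf y y')
  have hH := prim_der (cont hf)
  have a1 := comp_line hW p' δ' t
  have a2 := comp_line hW p δ t
  have a3 := comp_line hH (y' - p') (-δ') t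
  have a4 := comp_line hH (p' - y) δ' t
  have a5 := comp_line hH (p - y) δ t
  have a6 := (a1.fun_sub a2).fun_sub (a3.fun_mul (a4.fun_sub a5))
  have e : (fun t => L0 f y y' p p' δ δ' t) = fun t =>
      prim (fun s => f (s - y) * prim f (y' - s)) (p' + t * δ') -
      prim (fun s => f (s - y) * prim f (y' - s)) (p + t * δ) -
      prim f (y' - p' + t * -δ') * (prim f (p' - y + t * δ') - prim f (p - y + t * δ)) := by
    funext t
    unfold L0 GG WW
    congr 2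
    · congr 1; ring
    · congr 1
      · congr 1; ring
      · congr 1; ring
  rw [e]
  refine a6.congr_deriv ?_
  unfold L1 P0 Q0 I0 J0
  have e1 : p' + t * δ' - y = p' - y + t * δ' := by ring
  have e2 : y' - (p' + t * δ') = y' - p' + t * -δ' := by ring
  have e3 : p + t * δ - y = p - y + t * δ := by ring
  have e4 : y' - (p + t * δ) = y' - p + t * -δ := by ring
  rw [e1, e2, e3, e4]
  ring

theorem hL1 (hf : Bump f) (y y' p p' δ δ' t : ℝ) :
    HasDerivAt (fun t => L1 f y y' p p' δ δ' t) (L2 f y y' p p' δ δ' t) t := by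
  have hH := prim_der (cont hf)
  have hf1 := d1 hf
  have a1 := comp_line hf1 (p - y) δ t
  have a2 := comp_line hf1 (y' - p') (-δ') t
  have b1 := comp_line hH (y' - p) (-δ) t
  have b2 := comp_line hH (y' - p') (-δ') t
  have b3 := comp_line hH (p' - y) δ' t
  have b4 := comp_line hH (p - y) δ t
  have c1 := ((a1.fun_mul (b1.fun_sub b2)).const_mul δ).fun_neg.fun_add
    ((a2.fun_mul (b3.fun_sub b4)).const_mul δ')
  refine c1.congr_deriv ?_
  unfold L2 P0 P1 Q0 Q1 R0 S0 I0 J0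
  ring

theorem hL2 (hf : Bump f) (y y' p p' δ δ' t : ℝ) :
    HasDerivAt (fun t => L2 f y y' p p' δ δ' t) (L3 f y y' p p' δ δ' t) t := by
  have hH := prim_der (cont hf)
  have hf1 := d1 hf
  have hf2 := d2 hf
  have p0 := comp_line hf1 (p - y) δ t
  have p1 := comp_line hf2 (p - y) δ t
  have q0 := comp_line hf1 (y' - p') (-δ') t
  have q1 := comp_line hf2 (y' - p') (-δ') t
  have r0 := comp_line hf1 (y' - p) (-δ) t
  have s0 := comp_line hf1 (p' - y) δ' t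
  have b1 := comp_line hH (y' - p) (-δ) t
  have b2 := comp_line hH (y' - p') (-δ') t
  have b3 := comp_line hH (p' - y) δ' t
  have b4 := comp_line hH (p - y) δ t
  have c1 := (((p1.fun_mul (b1.fun_sub b2)).fun_neg.fun_add (p0.fun_mul r0)).const_mul
    (δ ^ 2)).fun_add (((p0.fun_mul q0).const_mul (-2)).const_mul (δ * δ'))
  have c2 := c1.fun_add (((q1.fun_mul (b3.fun_sub b4)).fun_neg.fun_add
    (q0.fun_mul s0)).const_mul (δ' ^ 2))
  refine c2.congr_deriv ?_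
  unfold L3 P0 P1 P2 Q0 Q1 Q2 R0 R1 S0 S1 I0 J0
  ring

/-! ### bounds -/

theorem mulb {a b A B : ℝ} (ha : |a| ≤ A) (hb : |b| ≤ B) : |a * b| ≤ A * B := by
  rw [abs_mul]
  exact mul_le_mul ha hb (abs_nonneg _) ((abs_nonneg _).trans ha)

theorem addb {a b A B : ℝ} (ha : |a| ≤ A) (hb : |b| ≤ B) : |a + b| ≤ A + B :=
  (abs_add_le _ _).trans (add_le_add ha hb)

theorem negb {a A : ℝ} (ha : |a| ≤ A) : |(-a)| ≤ A := by rwa [abs_neg]

theorem subb {a b A B : ℝ} (ha : |a| ≤ A) (hb : |b| ≤ B) : |a - b| ≤ A + B := by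
  rw [sub_eq_add_neg]
  exact addb ha (negb hb)

theorem D_sq (δ δ' : ℝ) : (|δ| + |δ'|) ^ 2 ≤ 2 * (δ ^ 2 + δ' ^ 2) := by
  have h1 := sq_abs δ
  have h2 := sq_abs δ'
  nlinarith [sq_nonneg (|δ| - |δ'|)]

theorem D_cub (δ δ' : ℝ) : (|δ| + |δ'|) ^ 3 ≤ 4 * (|δ| ^ 3 + |δ'| ^ 3) := by
  have h1 := abs_nonneg δ
  have h2 := abs_nonneg δ'
  nlinarith [mul_nonneg (add_nonneg h1 h2) (sq_nonneg (|δ| - |δ'|))]

section bds
variable {K : ℝ} (hK : ∀ x, |f x| ≤ K ∧ |deriv f x| ≤ K ∧ |deriv (deriv f) x| ≤ K)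
include hK

theorem bL2 (hf : Bump f) (y y' p p' δ δ' t : ℝ) :
    |L2 f y y' p p' δ δ' t| ≤ (2 * K + 4 * K ^ 2) * (|δ| + |δ'|) ^ 2 := by
  have hδ : |δ| ≤ |δ| + |δ'| := by linarith [abs_nonneg δ']
  have hδ' : |δ'| ≤ |δ| + |δ'| := by linarith [abs_nonneg δ]
  have h11 : |δ ^ 2| ≤ (|δ| + |δ'|) * (|δ| + |δ'|) := by rw [pow_two]; exact mulb hδ hδ
  have h12 : |δ * δ'| ≤ (|δ| + |δ'|) * (|δ| + |δ'|) := mulb hδ hδ'
  have h22 : |δ' ^ 2| ≤ (|δ| + |δ'|) * (|δ| + |δ'|) := by rw [pow_two]; exact mulb hδ' hδ'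
  have hI : |I0 f y' p p' δ δ' t| ≤ 1 := prim_one hf _ _
  have hJ : |J0 f y p p' δ δ' t| ≤ 1 := prim_one hf _ _
  have h2 : |(-2 : ℝ)| ≤ 2 := by norm_num
  have hP0 : |P0 f y p δ t| ≤ K := (hK _).1
  have hP1 : |P1 f y p δ t| ≤ K := (hK _).2.1
  have hQ0 : |Q0 f y' p' δ' t| ≤ K := (hK _).1
  have hQ1 : |Q1 f y' p' δ' t| ≤ K := (hK _).2.1
  have hR0 : |R0 f y' p δ t| ≤ K := (hK _).1
  have hS0 : |S0 f y p' δ' t| ≤ K := (hK _).1
  unfold L2
  refine (addb (addb (mulb h11 (addb (negb (mulb hP1 hI)) (mulb hP0 hR0)))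
    (mulb h12 (mulb h2 (mulb hP0 hQ0)))) (mulb h22 (addb (negb (mulb hQ1 hJ))
    (mulb hQ0 hS0)))).trans (le_of_eq ?_)
  ring

theorem bL3 (hf : Bump f) (y y' p p' δ δ' t : ℝ) :
    |L3 f y y' p p' δ δ' t| ≤ (2 * K + 12 * K ^ 2) * (|δ| + |δ'|) ^ 3 := by
  have hδ : |δ| ≤ |δ| + |δ'| := by linarith [abs_nonneg δ']
  have hδ' : |δ'| ≤ |δ| + |δ'| := by linarith [abs_nonneg δ]
  have hnδ : |(-δ)| ≤ |δ| + |δ'| := negb hδ
  have hnδ' : |(-δ')| ≤ |δ| + |δ'| := negb hδ'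
  have h11 : |δ ^ 2| ≤ (|δ| + |δ'|) * (|δ| + |δ'|) := by rw [pow_two]; exact mulb hδ hδ
  have h12 : |δ * δ'| ≤ (|δ| + |δ'|) * (|δ| + |δ'|) := mulb hδ hδ'
  have h22 : |δ' ^ 2| ≤ (|δ| + |δ'|) * (|δ| + |δ'|) := by rw [pow_two]; exact mulb hδ' hδ'
  have hI : |I0 f y' p p' δ δ' t| ≤ 1 := prim_one hf _ _
  have hJ : |J0 f y p p' δ δ' t| ≤ 1 := prim_one hf _ _
  have h2 : |(-2 : ℝ)| ≤ 2 := by norm_num
  have hP0 : |P0 f y p δ t| ≤ K := (hK _).1
  have hP1 : |P1 f y p δ t| ≤ K := (hK _).2.1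
  have hP2 : |P2 f y p δ t| ≤ K := (hK _).2.2
  have hQ0 : |Q0 f y' p' δ' t| ≤ K := (hK _).1
  have hQ1 : |Q1 f y' p' δ' t| ≤ K := (hK _).2.1
  have hQ2 : |Q2 f y' p' δ' t| ≤ K := (hK _).2.2
  have hR0 : |R0 f y' p δ t| ≤ K := (hK _).1
  have hR1 : |R1 f y' p δ t| ≤ K := (hK _).2.1
  have hS0 : |S0 f y p' δ' t| ≤ K := (hK _).1
  have hS1 : |S1 f y p' δ' t| ≤ K := (hK _).2.1
  unfold L3
  refine (addb (addb
    (mulb h11 (addb (negb (addb (mulb (mulb hP2 hδ) hI)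
      (mulb hP1 (subb (mulb hR0 hnδ) (mulb hQ0 hnδ')))))
      (addb (mulb (mulb hP1 hδ) hR0) (mulb hP0 (mulb hR1 hnδ)))))
    (mulb h12 (mulb h2 (addb (mulb (mulb hP1 hδ) hQ0) (mulb hP0 (mulb hQ1 hnδ'))))))
    (mulb h22 (addb (negb (addb (mulb (mulb hQ2 hnδ') hJ)
      (mulb hQ1 (subb (mulb hS0 hδ') (mulb hP0 hδ)))))
      (addb (mulb (mulb hQ1 hnδ') hS0) (mulb hQ0 (mulb hS1 hδ')))))).trans (le_of_eq ?_)
  ring

end bds

theorem L0_zero (y y' p p' δ δ' : ℝ) : L0 f y y' p p' δ δ' 0 = GG f y y' p p' := by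
  unfold L0
  rw [zero_mul, zero_mul, add_zero, add_zero]

theorem L0_one (y y' p p' δ δ' : ℝ) : L0 f y y' p p' δ δ' 1 = GG f y y' (p + δ) (p' + δ') := by
  unfold L0
  rw [one_mul, one_mul]

theorem e1_eq (hf : Bump f) (y y' : ℝ) {p p' : ℝ} (h : p < p') : e1 f y y' p p' =
    -(f (p - y) * (prim f (y' - p) - prim f (y' - p'))) := by
  unfold e1
  rw [if_pos h, prim_left hf]

theorem e2_eq (hf : Bump f) (y y' : ℝ) {p p' : ℝ} (h : p < p') : e2 f y y' p p' =
    f (y' - p') * (prim f (p' - y) - prim f (p - y)) := by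
  unfold e2
  rw [if_pos h, prim_right hf]

theorem e11_eq (hf : Bump f) (y y' : ℝ) {p p' : ℝ} (h : p < p') : e11 f y y' p p' =
    -(deriv f (p - y) * (prim f (y' - p) - prim f (y' - p'))) + f (p - y) * f (y' - p) := by
  unfold e11
  rw [if_pos h, prim_left hf]

theorem e12_eq (f : ℝ → ℝ) (y y' : ℝ) {p p' : ℝ} (h : p < p') : e12 f y y' p p' =
    -(f (p - y) * f (y' - p')) := by
  unfold e12
  rw [if_pos h]

theorem e22_eq (hf : Bump f) (y y' : ℝ) {p p' : ℝ} (h : p < p') : e22 f y y' p p' =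
    -(deriv f (y' - p') * (prim f (p' - y) - prim f (p - y))) + f (y' - p') * f (p' - y) := by
  unfold e22
  rw [if_pos h, prim_right hf]

theorem L1_zero (hf : Bump f) (y y' δ δ' : ℝ) {p p' : ℝ} (h : p < p') :
    L1 f y y' p p' δ δ' 0 = e1 f y y' p p' * δ + e2 f y y' p p' * δ' := by
  rw [e1_eq hf y y' h, e2_eq hf y y' h]
  unfold L1 P0 Q0 I0 J0
  simp only [zero_mul, add_zero]
  ring

theorem L2_zero (hf : Bump f) (y y' δ δ' : ℝ) {p p' : ℝ} (h : p < p') :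
    L2 f y y' p p' δ δ' 0 = e11 f y y' p p' * δ ^ 2 + 2 * e12 f y y' p p' * (δ * δ') +
      e22 f y y' p p' * δ' ^ 2 := by
  rw [e11_eq hf y y' h, e12_eq f y y' h, e22_eq hf y y' h]
  unfold L2 P0 P1 Q0 Q1 R0 S0 I0 J0
  simp only [zero_mul, add_zero]
  ring

/-- size of `FF`, `e1`, `e2` for close end points -/
theorem FF_small (hf : Bump f) {K : ℝ} (hK0 : 0 ≤ K) (hK : ∀ x, |f x| ≤ K) (y y' : ℝ)
    {p p' : ℝ} (h : p < p') : |FF f y y' p p'| ≤ K ^ 2 * (p' - p) ^ 2 ∧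
      |e1 f y y' p p'| ≤ K ^ 2 * (p' - p) ∧ |e2 f y y' p p'| ≤ K ^ 2 * (p' - p) := by
  refine ⟨?_, ?_, ?_⟩
  · rw [FF_eq hf y y' h.le, GG_eq hf, ← Real.norm_eq_abs]
    have h1 := intervalIntegral.norm_integral_le_of_norm_le_const
      (f := fun x => f (x - y) * (prim f (y' - x) - prim f (y' - p'))) (a := p) (b := p')
      (C := K * (K * (p' - p))) (fun x hx => by
        rw [Set.uIoc_of_le h.le] at hx
        rw [Real.norm_eq_abs]
        refine mulb (hK _) ((prim_lip hf hK _ _).trans ?_)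
        apply mul_le_mul_of_nonneg_left _ hK0
        rw [abs_of_nonneg (by linarith [hx.2])]
        linarith [hx.1])
    refine h1.trans (le_of_eq ?_)
    rw [abs_of_pos (sub_pos.2 h)]
    ring
  · rw [e1_eq hf y y' h]
    refine (negb (mulb (hK _) (prim_lip hf hK _ _))).trans (le_of_eq ?_)
    have : y' - p - (y' - p') = p' - p := by ring
    rw [this, abs_of_pos (sub_pos.2 h)]
    ring
  · rw [e2_eq hf y y' h]
    refine (mulb (hK _) (prim_lip hf hK _ _)).trans (le_of_eq ?_)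
    have : p' - y - (p - y) = p' - p := by ring
    rw [this, abs_of_pos (sub_pos.2 h)]
    ring

theorem crude (hf : Bump f) {K : ℝ} (hK0 : 0 ≤ K)
    (hK : ∀ x, |f x| ≤ K ∧ |deriv f x| ≤ K ∧ |deriv (deriv f) x| ≤ K)
    (y y' p p' δ δ' : ℝ) (h : p < p') :
    |FF f y y' (p + δ) (p' + δ') - FF f y y' p p' - e1 f y y' p p' * δ - e2 f y y' p p' * δ'| ≤
      (4 * K + 8 * K ^ 2) * (δ ^ 2 + δ' ^ 2) := by
  have hD := D_sq δ δ'
  have hK2 : 0 ≤ K ^ 2 := sq_nonneg K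
  rcases le_or_gt (p + δ) (p' + δ') with hle | hlt
  · have h1 := T1 (hL0 hf y y' p p' δ δ') (hL1 hf y y' p p' δ δ')
      (C := (2 * K + 4 * K ^ 2) * (|δ| + |δ'|) ^ 2) (fun t _ => bL2 hK hf y y' p p' δ δ' t)
      (t := 1) ⟨zero_le_one, le_rfl⟩
    rw [L0_zero, L0_one, L1_zero hf y y' δ δ' h, ← FF_eq hf y y' hle, ← FF_eq hf y y' h.le,
      mul_one] at h1
    have e : FF f y y' (p + δ) (p' + δ') - FF f y y' p p' - e1 f y y' p p' * δ -
        e2 f y y' p p' * δ' = FF f y y' (p + δ) (p' + δ') - FF f y y' p p' -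
        (e1 f y y' p p' * δ + e2 f y y' p p' * δ') := by ring
    rw [e]
    refine h1.trans ?_
    have h2 : (2 * K + 4 * K ^ 2) * (|δ| + |δ'|) ^ 2 ≤
        (2 * K + 4 * K ^ 2) * (2 * (δ ^ 2 + δ' ^ 2)) :=
      mul_le_mul_of_nonneg_left hD (by positivity)
    refine h2.trans (le_of_eq ?_)
    ring
  · rw [FF_zero f y y' hlt.le]
    obtain ⟨b0, b1, b2⟩ := FF_small hf hK0 (fun x => (hK x).1) y y' h
    have hw : p' - p ≤ |δ| + |δ'| := by
      have := le_abs_self δ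
      have := neg_abs_le δ'
      linarith
    have hw0 : 0 ≤ p' - p := by linarith
    have hδ : |δ| ≤ |δ| + |δ'| := by linarith [abs_nonneg δ']
    have hδ' : |δ'| ≤ |δ| + |δ'| := by linarith [abs_nonneg δ]
    have hD0 : 0 ≤ |δ| + |δ'| := by positivity
    have c0 : |FF f y y' p p'| ≤ K ^ 2 * (|δ| + |δ'|) ^ 2 :=
      b0.trans (mul_le_mul_of_nonneg_left (pow_le_pow_left₀ hw0 hw 2) hK2)
    have c1 : |e1 f y y' p p' * δ| ≤ K ^ 2 * (|δ| + |δ'|) * (|δ| + |δ'|) :=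
      mulb (b1.trans (mul_le_mul_of_nonneg_left hw hK2)) hδ
    have c2 : |e2 f y y' p p' * δ'| ≤ K ^ 2 * (|δ| + |δ'|) * (|δ| + |δ'|) :=
      mulb (b2.trans (mul_le_mul_of_nonneg_left hw hK2)) hδ'
    have c3 : |(0 : ℝ) - FF f y y' p p'| ≤ K ^ 2 * (|δ| + |δ'|) ^ 2 := by
      rw [zero_sub, abs_neg]
      exact c0
    refine (subb (subb c3 c1) c2).trans ?_
    have h3 : K ^ 2 * (|δ| + |δ'|) ^ 2 + K ^ 2 * (|δ| + |δ'|) * (|δ| + |δ'|) +
        K ^ 2 * (|δ| + |δ'|) * (|δ| + |δ'|) = 3 * K ^ 2 * (|δ| + |δ'|) ^ 2 := by ring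
    rw [h3]
    have h4 : 3 * K ^ 2 * (|δ| + |δ'|) ^ 2 ≤ 3 * K ^ 2 * (2 * (δ ^ 2 + δ' ^ 2)) :=
      mul_le_mul_of_nonneg_left hD (by positivity)
    refine h4.trans ?_
    have h5 : 0 ≤ δ ^ 2 + δ' ^ 2 := by positivity
    have h6 : 3 * K ^ 2 * 2 ≤ 4 * K + 8 * K ^ 2 := by nlinarith
    calc 3 * K ^ 2 * (2 * (δ ^ 2 + δ' ^ 2)) = (3 * K ^ 2 * 2) * (δ ^ 2 + δ' ^ 2) := by ring
      _ ≤ _ := mul_le_mul_of_nonneg_right h6 h5

theorem rho_ge {x c : ℝ} (hc : c ≤ 1) (hx : c ≤ |x|) : c * x ^ 2 ≤ rho x := by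
  unfold rho
  apply le_min
  · nlinarith [sq_nonneg x]
  · have : |x| ^ 3 = |x| * x ^ 2 := by rw [← sq_abs x]; ring
    rw [this]
    exact mul_le_mul_of_nonneg_right hx (sq_nonneg x)

theorem rho_eq {x : ℝ} (hx : |x| ≤ 1) : rho x = |x| ^ 3 := by
  unfold rho
  apply min_eq_right
  have : |x| ^ 3 = |x| * x ^ 2 := by rw [← sq_abs x]; ring
  rw [this]
  nlinarith [sq_nonneg x]

theorem rho_nonneg (x : ℝ) : 0 ≤ rho x := by
  unfold rho
  positivity

end TaylorAux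

open TaylorAux

variable {n : ℕ} {f : ℝ → ℝ}

theorem e_bounds (hf : Bump f) : ∃ K : ℝ, 0 ≤ K ∧ ∀ y y' p p' : ℝ,
    -K ≤ e1 f y y' p p' ∧ e1 f y y' p p' ≤ 0 ∧ 0 ≤ e2 f y y' p p' ∧ e2 f y y' p p' ≤ K ∧
    |e11 f y y' p p'| ≤ K ∧ |e12 f y y' p p'| ≤ K ∧ |e22 f y y' p p'| ≤ K := by
  obtain ⟨K, hK0, hK⟩ := bdd hf
  have hK2 : 0 ≤ K * K := mul_nonneg hK0 hK0
  refine ⟨K + K * K, by positivity, fun y y' p p' => ?_⟩
  rcases lt_or_ge p p' with h | h
  · have hI0 : 0 ≤ prim f (y' - p) - prim f (y' - p') := sub_nonneg.2 (prim_le hf (by linarith))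
    have hJ0 : 0 ≤ prim f (p' - y) - prim f (p - y) := sub_nonneg.2 (prim_le hf (by linarith))
    have hI1 := prim_one hf (y' - p) (y' - p')
    have hJ1 := prim_one hf (p' - y) (p - y)
    rw [e1_eq hf y y' h, e2_eq hf y y' h, e11_eq hf y y' h, e12_eq f y y' h, e22_eq hf y y' h]
    have a1 := mul_nonneg (hf.nonneg (p - y)) hI0
    have a2 := mul_nonneg (hf.nonneg (y' - p')) hJ0
    have b1 := mulb (hK (p - y)).1 hI1
    have b2 := mulb (hK (y' - p')).1 hJ1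
    rw [abs_of_nonneg a1] at b1
    rw [abs_of_nonneg a2] at b2
    refine ⟨by linarith, by linarith, a2, by linarith, ?_, ?_, ?_⟩
    · exact (addb (negb (mulb (hK _).2.1 hI1)) (mulb (hK _).1 (hK _).1)).trans (le_of_eq (by ring))
    · exact (negb (mulb (hK _).1 (hK _).1)).trans (by linarith)
    · exact (addb (negb (mulb (hK _).2.1 hJ1)) (mulb (hK _).1 (hK _).1)).trans (le_of_eq (by ring))
  · unfold e1 e2 e11 e12 e22
    rw [if_neg (not_lt.2 h), if_neg (not_lt.2 h), if_neg (not_lt.2 h), if_neg (not_lt.2 h),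
      if_neg (not_lt.2 h), abs_zero]
    have : 0 ≤ K + K * K := by positivity
    exact ⟨by linarith, le_rfl, le_rfl, this, this, this, this⟩

theorem e_meas (hf : Bump f) (y y' : ℝ) :
    Measurable (fun z : ℝ × ℝ => e1 f y y' z.1 z.2) ∧
    Measurable (fun z : ℝ × ℝ => e2 f y y' z.1 z.2) ∧
    Measurable (fun z : ℝ × ℝ => e11 f y y' z.1 z.2) ∧
    Measurable (fun z : ℝ × ℝ => e12 f y y' z.1 z.2) ∧
    Measurable (fun z : ℝ × ℝ => e22 f y y' z.1 z.2) := by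
  have h0 := cont hf
  have h1 := (smooth1 hf).continuous
  have h2 := prim_cont h0
  have hS : MeasurableSet {z : ℝ × ℝ | z.1 < z.2} := measurableSet_lt measurable_fst measurable_snd
  unfold e1 e2 e11 e12 e22
  simp only [prim_left hf, prim_right hf]
  refine ⟨?_, ?_, ?_, ?_, ?_⟩
  · exact Measurable.ite hS (Continuous.measurable (by fun_prop)) measurable_const
  · exact Measurable.ite hS (Continuous.measurable (by fun_prop)) measurable_const
  · exact Measurable.ite hS (Continuous.measurable (by fun_prop)) measurable_const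
  · exact Measurable.ite hS (Continuous.measurable (by fun_prop)) measurable_const
  · exact Measurable.ite hS (Continuous.measurable (by fun_prop)) measurable_const

theorem taylor_crude (hf : Bump f) : ∃ C : ℝ, 0 ≤ C ∧ ∀ y y' p p' δ δ' : ℝ, p < p' →
    |FF f y y' (p + δ) (p' + δ') - FF f y y' p p' - e1 f y y' p p' * δ - e2 f y y' p p' * δ'| ≤
      C * (δ ^ 2 + δ' ^ 2) := by
  obtain ⟨K, hK0, hK⟩ := bdd hf
  exact ⟨4 * K + 8 * K ^ 2, by positivity, fun y y' p p' δ δ' h => crude hf hK0 hK y y' p p' δ δ' h⟩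

theorem taylor_fine (hf : Bump f) {η : ℝ} (hη : 0 < η) : ∃ C : ℝ, 0 ≤ C ∧
    ∀ y y' p p' δ δ' : ℝ, η ≤ p' - p →
    |FF f y y' (p + δ) (p' + δ') - FF f y y' p p' - e1 f y y' p p' * δ - e2 f y y' p p' * δ' -
      e11 f y y' p p' / 2 * δ ^ 2 - e12 f y y' p p' * (δ * δ') - e22 f y y' p p' / 2 * δ' ^ 2| ≤
      C * (rho δ + rho δ') := by
  obtain ⟨K, hK0, hK⟩ := bdd hf
  obtain ⟨c, hc⟩ : ∃ c : ℝ, c = min 1 (η / 2) := ⟨_, rfl⟩
  have hc0 : 0 < c := by rw [hc]; positivity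
  have hc1 : c ≤ 1 := by rw [hc]; exact min_le_left _ _
  have hcη : c ≤ η / 2 := by rw [hc]; exact min_le_right _ _
  refine ⟨(8 * K + 48 * K ^ 2) + 2 * (6 * K + 12 * K ^ 2) / c, by positivity,
    fun y y' p p' δ δ' hp => ?_⟩
  have h : p < p' := by linarith
  have hr1 := rho_nonneg δ
  have hr2 := rho_nonneg δ'
  by_cases hM : |δ| < c ∧ |δ'| < c
  · -- small displacements
    have hle : p + δ ≤ p' + δ' := by
      have := le_abs_self δ
      have := neg_abs_le δ'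
      linarith [hM.1, hM.2]
    have h1 := T2 (hL0 hf y y' p p' δ δ') (hL1 hf y y' p p' δ δ') (hL2 hf y y' p p' δ δ')
      (C := (2 * K + 12 * K ^ 2) * (|δ| + |δ'|) ^ 3) (fun t _ => bL3 hK hf y y' p p' δ δ' t)
    rw [L0_zero, L0_one, L1_zero hf y y' δ δ' h, L2_zero hf y y' δ δ' h, ← FF_eq hf y y' hle,
      ← FF_eq hf y y' h.le] at h1
    have e : FF f y y' (p + δ) (p' + δ') - FF f y y' p p' - e1 f y y' p p' * δ -
        e2 f y y' p p' * δ' - e11 f y y' p p' / 2 * δ ^ 2 - e12 f y y' p p' * (δ * δ') -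
        e22 f y y' p p' / 2 * δ' ^ 2 =
        FF f y y' (p + δ) (p' + δ') - FF f y y' p p' -
        (e1 f y y' p p' * δ + e2 f y y' p p' * δ') -
        (e11 f y y' p p' * δ ^ 2 + 2 * e12 f y y' p p' * (δ * δ') +
          e22 f y y' p p' * δ' ^ 2) / 2 := by ring
    rw [e]
    refine h1.trans ?_
    rw [rho_eq (hM.1.le.trans hc1), rho_eq (hM.2.le.trans hc1)]
    have h2 : (2 * K + 12 * K ^ 2) * (|δ| + |δ'|) ^ 3 ≤
        (2 * K + 12 * K ^ 2) * (4 * (|δ| ^ 3 + |δ'| ^ 3)) :=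
      mul_le_mul_of_nonneg_left (D_cub δ δ') (by positivity)
    refine h2.trans ?_
    have h3 : (2 * K + 12 * K ^ 2) * (4 * (|δ| ^ 3 + |δ'| ^ 3)) =
        (8 * K + 48 * K ^ 2) * (|δ| ^ 3 + |δ'| ^ 3) := by ring
    rw [h3]
    apply mul_le_mul_of_nonneg_right _ (by positivity)
    have : 0 ≤ 2 * (6 * K + 12 * K ^ 2) / c := by positivity
    linarith
  · -- large displacements
    have h1 := crude hf hK0 hK y y' p p' δ δ' h
    have hI1 := prim_one hf (y' - p) (y' - p')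
    have hJ1 := prim_one hf (p' - y) (p - y)
    have b11 : |e11 f y y' p p'| ≤ K * 1 + K * K := by
      rw [e11_eq hf y y' h]
      exact addb (negb (mulb (hK _).2.1 hI1)) (mulb (hK _).1 (hK _).1)
    have b12 : |e12 f y y' p p'| ≤ K * K := by
      rw [e12_eq f y y' h]
      exact negb (mulb (hK _).1 (hK _).1)
    have b22 : |e22 f y y' p p'| ≤ K * 1 + K * K := by
      rw [e22_eq hf y y' h]
      exact addb (negb (mulb (hK _).2.1 hJ1)) (mulb (hK _).1 (hK _).1)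
    have hhalf : |((2 : ℝ)⁻¹)| ≤ 1 := by norm_num
    have hs1 : |δ ^ 2| ≤ δ ^ 2 + δ' ^ 2 := by
      rw [abs_of_nonneg (sq_nonneg δ)]
      linarith [sq_nonneg δ']
    have hs2 : |δ' ^ 2| ≤ δ ^ 2 + δ' ^ 2 := by
      rw [abs_of_nonneg (sq_nonneg δ')]
      linarith [sq_nonneg δ]
    have hs12 : |δ * δ'| ≤ δ ^ 2 + δ' ^ 2 := by
      rw [abs_le]
      constructor <;> nlinarith [sq_nonneg (δ + δ'), sq_nonneg (δ - δ')]
    have c11 : |e11 f y y' p p' / 2 * δ ^ 2| ≤ (K * 1 + K * K) * 1 * (δ ^ 2 + δ' ^ 2) := by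
      rw [div_eq_mul_inv]
      exact mulb (mulb b11 hhalf) hs1
    have c22 : |e22 f y y' p p' / 2 * δ' ^ 2| ≤ (K * 1 + K * K) * 1 * (δ ^ 2 + δ' ^ 2) := by
      rw [div_eq_mul_inv]
      exact mulb (mulb b22 hhalf) hs2
    have c12 : |e12 f y y' p p' * (δ * δ')| ≤ K * K * (δ ^ 2 + δ' ^ 2) := mulb b12 hs12
    refine (subb (subb (subb h1 c11) c12) c22).trans ?_
    have hQ0 : 0 ≤ δ ^ 2 + δ' ^ 2 := by positivity
    have h2 : (4 * K + 8 * K ^ 2) * (δ ^ 2 + δ' ^ 2) + (K * 1 + K * K) * 1 * (δ ^ 2 + δ' ^ 2) +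
        K * K * (δ ^ 2 + δ' ^ 2) + (K * 1 + K * K) * 1 * (δ ^ 2 + δ' ^ 2) ≤
        (6 * K + 12 * K ^ 2) * (δ ^ 2 + δ' ^ 2) := by
      have : 0 ≤ K ^ 2 * (δ ^ 2 + δ' ^ 2) := by positivity
      nlinarith
    refine h2.trans ?_
    have h3 : c * (δ ^ 2 + δ' ^ 2) ≤ 2 * (rho δ + rho δ') := by
      rcases le_total |δ| |δ'| with hab | hab
      · have hc' : c ≤ |δ'| := by
          by_contra hcon
          push Not at hcon
          exact hM ⟨lt_of_le_of_lt hab hcon, hcon⟩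
        have h4 := rho_ge hc1 hc'
        have h5 : δ ^ 2 ≤ δ' ^ 2 := sq_le_sq.2 hab
        nlinarith
      · have hc' : c ≤ |δ| := by
          by_contra hcon
          push Not at hcon
          exact hM ⟨hcon, lt_of_le_of_lt hab hcon⟩
        have h4 := rho_ge hc1 hc'
        have h5 : δ' ^ 2 ≤ δ ^ 2 := sq_le_sq.2 hab
        nlinarith
    have h4 : δ ^ 2 + δ' ^ 2 ≤ 2 / c * (rho δ + rho δ') := by
      rw [div_mul_eq_mul_div, le_div_iff₀ hc0]
      linarith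
    calc (6 * K + 12 * K ^ 2) * (δ ^ 2 + δ' ^ 2)
        ≤ (6 * K + 12 * K ^ 2) * (2 / c * (rho δ + rho δ')) :=
          mul_le_mul_of_nonneg_left h4 (by positivity)
      _ = 2 * (6 * K + 12 * K ^ 2) / c * (rho δ + rho δ') := by ring
      _ ≤ ((8 * K + 48 * K ^ 2) + 2 * (6 * K + 12 * K ^ 2) / c) * (rho δ + rho δ') := by
          apply mul_le_mul_of_nonneg_right _ (by linarith)
          have : 0 ≤ 8 * K + 48 * K ^ 2 := by positivity
          linarith

end Pool.Agent.TH996.HW
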