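import Pool.Agent.TH996.HW.Dual

/-!
# One-variable Taylor bounds for `FF` at the ends (MP_b213bc_pr)
-/

open MeasureTheory ProbabilityTheory Filter
open scoped NNReal ENNReal Topology

namespace Pool.Agent.TH996.HW

variable {n : ℕ} {f : ℝ → ℝ}

private lemma TaylorEnd_mvt {h h' : ℝ → ℝ} (hd : ∀ s, HasDerivAt h (h' s) s) (h0 : h 0 = 0)
    {K δ : ℝ} (hb : ∀ s, |s| ≤ |δ| → |h' s| ≤ K) : |h δ| ≤ K * |δ| := by
  have hc : Convex ℝ (Set.Icc (-|δ|) |δ|) := convex_Icc _ _
  have := hc.norm_image_sub_le_of_norm_hasDerivWithin_le (f := h) (f' := h') (C := K)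
    (x := 0) (y := δ) (fun x _ => (hd x).hasDerivWithinAt)
    (fun x hx => by rw [Real.norm_eq_abs]; exact hb x (abs_le.mpr ⟨hx.1, hx.2⟩))
    ⟨by simp, abs_nonneg _⟩ ⟨neg_abs_le _, le_abs_self _⟩
  simpa [h0, Real.norm_eq_abs] using this

private lemma TaylorEnd_conv {F F' : ℝ → ℝ} {a b x : ℝ} (h : HasDerivAt F a x)
    (hF : ∀ s, F' s = F s) (hab : b = a) : HasDerivAt F' b x := by
  subst hab
  exact h.congr_of_eventuallyEq (Eventually.of_forall hF)

private lemma TaylorEnd_abs {H G G1 G2 : ℝ → ℝ} (hH : ∀ t, HasDerivAt H (G t) t)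
    (hG : ∀ t, HasDerivAt G (G1 t) t) (hG1 : ∀ t, HasDerivAt G1 (G2 t) t) {B1 B2 : ℝ}
    (h1 : ∀ t, |G1 t| ≤ B1) (h2 : ∀ t, |G2 t| ≤ B2) (q δ : ℝ) :
    |H (q + δ) - H q - G q * δ - G1 q / 2 * δ ^ 2| ≤ (2 * B1 + B2) * rho δ := by
  have hB1 : 0 ≤ B1 := (abs_nonneg _).trans (h1 0)
  have hB2 : 0 ≤ B2 := (abs_nonneg _).trans (h2 0)
  have hsh : ∀ (F F' : ℝ → ℝ), (∀ t, HasDerivAt F (F' t) t) → ∀ s,
      HasDerivAt (fun s => F (q + s)) (F' (q + s)) s := by
    intro F F' hF s
    have := HasDerivAt.comp s (hF (q + s)) ((hasDerivAt_id s).const_add q)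
    simpa [Function.comp_def] using this
  -- first order
  have a1 : ∀ s, |G (q + s) - G q| ≤ B1 * |s| := by
    intro s
    refine TaylorEnd_mvt (h := fun s => G (q + s) - G q) (h' := fun s => G1 (q + s))
      (fun s => (hsh G G1 hG s).sub_const _) (by simp) (fun t _ => h1 _)
  have a2 : |H (q + δ) - H q - G q * δ| ≤ B1 * |δ| * |δ| := by
    refine TaylorEnd_mvt (h := fun s => H (q + s) - H q - G q * s)
      (h' := fun s => G (q + s) - G q) (fun s => ?_) (by simp) (fun t ht => ?_)
    · have := ((hsh H G hH s).sub_const (H q)).sub ((hasDerivAt_id s).const_mul (G q))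
      refine TaylorEnd_conv this (fun s => by simp) (by simp)
    · exact (a1 t).trans (mul_le_mul_of_nonneg_left ht hB1)
  -- second order
  have b0 : ∀ s, |G1 (q + s) - G1 q| ≤ B2 * |s| := by
    intro s
    refine TaylorEnd_mvt (h := fun s => G1 (q + s) - G1 q) (h' := fun s => G2 (q + s))
      (fun s => (hsh G1 G2 hG1 s).sub_const _) (by simp) (fun t _ => h2 _)
  have b1 : ∀ s, |G (q + s) - G q - G1 q * s| ≤ B2 * |s| * |s| := by
    intro s
    refine TaylorEnd_mvt (h := fun s => G (q + s) - G q - G1 q * s)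
      (h' := fun s => G1 (q + s) - G1 q) (fun s => ?_) (by simp) (fun t ht => ?_)
    · have := ((hsh G G1 hG s).sub_const (G q)).sub ((hasDerivAt_id s).const_mul (G1 q))
      refine TaylorEnd_conv this (fun s => by simp) (by simp)
    · exact (b0 t).trans (mul_le_mul_of_nonneg_left ht hB2)
  have b2 : |H (q + δ) - H q - G q * δ - G1 q / 2 * δ ^ 2| ≤ B2 * |δ| * |δ| * |δ| := by
    refine TaylorEnd_mvt (h := fun s => H (q + s) - H q - G q * s - G1 q / 2 * s ^ 2)
      (h' := fun s => G (q + s) - G q - G1 q * s) (fun s => ?_) (by simp) (fun t ht => ?_)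
    · have := (((hsh H G hH s).sub_const (H q)).sub
        ((hasDerivAt_id s).const_mul (G q))).sub (((hasDerivAt_id s).pow 2).const_mul (G1 q / 2))
      refine TaylorEnd_conv this (fun s => by simp) (by simp; ring)
    · refine (b1 t).trans ?_
      have : |t| * |t| ≤ |δ| * |δ| := mul_self_le_mul_self (abs_nonneg _) ht
      calc B2 * |t| * |t| = B2 * (|t| * |t|) := by ring
        _ ≤ B2 * (|δ| * |δ|) := mul_le_mul_of_nonneg_left this hB2
        _ = _ := by ring
  have hr0 : 0 ≤ rho δ := by unfold rho; positivity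
  unfold rho
  rcases le_total (δ ^ 2) (|δ| ^ 3) with h | h
  · rw [min_eq_left h]
    have e : |H (q + δ) - H q - G q * δ - G1 q / 2 * δ ^ 2| ≤
        |H (q + δ) - H q - G q * δ| + |G1 q / 2 * δ ^ 2| := abs_sub _ _
    have e2 : |G1 q / 2 * δ ^ 2| ≤ B1 * δ ^ 2 := by
      rw [abs_mul, abs_of_nonneg (sq_nonneg δ), abs_div]
      refine mul_le_mul_of_nonneg_right ?_ (sq_nonneg _)
      have := h1 q
      norm_num
      linarith
    have e3 : B1 * |δ| * |δ| = B1 * δ ^ 2 := by
      rw [mul_assoc, ← abs_mul, ← sq, abs_of_nonneg (sq_nonneg δ)]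
    nlinarith [sq_nonneg δ, mul_nonneg hB2 (sq_nonneg δ)]
  · rw [min_eq_right h]
    have e3 : B2 * |δ| * |δ| * |δ| = B2 * |δ| ^ 3 := by ring
    have : 0 ≤ B1 * |δ| ^ 3 := by positivity
    nlinarith

private lemma TaylorEnd_int (hf : Bump f) : Integrable f := by
  by_contra h
  have := hf.int
  rw [integral_undef h] at this
  exact one_ne_zero this.symm

private lemma TaylorEnd_zero (hf : Bump f) {x : ℝ} (hx : x < -1 ∨ 0 < x) : f x = 0 := by
  by_contra h
  have := hf.supp x h
  rcases hx with hx | hx <;> linarith [this.1, this.2]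

/-- distribution function of the bump -/
private noncomputable def TaylorEnd_Psi (f : ℝ → ℝ) (x : ℝ) : ℝ := ∫ a in Set.Iic x, f a

private lemma TaylorEnd_Psi_nonneg (hf : Bump f) (x : ℝ) : 0 ≤ TaylorEnd_Psi f x :=
  integral_nonneg hf.nonneg

private lemma TaylorEnd_Psi_le (hf : Bump f) (x : ℝ) : TaylorEnd_Psi f x ≤ 1 := by
  rw [← hf.int]
  exact setIntegral_le_integral (TaylorEnd_int hf) (Eventually.of_forall hf.nonneg)

private lemma TaylorEnd_Psi_zero (hf : Bump f) {x : ℝ} (hx : x ≤ -2) : TaylorEnd_Psi f x = 0 := by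
  unfold TaylorEnd_Psi
  rw [setIntegral_congr_fun (g := fun _ => (0 : ℝ)) measurableSet_Iic]
  · simp
  · intro a ha
    exact TaylorEnd_zero hf (Or.inl (by have := Set.mem_Iic.mp ha; linarith))

private lemma TaylorEnd_Psi_deriv (hf : Bump f) (x : ℝ) :
    HasDerivAt (TaylorEnd_Psi f) (f x) x := by
  have hi := TaylorEnd_int hf
  have h1 : ∀ t, TaylorEnd_Psi f t = TaylorEnd_Psi f 0 + ∫ a in (0 : ℝ)..t, f a := by
    intro t
    rw [← intervalIntegral.integral_Iic_sub_Iic hi.integrableOn hi.integrableOn]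
    unfold TaylorEnd_Psi
    ring
  have hc : Continuous f := hf.smooth.continuous
  have h2 : HasDerivAt (fun t => TaylorEnd_Psi f 0 + ∫ a in (0 : ℝ)..t, f a) (f x) x :=
    (hc.integral_hasStrictDerivAt 0 x).hasDerivAt.const_add _
  exact h2.congr_of_eventuallyEq (Eventually.of_forall h1)

private lemma TaylorEnd_intv (hf : Bump f) (y p' : ℝ) :
    ∫ a in (y - 2)..p', f (a - y) = TaylorEnd_Psi f (p' - y) := by
  have hi := TaylorEnd_int hf
  rw [intervalIntegral.integral_comp_sub_right, show y - 2 - y = (-2 : ℝ) by ring,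
    ← intervalIntegral.integral_Iic_sub_Iic hi.integrableOn hi.integrableOn]
  have := TaylorEnd_Psi_zero hf (le_refl (-2 : ℝ))
  unfold TaylorEnd_Psi at this ⊢
  rw [this, sub_zero]

private lemma TaylorEnd_e2 (hf : Bump f) (y y' p' : ℝ) :
    e2 f y y' (y - 2) p' = f (y' - p') * TaylorEnd_Psi f (p' - y) := by
  unfold e2
  split_ifs with h
  · rw [TaylorEnd_intv hf]
  · rw [TaylorEnd_Psi_zero hf (by linarith), mul_zero]

private lemma TaylorEnd_e22 (hf : Bump f) (y y' p' : ℝ) :
    e22 f y y' (y - 2) p' = -(deriv f (y' - p') * TaylorEnd_Psi f (p' - y)) +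
      f (y' - p') * f (p' - y) := by
  unfold e22
  split_ifs with h
  · rw [TaylorEnd_intv hf]
  · rw [TaylorEnd_Psi_zero hf (by linarith), TaylorEnd_zero hf (x := p' - y)
      (Or.inl (by linarith))]
    simp

private lemma TaylorEnd_FF (hf : Bump f) (y y' q : ℝ) :
    FF f y y' (y - 2) q = ∫ l in Set.Iio q, f (y' - l) * TaylorEnd_Psi f (l - y) := by
  have hi := TaylorEnd_int hf
  have hc : Continuous f := hf.smooth.continuous
  have hS : MeasurableSet {z : ℝ × ℝ | y - 2 < z.1 ∧ z.1 < z.2 ∧ z.2 < q} := by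
    refine (measurableSet_lt measurable_const measurable_fst).inter
      ((measurableSet_lt measurable_fst measurable_snd).inter
        (measurableSet_lt measurable_snd measurable_const))
  have hI : Integrable (fun z : ℝ × ℝ => f (z.1 - y) * f (y' - z.2)) (volume.prod volume) :=
    Integrable.mul_prod (hi.comp_sub_right y) (hi.comp_sub_left y')
  unfold FF dm
  rw [Measure.real, withDensity_apply _ hS, Measure.volume_eq_prod,
    ← ofReal_integral_eq_lintegral_ofReal hI.integrableOn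
    (Eventually.of_forall fun z => mul_nonneg (hf.nonneg _) (hf.nonneg _)),
    ENNReal.toReal_ofReal (integral_nonneg fun z => mul_nonneg (hf.nonneg _) (hf.nonneg _)),
    ← integral_indicator hS, integral_prod_symm _ (hI.indicator hS),
    ← integral_indicator measurableSet_Iio]
  refine integral_congr_ae (Eventually.of_forall fun l => ?_)
  have : ∀ a, Set.indicator {z : ℝ × ℝ | y - 2 < z.1 ∧ z.1 < z.2 ∧ z.2 < q}
      (fun z : ℝ × ℝ => f (z.1 - y) * f (y' - z.2)) (a, l) =
      (Set.Iio q).indicator (fun l => f (y' - l)) l *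
        (Set.Iio l).indicator (fun a => f (a - y)) a := by
    intro a
    by_cases h1 : l < q
    · by_cases h2 : a < l
      · by_cases h3 : y - 2 < a
        · simp [Set.indicator, h1, h2, h3, mul_comm]
        · simp [Set.indicator, h1, h2, h3, TaylorEnd_zero hf (x := a - y)
            (Or.inl (by linarith))]
      · simp [Set.indicator, h1, h2]
    · simp [Set.indicator, h1]
  simp only [this]
  rw [integral_const_mul]
  by_cases h1 : l < q
  · rw [Set.indicator_of_mem (Set.mem_Iio.mpr h1), Set.indicator_of_mem (Set.mem_Iio.mpr h1)]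
    congr 1
    rw [integral_indicator measurableSet_Iio]
    unfold TaylorEnd_Psi
    rw [integral_Iic_eq_integral_Iio, ← integral_indicator measurableSet_Iio,
      ← integral_indicator measurableSet_Iio,
      ← integral_sub_right_eq_self (fun a => (Set.Iio (l - y)).indicator f a) y]
    refine integral_congr_ae (Eventually.of_forall fun a => ?_)
    simp [Set.indicator]
  · rw [Set.indicator_of_notMem (by simpa using h1), Set.indicator_of_notMem (by simpa using h1),
      zero_mul]

private lemma TaylorEnd_bdd (hf : Bump f) : ∃ M0 M1 M2 : ℝ, 0 ≤ M0 ∧ 0 ≤ M1 ∧ 0 ≤ M2 ∧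
    (∀ x, |f x| ≤ M0) ∧ (∀ x, |deriv f x| ≤ M1) ∧ (∀ x, |deriv (deriv f) x| ≤ M2) := by
  have hcs : HasCompactSupport f := by
    refine HasCompactSupport.intro (isCompact_Icc (a := (-1 : ℝ)) (b := 0)) fun x hx => ?_
    by_contra h
    exact hx (hf.supp x h)
  have hs1 : ContDiff ℝ 2 (deriv f) := by
    have := hf.smooth
    rw [show (3 : WithTop ℕ∞) = 2 + 1 by norm_num, contDiff_succ_iff_deriv] at this
    exact this.2.2
  have hs2 : ContDiff ℝ 1 (deriv (deriv f)) := by
    have := hs1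
    rw [show (2 : WithTop ℕ∞) = 1 + 1 by norm_num, contDiff_succ_iff_deriv] at this
    exact this.2.2
  obtain ⟨M0, h0⟩ := hcs.exists_bound_of_continuous hf.smooth.continuous
  obtain ⟨M1, h1⟩ := hcs.deriv.exists_bound_of_continuous hs1.continuous
  obtain ⟨M2, h2⟩ := hcs.deriv.deriv.exists_bound_of_continuous hs2.continuous
  exact ⟨M0, M1, M2, (norm_nonneg _).trans (h0 0), (norm_nonneg _).trans (h1 0),
    (norm_nonneg _).trans (h2 0), h0, h1, h2⟩

theorem taylor_lo (hf : Bump f) : ∃ C : ℝ, 0 ≤ C ∧ ∀ y y' p' δ' : ℝ,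
    |FF f y y' (y - 2) (p' + δ') - FF f y y' (y - 2) p' - e2 f y y' (y - 2) p' * δ' -
      e22 f y y' (y - 2) p' / 2 * δ' ^ 2| ≤ C * rho δ' := by
  obtain ⟨M0, M1, M2, hM0, hM1, hM2, h0, h1, h2⟩ := TaylorEnd_bdd hf
  have hi := TaylorEnd_int hf
  have hc : Continuous f := hf.smooth.continuous
  have hs1 : ContDiff ℝ 2 (deriv f) := by
    have := hf.smooth
    rw [show (3 : WithTop ℕ∞) = 2 + 1 by norm_num, contDiff_succ_iff_deriv] at this
    exact this.2.2
  have d0 : ∀ x, HasDerivAt f (deriv f x) x := fun x =>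
    ((hf.smooth.differentiable (by norm_num)) x).hasDerivAt
  have d1 : ∀ x, HasDerivAt (deriv f) (deriv (deriv f) x) x := fun x =>
    ((hs1.differentiable (by norm_num)) x).hasDerivAt
  refine ⟨2 * (M1 + M0 * M0) + (M2 + 2 * (M1 * M0) + M0 * M1), by positivity, ?_⟩
  intro y y' p' δ'
  have P0 := TaylorEnd_Psi_nonneg hf
  have P1 := TaylorEnd_Psi_le hf
  have Pa : ∀ x, |TaylorEnd_Psi f x| ≤ 1 := fun x => by rw [abs_of_nonneg (P0 x)]; exact P1 x
  have Pd := TaylorEnd_Psi_deriv hf
  have Pc : Continuous (TaylorEnd_Psi f) :=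
    continuous_iff_continuousAt.mpr fun x => (Pd x).continuousAt
  have s1 : ∀ (F F' : ℝ → ℝ), (∀ t, HasDerivAt F (F' t) t) → ∀ t,
      HasDerivAt (fun t => F (t - y)) (F' (t - y)) t := by
    intro F F' hF t
    have := HasDerivAt.comp t (hF (t - y)) ((hasDerivAt_id t).sub_const y)
    simpa [Function.comp_def] using this
  have s2 : ∀ (F F' : ℝ → ℝ), (∀ t, HasDerivAt F (F' t) t) → ∀ t,
      HasDerivAt (fun t => F (y' - t)) (-(F' (y' - t))) t := by
    intro F F' hF t
    have := HasDerivAt.comp t (hF (y' - t)) ((hasDerivAt_id t).const_sub y')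
    simpa [Function.comp_def] using this
  have hGc : Continuous (fun l => f (y' - l) * TaylorEnd_Psi f (l - y)) := by fun_prop
  have hGi : Integrable (fun l => f (y' - l) * TaylorEnd_Psi f (l - y)) := by
    refine Integrable.mono' (hi.comp_sub_left y') hGc.aestronglyMeasurable
      (Eventually.of_forall fun l => ?_)
    rw [Real.norm_eq_abs, abs_mul, abs_of_nonneg (hf.nonneg _)]
    exact mul_le_of_le_one_right (hf.nonneg _) (Pa _)
  have hH : ∀ t, HasDerivAt (fun q => FF f y y' (y - 2) q)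
      (f (y' - t) * TaylorEnd_Psi f (t - y)) t := by
    intro t
    have e : ∀ q, FF f y y' (y - 2) q = FF f y y' (y - 2) 0 +
        ∫ l in (0 : ℝ)..q, f (y' - l) * TaylorEnd_Psi f (l - y) := by
      intro q
      rw [TaylorEnd_FF hf, TaylorEnd_FF hf, ← integral_Iic_eq_integral_Iio,
        ← integral_Iic_eq_integral_Iio,
        ← intervalIntegral.integral_Iic_sub_Iic hGi.integrableOn hGi.integrableOn]
      ring
    have h2 := (hGc.integral_hasStrictDerivAt 0 t).hasDerivAt.const_add (FF f y y' (y - 2) 0)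
    exact h2.congr_of_eventuallyEq (Eventually.of_forall e)
  have hG : ∀ t, HasDerivAt (fun l => f (y' - l) * TaylorEnd_Psi f (l - y))
      (-(deriv f (y' - t) * TaylorEnd_Psi f (t - y)) + f (y' - t) * f (t - y)) t := by
    intro t
    refine TaylorEnd_conv ((s2 _ _ d0 t).mul (s1 _ _ Pd t)) (fun s => by simp) (by ring)
  have hG1 : ∀ t, HasDerivAt
      (fun t => -(deriv f (y' - t) * TaylorEnd_Psi f (t - y)) + f (y' - t) * f (t - y))
      (deriv (deriv f) (y' - t) * TaylorEnd_Psi f (t - y) -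
        2 * (deriv f (y' - t) * f (t - y)) + f (y' - t) * deriv f (t - y)) t := by
    intro t
    refine TaylorEnd_conv (((s2 _ _ d1 t).mul (s1 _ _ Pd t)).neg.add
      ((s2 _ _ d0 t).mul (s1 _ _ d0 t))) (fun s => by simp) (by ring)
  have key := TaylorEnd_abs hH hG hG1 (B1 := M1 + M0 * M0)
    (B2 := M2 + 2 * (M1 * M0) + M0 * M1) ?_ ?_ p' δ'
  · rw [TaylorEnd_e2 hf, TaylorEnd_e22 hf]
    exact key
  · intro t
    refine (abs_add_le _ _).trans (add_le_add ?_ ?_)
    · rw [abs_neg, abs_mul]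
      exact (mul_le_mul (h1 _) (Pa _) (abs_nonneg _) hM1).trans_eq (mul_one _)
    · rw [abs_mul]
      exact mul_le_mul (h0 _) (h0 _) (abs_nonneg _) hM0
  · intro t
    refine (abs_add_le _ _).trans (add_le_add ((abs_sub _ _).trans (add_le_add ?_ ?_)) ?_)
    · rw [abs_mul]
      exact (mul_le_mul (h2 _) (Pa _) (abs_nonneg _) hM2).trans_eq (mul_one _)
    · rw [abs_mul, abs_mul, abs_of_nonneg (by norm_num : (0 : ℝ) ≤ 2)]
      exact mul_le_mul_of_nonneg_left (mul_le_mul (h1 _) (h0 _) (abs_nonneg _) hM1) (by norm_num)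
    · rw [abs_mul]
      exact mul_le_mul (h0 _) (h1 _) (abs_nonneg _) hM0

private lemma TaylorEnd_refl (f : ℝ → ℝ) (hfc : Continuous f) (y y' p p' : ℝ) :
    FF f y y' p p' = FF f (-y') (-y) (-p') (-p) := by
  have hS : ∀ p p' : ℝ, MeasurableSet {z : ℝ × ℝ | p < z.1 ∧ z.1 < z.2 ∧ z.2 < p'} := by
    intro p p'
    exact (measurableSet_lt measurable_const measurable_fst).inter
      ((measurableSet_lt measurable_fst measurable_snd).inter
        (measurableSet_lt measurable_snd measurable_const))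
  have hT : MeasurePreserving (fun z : ℝ × ℝ => (-z.2, -z.1)) (volume.prod volume)
      (volume.prod volume) := by
    have h1 : MeasurePreserving (Prod.swap : ℝ × ℝ → ℝ × ℝ) (volume.prod volume)
        (volume.prod volume) := Measure.measurePreserving_swap
    have h2 : MeasurePreserving (Prod.map (fun x : ℝ => -x) (fun x : ℝ => -x))
        ((volume : Measure ℝ).prod volume) (volume.prod volume) :=
      (Measure.measurePreserving_neg volume).prod (Measure.measurePreserving_neg volume)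
    exact h2.comp h1
  have hm : Measurable (fun z : ℝ × ℝ => ENNReal.ofReal (f (z.1 - -y') * f (-y - z.2))) := by
    fun_prop
  unfold FF dm
  rw [Measure.real, Measure.real, withDensity_apply _ (hS _ _), withDensity_apply _ (hS _ _),
    Measure.volume_eq_prod]
  congr 1
  rw [← hT.setLIntegral_comp_preimage (hS _ _) hm]
  have e1 : (fun z : ℝ × ℝ => (-z.2, -z.1)) ⁻¹' {z : ℝ × ℝ | -p' < z.1 ∧ z.1 < z.2 ∧ z.2 < -p} =
      {z : ℝ × ℝ | p < z.1 ∧ z.1 < z.2 ∧ z.2 < p'} := by
    ext z
    simp only [Set.mem_preimage, Set.mem_ofPred_eq, neg_lt_neg_iff]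
    tauto
  rw [e1]
  refine lintegral_congr fun z => ?_
  congr 1
  rw [mul_comm, show -z.2 - -y' = y' - z.2 by ring, show -y - -z.1 = z.1 - y by ring]

theorem taylor_hi (hf : Bump f) : ∃ C : ℝ, 0 ≤ C ∧ ∀ y y' p δ : ℝ,
    |FF f y y' (p + δ) (y' + 2) - FF f y y' p (y' + 2) - e1 f y y' p (y' + 2) * δ -
      e11 f y y' p (y' + 2) / 2 * δ ^ 2| ≤ C * rho δ := by
  obtain ⟨C, hC, h⟩ := taylor_lo hf
  refine ⟨C, hC, fun y y' p δ => ?_⟩
  have hc : Continuous f := hf.smooth.continuous
  have key := h (-y') (-y) (-p) (-δ)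
  have r : rho (-δ) = rho δ := by unfold rho; rw [neg_sq, abs_neg]
  have i1 : ∫ a in (-y' - 2)..(-p), f (a - -y') = ∫ l in p..(y' + 2), f (y' - l) := by
    have := intervalIntegral.integral_comp_neg (fun a => f (a - -y')) (a := p) (b := y' + 2)
    rw [show -y' - 2 = -(y' + 2) by ring, ← this]
    refine intervalIntegral.integral_congr fun l _ => ?_
    congr 1
    ring
  have i2 : (-y' - 2 < -p) = (p < y' + 2) := by
    apply propext
    constructor <;> intro h <;> linarith
  have i3 : -y - -p = p - y := by ring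
  have i4 : -p - -y' = y' - p := by ring
  have a1 : e2 f (-y') (-y) (-y' - 2) (-p) * -δ = e1 f y y' p (y' + 2) * δ := by
    unfold e2 e1
    rw [i1, i3]
    simp only [i2]
    split_ifs <;> ring
  have a2 : e22 f (-y') (-y) (-y' - 2) (-p) = e11 f y y' p (y' + 2) := by
    unfold e22 e11
    rw [i1, i3, i4]
    simp only [i2]
  rw [r, a1, a2, neg_sq] at key
  rw [TaylorEnd_refl f hc y y' (p + δ), TaylorEnd_refl f hc y y' p,
    show -(y' + 2) = -y' - 2 by ring, show -(p + δ) = -p + -δ by ring]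
  exact key

end Pool.Agent.TH996.HW
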