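import Pool.Agent.TH996.HW.Comb
import Pool.Agent.TH996.HW.Taylor
import Pool.Agent.TH996.HW.TaylorEnd
import Pool.Agent.TH996.HW.GaussTaylor
import Pool.Agent.TH996.HW.MaxDrift
import Pool.Agent.TH996.HW.MinDrift
import Pool.Agent.TH996.HW.SqMax

/-!
# Swap of one cut, the end cases (MP_b213bc_pr)
-/

open MeasureTheory ProbabilityTheory Filter
open scoped NNReal ENNReal Topology

namespace Pool.Agent.TH996.HW

set_option linter.unusedSectionVars false
set_option linter.unusedVariables false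

variable {n : ℕ} {f : ℝ → ℝ}

/-! ### The truncated cube -/

theorem CutEnd_rho_nonneg (x : ℝ) : 0 ≤ rho x := le_min (sq_nonneg _) (by positivity)

theorem CutEnd_rho_le (x : ℝ) : rho x ≤ x ^ 2 := min_le_left _ _

theorem CutEnd_rho_mono {a b : ℝ} (h : |a| ≤ |b|) : rho a ≤ rho b := by
  unfold rho
  apply min_le_min
  · exact sq_le_sq.2 h
  · exact pow_le_pow_left₀ (abs_nonneg _) h 3

theorem CutEnd_rho_meas : Measurable rho := by
  unfold rho
  fun_prop

/-! ### Maximum and minimum -/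

theorem CutEnd_sup {D : Finset (Fin n)} (hD : D.Nonempty) (u v : Fin n → ℝ) :
    ∃ k, |D.sup' hD u - D.sup' hD v| ≤ |u k - v k| := by
  obtain ⟨k, hk, hku⟩ := Finset.exists_mem_eq_sup' hD u
  obtain ⟨l, hl, hlv⟩ := Finset.exists_mem_eq_sup' hD v
  have h1 : v k ≤ D.sup' hD v := Finset.le_sup' v hk
  have h2 : u l ≤ D.sup' hD u := Finset.le_sup' u hl
  rcases le_total (D.sup' hD v) (D.sup' hD u) with h | h
  · refine ⟨k, ?_⟩
    rw [abs_of_nonneg (sub_nonneg.2 h)]
    refine le_trans ?_ (le_abs_self _)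
    rw [hku]
    rw [hku] at h
    linarith
  · refine ⟨l, ?_⟩
    rw [abs_sub_comm, abs_of_nonneg (sub_nonneg.2 h), abs_sub_comm]
    refine le_trans ?_ (le_abs_self _)
    rw [hlv]
    linarith

theorem CutEnd_inf {D : Finset (Fin n)} (hD : D.Nonempty) (u v : Fin n → ℝ) :
    ∃ k, |D.inf' hD u - D.inf' hD v| ≤ |u k - v k| := by
  obtain ⟨k, hk, hku⟩ := Finset.exists_mem_eq_inf' hD u
  obtain ⟨l, hl, hlv⟩ := Finset.exists_mem_eq_inf' hD v
  have h1 : D.inf' hD v ≤ v k := Finset.inf'_le v hk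
  have h2 : D.inf' hD u ≤ u l := Finset.inf'_le u hl
  rcases le_total (D.inf' hD v) (D.inf' hD u) with h | h
  · refine ⟨l, ?_⟩
    rw [abs_of_nonneg (sub_nonneg.2 h)]
    refine le_trans ?_ (le_abs_self _)
    rw [hlv]
    linarith
  · refine ⟨k, ?_⟩
    rw [abs_sub_comm, abs_of_nonneg (sub_nonneg.2 h), abs_sub_comm]
    refine le_trans ?_ (le_abs_self _)
    rw [hku]
    linarith

/-! ### The expectation of the truncated cube -/

section

variable {β : ℝ} {ν : Measure ℝ} {x : Fin n → ℝ} {Ω : Type} [MeasurableSpace Ω]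
  {P : Measure Ω} [IsProbabilityMeasure P] {X : ℝ≥0 → Ω → (Fin n → ℝ)}

theorem CutEnd_X_meas (hX : IsHWMotion β ν x P X) (t : ℝ≥0) : Measurable (X t) :=
  (hX.meas t).measurable

theorem CutEnd_inc_sq (hX : IsHWMotion β ν x P X) (t t' : ℝ≥0) (k : Fin n) (c : ℝ) :
    Integrable (fun ω => (X t' ω k - X t ω k + c) ^ 2) P := by
  have h1 : MemLp (fun ω => X t' ω k - X t ω k + c) 2 P :=
    ((hX.sq t' k).sub (hX.sq t k)).add (memLp_const c)
  exact h1.integrable_sq

theorem CutEnd_inc_rho (hX : IsHWMotion β ν x P X) (t t' : ℝ≥0) (k : Fin n) (c : ℝ) :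
    Integrable (fun ω => rho (X t' ω k - X t ω k + c)) P := by
  refine (CutEnd_inc_sq hX t t' k c).mono' ?_ ?_
  · apply Measurable.aestronglyMeasurable
    apply CutEnd_rho_meas.comp
    have a := (measurable_pi_apply k).comp (CutEnd_X_meas hX t')
    have b := (measurable_pi_apply k).comp (CutEnd_X_meas hX t)
    exact (a.sub b).add_const c
  · filter_upwards with ω
    rw [Real.norm_of_nonneg (CutEnd_rho_nonneg _)]
    exact CutEnd_rho_le _

theorem CutEnd_lind_eq (hX : IsHWMotion β ν x P X) (t h : ℝ≥0) :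
    lind β P X t h = ∑ k, ∫ ω, rho (X (t + h) ω k - X t ω k + (-(β * h))) ∂P := by
  unfold lind
  refine Finset.sum_congr rfl fun k _ => ?_
  congr 1
  ext ω
  congr 1
  ring

theorem CutEnd_lind_nonneg (β : ℝ) (P : Measure Ω) (X : ℝ≥0 → Ω → (Fin n → ℝ)) (t h : ℝ≥0) :
    0 ≤ lind β P X t h :=
  Finset.sum_nonneg fun _ _ => integral_nonneg fun _ => CutEnd_rho_nonneg _

/-- an increment bounded by the increments of the particles -/
theorem CutEnd_rho_le_lind (hX : IsHWMotion β ν x P X) (t h : ℝ≥0) (δ : Ω → ℝ)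
    (hδ : ∀ ω, ∃ k, |δ ω| ≤ |X (t + h) ω k - X t ω k|) :
    ∫ ω, rho (δ ω) ∂P ≤ 8 * (lind β P X t h + n * (β * h) ^ 2) := by
  have h1 : ∫ ω, rho (δ ω) ∂P ≤
      ∫ ω, ∑ k, 8 * (rho (X (t + h) ω k - X t ω k + (-(β * h))) + (β * h) ^ 2) ∂P := by
    apply integral_mono_of_nonneg
    · filter_upwards with ω using CutEnd_rho_nonneg _
    · apply integrable_finsetSum
      intro k _
      exact ((CutEnd_inc_rho hX t (t + h) k _).add (integrable_const _)).const_mul 8
    · filter_upwards with ω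
      obtain ⟨k, hk⟩ := hδ ω
      refine le_trans (CutEnd_rho_mono hk) ?_
      refine le_trans ?_ (Finset.single_le_sum (f := fun k =>
        8 * (rho (X (t + h) ω k - X t ω k + (-(β * h))) + (β * h) ^ 2))
        (fun k _ => ?_) (Finset.mem_univ k))
      · have h2 := rho_sub (X (t + h) ω k - X t ω k + (-(β * h))) (-(β * h))
        rw [add_sub_cancel_right] at h2
        refine le_trans h2 ?_
        have h3 := CutEnd_rho_le (-(β * h))
        rw [neg_sq] at h3
        linarith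
      · have := CutEnd_rho_nonneg (X (t + h) ω k - X t ω k + (-(β * h)))
        positivity
  refine h1.trans (le_of_eq ?_)
  rw [integral_finsetSum]
  · rw [CutEnd_lind_eq hX]
    have h4 : ∀ k ∈ (Finset.univ : Finset (Fin n)),
        ∫ ω, 8 * (rho (X (t + h) ω k - X t ω k + (-(β * h))) + (β * h) ^ 2) ∂P =
        8 * (∫ ω, rho (X (t + h) ω k - X t ω k + (-(β * h))) ∂P + (β * h) ^ 2) := by
      intro k _
      rw [integral_const_mul, integral_add (CutEnd_inc_rho hX t (t + h) k _) (integrable_const _)]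
      simp
    rw [Finset.sum_congr rfl h4, ← Finset.mul_sum, Finset.sum_add_distrib]
    simp
  · intro k _
    exact ((CutEnd_inc_rho hX t (t + h) k _).add (integrable_const _)).const_mul 8

/-- an increment bounded by the increments of the particles is square integrable -/
theorem CutEnd_memLp (hX : IsHWMotion β ν x P X) (t h : ℝ≥0) (δ : Ω → ℝ) (hm : Measurable δ)
    (hδ : ∀ ω, ∃ k, |δ ω| ≤ |X (t + h) ω k - X t ω k|) : MemLp δ 2 P := by
  rw [memLp_two_iff_integrable_sq hm.aestronglyMeasurable]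
  refine (integrable_finsetSum Finset.univ fun k _ =>
    CutEnd_inc_sq hX t (t + h) k 0).mono' (hm.pow_const 2).aestronglyMeasurable ?_
  filter_upwards with ω
  rw [Real.norm_of_nonneg (sq_nonneg _)]
  obtain ⟨k, hk⟩ := hδ ω
  refine le_trans (sq_le_sq.2 hk) ?_
  have := Finset.single_le_sum (f := fun k => (X (t + h) ω k - X t ω k + 0) ^ 2)
    (fun k _ => sq_nonneg _) (Finset.mem_univ k)
  simpa using this

/-! ### The core -/

theorem CutEnd_core (F0 F1 G Y1 Y2 δ : Ω → ℝ) (b h Ct cg S R K : ℝ) (hCt : 0 ≤ Ct)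
    (hG : ∀ ω, 0 ≤ G ω) (hF0 : Integrable F0 P) (hF1 : Integrable F1 P)
    (hY1m : Measurable Y1) (hY2m : Measurable Y2) (hY1 : ∀ ω, |Y1 ω| ≤ K)
    (hY2 : ∀ ω, |Y2 ω| ≤ K) (hδ : MemLp δ 2 P) (hδm : Measurable δ)
    (ha : ∀ ω, G ω ≤ F0 ω + h * (b * Y1 ω + Y2 ω / 2) + cg)
    (hb : ∀ ω, F0 ω + Y1 ω * δ ω + Y2 ω / 2 * δ ω ^ 2 - Ct * rho (δ ω) ≤ F1 ω)
    (hd : b * h * ∫ ω, Y1 ω ∂P ≤ ∫ ω, Y1 ω * δ ω ∂P)
    (he : h * ∫ ω, Y2 ω ∂P - S ≤ ∫ ω, Y2 ω * δ ω ^ 2 ∂P)
    (hR : ∫ ω, rho (δ ω) ∂P ≤ R) :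
    ∫ ω, G ω ∂P ≤ ∫ ω, F1 ω ∂P + S / 2 + Ct * R + cg := by
  have i1 : Integrable Y1 P := (integrable_const K).mono' hY1m.aestronglyMeasurable
    (by filter_upwards with ω using hY1 ω)
  have i2 : Integrable Y2 P := (integrable_const K).mono' hY2m.aestronglyMeasurable
    (by filter_upwards with ω using hY2 ω)
  have i3 : Integrable δ P := hδ.integrable (by norm_num)
  have i4 : Integrable (fun ω => δ ω ^ 2) P := hδ.integrable_sq
  have i5 : Integrable (fun ω => Y1 ω * δ ω) P :=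
    i3.bdd_mul hY1m.aestronglyMeasurable (c := K) (by filter_upwards with ω using hY1 ω)
  have i6 : Integrable (fun ω => Y2 ω * δ ω ^ 2) P :=
    i4.bdd_mul hY2m.aestronglyMeasurable (c := K) (by filter_upwards with ω using hY2 ω)
  have i7 : Integrable (fun ω => rho (δ ω)) P := by
    refine i4.mono' (CutEnd_rho_meas.comp hδm).aestronglyMeasurable ?_
    filter_upwards with ω
    rw [Real.norm_of_nonneg (CutEnd_rho_nonneg _)]
    exact CutEnd_rho_le _
  -- the Gaussian side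
  have e1 : ∫ ω, G ω ∂P ≤ ∫ ω, F0 ω ∂P + h * (b * ∫ ω, Y1 ω ∂P + (∫ ω, Y2 ω ∂P) / 2) + cg := by
    have k1 : Integrable (fun ω => b * Y1 ω) P := i1.const_mul b
    have k2 : Integrable (fun ω => Y2 ω / 2) P := i2.div_const 2
    have k3 : Integrable (fun ω => h * (b * Y1 ω + Y2 ω / 2)) P := (k1.add k2).const_mul h
    have k4 : Integrable (fun ω => F0 ω + h * (b * Y1 ω + Y2 ω / 2)) P := hF0.add k3
    have k5 : Integrable (fun _ : Ω => cg) P := integrable_const cg
    have j1 : Integrable (fun ω => F0 ω + h * (b * Y1 ω + Y2 ω / 2) + cg) P := k4.add k5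
    refine (integral_mono_of_nonneg (by filter_upwards with ω using hG ω) j1
      (by filter_upwards with ω using ha ω)).trans (le_of_eq ?_)
    rw [integral_add k4 k5, integral_add hF0 k3, integral_const_mul, integral_add k1 k2,
      integral_const_mul, integral_div]
    simp
  -- the side of the particles
  have e2 : ∫ ω, F0 ω ∂P + ∫ ω, Y1 ω * δ ω ∂P + (∫ ω, Y2 ω * δ ω ^ 2 ∂P) / 2 -
      Ct * ∫ ω, rho (δ ω) ∂P ≤ ∫ ω, F1 ω ∂P := by
    have k1 : Integrable (fun ω => F0 ω + Y1 ω * δ ω) P := hF0.add i5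
    have k2 : Integrable (fun ω => Y2 ω * δ ω ^ 2 / 2) P := i6.div_const 2
    have k3 : Integrable (fun ω => F0 ω + Y1 ω * δ ω + Y2 ω * δ ω ^ 2 / 2) P := k1.add k2
    have k4 : Integrable (fun ω => Ct * rho (δ ω)) P := i7.const_mul Ct
    have j1 : Integrable (fun ω => F0 ω + Y1 ω * δ ω + Y2 ω * δ ω ^ 2 / 2 - Ct * rho (δ ω)) P :=
      k3.sub k4
    refine le_trans (le_of_eq ?_) (integral_mono j1 hF1 fun ω => ?_)
    · rw [integral_sub k3 k4, integral_add k1 k2, integral_add hF0 i5, integral_div,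
        integral_const_mul]
    · have := hb ω
      simp only
      linarith
  have e3 := mul_le_mul_of_nonneg_left hR hCt
  have e4 : h * (b * ∫ ω, Y1 ω ∂P + (∫ ω, Y2 ω ∂P) / 2) =
      b * h * ∫ ω, Y1 ω ∂P + (h * ∫ ω, Y2 ω ∂P) / 2 := by ring
  rw [e4] at e1
  linarith

end

/-! ### Bounds for `FF` -/

theorem CutEnd_FF_nonneg (y y' p p' : ℝ) : 0 ≤ FF f y y' p p' := measureReal_nonneg

theorem CutEnd_FF_le (hf : Bump f) (y y' p p' : ℝ) : FF f y y' p p' ≤ 1 := by
  have := isProb_dm hf y y'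
  exact measureReal_le_one

theorem CutEnd_h2 {h : ℝ≥0} (h1 : h ≤ 1) : (h : ℝ) ^ 2 ≤ h * √h := by
  have h0 : (0 : ℝ) ≤ h := h.2
  have h1' : (h : ℝ) ≤ 1 := by exact_mod_cast h1
  have h2 : (h : ℝ) ≤ √h := by
    rw [Real.le_sqrt h0]
    · nlinarith
    · exact h0
  nlinarith

theorem cut_lo {ν : Measure ℝ} (hν : GoodNu ν) (hf : Bump f) (β : ℝ) (n : ℕ) : ∃ C : ℝ, 0 ≤ C ∧
    ∀ κ : ℝ, 0 < κ → ∃ C' : ℝ, 0 ≤ C' ∧ ∀ (x : Fin n → ℝ) (Ω : Type)
      [MeasurableSpace Ω] (P : Measure Ω) [IsProbabilityMeasure P] (X : ℝ≥0 → Ω → (Fin n → ℝ)),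
      IsHWMotion β ν x P X → 0 < n → ∀ (t h : ℝ≥0) (y y' : ℝ), h ≤ 1 →
      ∫ ω, (∫ z, ∫ z', FF f y y' (lo ∅ (fun i => X t ω i + z) y)
        (hi ∅ (fun i => X t ω i + z') y') ∂(gaussianReal (bm β ν * h) h)
          ∂(gaussianReal (bp β ν * h) h)) ∂P ≤
      ∫ ω, FF f y y' (lo ∅ (X (t + h) ω) y) (hi ∅ (X (t + h) ω) y') ∂P +
        C * h * κ + C' * (lind β P X t h + h * √h) := by
  obtain ⟨K, hK0, hK⟩ := e_bounds hf
  obtain ⟨Ct, hCt0, hCt⟩ := taylor_lo hf
  obtain ⟨Cg, hCg0, hCg⟩ := gauss_fine (bp β ν) (bm β ν)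
  obtain ⟨Cs, hCs0, hCs⟩ := sq_min hν β n
  refine ⟨(K + 1) * Cs / 2, by positivity, fun κ hκ => ?_⟩
  obtain ⟨Cs', hCs'0, hCs'⟩ := hCs κ hκ
  refine ⟨(K + 1) * Cs' / 2 + 8 * Ct * (1 + n * β ^ 2) + Cg * (K + Ct), by positivity, ?_⟩
  intro x Ω _ P _ X hX hn t h y y' h1
  have hlo : ∀ v : Fin n → ℝ, lo ∅ v y = y - 2 := fun v => by
    unfold lo
    rw [dif_neg (by simp)]
  have hne : (Finset.univ \ ∅ : Finset (Fin n)).Nonempty := by
    rw [Finset.sdiff_empty]
    exact ⟨⟨0, hn⟩, Finset.mem_univ _⟩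
  have hhi : ∀ v : Fin n → ℝ, hi ∅ v y' = (Finset.univ \ ∅).inf' hne v := fun v => by
    unfold hi
    rw [dif_pos hne]
  have hadd : ∀ (v : Fin n → ℝ) (z : ℝ), (Finset.univ \ ∅).inf' hne (fun i => v i + z) =
      (Finset.univ \ ∅).inf' hne v + z := by
    intro v z
    apply le_antisymm
    · obtain ⟨k, hk, hkv⟩ := Finset.exists_mem_eq_inf' hne v
      rw [hkv]
      exact Finset.inf'_le (fun i => v i + z) hk
    · refine Finset.le_inf' hne _ fun i hi => ?_
      have := Finset.inf'_le v hi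
      linarith
  set q : (Fin n → ℝ) → ℝ := fun v => (Finset.univ \ ∅).inf' hne v with hq
  have hqm : Measurable q := by
    have := measurable_hi (∅ : Finset (Fin n)) y'
    simp_rw [hhi] at this
    exact this
  simp_rw [hlo, hhi, hadd]
  have hFm : Measurable (fun r : ℝ => FF f y y' (y - 2) r) :=
    (measurable_FF hf).comp (g := fun z : (ℝ × ℝ) × (ℝ × ℝ) => FF f z.1.1 z.1.2 z.2.1 z.2.2)
      (f := fun r : ℝ => ((y, y'), (y - 2, r)))
      (measurable_const.prodMk (measurable_const.prodMk measurable_id))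
  obtain ⟨-, m2, -, -, m22⟩ := e_meas hf y y'
  have hXm : ∀ s, Measurable (fun ω => q (X s ω)) := fun s => hqm.comp (CutEnd_X_meas hX s)
  -- adapted
  have hXa : StronglyMeasurable[Filtration.natural X hX.meas t] (X t) :=
    Filtration.stronglyAdapted_natural hX.meas t
  have hqa : Measurable[Filtration.natural X hX.meas t] (fun ω => q (X t ω)) :=
    hqm.comp hXa.measurable
  have m2' : Measurable fun r : ℝ => e2 f y y' (y - 2) r :=
    m2.comp (g := fun z : ℝ × ℝ => e2 f y y' z.1 z.2) (f := fun r : ℝ => (y - 2, r))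
      (measurable_const.prodMk measurable_id)
  have m22' : Measurable fun r : ℝ => e22 f y y' (y - 2) r :=
    m22.comp (g := fun z : ℝ × ℝ => e22 f y y' z.1 z.2) (f := fun r : ℝ => (y - 2, r))
      (measurable_const.prodMk measurable_id)
  set δ : Ω → ℝ := fun ω => q (X (t + h) ω) - q (X t ω) with hδdef
  have hδm : Measurable δ := (hXm (t + h)).sub (hXm t)
  have hδk : ∀ ω, ∃ k, |δ ω| ≤ |X (t + h) ω k - X t ω k| := fun ω =>
    CutEnd_inf hne (X (t + h) ω) (X t ω)
  have hint : ∀ s, Integrable (fun ω => FF f y y' (y - 2) (q (X s ω))) P := by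
    intro s
    refine (integrable_const (1 : ℝ)).mono' (hFm.comp (hXm s)).aestronglyMeasurable ?_
    filter_upwards with ω
    rw [Real.norm_of_nonneg (CutEnd_FF_nonneg _ _ _ _)]
    exact CutEnd_FF_le hf _ _ _ _
  have hK1 : (0 : ℝ) < K + 1 := by positivity
  have key := CutEnd_core (P := P) (fun ω => FF f y y' (y - 2) (q (X t ω)))
    (fun ω => FF f y y' (y - 2) (q (X (t + h) ω)))
    (fun ω => ∫ z, ∫ z', FF f y y' (y - 2) (q (X t ω) + z') ∂(gaussianReal (bm β ν * h) h)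
          ∂(gaussianReal (bp β ν * h) h))
    (fun ω => e2 f y y' (y - 2) (q (X t ω))) (fun ω => e22 f y y' (y - 2) (q (X t ω))) δ
    (bm β ν) h Ct (Cg * (K + Ct) * (h * √h)) ((K + 1) * (Cs * κ * h + Cs' * (lind β P X t h + h ^ 2)))
    (8 * (lind β P X t h + n * (β * h) ^ 2)) K hCt0
    (fun ω => integral_nonneg fun z => integral_nonneg fun z' => CutEnd_FF_nonneg _ _ _ _)
    (hint t) (hint (t + h)) (m2'.comp (hXm t)) (m22'.comp (hXm t))
    (fun ω => by
      obtain ⟨-, -, a, b, -⟩ := hK y y' (y - 2) (q (X t ω))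
      rw [abs_of_nonneg a]
      exact b)
    (fun ω => (hK y y' (y - 2) (q (X t ω))).2.2.2.2.2.2)
    (CutEnd_memLp hX t h δ hδm hδk) hδm
    (fun ω => by
      have hk := hK y y' (y - 2) (q (X t ω))
      have h2 := hCg (fun _ z' => FF f y y' (y - 2) (q (X t ω) + z'))
        (FF f y y' (y - 2) (q (X t ω))) 0 (e2 f y y' (y - 2) (q (X t ω))) 0 0
        (e22 f y y' (y - 2) (q (X t ω))) K Ct h h1
        (hFm.comp (measurable_const.add measurable_snd))
        hK0 hCt0 (by simpa using hK0) (by rw [abs_of_nonneg hk.2.2.1]; exact hk.2.2.2.1)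
        (by simpa using hK0) (by simpa using hK0) hk.2.2.2.2.2.2
        (fun a b => by
          have h3 := hCt y y' (q (X t ω)) b
          have h4 : FF f y y' (y - 2) (q (X t ω) + b) - FF f y y' (y - 2) (q (X t ω)) - 0 * a -
              e2 f y y' (y - 2) (q (X t ω)) * b - 0 / 2 * a ^ 2 - 0 * (a * b) -
              e22 f y y' (y - 2) (q (X t ω)) / 2 * b ^ 2 =
              FF f y y' (y - 2) (q (X t ω) + b) - FF f y y' (y - 2) (q (X t ω)) -
              e2 f y y' (y - 2) (q (X t ω)) * b -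
              e22 f y y' (y - 2) (q (X t ω)) / 2 * b ^ 2 := by ring
          rw [h4]
          refine h3.trans (mul_le_mul_of_nonneg_left ?_ hCt0)
          linarith [CutEnd_rho_nonneg a])
      have h5 := (abs_le.1 h2).2
      have h6 : (h : ℝ) * (bp β ν * 0 + bm β ν * e2 f y y' (y - 2) (q (X t ω)) + 0 / 2 +
          e22 f y y' (y - 2) (q (X t ω)) / 2) = h * (bm β ν * e2 f y y' (y - 2) (q (X t ω)) +
          e22 f y y' (y - 2) (q (X t ω)) / 2) := by ring
      rw [h6] at h5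
      linarith)
    (fun ω => by
      have h3 := (abs_le.1 (hCt y y' (q (X t ω)) (δ ω))).1
      have h4 : q (X t ω) + δ ω = q (X (t + h) ω) := by rw [hδdef]; ring
      rw [h4] at h3
      linarith)
    (by
      have h3 := min_drift hν hX hne (t := t) (t' := t + h) (by simp)
        (Y := fun ω => e2 f y y' (y - 2) (q (X t ω)))
        (m2'.comp hqa).stronglyMeasurable
        (fun ω => (hK y y' (y - 2) (q (X t ω))).2.2.1)
        (C := K) (fun ω => (hK y y' (y - 2) (q (X t ω))).2.2.2.1)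
      have h4 : ((t + h : ℝ≥0) : ℝ) - t = h := by push_cast; ring
      rw [h4] at h3
      exact h3)
    (by
      have h3 := hCs' x Ω P X hX (Finset.univ \ ∅) hne t h
        (fun ω => (K + 1)⁻¹ * e22 f y y' (y - 2) (q (X t ω))) h1
        ((m22'.comp hqa).const_mul _).stronglyMeasurable
        (fun ω => by
          have := (hK y y' (y - 2) (q (X t ω))).2.2.2.2.2.2
          rw [abs_mul, abs_of_pos (inv_pos.2 hK1), inv_mul_le_iff₀ hK1]
          linarith)
      have h4 := (abs_le.1 h3).1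
      simp_rw [mul_assoc (K + 1)⁻¹] at h4
      rw [integral_const_mul, integral_const_mul] at h4
      have h5 := mul_le_mul_of_nonneg_left h4 hK1.le
      have h6 : (K + 1) * ((K + 1)⁻¹ * ∫ ω, e22 f y y' (y - 2) (q (X t ω)) *
          ((Finset.univ \ ∅).inf' hne (X (t + h) ω) - (Finset.univ \ ∅).inf' hne (X t ω)) ^ 2 ∂P -
          h * ((K + 1)⁻¹ * ∫ ω, e22 f y y' (y - 2) (q (X t ω)) ∂P)) =
          ∫ ω, e22 f y y' (y - 2) (q (X t ω)) *
          ((Finset.univ \ ∅).inf' hne (X (t + h) ω) - (Finset.univ \ ∅).inf' hne (X t ω)) ^ 2 ∂P -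
          h * ∫ ω, e22 f y y' (y - 2) (q (X t ω)) ∂P := by
        field_simp
      rw [h6] at h5
      have h7 : ∫ ω, e22 f y y' (y - 2) (q (X t ω)) * δ ω ^ 2 ∂P =
        ∫ ω, e22 f y y' (y - 2) (q (X t ω)) *
          ((Finset.univ \ ∅).inf' hne (X (t + h) ω) - (Finset.univ \ ∅).inf' hne (X t ω)) ^ 2 ∂P :=
        rfl
      rw [h7]
      linarith)
    (CutEnd_rho_le_lind hX t h δ hδk)
  refine key.trans ?_
  have hl := CutEnd_lind_nonneg β P X t h
  have h2 := CutEnd_h2 h1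
  have hs : (0 : ℝ) ≤ h * √h := by positivity
  have t1 : (K + 1) * Cs' * (lind β P X t h + (h : ℝ) ^ 2) ≤
      (K + 1) * Cs' * (lind β P X t h + h * √h) :=
    mul_le_mul_of_nonneg_left (by linarith) (by positivity)
  have t2 : Ct * (8 * (lind β P X t h + n * (β * h) ^ 2)) ≤
      8 * Ct * (1 + n * β ^ 2) * (lind β P X t h + h * √h) := by
    have a1 : (n : ℝ) * (β * h) ^ 2 ≤ n * β ^ 2 * (h * √h) := by
      rw [mul_pow, ← mul_assoc]
      exact mul_le_mul_of_nonneg_left h2 (by positivity)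
    have a2 : (0 : ℝ) ≤ n * β ^ 2 * lind β P X t h := by positivity
    have a3 : lind β P X t h + n * (β * h) ^ 2 ≤
        (1 + n * β ^ 2) * (lind β P X t h + h * √h) := by nlinarith
    have a4 := mul_le_mul_of_nonneg_left a3 (by positivity : 0 ≤ 8 * Ct)
    linarith
  have t3 : Cg * (K + Ct) * (h * √h) ≤ Cg * (K + Ct) * (lind β P X t h + h * √h) :=
    mul_le_mul_of_nonneg_left (by linarith) (by positivity)
  linarith

theorem cut_hi {ν : Measure ℝ} (hν : GoodNu ν) (hf : Bump f) (β : ℝ) (n : ℕ) : ∃ C : ℝ, 0 ≤ C ∧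
    ∀ κ : ℝ, 0 < κ → ∃ C' : ℝ, 0 ≤ C' ∧ ∀ (x : Fin n → ℝ) (Ω : Type)
      [MeasurableSpace Ω] (P : Measure Ω) [IsProbabilityMeasure P] (X : ℝ≥0 → Ω → (Fin n → ℝ)),
      IsHWMotion β ν x P X → 0 < n → ∀ (t h : ℝ≥0) (y y' : ℝ), h ≤ 1 →
      ∫ ω, (∫ z, ∫ z', FF f y y' (lo Finset.univ (fun i => X t ω i + z) y)
        (hi Finset.univ (fun i => X t ω i + z') y') ∂(gaussianReal (bm β ν * h) h)
          ∂(gaussianReal (bp β ν * h) h)) ∂P ≤
      ∫ ω, FF f y y' (lo Finset.univ (X (t + h) ω) y) (hi Finset.univ (X (t + h) ω) y') ∂P +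
        C * h * κ + C' * (lind β P X t h + h * √h) := by
  obtain ⟨K, hK0, hK⟩ := e_bounds hf
  obtain ⟨Ct, hCt0, hCt⟩ := taylor_hi hf
  obtain ⟨Cg, hCg0, hCg⟩ := gauss_fine (bp β ν) (bm β ν)
  obtain ⟨Cs, hCs0, hCs⟩ := sq_max hν β n
  refine ⟨(K + 1) * Cs / 2, by positivity, fun κ hκ => ?_⟩
  obtain ⟨Cs', hCs'0, hCs'⟩ := hCs κ hκ
  refine ⟨(K + 1) * Cs' / 2 + 8 * Ct * (1 + n * β ^ 2) + Cg * (K + Ct), by positivity, ?_⟩
  intro x Ω _ P _ X hX hn t h y y' h1
  have hhi : ∀ v : Fin n → ℝ, hi Finset.univ v y' = y' + 2 := fun v => by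
    unfold hi
    rw [dif_neg (by simp)]
  have hne : (Finset.univ : Finset (Fin n)).Nonempty := ⟨⟨0, hn⟩, Finset.mem_univ _⟩
  have hlo : ∀ v : Fin n → ℝ, lo Finset.univ v y = Finset.univ.sup' hne v := fun v => by
    unfold lo
    rw [dif_pos hne]
  have hadd : ∀ (v : Fin n → ℝ) (z : ℝ), Finset.univ.sup' hne (fun i => v i + z) =
      Finset.univ.sup' hne v + z := by
    intro v z
    apply le_antisymm
    · refine Finset.sup'_le hne _ fun i hi => ?_
      have := Finset.le_sup' v hi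
      linarith
    · obtain ⟨k, hk, hkv⟩ := Finset.exists_mem_eq_sup' hne v
      rw [hkv]
      exact Finset.le_sup' (fun i => v i + z) hk
  set q : (Fin n → ℝ) → ℝ := fun v => Finset.univ.sup' hne v with hq
  have hqm : Measurable q := by
    have := measurable_lo (Finset.univ : Finset (Fin n)) y
    simp_rw [hlo] at this
    exact this
  simp_rw [hlo, hhi, hadd]
  have hFm : Measurable (fun r : ℝ => FF f y y' r (y' + 2)) :=
    (measurable_FF hf).comp (g := fun z : (ℝ × ℝ) × (ℝ × ℝ) => FF f z.1.1 z.1.2 z.2.1 z.2.2)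
      (f := fun r : ℝ => ((y, y'), (r, y' + 2)))
      (measurable_const.prodMk (measurable_id.prodMk measurable_const))
  obtain ⟨m2, -, m22, -, -⟩ := e_meas hf y y'
  have hXm : ∀ s, Measurable (fun ω => q (X s ω)) := fun s => hqm.comp (CutEnd_X_meas hX s)
  -- adapted
  have hXa : StronglyMeasurable[Filtration.natural X hX.meas t] (X t) :=
    Filtration.stronglyAdapted_natural hX.meas t
  have hqa : Measurable[Filtration.natural X hX.meas t] (fun ω => q (X t ω)) :=
    hqm.comp hXa.measurable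
  have m2' : Measurable fun r : ℝ => e1 f y y' r (y' + 2) :=
    m2.comp (g := fun z : ℝ × ℝ => e1 f y y' z.1 z.2) (f := fun r : ℝ => (r, y' + 2))
      (measurable_id.prodMk measurable_const)
  have m22' : Measurable fun r : ℝ => e11 f y y' r (y' + 2) :=
    m22.comp (g := fun z : ℝ × ℝ => e11 f y y' z.1 z.2) (f := fun r : ℝ => (r, y' + 2))
      (measurable_id.prodMk measurable_const)
  set δ : Ω → ℝ := fun ω => q (X (t + h) ω) - q (X t ω) with hδdef
  have hδm : Measurable δ := (hXm (t + h)).sub (hXm t)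
  have hδk : ∀ ω, ∃ k, |δ ω| ≤ |X (t + h) ω k - X t ω k| := fun ω =>
    CutEnd_sup hne (X (t + h) ω) (X t ω)
  have hint : ∀ s, Integrable (fun ω => FF f y y' (q (X s ω)) (y' + 2)) P := by
    intro s
    refine (integrable_const (1 : ℝ)).mono' (hFm.comp (hXm s)).aestronglyMeasurable ?_
    filter_upwards with ω
    rw [Real.norm_of_nonneg (CutEnd_FF_nonneg _ _ _ _)]
    exact CutEnd_FF_le hf _ _ _ _
  have hK1 : (0 : ℝ) < K + 1 := by positivity
  have key := CutEnd_core (P := P) (fun ω => FF f y y' (q (X t ω)) (y' + 2))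
    (fun ω => FF f y y' (q (X (t + h) ω)) (y' + 2))
    (fun ω => ∫ z, ∫ z', FF f y y' (q (X t ω) + z) (y' + 2) ∂(gaussianReal (bm β ν * h) h)
          ∂(gaussianReal (bp β ν * h) h))
    (fun ω => e1 f y y' (q (X t ω)) (y' + 2)) (fun ω => e11 f y y' (q (X t ω)) (y' + 2)) δ
    (bp β ν) h Ct (Cg * (K + Ct) * (h * √h)) ((K + 1) * (Cs * κ * h + Cs' * (lind β P X t h + h ^ 2)))
    (8 * (lind β P X t h + n * (β * h) ^ 2)) K hCt0
    (fun ω => integral_nonneg fun z => integral_nonneg fun z' => CutEnd_FF_nonneg _ _ _ _)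
    (hint t) (hint (t + h)) (m2'.comp (hXm t)) (m22'.comp (hXm t))
    (fun ω => by
      obtain ⟨a, b, -⟩ := hK y y' (q (X t ω)) (y' + 2)
      exact abs_le.2 ⟨a, b.trans hK0⟩)
    (fun ω => (hK y y' (q (X t ω)) (y' + 2)).2.2.2.2.1)
    (CutEnd_memLp hX t h δ hδm hδk) hδm
    (fun ω => by
      have hk := hK y y' (q (X t ω)) (y' + 2)
      have h2 := hCg (fun z _ => FF f y y' (q (X t ω) + z) (y' + 2))
        (FF f y y' (q (X t ω)) (y' + 2)) (e1 f y y' (q (X t ω)) (y' + 2)) 0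
        (e11 f y y' (q (X t ω)) (y' + 2)) 0 0 K Ct h h1
        (hFm.comp (measurable_const.add measurable_fst))
        hK0 hCt0 (abs_le.2 ⟨hk.1, hk.2.1.trans hK0⟩) (by simpa using hK0)
        hk.2.2.2.2.1 (by simpa using hK0) (by simpa using hK0)
        (fun a b => by
          have h3 := hCt y y' (q (X t ω)) a
          have h4 : FF f y y' (q (X t ω) + a) (y' + 2) - FF f y y' (q (X t ω)) (y' + 2) -
              e1 f y y' (q (X t ω)) (y' + 2) * a - 0 * b -
              e11 f y y' (q (X t ω)) (y' + 2) / 2 * a ^ 2 - 0 * (a * b) - 0 / 2 * b ^ 2 =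
              FF f y y' (q (X t ω) + a) (y' + 2) - FF f y y' (q (X t ω)) (y' + 2) -
              e1 f y y' (q (X t ω)) (y' + 2) * a -
              e11 f y y' (q (X t ω)) (y' + 2) / 2 * a ^ 2 := by ring
          rw [h4]
          refine h3.trans (mul_le_mul_of_nonneg_left ?_ hCt0)
          linarith [CutEnd_rho_nonneg b])
      have h5 := (abs_le.1 h2).2
      have h6 : (h : ℝ) * (bp β ν * e1 f y y' (q (X t ω)) (y' + 2) + bm β ν * 0 +
          e11 f y y' (q (X t ω)) (y' + 2) / 2 + 0 / 2) =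
          h * (bp β ν * e1 f y y' (q (X t ω)) (y' + 2) +
          e11 f y y' (q (X t ω)) (y' + 2) / 2) := by ring
      rw [h6] at h5
      linarith)
    (fun ω => by
      have h3 := (abs_le.1 (hCt y y' (q (X t ω)) (δ ω))).1
      have h4 : q (X t ω) + δ ω = q (X (t + h) ω) := by rw [hδdef]; ring
      rw [h4] at h3
      linarith)
    (by
      have h3 := max_drift hν hX hne (t := t) (t' := t + h) (by simp)
        (Y := fun ω => -e1 f y y' (q (X t ω)) (y' + 2))
        (m2'.comp hqa).neg.stronglyMeasurable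
        (fun ω => by linarith [(hK y y' (q (X t ω)) (y' + 2)).2.1])
        (C := K) (fun ω => by linarith [(hK y y' (q (X t ω)) (y' + 2)).1])
      have h4 : ((t + h : ℝ≥0) : ℝ) - t = h := by push_cast; ring
      rw [h4, integral_neg] at h3
      simp_rw [neg_mul] at h3
      rw [integral_neg] at h3
      have h5 : ∫ ω, e1 f y y' (q (X t ω)) (y' + 2) * δ ω ∂P =
        ∫ ω, e1 f y y' (q (X t ω)) (y' + 2) *
          (Finset.univ.sup' hne (X (t + h) ω) - Finset.univ.sup' hne (X t ω)) ∂P := rfl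
      rw [h5]
      linarith)
    (by
      have h3 := hCs' x Ω P X hX Finset.univ hne t h
        (fun ω => (K + 1)⁻¹ * e11 f y y' (q (X t ω)) (y' + 2)) h1
        ((m22'.comp hqa).const_mul _).stronglyMeasurable
        (fun ω => by
          have := (hK y y' (q (X t ω)) (y' + 2)).2.2.2.2.1
          rw [abs_mul, abs_of_pos (inv_pos.2 hK1), inv_mul_le_iff₀ hK1]
          linarith)
      have h4 := (abs_le.1 h3).1
      simp_rw [mul_assoc (K + 1)⁻¹] at h4
      rw [integral_const_mul, integral_const_mul] at h4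
      have h5 := mul_le_mul_of_nonneg_left h4 hK1.le
      have h6 : (K + 1) * ((K + 1)⁻¹ * ∫ ω, e11 f y y' (q (X t ω)) (y' + 2) *
          (Finset.univ.sup' hne (X (t + h) ω) - Finset.univ.sup' hne (X t ω)) ^ 2 ∂P -
          h * ((K + 1)⁻¹ * ∫ ω, e11 f y y' (q (X t ω)) (y' + 2) ∂P)) =
          ∫ ω, e11 f y y' (q (X t ω)) (y' + 2) *
          (Finset.univ.sup' hne (X (t + h) ω) - Finset.univ.sup' hne (X t ω)) ^ 2 ∂P -
          h * ∫ ω, e11 f y y' (q (X t ω)) (y' + 2) ∂P := by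
        field_simp
      rw [h6] at h5
      have h7 : ∫ ω, e11 f y y' (q (X t ω)) (y' + 2) * δ ω ^ 2 ∂P =
        ∫ ω, e11 f y y' (q (X t ω)) (y' + 2) *
          (Finset.univ.sup' hne (X (t + h) ω) - Finset.univ.sup' hne (X t ω)) ^ 2 ∂P :=
        rfl
      rw [h7]
      linarith)
    (CutEnd_rho_le_lind hX t h δ hδk)
  refine key.trans ?_
  have hl := CutEnd_lind_nonneg β P X t h
  have h2 := CutEnd_h2 h1
  have hs : (0 : ℝ) ≤ h * √h := by positivity
  have t1 : (K + 1) * Cs' * (lind β P X t h + (h : ℝ) ^ 2) ≤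
      (K + 1) * Cs' * (lind β P X t h + h * √h) :=
    mul_le_mul_of_nonneg_left (by linarith) (by positivity)
  have t2 : Ct * (8 * (lind β P X t h + n * (β * h) ^ 2)) ≤
      8 * Ct * (1 + n * β ^ 2) * (lind β P X t h + h * √h) := by
    have a1 : (n : ℝ) * (β * h) ^ 2 ≤ n * β ^ 2 * (h * √h) := by
      rw [mul_pow, ← mul_assoc]
      exact mul_le_mul_of_nonneg_left h2 (by positivity)
    have a2 : (0 : ℝ) ≤ n * β ^ 2 * lind β P X t h := by positivity
    have a3 : lind β P X t h + n * (β * h) ^ 2 ≤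
        (1 + n * β ^ 2) * (lind β P X t h + h * √h) := by nlinarith
    have a4 := mul_le_mul_of_nonneg_left a3 (by positivity : 0 ≤ 8 * Ct)
    linarith
  have t3 : Cg * (K + Ct) * (h * √h) ≤ Cg * (K + Ct) * (lind β P X t h + h * √h) :=
    mul_le_mul_of_nonneg_left (by linarith) (by positivity)
  linarith

end Pool.Agent.TH996.HW
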