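import Pool.Agent.TH996.HW.Comb
import Pool.Agent.TH996.HW.Taylor
import Pool.Agent.TH996.HW.GaussTaylor
import Pool.Agent.TH996.HW.MaxDrift
import Pool.Agent.TH996.HW.MinDrift
import Pool.Agent.TH996.HW.SqMax
import Pool.Agent.TH996.HW.Cross

/-!
# Swap of one cut, interior case (MP_b213bc_pr)
-/

open MeasureTheory ProbabilityTheory Filter
open scoped NNReal ENNReal Topology

namespace Pool.Agent.TH996.HW

variable {n : ℕ} {f : ℝ → ℝ}

/-- integrable with integral `a` -/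
private def HI {Ω : Type} [MeasurableSpace Ω] (P : Measure Ω) (F : Ω → ℝ) (a : ℝ) : Prop :=
  Integrable F P ∧ ∫ ω, F ω ∂P = a

section HI
variable {Ω : Type} [MeasurableSpace Ω] {P : Measure Ω} {F G : Ω → ℝ} {a b : ℝ}

private theorem HI.add (hF : HI P F a) (hG : HI P G b) : HI P (fun ω => F ω + G ω) (a + b) :=
  ⟨hF.1.add hG.1, by rw [integral_add hF.1 hG.1, hF.2, hG.2]⟩

private theorem HI.sub (hF : HI P F a) (hG : HI P G b) : HI P (fun ω => F ω - G ω) (a - b) :=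
  ⟨hF.1.sub hG.1, by rw [integral_sub hF.1 hG.1, hF.2, hG.2]⟩

private theorem HI.cmul (hF : HI P F a) (c : ℝ) : HI P (fun ω => c * F ω) (c * a) :=
  ⟨hF.1.const_mul c, by rw [integral_const_mul, hF.2]⟩

private theorem HI.const [IsProbabilityMeasure P] (c : ℝ) : HI P (fun _ => c) c :=
  ⟨integrable_const c, by simp⟩

private theorem HI.of (hF : Integrable F P) : HI P F (∫ ω, F ω ∂P) := ⟨hF, rfl⟩

end HI

private theorem cm_rho_nonneg (x : ℝ) : 0 ≤ rho x := le_min (by positivity) (by positivity)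

private theorem cm_rho_le_sq (x : ℝ) : rho x ≤ x ^ 2 := min_le_left _ _

private theorem cm_rho_mono {x y : ℝ} (h : |x| ≤ |y|) : rho x ≤ rho y := by
  unfold rho
  refine min_le_min (sq_le_sq.2 h) ?_
  exact pow_le_pow_left₀ (abs_nonneg x) h 3

private theorem cm_rho_meas : Measurable rho := by
  unfold rho
  exact (measurable_id.pow_const 2).min ((measurable_id.norm).pow_const 3)

private theorem cm_sup_diff {D : Finset (Fin n)} (hD : D.Nonempty) (v w : Fin n → ℝ) :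
    ∃ k, |D.sup' hD w - D.sup' hD v| ≤ |w k - v k| := by
  obtain ⟨i, hi, hi'⟩ := D.exists_mem_eq_sup' hD w
  obtain ⟨j, hj, hj'⟩ := D.exists_mem_eq_sup' hD v
  have h1 : v i ≤ D.sup' hD v := D.le_sup' v hi
  have h2 : w j ≤ D.sup' hD w := D.le_sup' w hj
  rcases le_total (D.sup' hD v) (D.sup' hD w) with h | h
  · refine ⟨i, ?_⟩
    rw [abs_of_nonneg (by linarith)]
    refine le_trans ?_ (le_abs_self _)
    rw [hi'] at *
    linarith
  · refine ⟨j, ?_⟩
    rw [abs_of_nonpos (by linarith)]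
    refine le_trans ?_ (neg_le_abs _)
    rw [hj'] at *
    linarith

private theorem cm_inf_diff {D : Finset (Fin n)} (hD : D.Nonempty) (v w : Fin n → ℝ) :
    ∃ k, |D.inf' hD w - D.inf' hD v| ≤ |w k - v k| := by
  obtain ⟨i, hi, hi'⟩ := D.exists_mem_eq_inf' hD w
  obtain ⟨j, hj, hj'⟩ := D.exists_mem_eq_inf' hD v
  have h1 : D.inf' hD v ≤ v i := D.inf'_le v hi
  have h2 : D.inf' hD w ≤ w j := D.inf'_le w hj
  rcases le_total (D.inf' hD v) (D.inf' hD w) with h | h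
  · refine ⟨j, ?_⟩
    rw [abs_of_nonneg (by linarith)]
    refine le_trans ?_ (le_abs_self _)
    rw [hj'] at *
    linarith
  · refine ⟨i, ?_⟩
    rw [abs_of_nonpos (by linarith)]
    refine le_trans ?_ (neg_le_abs _)
    rw [hi'] at *
    linarith

private theorem cm_sup_abs {D : Finset (Fin n)} (hD : D.Nonempty) (v : Fin n → ℝ) :
    |D.sup' hD v| ≤ ∑ i, |v i| := by
  obtain ⟨i, _, hi'⟩ := D.exists_mem_eq_sup' hD v
  rw [hi']
  exact Finset.single_le_sum (f := fun i => |v i|) (fun _ _ => abs_nonneg _) (Finset.mem_univ i)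

private theorem cm_inf_abs {D : Finset (Fin n)} (hD : D.Nonempty) (v : Fin n → ℝ) :
    |D.inf' hD v| ≤ ∑ i, |v i| := by
  obtain ⟨i, _, hi'⟩ := D.exists_mem_eq_inf' hD v
  rw [hi']
  exact Finset.single_le_sum (f := fun i => |v i|) (fun _ _ => abs_nonneg _) (Finset.mem_univ i)

private theorem cm_lo {D : Finset (Fin n)} (hD : D.Nonempty) (v : Fin n → ℝ) (y : ℝ) :
    lo D v y = D.sup' hD v := by
  unfold lo
  rw [dif_pos hD]

private theorem cm_hi {D : Finset (Fin n)} (hE : (Finset.univ \ D).Nonempty) (v : Fin n → ℝ)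
    (y : ℝ) : hi D v y = (Finset.univ \ D).inf' hE v := by
  unfold hi
  rw [dif_pos hE]

private theorem cm_lo_add {D : Finset (Fin n)} (hD : D.Nonempty) (v : Fin n → ℝ) (z : ℝ) :
    D.sup' hD (fun i => v i + z) = D.sup' hD v + z := by
  apply le_antisymm
  · exact Finset.sup'_le _ _ fun i hi => by linarith [D.le_sup' v hi]
  · obtain ⟨i, hi, hi'⟩ := D.exists_mem_eq_sup' hD v
    rw [hi']
    exact D.le_sup' (fun i => v i + z) hi

private theorem cm_hi_add {D : Finset (Fin n)} (hD : D.Nonempty) (v : Fin n → ℝ) (z : ℝ) :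
    D.inf' hD (fun i => v i + z) = D.inf' hD v + z := by
  apply le_antisymm
  · obtain ⟨i, hi, hi'⟩ := D.exists_mem_eq_inf' hD v
    rw [hi']
    exact D.inf'_le (fun i => v i + z) hi
  · exact Finset.le_inf' _ _ fun i hi => by linarith [D.inf'_le v hi]

private theorem cm_scut {D : Finset (Fin n)} (hD : D.Nonempty)
    (hE : (Finset.univ \ D).Nonempty) (v : Fin n → ℝ) :
    scut v D ↔ D.sup' hD v < (Finset.univ \ D).inf' hE v := by
  unfold scut
  rw [Finset.sup'_lt_iff]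
  constructor
  · intro h i hi
    rw [Finset.lt_inf'_iff]
    intro j hj
    exact h i hi j (by simpa using hj)
  · intro h i hi j hj
    have := h i hi
    rw [Finset.lt_inf'_iff] at this
    exact this j (by simpa using hj)

private theorem cm_FF_nonneg (y y' p p' : ℝ) : 0 ≤ FF f y y' p p' := measureReal_nonneg

private theorem cm_FF_le_one (hf : Bump f) (y y' p p' : ℝ) : FF f y y' p p' ≤ 1 := by
  have := isProb_dm hf y y'
  exact measureReal_le_one

private theorem cm_P0_meas {D : Finset (Fin n)} (hD : D.Nonempty) :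
    Measurable (fun v : Fin n → ℝ => D.sup' hD v) := by
  have h := measurable_lo D 0
  have e : (fun v : Fin n → ℝ => lo D v 0) = fun v => D.sup' hD v := by
    funext v
    exact cm_lo hD v 0
  rwa [e] at h

private theorem cm_P1_meas {D : Finset (Fin n)} (hE : (Finset.univ \ D).Nonempty) :
    Measurable (fun v : Fin n → ℝ => (Finset.univ \ D).inf' hE v) := by
  have h := measurable_hi D 0
  have e : (fun v : Fin n → ℝ => hi D v 0) = fun v => (Finset.univ \ D).inf' hE v := by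
    funext v
    exact cm_hi hE v 0
  rwa [e] at h

private theorem cm_hsq {h : ℝ} (hh0 : 0 ≤ h) (hh1 : h ≤ 1) : h ^ 2 ≤ h * √h := by
  have : h ≤ √h := by
    rw [← Real.sqrt_sq hh0]
    apply Real.sqrt_le_sqrt
    rw [Real.sqrt_sq hh0]
    nlinarith
  nlinarith

section proc

variable {β : ℝ} {ν : Measure ℝ} {x : Fin n → ℝ} {Ω : Type} [MeasurableSpace Ω]
  {P : Measure Ω} [IsProbabilityMeasure P] {X : ℝ≥0 → Ω → (Fin n → ℝ)}

omit [IsProbabilityMeasure P] in
private theorem cm_F_meas (hX : IsHWMotion β ν x P X) (t : ℝ≥0) {g : (Fin n → ℝ) → ℝ}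
    (hg : Measurable g) :
    StronglyMeasurable[Filtration.natural X hX.meas t] (fun ω => g (X t ω)) := by
  have h := (Filtration.stronglyAdapted_natural hX.meas) t
  exact (hg.comp h.measurable).stronglyMeasurable

omit [IsProbabilityMeasure P] in
private theorem cm_meas (hX : IsHWMotion β ν x P X) (t : ℝ≥0) {g : (Fin n → ℝ) → ℝ}
    (hg : Measurable g) : Measurable (fun ω => g (X t ω)) :=
  hg.comp (hX.meas t).measurable

omit [IsProbabilityMeasure P] in
private theorem cm_memLp (hX : IsHWMotion β ν x P X) (t : ℝ≥0) {g : (Fin n → ℝ) → ℝ}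
    (hg : Measurable g) (hb : ∀ v, |g v| ≤ ∑ i, |v i|) : MemLp (fun ω => g (X t ω)) 2 P := by
  have h1 : MemLp (fun ω => ∑ i, |X t ω i|) 2 P :=
    memLp_finsetSum _ fun i _ => (hX.sq t i).norm
  refine h1.mono (cm_meas hX t hg).aestronglyMeasurable (ae_of_all _ fun ω => ?_)
  have : (0 : ℝ) ≤ ∑ i, |X t ω i| := Finset.sum_nonneg fun _ _ => abs_nonneg _
  rw [Real.norm_eq_abs, Real.norm_eq_abs, abs_of_nonneg this]
  exact hb _

omit [IsProbabilityMeasure P] in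
private theorem cm_bdd {Y F : Ω → ℝ} {K : ℝ} (hY : Measurable Y) (hK : ∀ ω, |Y ω| ≤ K)
    (hF : Integrable F P) : Integrable (fun ω => Y ω * F ω) P := by
  refine (hF.norm.const_mul K).mono (hY.aestronglyMeasurable.mul hF.1) (ae_of_all _ fun ω => ?_)
  have hK0 : 0 ≤ K := (abs_nonneg _).trans (hK ω)
  rw [norm_mul, Real.norm_eq_abs, Real.norm_eq_abs (K * _), abs_mul, abs_of_nonneg hK0, abs_norm]
  exact mul_le_mul_of_nonneg_right (hK ω) (norm_nonneg _)

private theorem cm_incr (hX : IsHWMotion β ν x P X) (t h : ℝ≥0) (hh : h ≤ 1) :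
    (∀ k, Integrable (fun ω => rho (X (t + h) ω k - X t ω k)) P) ∧
      ∑ k, ∫ ω, rho (X (t + h) ω k - X t ω k) ∂P ≤
        8 * (lind β P X t h + n * β ^ 2 * (h * √h)) := by
  have hi : ∀ s k, MemLp (fun ω => X s ω k) 2 P := fun s k => hX.sq s k
  have hd : ∀ k, MemLp (fun ω => X (t + h) ω k - X t ω k) 2 P := fun k =>
    (hi _ k).sub (hi _ k)
  have hM : ∀ k, MemLp (fun ω => (X (t + h) ω k - β * (t + h)) - (X t ω k - β * t)) 2 P :=
    fun k => ((hi _ k).sub (memLp_const _)).sub ((hi _ k).sub (memLp_const _))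
  have hint : ∀ F : Ω → ℝ, MemLp F 2 P → Integrable (fun ω => rho (F ω)) P := by
    intro F hF
    refine hF.integrable_sq.mono (cm_rho_meas.comp_aemeasurable
      hF.1.aemeasurable).aestronglyMeasurable (ae_of_all _ fun ω => ?_)
    rw [Real.norm_eq_abs, Real.norm_eq_abs, abs_of_nonneg (cm_rho_nonneg _),
      abs_of_nonneg (sq_nonneg _)]
    exact cm_rho_le_sq _
  refine ⟨fun k => hint _ (hd k), ?_⟩
  have hh0 : (0 : ℝ) ≤ h := h.2
  have hh1 : (h : ℝ) ≤ 1 := by exact_mod_cast hh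
  have hsq : (h : ℝ) ^ 2 ≤ h * √h := cm_hsq hh0 hh1
  have hk : ∀ k, ∫ ω, rho (X (t + h) ω k - X t ω k) ∂P ≤
      8 * (∫ ω, rho ((X (t + h) ω k - β * (t + h)) - (X t ω k - β * t)) ∂P +
        β ^ 2 * (h * √h)) := by
    intro k
    have h1 : ∀ ω, rho (X (t + h) ω k - X t ω k) ≤
        8 * (rho ((X (t + h) ω k - β * (t + h)) - (X t ω k - β * t)) + β ^ 2 * (h * √h)) := by
      intro ω
      have e : X (t + h) ω k - X t ω k =
          ((X (t + h) ω k - β * (t + h)) - (X t ω k - β * t)) - (-(β * h)) := by ring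
      rw [e]
      refine (rho_sub _ _).trans ?_
      have h2 : rho (-(β * h)) ≤ β ^ 2 * (h * √h) := by
        refine (cm_rho_le_sq _).trans ?_
        have : (-(β * (h : ℝ))) ^ 2 = β ^ 2 * (h : ℝ) ^ 2 := by ring
        rw [this]
        exact mul_le_mul_of_nonneg_left hsq (sq_nonneg _)
      linarith
    have h3 := integral_mono (hint _ (hd k))
      (((hint _ (hM k)).add (integrable_const (β ^ 2 * ((h : ℝ) * √h)))).const_mul 8) h1
    refine h3.trans (le_of_eq ?_)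
    rw [integral_const_mul]
    congr 1
    rw [← (HI.add (HI.of (hint _ (hM k))) (HI.const (P := P) (β ^ 2 * ((h : ℝ) * √h)))).2]
    rfl
  calc ∑ k, ∫ ω, rho (X (t + h) ω k - X t ω k) ∂P ≤ ∑ k : Fin n,
      8 * (∫ ω, rho ((X (t + h) ω k - β * (t + h)) - (X t ω k - β * t)) ∂P +
        β ^ 2 * (h * √h)) := Finset.sum_le_sum fun k _ => hk k
    _ = _ := by
      rw [← Finset.mul_sum, Finset.sum_add_distrib, Finset.sum_const, Finset.card_univ,
        Fintype.card_fin, nsmul_eq_mul]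
      unfold lind
      ring

end proc

private theorem cm_final {h bmv bpv K C1 Cc Ce Ca Cb Cx Da Db Dx K1 A1 A2 G1 G2 G3 κ L Lh S nb vF
    vT1 vT2 vT3 vT4 vT5 vT6 vT7 vT8 vT9 vB1 vB2 vB3 vB4 vB6 vB7 vp vR1 vR2 : ℝ}
    (hh0 : 0 ≤ h) (hκ : 0 ≤ κ) (hC10 : 0 ≤ C1) (hCe0 : 0 ≤ Ce) (hCa0 : 0 ≤ Ca) (hCb0 : 0 ≤ Cb)
    (hDa0 : 0 ≤ Da) (hDb0 : 0 ≤ Db) (hK1 : 0 ≤ K1) (hnb : 0 ≤ nb)
    (hA1 : A1 = K1 * (Ca + Cb + Cx) + C1 * (Ca + Cb))
    (hA2 : A2 = Cc * (K + C1) + (|bpv| + |bmv|) * K + 2 * C1) (hA1p : 0 ≤ A1) (hA2p : 0 ≤ A2)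
    (hG1 : G1 = K1 * (Da + Db + Dx) + C1 * (Da + Db)) (hG3 : G3 = 16 * Ce * (1 + nb))
    (hG1p : 0 ≤ G1) (hG2p : 0 ≤ G2) (hL0 : 0 ≤ L) (hS0 : 0 ≤ S) (hLh0 : 0 ≤ Lh)
    (hLhS : Lh ≤ L + S) (hp0 : 0 ≤ vp)
    (d1 : vT1 ≤ bpv * h * vB1) (d2 : bmv * h * vB2 ≤ vT2) (d6 : vT6 ≤ bpv * h * vB6)
    (d7 : bmv * h * vB7 ≤ vT7) (q6 : bpv * h * vB6 ≤ |bpv| * h * (K * vp))
    (q7 : -(bmv * h * vB7) ≤ |bmv| * h * (K * vp))
    (r3 : -(K1 * (Ca * κ * h + Da * Lh)) ≤ vT3 - h * vB3)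
    (r4 : -(K1 * (Cb * κ * h + Db * Lh)) ≤ vT4 - h * vB4)
    (r5 : -(K1 * (Cx * κ * h + Dx * Lh)) ≤ vT5)
    (r8 : vT8 - h * vp ≤ Ca * κ * h + Da * Lh) (r9 : vT9 - h * vp ≤ Cb * κ * h + Db * Lh)
    (hR1 : vR1 ≤ 8 * (L + nb * S)) (hR2 : vR2 ≤ 8 * (L + nb * S)) :
    vF + (h * bmv * vB2 - h * bpv * vB1 + h / 2 * vB3 + h / 2 * vB4 + vT1 - vT2 - 1 / 2 * vT3 -
      vT5 - 1 / 2 * vT4 + G2 * S + Ce * (vR1 + vR2) + Cc * (K + C1) * h * vp + vT6 - vT7 +
      C1 * (vT8 + vT9)) ≤ vF + (A1 + A2) * h * (κ + vp) + (G1 + G2 + G3) * (L + S) := by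
  have p1 : C1 * (vT8 + vT9) ≤ C1 * (2 * h * vp + (Ca + Cb) * κ * h + (Da + Db) * Lh) :=
    mul_le_mul_of_nonneg_left (by linarith) hC10
  have p2 : Ce * (vR1 + vR2) ≤ Ce * (16 * (L + nb * S)) :=
    mul_le_mul_of_nonneg_left (by linarith) hCe0
  have p3 : G1 * Lh ≤ G1 * (L + S) := mul_le_mul_of_nonneg_left hLhS hG1p
  have p4 : 0 ≤ G2 * L := mul_nonneg hG2p hL0
  have p5 : 0 ≤ 16 * Ce * (S + nb * L) := by positivity
  have p6 : 0 ≤ A1 * h * vp := by positivity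
  have p7 : 0 ≤ A2 * h * κ := by positivity
  have p8 : 0 ≤ K1 * (Ca * κ * h + Da * Lh) := by positivity
  have p9 : 0 ≤ K1 * (Cb * κ * h + Db * Lh) := by positivity
  have f1 : G1 * Lh = K1 * (Da + Db + Dx) * Lh + C1 * (Da + Db) * Lh := by rw [hG1]; ring
  have f2 : G3 * (L + S) = 16 * Ce * (L + nb * S) + 16 * Ce * (S + nb * L) := by rw [hG3]; ring
  have f3 : A1 * h * κ = K1 * (Ca + Cb + Cx) * h * κ + C1 * (Ca + Cb) * h * κ := by
    rw [hA1]; ring
  have f4 : A2 * h * vp = Cc * (K + C1) * h * vp + (|bpv| + |bmv|) * K * h * vp +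
    2 * C1 * h * vp := by rw [hA2]; ring
  have f5 : (A1 + A2) * h * (κ + vp) = A1 * h * κ + A1 * h * vp + A2 * h * κ + A2 * h * vp := by
    ring
  have f6 : (G1 + G2 + G3) * (L + S) = G1 * (L + S) + G2 * L + G2 * S + G3 * (L + S) := by ring
  rw [f5, f6, f2, f3, f4]
  rw [f1] at p3
  linarith

open Classical in
theorem cut_mid {ν : Measure ℝ} (hν : GoodNu ν) (hf : Bump f) (β : ℝ) (n : ℕ) : ∃ C : ℝ, 0 ≤ C ∧
    ∀ κ η : ℝ, 0 < κ → 0 < η → ∃ C' : ℝ, 0 ≤ C' ∧ ∀ (x : Fin n → ℝ) (Ω : Type)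
      [MeasurableSpace Ω] (P : Measure Ω) [IsProbabilityMeasure P] (X : ℝ≥0 → Ω → (Fin n → ℝ)),
      IsHWMotion β ν x P X → ∀ (D : Finset (Fin n)), D.Nonempty → (Finset.univ \ D).Nonempty →
      ∀ (t h : ℝ≥0) (y y' : ℝ), h ≤ 1 →
      ∫ ω, (if scut (X t ω) D then (∫ z, ∫ z', FF f y y' (lo D (fun i => X t ω i + z) y)
        (hi D (fun i => X t ω i + z') y') ∂(gaussianReal (bm β ν * h) h)
          ∂(gaussianReal (bp β ν * h) h)) else 0) ∂P ≤
      ∫ ω, FF f y y' (lo D (X (t + h) ω) y) (hi D (X (t + h) ω) y') ∂P +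
        C * h * (κ + P.real {ω | scut (X t ω) D ∧ hi D (X t ω) 0 - lo D (X t ω) 0 < η}) +
        C' * (lind β P X t h + h * √h) := by
  obtain ⟨K, hK0, hK⟩ := e_bounds hf
  obtain ⟨C1, hC10, hC1⟩ := taylor_crude hf
  obtain ⟨Cg, hCg0, hCg⟩ := gauss_fine (bp β ν) (bm β ν)
  obtain ⟨Cc, hCc0, hCc⟩ := gauss_crude (bp β ν) (bm β ν)
  obtain ⟨Ca, hCa0, hCa⟩ := sq_max hν β n
  obtain ⟨Cb, hCb0, hCb⟩ := sq_min hν β n
  obtain ⟨Cx, hCx0, hCx⟩ := cross hν β n
  obtain ⟨K1, hK1⟩ : ∃ K1 : ℝ, K1 = K + 1 := ⟨_, rfl⟩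
  have hK1p : 0 < K1 := by linarith
  obtain ⟨A1, hA1⟩ : ∃ A1 : ℝ, A1 = K1 * (Ca + Cb + Cx) + C1 * (Ca + Cb) := ⟨_, rfl⟩
  obtain ⟨A2, hA2⟩ : ∃ A2 : ℝ, A2 = Cc * (K + C1) + (|bp β ν| + |bm β ν|) * K + 2 * C1 := ⟨_, rfl⟩
  have hA1p : 0 ≤ A1 := by rw [hA1]; positivity
  have hA2p : 0 ≤ A2 := by rw [hA2]; positivity
  refine ⟨A1 + A2, by positivity, ?_⟩
  intro κ η hκ hη
  obtain ⟨Ce, hCe0, hCe⟩ := taylor_fine hf hη
  obtain ⟨Da, hDa0, hDa⟩ := hCa κ hκ
  obtain ⟨Db, hDb0, hDb⟩ := hCb κ hκ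
  obtain ⟨Dx, hDx0, hDx⟩ := hCx κ η hκ hη
  obtain ⟨G1, hG1⟩ : ∃ G1 : ℝ, G1 = K1 * (Da + Db + Dx) + C1 * (Da + Db) := ⟨_, rfl⟩
  obtain ⟨G2, hG2⟩ : ∃ G2 : ℝ, G2 = Cg * (K + Ce) := ⟨_, rfl⟩
  obtain ⟨G3, hG3⟩ : ∃ G3 : ℝ, G3 = 16 * Ce * (1 + n * β ^ 2) := ⟨_, rfl⟩
  have hG1p : 0 ≤ G1 := by rw [hG1]; positivity
  have hG2p : 0 ≤ G2 := by rw [hG2]; positivity
  have hG3p : 0 ≤ G3 := by rw [hG3]; positivity
  refine ⟨G1 + G2 + G3, by positivity, ?_⟩
  intro x Ω _ P _ X hX D hD hE t h y y' hh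
  have hh0 : (0 : ℝ) ≤ h := h.2
  have hh1 : (h : ℝ) ≤ 1 := by exact_mod_cast hh
  have hhs : (h : ℝ) ^ 2 ≤ h * √h := cm_hsq hh0 hh1
  have hS0 : (0 : ℝ) ≤ h * √h := by positivity
  have hL0 : 0 ≤ lind β P X t h :=
    Finset.sum_nonneg fun i _ => integral_nonneg fun ω => cm_rho_nonneg _
  -- positions
  have mP0 := cm_P0_meas hD
  have mP1 := cm_P1_meas hE
  have mpair : Measurable (fun v : Fin n → ℝ => (D.sup' hD v, (Finset.univ \ D).inf' hE v)) :=
    mP0.prodMk mP1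
  obtain ⟨y1, hy1⟩ : ∃ g : (Fin n → ℝ) → ℝ, g = fun v =>
      if η ≤ (Finset.univ \ D).inf' hE v - D.sup' hD v then (1 : ℝ) else 0 := ⟨_, rfl⟩
  obtain ⟨y2, hy2⟩ : ∃ g : (Fin n → ℝ) → ℝ, g = fun v =>
      if D.sup' hD v < (Finset.univ \ D).inf' hE v ∧
        (Finset.univ \ D).inf' hE v - D.sup' hD v < η then (1 : ℝ) else 0 := ⟨_, rfl⟩
  have my1 : Measurable y1 := by
    rw [hy1]
    exact Measurable.ite (measurableSet_le measurable_const (mP1.sub mP0)) measurable_const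
      measurable_const
  have my2 : Measurable y2 := by
    rw [hy2]
    exact Measurable.ite ((measurableSet_lt mP0 mP1).inter
      (measurableSet_lt (mP1.sub mP0) measurable_const)) measurable_const measurable_const
  have y1v : ∀ v, y1 v = 0 ∨ y1 v = 1 := by
    intro v
    rw [hy1]
    dsimp only
    split_ifs
    · exact Or.inr rfl
    · exact Or.inl rfl
  have y2v : ∀ v, y2 v = 0 ∨ y2 v = 1 := by
    intro v
    rw [hy2]
    dsimp only
    split_ifs
    · exact Or.inr rfl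
    · exact Or.inl rfl
  have y1n : ∀ v, 0 ≤ y1 v := fun v => by rcases y1v v with e | e <;> rw [e] <;> norm_num
  have y2n : ∀ v, 0 ≤ y2 v := fun v => by rcases y2v v with e | e <;> rw [e] <;> norm_num
  have y1a : ∀ v, |y1 v| ≤ 1 := fun v => by rcases y1v v with e | e <;> rw [e] <;> norm_num
  have y2a : ∀ v, |y2 v| ≤ 1 := fun v => by rcases y2v v with e | e <;> rw [e] <;> norm_num
  obtain ⟨c1, hc1⟩ : ∃ g : (Fin n → ℝ) → ℝ, g = fun v =>
      e1 f y y' (D.sup' hD v) ((Finset.univ \ D).inf' hE v) := ⟨_, rfl⟩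
  obtain ⟨c2, hc2⟩ : ∃ g : (Fin n → ℝ) → ℝ, g = fun v =>
      e2 f y y' (D.sup' hD v) ((Finset.univ \ D).inf' hE v) := ⟨_, rfl⟩
  obtain ⟨c11, hc11⟩ : ∃ g : (Fin n → ℝ) → ℝ, g = fun v =>
      e11 f y y' (D.sup' hD v) ((Finset.univ \ D).inf' hE v) := ⟨_, rfl⟩
  obtain ⟨c12, hc12⟩ : ∃ g : (Fin n → ℝ) → ℝ, g = fun v =>
      e12 f y y' (D.sup' hD v) ((Finset.univ \ D).inf' hE v) := ⟨_, rfl⟩
  obtain ⟨c22, hc22⟩ : ∃ g : (Fin n → ℝ) → ℝ, g = fun v =>
      e22 f y y' (D.sup' hD v) ((Finset.univ \ D).inf' hE v) := ⟨_, rfl⟩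
  obtain ⟨m1, m2, m11, m12, m22⟩ := e_meas hf y y'
  have mc1 : Measurable c1 := by rw [hc1]; exact m1.comp mpair
  have mc2 : Measurable c2 := by rw [hc2]; exact m2.comp mpair
  have mc11 : Measurable c11 := by rw [hc11]; exact m11.comp mpair
  have mc12 : Measurable c12 := by rw [hc12]; exact m12.comp mpair
  have mc22 : Measurable c22 := by rw [hc22]; exact m22.comp mpair
  have bc : ∀ v, -K ≤ c1 v ∧ c1 v ≤ 0 ∧ 0 ≤ c2 v ∧ c2 v ≤ K ∧ |c11 v| ≤ K ∧ |c12 v| ≤ K ∧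
      |c22 v| ≤ K := by
    intro v
    rw [hc1, hc2, hc11, hc12, hc22]
    exact hK _ _ _ _
  -- increments
  obtain ⟨dl, hdl⟩ : ∃ g : Ω → ℝ, g = fun ω => D.sup' hD (X (t + h) ω) - D.sup' hD (X t ω) :=
    ⟨_, rfl⟩
  obtain ⟨dr, hdr⟩ : ∃ g : Ω → ℝ, g = fun ω =>
    (Finset.univ \ D).inf' hE (X (t + h) ω) - (Finset.univ \ D).inf' hE (X t ω) := ⟨_, rfl⟩
  have ldl : MemLp dl 2 P := by
    rw [hdl]
    exact (cm_memLp hX _ mP0 (cm_sup_abs hD)).sub (cm_memLp hX _ mP0 (cm_sup_abs hD))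
  have ldr : MemLp dr 2 P := by
    rw [hdr]
    exact (cm_memLp hX _ mP1 (cm_inf_abs hE)).sub (cm_memLp hX _ mP1 (cm_inf_abs hE))
  have idl : Integrable dl P := ldl.integrable one_le_two
  have idr : Integrable dr P := ldr.integrable one_le_two
  have idl2 : Integrable (fun ω => dl ω ^ 2) P := ldl.integrable_sq
  have idr2 : Integrable (fun ω => dr ω ^ 2) P := ldr.integrable_sq
  have idd : Integrable (fun ω => dl ω * dr ω) P := ldl.integrable_mul ldr
  have hrl : ∀ ω, rho (dl ω) ≤ ∑ k, rho (X (t + h) ω k - X t ω k) := by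
    intro ω
    obtain ⟨k, hk⟩ := cm_sup_diff hD (X t ω) (X (t + h) ω)
    rw [hdl]
    exact (cm_rho_mono hk).trans (Finset.single_le_sum
      (f := fun k => rho (X (t + h) ω k - X t ω k)) (fun _ _ => cm_rho_nonneg _)
      (Finset.mem_univ k))
  have hrr : ∀ ω, rho (dr ω) ≤ ∑ k, rho (X (t + h) ω k - X t ω k) := by
    intro ω
    obtain ⟨k, hk⟩ := cm_inf_diff hE (X t ω) (X (t + h) ω)
    rw [hdr]
    exact (cm_rho_mono hk).trans (Finset.single_le_sum
      (f := fun k => rho (X (t + h) ω k - X t ω k)) (fun _ _ => cm_rho_nonneg _)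
      (Finset.mem_univ k))
  obtain ⟨iinc, sinc⟩ := cm_incr hX t h hh
  have isum : Integrable (fun ω => ∑ k, rho (X (t + h) ω k - X t ω k)) P :=
    integrable_finsetSum _ fun k _ => iinc k
  have vsum : ∫ ω, ∑ k, rho (X (t + h) ω k - X t ω k) ∂P ≤
      8 * (lind β P X t h + n * β ^ 2 * (h * √h)) := by
    rw [integral_finsetSum _ fun k _ => iinc k]
    exact sinc
  have irho : ∀ F : Ω → ℝ, MemLp F 2 P → Integrable (fun ω => rho (F ω)) P := by
    intro F hF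
    refine hF.integrable_sq.mono (cm_rho_meas.comp_aemeasurable
      hF.1.aemeasurable).aestronglyMeasurable (ae_of_all _ fun ω => ?_)
    rw [Real.norm_eq_abs, Real.norm_eq_abs, abs_of_nonneg (cm_rho_nonneg _),
      abs_of_nonneg (sq_nonneg _)]
    exact cm_rho_le_sq _
  have hRl : ∫ ω, rho (dl ω) ∂P ≤ 8 * (lind β P X t h + n * β ^ 2 * (h * √h)) :=
    (integral_mono (irho dl ldl) isum hrl).trans vsum
  have hRr : ∫ ω, rho (dr ω) ∂P ≤ 8 * (lind β P X t h + n * β ^ 2 * (h * √h)) :=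
    (integral_mono (irho dr ldr) isum hrr).trans vsum
  -- drifts
  have eh : (((t + h : ℝ≥0) : ℝ) - t) = h := by push_cast; ring
  have d1 : ∫ ω, (y1 (X t ω) * -c1 (X t ω)) * dl ω ∂P ≤
      bp β ν * h * ∫ ω, y1 (X t ω) * -c1 (X t ω) ∂P := by
    have := max_drift hν hX hD (t := t) (t' := t + h) le_self_add
      (Y := fun ω => y1 (X t ω) * -c1 (X t ω)) (cm_F_meas hX t (my1.mul mc1.neg))
      (fun ω => mul_nonneg (y1n _) (by linarith [(bc (X t ω)).2.1])) (C := K)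
      (fun ω => by
        have h1 := bc (X t ω)
        rcases y1v (X t ω) with e | e <;> rw [e] <;> linarith)
    rw [eh] at this
    rw [hdl]
    exact this
  have d2 : bm β ν * h * ∫ ω, y1 (X t ω) * c2 (X t ω) ∂P ≤
      ∫ ω, (y1 (X t ω) * c2 (X t ω)) * dr ω ∂P := by
    have := min_drift hν hX hE (t := t) (t' := t + h) le_self_add
      (Y := fun ω => y1 (X t ω) * c2 (X t ω)) (cm_F_meas hX t (my1.mul mc2))
      (fun ω => mul_nonneg (y1n _) (bc (X t ω)).2.2.1) (C := K)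
      (fun ω => by
        have h1 := bc (X t ω)
        rcases y1v (X t ω) with e | e <;> rw [e] <;> linarith)
    rw [eh] at this
    rw [hdr]
    exact this
  have d6 : ∫ ω, (y2 (X t ω) * -c1 (X t ω)) * dl ω ∂P ≤
      bp β ν * h * ∫ ω, y2 (X t ω) * -c1 (X t ω) ∂P := by
    have := max_drift hν hX hD (t := t) (t' := t + h) le_self_add
      (Y := fun ω => y2 (X t ω) * -c1 (X t ω)) (cm_F_meas hX t (my2.mul mc1.neg))
      (fun ω => mul_nonneg (y2n _) (by linarith [(bc (X t ω)).2.1])) (C := K)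
      (fun ω => by
        have h1 := bc (X t ω)
        rcases y2v (X t ω) with e | e <;> rw [e] <;> linarith)
    rw [eh] at this
    rw [hdl]
    exact this
  have d7 : bm β ν * h * ∫ ω, y2 (X t ω) * c2 (X t ω) ∂P ≤
      ∫ ω, (y2 (X t ω) * c2 (X t ω)) * dr ω ∂P := by
    have := min_drift hν hX hE (t := t) (t' := t + h) le_self_add
      (Y := fun ω => y2 (X t ω) * c2 (X t ω)) (cm_F_meas hX t (my2.mul mc2))
      (fun ω => mul_nonneg (y2n _) (bc (X t ω)).2.2.1) (C := K)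
      (fun ω => by
        have h1 := bc (X t ω)
        rcases y2v (X t ω) with e | e <;> rw [e] <;> linarith)
    rw [eh] at this
    rw [hdr]
    exact this
  -- squares
  have scale : ∀ (F Y : Ω → ℝ) (B : ℝ),
      |∫ ω, (Y ω / K1) * F ω ∂P - h * ∫ ω, Y ω / K1 ∂P| ≤ B →
      |∫ ω, Y ω * F ω ∂P - h * ∫ ω, Y ω ∂P| ≤ K1 * B := by
    intro F Y B hB
    have e1 : ∫ ω, (Y ω / K1) * F ω ∂P = (∫ ω, Y ω * F ω ∂P) / K1 := by
      rw [← integral_div]
      congr 1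
      funext ω
      ring
    rw [e1, integral_div] at hB
    have e2 : ∫ ω, Y ω * F ω ∂P - h * ∫ ω, Y ω ∂P =
        K1 * ((∫ ω, Y ω * F ω ∂P) / K1 - h * ((∫ ω, Y ω ∂P) / K1)) := by
      field_simp
    rw [e2, abs_mul, abs_of_pos hK1p]
    exact mul_le_mul_of_nonneg_left hB hK1p.le
  have small : ∀ (g : (Fin n → ℝ) → ℝ), (∀ v, |g v| ≤ K) → ∀ v, |y1 v * g v / K1| ≤ 1 := by
    intro g hg v
    rw [abs_div, abs_of_pos hK1p, div_le_one hK1p, abs_mul]
    have h1 : |y1 v| * |g v| ≤ 1 * K := mul_le_mul (y1a v) (hg v) (abs_nonneg _) zero_le_one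
    linarith only [h1, hK1]
  have d3 : |∫ ω, (y1 (X t ω) * c11 (X t ω)) * dl ω ^ 2 ∂P -
      h * ∫ ω, y1 (X t ω) * c11 (X t ω) ∂P| ≤
      K1 * (Ca * κ * h + Da * (lind β P X t h + h ^ 2)) := by
    refine scale (fun ω => dl ω ^ 2) (fun ω => y1 (X t ω) * c11 (X t ω)) _ ?_
    rw [hdl]
    exact hDa x Ω P X hX D hD t h (fun ω => y1 (X t ω) * c11 (X t ω) / K1) hh
      (cm_F_meas hX t ((my1.mul mc11).div_const K1))
      (fun ω => small c11 (fun v => (bc v).2.2.2.2.1) _)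
  have d4 : |∫ ω, (y1 (X t ω) * c22 (X t ω)) * dr ω ^ 2 ∂P -
      h * ∫ ω, y1 (X t ω) * c22 (X t ω) ∂P| ≤
      K1 * (Cb * κ * h + Db * (lind β P X t h + h ^ 2)) := by
    refine scale (fun ω => dr ω ^ 2) (fun ω => y1 (X t ω) * c22 (X t ω)) _ ?_
    rw [hdr]
    exact hDb x Ω P X hX _ hE t h (fun ω => y1 (X t ω) * c22 (X t ω) / K1) hh
      (cm_F_meas hX t ((my1.mul mc22).div_const K1))
      (fun ω => small c22 (fun v => (bc v).2.2.2.2.2.2) _)
  have d5 : |∫ ω, (y1 (X t ω) * c12 (X t ω)) * (dl ω * dr ω) ∂P| ≤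
      K1 * (Cx * κ * h + Dx * (lind β P X t h + h ^ 2)) := by
    have h1 := hDx x Ω P X hX D _ hD hE t h (fun ω => y1 (X t ω) * c12 (X t ω) / K1) hh
      (cm_F_meas hX t ((my1.mul mc12).div_const K1))
      (fun ω => small c12 (fun v => (bc v).2.2.2.2.2.1) _)
      (fun ω hω => by
        by_contra hc
        apply hω
        have : y1 (X t ω) = 0 := by
          rw [hy1]
          exact if_neg hc
        simp [this])
    have e1 : ∫ ω, (y1 (X t ω) * c12 (X t ω) / K1) *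
        ((D.sup' hD (X (t + h) ω) - D.sup' hD (X t ω)) *
        ((Finset.univ \ D).inf' hE (X (t + h) ω) - (Finset.univ \ D).inf' hE (X t ω))) ∂P =
        (∫ ω, (y1 (X t ω) * c12 (X t ω)) * (dl ω * dr ω) ∂P) / K1 := by
      rw [← integral_div]
      congr 1
      funext ω
      rw [hdl, hdr]
      ring
    rw [e1, abs_div, abs_of_pos hK1p, div_le_iff₀ hK1p] at h1
    linarith
  have d8 : |∫ ω, y2 (X t ω) * dl ω ^ 2 ∂P - h * ∫ ω, y2 (X t ω) ∂P| ≤
      Ca * κ * h + Da * (lind β P X t h + h ^ 2) := by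
    rw [hdl]
    exact hDa x Ω P X hX D hD t h (fun ω => y2 (X t ω)) hh (cm_F_meas hX t my2)
      (fun ω => y2a _)
  have d9 : |∫ ω, y2 (X t ω) * dr ω ^ 2 ∂P - h * ∫ ω, y2 (X t ω) ∂P| ≤
      Cb * κ * h + Db * (lind β P X t h + h ^ 2) := by
    rw [hdr]
    exact hDb x Ω P X hX _ hE t h (fun ω => y2 (X t ω)) hh (cm_F_meas hX t my2)
      (fun ω => y2a _)
  -- integrability
  have Mb : ∀ {g : (Fin n → ℝ) → ℝ}, Measurable g → Measurable (fun ω => g (X t ω)) :=
    fun hg => cm_meas hX t hg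
  have b1 : ∀ v, |y1 v * -c1 v| ≤ K := fun v => by
    have h1 := bc v
    rcases y1v v with e | e <;> rw [e, abs_le] <;> constructor <;> linarith
  have b2 : ∀ v, |y1 v * c2 v| ≤ K := fun v => by
    have h1 := bc v
    rcases y1v v with e | e <;> rw [e, abs_le] <;> constructor <;> linarith
  have b6 : ∀ v, |y2 v * -c1 v| ≤ K := fun v => by
    have h1 := bc v
    rcases y2v v with e | e <;> rw [e, abs_le] <;> constructor <;> linarith
  have b7 : ∀ v, |y2 v * c2 v| ≤ K := fun v => by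
    have h1 := bc v
    rcases y2v v with e | e <;> rw [e, abs_le] <;> constructor <;> linarith
  have b3 : ∀ v, |y1 v * c11 v| ≤ K := fun v => by
    have h1 := (bc v).2.2.2.2.1
    rcases y1v v with e | e <;> rw [e]
    · simpa using hK0
    · simpa using h1
  have b4 : ∀ v, |y1 v * c22 v| ≤ K := fun v => by
    have h1 := (bc v).2.2.2.2.2.2
    rcases y1v v with e | e <;> rw [e]
    · simpa using hK0
    · simpa using h1
  have b5 : ∀ v, |y1 v * c12 v| ≤ K := fun v => by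
    have h1 := (bc v).2.2.2.2.2.1
    rcases y1v v with e | e <;> rw [e]
    · simpa using hK0
    · simpa using h1
  have ib : ∀ {g : (Fin n → ℝ) → ℝ}, Measurable g → (∀ v, |g v| ≤ K) →
      Integrable (fun ω => g (X t ω)) P := by
    intro g hg hb
    refine Integrable.of_bound (Mb hg).aestronglyMeasurable K (ae_of_all _ fun ω => ?_)
    exact hb _
  have iB1' : Integrable (fun ω => y1 (X t ω) * -c1 (X t ω)) P :=
    ib (my1.mul mc1.neg) b1
  have iB1 := HI.of iB1'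
  have iB2' : Integrable (fun ω => y1 (X t ω) * c2 (X t ω)) P :=
    ib (my1.mul mc2) b2
  have iB2 := HI.of iB2'
  have iB3' : Integrable (fun ω => y1 (X t ω) * c11 (X t ω)) P :=
    ib (my1.mul mc11) b3
  have iB3 := HI.of iB3'
  have iB4' : Integrable (fun ω => y1 (X t ω) * c22 (X t ω)) P :=
    ib (my1.mul mc22) b4
  have iB4 := HI.of iB4'
  have iB6' : Integrable (fun ω => y2 (X t ω) * -c1 (X t ω)) P :=
    ib (my2.mul mc1.neg) b6
  have iB6 := HI.of iB6'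
  have iB7' : Integrable (fun ω => y2 (X t ω) * c2 (X t ω)) P :=
    ib (my2.mul mc2) b7
  have iB7 := HI.of iB7'
  have iY2' : Integrable (fun ω => y2 (X t ω)) P := by
    refine Integrable.of_bound (Mb my2).aestronglyMeasurable 1 (ae_of_all _ fun ω => ?_)
    exact y2a _
  have iY2 := HI.of iY2'
  have iT1' : Integrable (fun ω => y1 (X t ω) * -c1 (X t ω) * dl ω) P :=
    cm_bdd (Mb (my1.mul mc1.neg)) (fun ω => b1 (X t ω)) idl
  have iT1 := HI.of iT1'
  have iT2' : Integrable (fun ω => y1 (X t ω) * c2 (X t ω) * dr ω) P :=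
    cm_bdd (Mb (my1.mul mc2)) (fun ω => b2 (X t ω)) idr
  have iT2 := HI.of iT2'
  have iT3' : Integrable (fun ω => y1 (X t ω) * c11 (X t ω) * dl ω ^ 2) P :=
    cm_bdd (Mb (my1.mul mc11)) (fun ω => b3 (X t ω)) idl2
  have iT3 := HI.of iT3'
  have iT4' : Integrable (fun ω => y1 (X t ω) * c22 (X t ω) * dr ω ^ 2) P :=
    cm_bdd (Mb (my1.mul mc22)) (fun ω => b4 (X t ω)) idr2
  have iT4 := HI.of iT4'
  have iT5' : Integrable (fun ω => y1 (X t ω) * c12 (X t ω) * (dl ω * dr ω)) P :=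
    cm_bdd (Mb (my1.mul mc12)) (fun ω => b5 (X t ω)) idd
  have iT5 := HI.of iT5'
  have iT6' : Integrable (fun ω => y2 (X t ω) * -c1 (X t ω) * dl ω) P :=
    cm_bdd (Mb (my2.mul mc1.neg)) (fun ω => b6 (X t ω)) idl
  have iT6 := HI.of iT6'
  have iT7' : Integrable (fun ω => y2 (X t ω) * c2 (X t ω) * dr ω) P :=
    cm_bdd (Mb (my2.mul mc2)) (fun ω => b7 (X t ω)) idr
  have iT7 := HI.of iT7'
  have iT8 := HI.of (cm_bdd (Mb my2) (fun ω => y2a (X t ω)) idl2)
  have iT9 := HI.of (cm_bdd (Mb my2) (fun ω => y2a (X t ω)) idr2)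
  have iR1 := HI.of (irho dl ldl)
  have iR2 := HI.of (irho dr ldr)
  have mFN : Measurable (fun ω => FF f y y' (lo D (X (t + h) ω) y) (hi D (X (t + h) ω) y')) := by
    have h1 : Measurable (fun ω => ((y, y'), (lo D (X (t + h) ω) y, hi D (X (t + h) ω) y'))) :=
      measurable_const.prodMk
        ((cm_meas hX (t + h) (measurable_lo D y)).prodMk (cm_meas hX (t + h) (measurable_hi D y')))
    have h2 := (measurable_FF hf).comp h1
    exact h2
  have iFN := HI.of (P := P) (F := fun ω =>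
    FF f y y' (lo D (X (t + h) ω) y) (hi D (X (t + h) ω) y')) (by
      refine Integrable.of_bound mFN.aestronglyMeasurable 1 (ae_of_all _ fun ω => ?_)
      rw [Real.norm_eq_abs, abs_of_nonneg (cm_FF_nonneg _ _ _ _)]
      exact cm_FF_le_one hf _ _ _ _)
  have main := iFN.add ((((((((((((((((iB2.cmul (h * bm β ν)).sub
    (iB1.cmul (h * bp β ν))).add (iB3.cmul (h / 2))).add (iB4.cmul (h / 2))).add iT1).sub iT2).sub
    (iT3.cmul (1 / 2))).sub iT5).sub (iT4.cmul (1 / 2))).add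
    (HI.const (P := P) (G2 * (h * √h)))).add ((iR1.add iR2).cmul Ce)).add
    (iY2.cmul (Cc * (K + C1) * h))).add iT6).sub iT7).add ((iT8.add iT9).cmul C1)))
  have key := integral_mono_of_nonneg (μ := P) (f := fun ω => (if scut (X t ω) D then
    (∫ z, ∫ z', FF f y y' (lo D (fun i => X t ω i + z) y)
        (hi D (fun i => X t ω i + z') y') ∂(gaussianReal (bm β ν * h) h)
          ∂(gaussianReal (bp β ν * h) h)) else 0)) (ae_of_all _ fun ω => by
      dsimp only [Pi.zero_apply]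
      split_ifs
      · exact integral_nonneg fun z => integral_nonneg fun z' => cm_FF_nonneg _ _ _ _
      · exact le_rfl) main.1 (ae_of_all _ fun ω => by
      dsimp only
      have hlo : lo D (X (t + h) ω) y = D.sup' hD (X t ω) + dl ω := by
        rw [cm_lo hD, hdl]; ring
      have hhi : hi D (X (t + h) ω) y' = (Finset.univ \ D).inf' hE (X t ω) + dr ω := by
        rw [cm_hi hE, hdr]; ring
      rw [hlo, hhi]
      have hF0 := cm_FF_nonneg (f := f) y y' (D.sup' hD (X t ω) + dl ω)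
        ((Finset.univ \ D).inf' hE (X t ω) + dr ω)
      have hN1 : 0 ≤ G2 * (h * √h) := mul_nonneg hG2p hS0
      have hN2 : 0 ≤ Ce * (rho (dl ω) + rho (dr ω)) :=
        mul_nonneg hCe0 (add_nonneg (cm_rho_nonneg _) (cm_rho_nonneg _))
      by_cases hs : scut (X t ω) D
      · rw [if_pos hs]
        have hlt := (cm_scut hD hE _).1 hs
        simp only [cm_lo hD, cm_hi hE, cm_lo_add, cm_hi_add]
        have hmφ : Measurable (fun z : ℝ × ℝ => FF f y y' (D.sup' hD (X t ω) + z.1)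
            ((Finset.univ \ D).inf' hE (X t ω) + z.2)) := by
          have h1 : Measurable (fun z : ℝ × ℝ => ((y, y'), (D.sup' hD (X t ω) + z.1,
              (Finset.univ \ D).inf' hE (X t ω) + z.2))) :=
            measurable_const.prodMk ((measurable_fst.const_add _).prodMk
              (measurable_snd.const_add _))
          have h2 := (measurable_FF hf).comp h1
          exact h2
        have hbc := bc (X t ω)
        by_cases hη' : η ≤ (Finset.univ \ D).inf' hE (X t ω) - D.sup' hD (X t ω)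
        · have e1' : y1 (X t ω) = 1 := by rw [hy1]; exact if_pos hη'
          have e2' : y2 (X t ω) = 0 := by
            rw [hy2]; exact if_neg (fun hc => by linarith [hc.2])
          have hT := fun δ δ' => hCe y y' (D.sup' hD (X t ω)) ((Finset.univ \ D).inf' hE (X t ω))
            δ δ' hη'
          have hg := hCg (fun z z' => FF f y y' (D.sup' hD (X t ω) + z)
            ((Finset.univ \ D).inf' hE (X t ω) + z')) (FF f y y' (D.sup' hD (X t ω))
            ((Finset.univ \ D).inf' hE (X t ω))) (c1 (X t ω)) (c2 (X t ω)) (c11 (X t ω))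
            (c12 (X t ω)) (c22 (X t ω)) K Ce h hh hmφ hK0 hCe0
            (abs_le.2 ⟨hbc.1, by linarith [hbc.2.1]⟩)
            (abs_le.2 ⟨by linarith [hbc.2.2.1], hbc.2.2.2.1⟩) hbc.2.2.2.2.1 hbc.2.2.2.2.2.1
            hbc.2.2.2.2.2.2 (fun δ δ' => by rw [hc1, hc2, hc11, hc12, hc22]; exact hT δ δ')
          have hT2 := (abs_le.1 (hT (dl ω) (dr ω))).1
          have hg2 := (abs_le.1 hg).2
          have v1 : e1 f y y' (D.sup' hD (X t ω)) ((Finset.univ \ D).inf' hE (X t ω)) =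
            c1 (X t ω) := by rw [hc1]
          have v2 : e2 f y y' (D.sup' hD (X t ω)) ((Finset.univ \ D).inf' hE (X t ω)) =
            c2 (X t ω) := by rw [hc2]
          have v11 : e11 f y y' (D.sup' hD (X t ω)) ((Finset.univ \ D).inf' hE (X t ω)) =
            c11 (X t ω) := by rw [hc11]
          have v12 : e12 f y y' (D.sup' hD (X t ω)) ((Finset.univ \ D).inf' hE (X t ω)) =
            c12 (X t ω) := by rw [hc12]
          have v22 : e22 f y y' (D.sup' hD (X t ω)) ((Finset.univ \ D).inf' hE (X t ω)) =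
            c22 (X t ω) := by rw [hc22]
          rw [v1, v2, v11, v12, v22] at hT2
          rw [e1', e2', hG2]
          linarith only [hg2, hT2]
        · have e1' : y1 (X t ω) = 0 := by rw [hy1]; exact if_neg hη'
          have e2' : y2 (X t ω) = 1 := by
            rw [hy2]; exact if_pos ⟨hlt, not_le.1 hη'⟩
          have hT := fun δ δ' => hC1 y y' (D.sup' hD (X t ω)) ((Finset.univ \ D).inf' hE (X t ω))
            δ δ' hlt
          have hg := hCc (fun z z' => FF f y y' (D.sup' hD (X t ω) + z)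
            ((Finset.univ \ D).inf' hE (X t ω) + z')) (FF f y y' (D.sup' hD (X t ω))
            ((Finset.univ \ D).inf' hE (X t ω))) (c1 (X t ω)) (c2 (X t ω)) K C1 h hh hmφ hK0 hC10
            (abs_le.2 ⟨hbc.1, by linarith [hbc.2.1]⟩)
            (abs_le.2 ⟨by linarith [hbc.2.2.1], hbc.2.2.2.1⟩)
            (fun δ δ' => by rw [hc1, hc2]; exact hT δ δ')
          have hT2 := (abs_le.1 (hT (dl ω) (dr ω))).1
          have hg2 := (abs_le.1 hg).2
          have v1 : e1 f y y' (D.sup' hD (X t ω)) ((Finset.univ \ D).inf' hE (X t ω)) =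
            c1 (X t ω) := by rw [hc1]
          have v2 : e2 f y y' (D.sup' hD (X t ω)) ((Finset.univ \ D).inf' hE (X t ω)) =
            c2 (X t ω) := by rw [hc2]
          rw [v1, v2] at hT2
          rw [e1', e2']
          linarith only [hg2, hT2, hN1, hN2]
      · rw [if_neg hs]
        have hlt : ¬ D.sup' hD (X t ω) < (Finset.univ \ D).inf' hE (X t ω) :=
          fun hc => hs ((cm_scut hD hE _).2 hc)
        have e1' : y1 (X t ω) = 0 := by
          rw [hy1]; exact if_neg (fun hc => hlt (by linarith))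
        have e2' : y2 (X t ω) = 0 := by rw [hy2]; exact if_neg (fun hc => hlt hc.1)
        rw [e1', e2']
        linarith only [hF0, hN1, hN2])
  rw [main.2] at key
  refine key.trans ?_
  have hpi : ∫ ω, y2 (X t ω) ∂P =
      P.real {ω | scut (X t ω) D ∧ hi D (X t ω) 0 - lo D (X t ω) 0 < η} := by
    have hSm : MeasurableSet {ω | scut (X t ω) D ∧ hi D (X t ω) 0 - lo D (X t ω) 0 < η} := by
      have h1 : MeasurableSet {v : Fin n → ℝ | scut v D ∧ hi D v 0 - lo D v 0 < η} :=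
        (measurable_scut D).inter (measurableSet_lt ((measurable_hi D 0).sub (measurable_lo D 0))
          measurable_const)
      exact (hX.meas t).measurable h1
    rw [← integral_indicator_one hSm]
    congr 1
    funext ω
    by_cases hc : scut (X t ω) D ∧ hi D (X t ω) 0 - lo D (X t ω) 0 < η
    · rw [Set.indicator_of_mem (show ω ∈ {ω | scut (X t ω) D ∧
        hi D (X t ω) 0 - lo D (X t ω) 0 < η} from hc), hy2]
      rw [cm_lo hD, cm_hi hE, cm_scut hD hE] at hc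
      exact if_pos hc
    · rw [Set.indicator_of_notMem (show ω ∉ {ω | scut (X t ω) D ∧
        hi D (X t ω) 0 - lo D (X t ω) 0 < η} from hc), hy2]
      rw [cm_lo hD, cm_hi hE, cm_scut hD hE] at hc
      exact if_neg hc
  rw [← hpi]
  have hpi0 : 0 ≤ ∫ ω, y2 (X t ω) ∂P := integral_nonneg fun ω => y2n _
  have hB6a : 0 ≤ ∫ ω, y2 (X t ω) * -c1 (X t ω) ∂P :=
    integral_nonneg fun ω => mul_nonneg (y2n _) (by linarith [(bc (X t ω)).2.1])
  have hB6b : ∫ ω, y2 (X t ω) * -c1 (X t ω) ∂P ≤ K * ∫ ω, y2 (X t ω) ∂P := by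
    rw [← integral_const_mul]
    refine integral_mono iB6.1 (iY2'.const_mul K) fun ω => ?_
    dsimp only
    have h1 : -c1 (X t ω) ≤ K := by linarith only [(bc (X t ω)).1]
    exact (mul_le_mul_of_nonneg_left h1 (y2n _)).trans_eq (mul_comm _ _)
  have hB7a : 0 ≤ ∫ ω, y2 (X t ω) * c2 (X t ω) ∂P :=
    integral_nonneg fun ω => mul_nonneg (y2n _) (bc (X t ω)).2.2.1
  have hB7b : ∫ ω, y2 (X t ω) * c2 (X t ω) ∂P ≤ K * ∫ ω, y2 (X t ω) ∂P := by
    rw [← integral_const_mul]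
    refine integral_mono iB7.1 (iY2'.const_mul K) fun ω => ?_
    dsimp only
    exact (mul_le_mul_of_nonneg_left (bc (X t ω)).2.2.2.1 (y2n _)).trans_eq (mul_comm _ _)
  clear key main iFN mFN
  have q6 : bp β ν * h * ∫ ω, y2 (X t ω) * -c1 (X t ω) ∂P ≤
      |bp β ν| * h * (K * ∫ ω, y2 (X t ω) ∂P) := by
    have u1 : bp β ν * h ≤ |bp β ν| * h := mul_le_mul_of_nonneg_right (le_abs_self _) hh0
    have u2 : 0 ≤ |bp β ν| * h := by positivity
    exact (mul_le_mul_of_nonneg_right u1 hB6a).trans (mul_le_mul_of_nonneg_left hB6b u2)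
  have q7 : -(bm β ν * h * ∫ ω, y2 (X t ω) * c2 (X t ω) ∂P) ≤
      |bm β ν| * h * (K * ∫ ω, y2 (X t ω) ∂P) := by
    have u1 : -bm β ν * h ≤ |bm β ν| * h := mul_le_mul_of_nonneg_right (neg_le_abs _) hh0
    have u2 : 0 ≤ |bm β ν| * h := by positivity
    have u3 := (mul_le_mul_of_nonneg_right u1 hB7a).trans (mul_le_mul_of_nonneg_left hB7b u2)
    linarith
  obtain ⟨Lh, hLh⟩ : ∃ Lh : ℝ, Lh = lind β P X t h + h ^ 2 := ⟨_, rfl⟩
  rw [← hLh] at d3 d4 d5 d8 d9
  obtain ⟨S, hS⟩ : ∃ S : ℝ, S = h * √h := ⟨_, rfl⟩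
  rw [← hS] at hRl hRr hhs hS0
  rw [← hS]
  obtain ⟨L, hL⟩ : ∃ L : ℝ, L = lind β P X t h := ⟨_, rfl⟩
  rw [← hL] at hRl hRr hLh hL0
  rw [← hL]
  have hLhS : Lh ≤ L + S := by linarith
  have hLh0 : 0 ≤ Lh := by rw [hLh]; positivity
  have r3 := (abs_le.1 d3).1
  have r4 := (abs_le.1 d4).1
  have r5 := (abs_le.1 d5).1
  have r8 := (abs_le.1 d8).2
  have r9 := (abs_le.1 d9).2
  exact cm_final hh0 hκ.le hC10 hCe0 hCa0 hCb0 hDa0 hDb0 hK1p.le (by positivity) hA1 hA2 hA1p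
    hA2p hG1 hG3 hG1p hG2p hL0 hS0 hLh0 hLhS hpi0 d1 d2 d6 d7 q6 q7 r3 r4 r5 r8 r9 hRl hRr

end Pool.Agent.TH996.HW
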