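import Mathlib

/-!
# Howitt–Warren flows (MP_b213bc_pr): definitions
-/

open MeasureTheory ProbabilityTheory Filter
open scoped NNReal ENNReal Topology

namespace Pool.Agent.TH996.HW

/-- `β₊(m)`: `β₊(1) = β` and `β₊(m) = β + 2 ∫ ν(dq) ∑_{k=0}^{m-2} (1-q)^k` for `m ≥ 2`. -/
noncomputable def betaPlus (β : ℝ) (ν : Measure ℝ) (m : ℕ) : ℝ :=
  β + 2 * ∫ q, ∑ k ∈ Finset.range (m - 1), (1 - q) ^ k ∂ν

/-- `f_Δ(x) = max_{i ∈ Δ} x_i`. -/
noncomputable def fmax {n : ℕ} (Δ : Finset (Fin n)) (hΔ : Δ.Nonempty) (x : Fin n → ℝ) : ℝ :=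
  Δ.sup' hΔ x

/-- `g_Δ(x) = |{i ∈ Δ : x_i = f_Δ(x)}|`. -/
noncomputable def gmax {n : ℕ} (Δ : Finset (Fin n)) (hΔ : Δ.Nonempty) (x : Fin n → ℝ) : ℕ :=
  (Δ.filter (fun i => x i = fmax Δ hΔ x)).card

/-- `X` solves the Howitt–Warren martingale problem with drift `β` and characteristic measure `ν`,
started from `x`: it is continuous and square-integrable, `⟨X_i, X_j⟩(t) = ∫₀ᵗ 1_{X_i(s) = X_j(s)} ds`
(the process `X_i(t) - β t` is a martingale by `maxMart` for `Δ = {i}`, so this says that the product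
of two of these minus the bracket is a martingale), and
`f_Δ(X(t)) - ∫₀ᵗ β₊(g_Δ(X(s))) ds` is a martingale for every nonempty `Δ`, all for the natural
filtration of `X`. -/
structure IsHWMotion (β : ℝ) (ν : Measure ℝ) {n : ℕ} (x : Fin n → ℝ) {Ω : Type}
    [MeasurableSpace Ω] (P : Measure Ω) (X : ℝ≥0 → Ω → (Fin n → ℝ)) : Prop where
  meas : ∀ t, StronglyMeasurable (X t)
  cont : ∀ ω, Continuous (fun t => X t ω)
  init : ∀ᵐ ω ∂P, X 0 ω = x
  sq : ∀ t i, MemLp (fun ω => X t ω i) 2 P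
  bracket : ∀ i j, Martingale (fun (t : ℝ≥0) ω => (X t ω i - β * t) * (X t ω j - β * t) -
      ∫ s in (0 : ℝ)..t, if X s.toNNReal ω i = X s.toNNReal ω j then (1 : ℝ) else 0)
      (Filtration.natural X meas) P
  maxMart : ∀ (Δ : Finset (Fin n)) (hΔ : Δ.Nonempty),
    Martingale (fun (t : ℝ≥0) ω => fmax Δ hΔ (X t ω) -
      ∫ s in (0 : ℝ)..t, betaPlus β ν (gmax Δ hΔ (X s.toNNReal ω)))
      (Filtration.natural X meas) P

/-- A Howitt–Warren flow with drift `β` and characteristic measure `ν`: a stochastic flow of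
kernels on `ℝ` whose `n`-point motions solve the Howitt–Warren martingale problem. -/
structure IsHWFlow (β : ℝ) (ν : Measure ℝ) {Ω : Type} [MeasurableSpace Ω] (P : Measure Ω)
    (K : ℝ → ℝ → Ω → ℝ → Measure ℝ) : Prop where
  /-- `K_{s,t}` is a random probability kernel -/
  prob : ∀ s t, s ≤ t → ∀ ω x, IsProbabilityMeasure (K s t ω x)
  meas : ∀ s t, s ≤ t → ∀ A : Set ℝ, MeasurableSet A →
    Measurable (fun p : Ω × ℝ => K s t p.1 p.2 A)
  /-- (i) -/
  diag : ∀ s x, ∀ᵐ ω ∂P, K s s ω x = Measure.dirac x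
  comp : ∀ s t u, s ≤ t → t ≤ u → ∀ x, ∀ᵐ ω ∂P, ∀ A : Set ℝ, MeasurableSet A →
    ∫⁻ y, K t u ω y A ∂(K s t ω x) = K s u ω x A
  /-- (ii) kernels attached to successive disjoint time intervals are independent -/
  indep : ∀ (m : ℕ) (t : ℕ → ℝ), Monotone t →
    iIndep (fun i : Fin m => ⨆ (x : ℝ) (A : {A : Set ℝ // MeasurableSet A}),
      MeasurableSpace.comap (fun ω => K (t i) (t (i + 1)) ω x A) inferInstance) P
  /-- (iii) `K_{s,t}` and `K_{s+u,t+u}` have the same finite-dimensional distributions -/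
  stat : ∀ s t u, s ≤ t → ∀ (m : ℕ) (x : Fin m → ℝ) (A : Fin m → Set ℝ),
    (∀ i, MeasurableSet (A i)) →
    P.map (fun ω i => K s t ω (x i) (A i)) = P.map (fun ω i => K (s + u) (t + u) ω (x i) (A i))
  /-- the `n`-point motions solve the Howitt–Warren martingale problem -/
  motion : ∀ (n : ℕ) (x : Fin n → ℝ), ∃ (Ω' : Type) (_ : MeasurableSpace Ω') (P' : Measure Ω')
    (_ : IsProbabilityMeasure P') (X : ℝ≥0 → Ω' → (Fin n → ℝ)), IsHWMotion β ν x P' X ∧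
      ∀ (t : ℝ≥0) (A : Fin n → Set ℝ), (∀ i, MeasurableSet (A i)) →
        P' {ω | ∀ i, X t ω i ∈ A i} = ∫⁻ ω, ∏ i, K 0 t ω (x i) (A i) ∂P

/-- `(-log κ_t - c t) / (σ t^{1/3})` converges in distribution to the law `μ` on `ℝ` as `t → ∞`
(`κ_t ∈ [0,1]` random, `-log 0 = +∞`): the distribution functions converge at every point at which
the limit distribution function is continuous. -/
def ScalesTo {Ω : Type} [MeasurableSpace Ω] (P : Measure Ω) (κ : ℝ → Ω → ℝ≥0∞) (c σ : ℝ)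
    (μ : Measure ℝ) : Prop :=
  ∀ s : ℝ, μ {s} = 0 →
    Tendsto (fun t : ℝ => P {ω | (-(ENNReal.log (κ t ω)) - ((c * t : ℝ) : EReal)) /
      ((σ * t ^ (1 / 3 : ℝ) : ℝ) : EReal) ≤ (s : EReal)}) atTop (𝓝 (μ (Set.Iic s)))

end Pool.Agent.TH996.HW
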