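import Pool.Agent.TH996.HW.Fun

/-!
# A dual functional (MP_b213bc_pr)

`(A, L)` is a pair of independent random variables, `A` with density `f(a - y)`, `L` with density
`f(y' - l)`, where `f` is a bump on `[-1, 0]`; so `A ∈ [y - 1, y]` and `L ∈ [y', y' + 1]`. For a
configuration `v` of particles, `UU` is the probability that `A < L` and that some particle is
in `[A, L]`.
-/

open MeasureTheory ProbabilityTheory Filter
open scoped NNReal ENNReal Topology

namespace Pool.Agent.TH996.HW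

/-- speed of the right edge -/
noncomputable def bp (β : ℝ) (ν : Measure ℝ) : ℝ := β + 2 * ∫ q, 1 / q ∂ν

/-- speed of the left edge -/
noncomputable def bm (β : ℝ) (ν : Measure ℝ) : ℝ := β - 2 * ∫ q, 1 / (1 - q) ∂ν

/-- a smooth probability density supported in `[-1, 0]` -/
structure Bump (f : ℝ → ℝ) : Prop where
  smooth : ContDiff ℝ 3 f
  nonneg : ∀ x, 0 ≤ f x
  supp : ∀ x, f x ≠ 0 → -1 ≤ x ∧ x ≤ 0
  int : ∫ x, f x = 1

/-- law of `(A, L)` -/
noncomputable def dm (f : ℝ → ℝ) (y y' : ℝ) : Measure (ℝ × ℝ) :=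
  volume.withDensity (fun z => ENNReal.ofReal (f (z.1 - y) * f (y' - z.2)))

/-- `P(A < L)` -/
noncomputable def cc (f : ℝ → ℝ) (y y' : ℝ) : ℝ := (dm f y y').real {z | z.1 < z.2}

/-- `P(p < A < L < p')` -/
noncomputable def FF (f : ℝ → ℝ) (y y' p p' : ℝ) : ℝ :=
  (dm f y y').real {z | p < z.1 ∧ z.1 < z.2 ∧ z.2 < p'}

/-- `∂FF/∂p` -/
noncomputable def e1 (f : ℝ → ℝ) (y y' p p' : ℝ) : ℝ :=
  if p < p' then -(f (p - y) * ∫ l in p..p', f (y' - l)) else 0

/-- `∂FF/∂p'` -/
noncomputable def e2 (f : ℝ → ℝ) (y y' p p' : ℝ) : ℝ :=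
  if p < p' then f (y' - p') * ∫ a in p..p', f (a - y) else 0

/-- `∂²FF/∂p²` -/
noncomputable def e11 (f : ℝ → ℝ) (y y' p p' : ℝ) : ℝ :=
  if p < p' then -(deriv f (p - y) * ∫ l in p..p', f (y' - l)) + f (p - y) * f (y' - p) else 0

/-- `∂²FF/∂p∂p'` -/
noncomputable def e12 (f : ℝ → ℝ) (y y' p p' : ℝ) : ℝ :=
  if p < p' then -(f (p - y) * f (y' - p')) else 0

/-- `∂²FF/∂p'²` -/
noncomputable def e22 (f : ℝ → ℝ) (y y' p p' : ℝ) : ℝ :=
  if p < p' then -(deriv f (y' - p') * ∫ a in p..p', f (a - y)) + f (y' - p') * f (p' - y) else 0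

variable {n : ℕ}

/-- `P(A < L, some particle is in [A, L])` -/
noncomputable def UU (f : ℝ → ℝ) (y y' : ℝ) (v : Fin n → ℝ) : ℝ :=
  (dm f y y').real {z | z.1 < z.2 ∧ ∃ i, z.1 ≤ v i ∧ v i ≤ z.2}

open Classical in
/-- largest position in `D` (left of the support of `A` if `D` is empty) -/
noncomputable def lo (D : Finset (Fin n)) (v : Fin n → ℝ) (y : ℝ) : ℝ :=
  if h : D.Nonempty then D.sup' h v else y - 2

open Classical in
/-- smallest position outside `D` (right of the support of `L` if there is none) -/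
noncomputable def hi (D : Finset (Fin n)) (v : Fin n → ℝ) (y' : ℝ) : ℝ :=
  if h : (Finset.univ \ D).Nonempty then (Finset.univ \ D).inf' h v else y' + 2

/-- the particles in `D` are strictly left of the others -/
def scut (v : Fin n → ℝ) (D : Finset (Fin n)) : Prop := ∀ i ∈ D, ∀ j ∉ D, v i < v j

open Classical in
/-- number of gaps smaller than `η` -/
noncomputable def rr (η : ℝ) (v : Fin n → ℝ) : ℝ :=
  ∑ D : Finset (Fin n), if D.Nonempty ∧ (Finset.univ \ D).Nonempty ∧ scut v D ∧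
    hi D v 0 - lo D v 0 < η then (1 : ℝ) else 0

/-- sum of the truncated third moments of the increments on `[t, t+h]` -/
noncomputable def lind (β : ℝ) {Ω : Type} [MeasurableSpace Ω] (P : Measure Ω)
    (X : ℝ≥0 → Ω → (Fin n → ℝ)) (t h : ℝ≥0) : ℝ :=
  ∑ i, ∫ ω, rho ((X (t + h) ω i - β * (t + h)) - (X t ω i - β * t)) ∂P

/-- average over independent Gaussian displacements of the two end points -/
noncomputable def TT (β : ℝ) (ν : Measure ℝ) (s : ℝ≥0) (φ : ℝ → ℝ → ℝ) (y y' : ℝ) : ℝ :=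
  ∫ x, ∫ x', φ (y - x) (y' - x') ∂(gaussianReal (bm β ν * s) s) ∂(gaussianReal (bp β ν * s) s)

end Pool.Agent.TH996.HW
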