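import Pool.Agent.TH996.HW.Defs

/-!
# Functionals of the positions of the particles (MP_b213bc_pr)
-/

open MeasureTheory ProbabilityTheory Filter
open scoped NNReal ENNReal Topology

namespace Pool.Agent.TH996.HW

/-- the difference `2 ∫ ν(dq)/(q(1-q))` of the two edge speeds -/
noncomputable def bb (ν : Measure ℝ) : ℝ :=
  2 * (∫⁻ q, (ENNReal.ofReal (q * (1 - q)))⁻¹ ∂ν).toReal

/-- standing assumptions on the characteristic measure -/
structure GoodNu (ν : Measure ℝ) : Prop where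
  fin : IsFiniteMeasure ν
  supp : ν (Set.Icc 0 1)ᶜ = 0
  int : ∫⁻ q, (ENNReal.ofReal (q * (1 - q)))⁻¹ ∂ν < ∞

variable {n : ℕ}

open Classical in
/-- maximum minus minimum over `Δ` -/
noncomputable def span (Δ : Finset (Fin n)) (u : Fin n → ℝ) : ℝ :=
  if h : Δ.Nonempty then Δ.sup' h u - Δ.inf' h u else 0

/-- `i` is the smallest index of its cluster -/
def rep (u : Fin n → ℝ) (i : Fin n) : Prop := ∀ k < i, u k ≠ u i

/-- `i`, `j` represent two consecutive clusters -/
def adj (u : Fin n → ℝ) (i j : Fin n) : Prop :=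
  rep u i ∧ rep u j ∧ u i < u j ∧ ∀ k, ¬ (u i < u k ∧ u k < u j)

/-- `Δ` is a cluster -/
def clus (u : Fin n → ℝ) (Δ : Finset (Fin n)) : Prop := ∃ i, ∀ k, k ∈ Δ ↔ u k = u i

/-- `φ(w) = (1 - e^{-l w})/l` -/
noncomputable def phi (l w : ℝ) : ℝ := (1 - Real.exp (-(l * w))) / l

open Classical in
/-- number of distinct positions -/
noncomputable def NN (u : Fin n → ℝ) : ℝ := ∑ i, if rep u i then (1 : ℝ) else 0

open Classical in
/-- sum over consecutive clusters -/
noncomputable def SA (ψ : ℝ → ℝ) (u : Fin n → ℝ) : ℝ :=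
  ∑ i, ∑ j, if adj u i j then ψ (u j - u i) else 0

/-- the Lyapunov function -/
noncomputable def HH (l : ℝ) (u : Fin n → ℝ) : ℝ := 1 / l + SA (phi l) u

/-- `min (x², |x|³)` -/
noncomputable def rho (x : ℝ) : ℝ := min (x ^ 2) (|x| ^ 3)

open Classical in
/-- `-l e^{-l w}` for `w ≥ η`, and `4 ν([0,1])` for `w < η` -/
noncomputable def psi (l : ℝ) (ν : Measure ℝ) (η w : ℝ) : ℝ :=
  if η ≤ w then -(l * Real.exp (-(l * w))) else 4 * ν.real Set.univ

end Pool.Agent.TH996.HW
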