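import Pool.Agent.TH996.HW.Dual

/-!
# The Gaussian semigroup TT (MP_b213bc_pr)
-/

set_option autoImplicit false

open MeasureTheory ProbabilityTheory Filter
open scoped NNReal ENNReal Topology

namespace Pool.Agent.TH996.HW

variable {n : ℕ} {f : ℝ → ℝ}

section aux

lemma Gauss_smeas1 (μ' : Measure ℝ) [SFinite μ'] {φ : ℝ → ℝ → ℝ}
    (hφ : Measurable (fun z : ℝ × ℝ => φ z.1 z.2)) :
    StronglyMeasurable (fun p : (ℝ × ℝ) × ℝ => ∫ x', φ (p.1.1 - p.2) (p.1.2 - x') ∂μ') := by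
  have h : StronglyMeasurable
      (fun q : ((ℝ × ℝ) × ℝ) × ℝ => φ (q.1.1.1 - q.1.2) (q.1.1.2 - q.2)) :=
    (hφ.comp (by fun_prop : Measurable
      (fun q : ((ℝ × ℝ) × ℝ) × ℝ => (q.1.1.1 - q.1.2, q.1.1.2 - q.2)))).stronglyMeasurable
  exact h.integral_prod_right'

lemma Gauss_int_in (μ' : Measure ℝ) [IsProbabilityMeasure μ'] {φ : ℝ → ℝ → ℝ}
    (hφ : Measurable (fun z : ℝ × ℝ => φ z.1 z.2)) {B : ℝ} (hB : ∀ y y', |φ y y'| ≤ B)
    (x y' : ℝ) : Integrable (fun x' => φ x (y' - x')) μ' := by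
  refine Integrable.of_bound ?_ B (ae_of_all _ fun x' => ?_)
  · exact (hφ.comp (by fun_prop : Measurable (fun x' : ℝ => (x, y' - x')))).aestronglyMeasurable
  · rw [Real.norm_eq_abs]; exact hB _ _

lemma Gauss_bound (μ' : Measure ℝ) [IsProbabilityMeasure μ'] {F : ℝ → ℝ} {B : ℝ}
    (hB : ∀ y, |F y| ≤ B) : |∫ x, F x ∂μ'| ≤ B := by
  have h := norm_integral_le_of_norm_le_const (μ := μ') (f := F) (C := B)
    (ae_of_all _ fun x => by rw [Real.norm_eq_abs]; exact hB x)
  rw [Real.norm_eq_abs] at h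
  simpa using h

lemma Gauss_int_out (μ μ' : Measure ℝ) [IsProbabilityMeasure μ] [IsProbabilityMeasure μ']
    {φ : ℝ → ℝ → ℝ}
    (hφ : Measurable (fun z : ℝ × ℝ => φ z.1 z.2)) {B : ℝ} (hB : ∀ y y', |φ y y'| ≤ B)
    (y y' : ℝ) : Integrable (fun x => ∫ x', φ (y - x) (y' - x') ∂μ') μ := by
  refine Integrable.of_bound ?_ B (ae_of_all _ fun x => ?_)
  · have h := (Gauss_smeas1 μ' hφ).measurable.comp
      (by fun_prop : Measurable (fun x : ℝ => ((y, y'), x)))
    exact h.aestronglyMeasurable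
  · rw [Real.norm_eq_abs]; exact Gauss_bound μ' fun _ => hB _ _

lemma Gauss_conv_int {μ ν : Measure ℝ} [IsProbabilityMeasure μ] [IsProbabilityMeasure ν]
    {F : ℝ → ℝ} (hF : Measurable F) {B : ℝ} (hB : ∀ x, |F x| ≤ B) :
    ∫ x, F x ∂(μ ∗ ν) = ∫ x, ∫ u, F (x + u) ∂ν ∂μ := by
  rw [Measure.conv, integral_map (by fun_prop) hF.aestronglyMeasurable, integral_prod]
  refine Integrable.of_bound ?_ B (ae_of_all _ fun x => ?_)
  · exact (hF.comp (by fun_prop : Measurable (fun z : ℝ × ℝ => z.1 + z.2))).aestronglyMeasurable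
  · rw [Real.norm_eq_abs]; exact hB _

lemma Gauss_add (b : ℝ) (s h : ℝ≥0) : gaussianReal (b * ((s + h : ℝ≥0) : ℝ)) (s + h) =
    (gaussianReal (b * s) s) ∗ (gaussianReal (b * h) h) := by
  rw [gaussianReal_conv_gaussianReal]
  congr 1
  push_cast
  ring

lemma Gauss_std (b : ℝ) (s : ℝ≥0) :
    gaussianReal b s = (gaussianReal 0 1).map (fun z => √(s : ℝ) * z + b) := by
  have h1 : (gaussianReal 0 1).map (fun z => √(s : ℝ) * z) = gaussianReal 0 s := by
    rw [gaussianReal_map_const_mul]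
    congr 1
    · simp
    · ext
      simp
  have h2 := gaussianReal_map_add_const (μ := 0) (v := s) b
  rw [← h1, Measure.map_map (by fun_prop) (by fun_prop), zero_add] at h2
  exact h2.symm

end aux

theorem TT_zero (β : ℝ) (ν : Measure ℝ) (φ : ℝ → ℝ → ℝ) (y y' : ℝ) :
    TT β ν 0 φ y y' = φ y y' := by
  simp [TT, gaussianReal_zero_var, integral_dirac]

theorem TT_meas (β : ℝ) (ν : Measure ℝ) (s : ℝ≥0) {φ : ℝ → ℝ → ℝ}
    (hφ : Measurable (fun z : ℝ × ℝ => φ z.1 z.2)) :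
    Measurable (fun z : ℝ × ℝ => TT β ν s φ z.1 z.2) := by
  unfold TT
  exact (Gauss_smeas1 _ hφ).integral_prod_right'.measurable

theorem TT_mono (β : ℝ) (ν : Measure ℝ) (s : ℝ≥0) {φ ψ : ℝ → ℝ → ℝ}
    (hφ : Measurable (fun z : ℝ × ℝ => φ z.1 z.2)) (hψ : Measurable (fun z : ℝ × ℝ => ψ z.1 z.2))
    {B : ℝ} (hφB : ∀ y y', |φ y y'| ≤ B) (hψB : ∀ y y', |ψ y y'| ≤ B)
    (h : ∀ y y', φ y y' ≤ ψ y y') (y y' : ℝ) : TT β ν s φ y y' ≤ TT β ν s ψ y y' := by
  unfold TT
  refine integral_mono (Gauss_int_out _ _ hφ hφB y y') (Gauss_int_out _ _ hψ hψB y y') fun x => ?_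
  exact integral_mono (Gauss_int_in _ hφ hφB _ y') (Gauss_int_in _ hψ hψB _ y') fun x' => h _ _

theorem TT_add_const (β : ℝ) (ν : Measure ℝ) (s : ℝ≥0) {φ : ℝ → ℝ → ℝ}
    (hφ : Measurable (fun z : ℝ × ℝ => φ z.1 z.2)) {B : ℝ} (hφB : ∀ y y', |φ y y'| ≤ B)
    (c y y' : ℝ) : TT β ν s (fun a b => φ a b + c) y y' = TT β ν s φ y y' + c := by
  unfold TT
  have h1 : ∀ x : ℝ, ∫ x', (φ (y - x) (y' - x') + c) ∂(gaussianReal (bm β ν * s) s) =
      ∫ x', φ (y - x) (y' - x') ∂(gaussianReal (bm β ν * s) s) + c := by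
    intro x
    rw [integral_add (Gauss_int_in _ hφ hφB _ y') (integrable_const c)]
    simp
  simp_rw [h1]
  rw [integral_add (Gauss_int_out _ _ hφ hφB y y') (integrable_const c)]
  simp

theorem TT_semigroup (β : ℝ) (ν : Measure ℝ) (s h : ℝ≥0) {φ : ℝ → ℝ → ℝ}
    (hφ : Measurable (fun z : ℝ × ℝ => φ z.1 z.2)) {B : ℝ} (hφB : ∀ y y', |φ y y'| ≤ B)
    (y y' : ℝ) : TT β ν s (TT β ν h φ) y y' = TT β ν (s + h) φ y y' := by
  unfold TT
  rw [Gauss_add, Gauss_add]
  have hG : Measurable (fun x => ∫ x', φ (y - x) (y' - x')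
      ∂((gaussianReal (bm β ν * s) s) ∗ (gaussianReal (bm β ν * h) h))) :=
    (Gauss_smeas1 _ hφ).measurable.comp (by fun_prop : Measurable (fun x : ℝ => ((y, y'), x)))
  rw [Gauss_conv_int hG (B := B) (fun x => Gauss_bound _ fun _ => hφB _ _)]
  refine integral_congr_ae (ae_of_all _ fun x => ?_)
  have hin : ∀ u : ℝ, ∫ x', φ (y - (x + u)) (y' - x')
      ∂((gaussianReal (bm β ν * s) s) ∗ (gaussianReal (bm β ν * h) h)) =
      ∫ x', ∫ u', φ (y - x - u) (y' - x' - u') ∂(gaussianReal (bm β ν * h) h)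
        ∂(gaussianReal (bm β ν * s) s) := by
    intro u
    rw [Gauss_conv_int (F := fun x' => φ (y - (x + u)) (y' - x')) (B := B)
      (hφ.comp (by fun_prop : Measurable (fun x' : ℝ => (y - (x + u), y' - x'))))
      (fun x' => hφB _ _)]
    simp_rw [sub_sub]
  simp only [hin]
  refine integral_integral_swap
    (f := fun x' u => ∫ u', φ (y - x - u) (y' - x' - u') ∂(gaussianReal (bm β ν * h) h)) ?_
  refine Integrable.of_bound ?_ B (ae_of_all _ fun z => ?_)
  · have h1 := (Gauss_smeas1 (gaussianReal (bm β ν * h) h) hφ).measurable.comp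
      (by fun_prop : Measurable (fun z : ℝ × ℝ => ((y - x, y' - z.1), z.2)))
    exact h1.aestronglyMeasurable
  · rw [Real.norm_eq_abs]
    exact Gauss_bound _ fun _ => hφB _ _

section cc

lemma Gauss_lint (hf : Bump f) : ∫⁻ a, ENNReal.ofReal (f a) = 1 := by
  have hi : Integrable f := by
    by_contra h
    have := integral_undef h
    rw [hf.int] at this
    exact one_ne_zero this
  rw [← ofReal_integral_eq_lintegral_ofReal hi (ae_of_all _ hf.nonneg), hf.int]
  simp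

lemma Gauss_dm_univ (hf : Bump f) (y y' : ℝ) : dm f y y' Set.univ = 1 := by
  unfold dm
  rw [withDensity_apply _ MeasurableSet.univ, Measure.restrict_univ]
  have hc : Continuous f := hf.smooth.continuous
  have h1 : ∀ z : ℝ × ℝ, ENNReal.ofReal (f (z.1 - y) * f (y' - z.2)) =
      ENNReal.ofReal (f (z.1 - y)) * ENNReal.ofReal (f (y' - z.2)) := fun z =>
    ENNReal.ofReal_mul (hf.nonneg _)
  simp_rw [h1]
  rw [Measure.volume_eq_prod]
  rw [lintegral_prod_mul (f := fun a => ENNReal.ofReal (f (a - y)))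
    (g := fun l => ENNReal.ofReal (f (y' - l)))
    (by fun_prop) (by fun_prop)]
  rw [lintegral_sub_right_eq_self (fun a => ENNReal.ofReal (f a)) y,
    lintegral_sub_left_eq_self (fun a => ENNReal.ofReal (f a)) y', Gauss_lint hf, one_mul]

lemma Gauss_cc_le (hf : Bump f) (y y' : ℝ) : cc f y y' ≤ 1 := by
  have hp : IsProbabilityMeasure (dm f y y') := ⟨Gauss_dm_univ hf y y'⟩
  exact measureReal_le_one

lemma Gauss_cc_zero (hf : Bump f) {y y' : ℝ} (h : y' + 1 ≤ y - 1) : cc f y y' = 0 := by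
  have hS : MeasurableSet {z : ℝ × ℝ | z.1 < z.2} := measurableSet_lt measurable_fst measurable_snd
  have h0 : dm f y y' {z | z.1 < z.2} = 0 := by
    unfold dm
    rw [withDensity_apply _ hS]
    rw [setLIntegral_congr_fun (g := fun _ => 0) hS ?_]
    · simp
    · intro z hz
      have hz' : z.1 < z.2 := hz
      simp only [ENNReal.ofReal_eq_zero]
      have : f (z.1 - y) * f (y' - z.2) = 0 := by
        by_contra hne
        have h1 := hf.supp _ (left_ne_zero_of_mul hne)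
        have h2 := hf.supp _ (right_ne_zero_of_mul hne)
        linarith [h1.1, h2.1]
      rw [this]
  unfold cc
  rw [measureReal_def, h0]
  simp

lemma Gauss_pos_Ici (M : ℝ) : 0 < (gaussianReal 0 1).real (Set.Ici M) := by
  rw [measureReal_def, ENNReal.toReal_pos_iff]
  refine ⟨?_, measure_lt_top _ _⟩
  rw [pos_iff_ne_zero]
  intro h0
  have h1 := gaussianReal_absolutelyContinuous' 0 (one_ne_zero : (1 : ℝ≥0) ≠ 0) h0
  simp at h1

lemma Gauss_pos_Iic (M : ℝ) : 0 < (gaussianReal 0 1).real (Set.Iic M) := by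
  rw [measureReal_def, ENNReal.toReal_pos_iff]
  refine ⟨?_, measure_lt_top _ _⟩
  rw [pos_iff_ne_zero]
  intro h0
  have h1 := gaussianReal_absolutelyContinuous' 0 (one_ne_zero : (1 : ℝ≥0) ≠ 0) h0
  simp at h1

lemma Gauss_sqrt {s : ℝ≥0} (hs : 1 / 2 ≤ s) : (1 : ℝ) / 2 ≤ √(s : ℝ) := by
  apply Real.le_sqrt_of_sq_le
  have h1 : ((1 / 2 : ℝ≥0) : ℝ) ≤ s := by exact_mod_cast hs
  push_cast at h1
  norm_num at h1 ⊢
  linarith

lemma Gauss_lb_Ici (b : ℝ) {s : ℝ≥0} (hs : 1 / 2 ≤ s) (hs1 : s ≤ 1) :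
    (gaussianReal 0 1).real (Set.Ici (3 * (|b| + 2))) ≤
      (gaussianReal (b * s) s).real (Set.Ici (3 / 2)) := by
  rw [Gauss_std (b * s) s, map_measureReal_apply (by fun_prop) measurableSet_Ici]
  refine measureReal_mono ?_ (measure_ne_top _ _)
  intro z hz
  have hz' : 3 * (|b| + 2) ≤ z := hz
  simp only [Set.mem_preimage, Set.mem_Ici]
  have h1 := Gauss_sqrt hs
  have h2 : (s : ℝ) ≤ 1 := by exact_mod_cast hs1
  have h3 : (0 : ℝ) ≤ s := s.2
  have h4 : -|b| ≤ b * s := by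
    have : |b * s| ≤ |b| := by
      rw [abs_mul, abs_of_nonneg h3]
      exact mul_le_of_le_one_right (abs_nonneg b) h2
    linarith [neg_abs_le (b * (s : ℝ))]
  have hb := abs_nonneg b
  have h5 : 1 / 2 * z ≤ √(s : ℝ) * z := mul_le_mul_of_nonneg_right h1 (by linarith)
  linarith

lemma Gauss_lb_Iic (b : ℝ) {s : ℝ≥0} (hs : 1 / 2 ≤ s) (hs1 : s ≤ 1) :
    (gaussianReal 0 1).real (Set.Iic (-(3 * (|b| + 2)))) ≤
      (gaussianReal (b * s) s).real (Set.Iic (-(3 / 2))) := by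
  rw [Gauss_std (b * s) s, map_measureReal_apply (by fun_prop) measurableSet_Iic]
  refine measureReal_mono ?_ (measure_ne_top _ _)
  intro z hz
  have hz' : z ≤ -(3 * (|b| + 2)) := hz
  simp only [Set.mem_preimage, Set.mem_Iic]
  have h1 := Gauss_sqrt hs
  have h2 : (s : ℝ) ≤ 1 := by exact_mod_cast hs1
  have h3 : (0 : ℝ) ≤ s := s.2
  have h4 : b * s ≤ |b| := by
    have : |b * s| ≤ |b| := by
      rw [abs_mul, abs_of_nonneg h3]
      exact mul_le_of_le_one_right (abs_nonneg b) h2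
    linarith [le_abs_self (b * (s : ℝ))]
  have hb := abs_nonneg b
  have h5 : 1 / 2 * (-z) ≤ √(s : ℝ) * (-z) := mul_le_mul_of_nonneg_right h1 (by linarith)
  linarith

end cc

theorem TT_cc (hf : Bump f) (β : ℝ) (ν : Measure ℝ) : ∃ δ : ℝ, 0 < δ ∧ ∀ (s : ℝ≥0) (y : ℝ),
    1 / 2 ≤ s → s ≤ 1 → TT β ν s (cc f) y (y + 1) ≤ 1 - δ := by
  set p1 := (gaussianReal 0 1).real (Set.Iic (-(3 * (|bp β ν| + 2)))) with hp1
  set p2 := (gaussianReal 0 1).real (Set.Ici (3 * (|bm β ν| + 2))) with hp2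
  have h1 : 0 < p1 := Gauss_pos_Iic _
  have h2 : 0 < p2 := Gauss_pos_Ici _
  refine ⟨p1 * p2, mul_pos h1 h2, fun s y hs hs1 => ?_⟩
  unfold TT
  set γ := gaussianReal (bp β ν * s) s with hγ
  set γ' := gaussianReal (bm β ν * s) s with hγ'
  have g1 : p1 ≤ γ.real (Set.Iic (-(3 / 2))) := Gauss_lb_Iic _ hs hs1
  have g2 : p2 ≤ γ'.real (Set.Ici (3 / 2)) := Gauss_lb_Ici _ hs hs1
  set A : Set ℝ := Set.Iic (-(3 / 2)) with hA
  set B : Set ℝ := Set.Ici (3 / 2) with hB
  have hAm : MeasurableSet A := measurableSet_Iic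
  have hBm : MeasurableSet B := measurableSet_Ici
  have hintB : Integrable (B.indicator (fun _ => (1 : ℝ))) γ' :=
    (integrable_const (1 : ℝ)).indicator hBm
  have hintA : Integrable (A.indicator (fun _ => (1 : ℝ))) γ :=
    (integrable_const (1 : ℝ)).indicator hAm
  have hpt : ∀ x x' : ℝ, cc f (y - x) (y + 1 - x') ≤
      1 - A.indicator (fun _ => (1 : ℝ)) x * B.indicator (fun _ => (1 : ℝ)) x' := by
    intro x x'
    by_cases hx : x ∈ A
    · by_cases hx' : x' ∈ B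
      · rw [Set.indicator_of_mem hx, Set.indicator_of_mem hx']
        have e1 : x ≤ -(3 / 2) := hx
        have e2 : 3 / 2 ≤ x' := hx'
        rw [Gauss_cc_zero hf (by linarith)]
        norm_num
      · rw [Set.indicator_of_notMem hx']
        have := Gauss_cc_le hf (y - x) (y + 1 - x')
        linarith
    · rw [Set.indicator_of_notMem hx]
      have := Gauss_cc_le hf (y - x) (y + 1 - x')
      linarith
  have hin : ∀ x : ℝ, ∫ x', cc f (y - x) (y + 1 - x') ∂γ' ≤
      1 - A.indicator (fun _ => (1 : ℝ)) x * γ'.real B := by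
    intro x
    have e1 : ∫ x', (1 - A.indicator (fun _ => (1 : ℝ)) x * B.indicator (fun _ => (1 : ℝ)) x') ∂γ' =
        1 - A.indicator (fun _ => (1 : ℝ)) x * γ'.real B := by
      rw [integral_sub (integrable_const _) (hintB.const_mul _), integral_const_mul,
        integral_indicator_const _ hBm]
      simp
    rw [← e1]
    refine integral_mono_of_nonneg (ae_of_all _ fun x' => measureReal_nonneg) ?_
      (ae_of_all _ fun x' => hpt x x')
    exact (integrable_const _).sub (hintB.const_mul _)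
  have hout : ∫ x, ∫ x', cc f (y - x) (y + 1 - x') ∂γ' ∂γ ≤ 1 - γ.real A * γ'.real B := by
    have e1 : ∫ x, (1 - A.indicator (fun _ => (1 : ℝ)) x * γ'.real B) ∂γ =
        1 - γ.real A * γ'.real B := by
      rw [integral_sub (integrable_const _) (hintA.mul_const _), integral_mul_const,
        integral_indicator_const _ hAm]
      simp
    rw [← e1]
    refine integral_mono_of_nonneg (ae_of_all _ fun x => integral_nonneg fun x' => measureReal_nonneg)
      ?_ (ae_of_all _ fun x => hin x)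
    exact (integrable_const _).sub (hintA.mul_const _)
  have h3 : p1 * p2 ≤ γ.real A * γ'.real B := mul_le_mul g1 g2 h2.le measureReal_nonneg
  linarith

end Pool.Agent.TH996.HW
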