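import Pool.Agent.TH996.HW.Dual

open MeasureTheory ProbabilityTheory Filter
open scoped NNReal ENNReal Topology

namespace Pool.Agent.TH996.HW

/-- the sum over one residue class -/
lemma iter_sum {Λ : ℝ → ℝ} {E : ℝ → ℝ → ℝ} {a c C : ℝ} (hC : 0 ≤ C)
    (hstep : ∀ t h, a ≤ t → 0 < h → t + h ≤ a + 1 → Λ (t + h) ≤ Λ t + E t h)
    (hstart : ∀ t, a ≤ t → t ≤ a + 1 / 2 → Λ t ≤ c)
    (hE1 : ∀ t h, a ≤ t → 0 < h → h ≤ 1 → E t h ≤ C * h)
    (m : ℕ) (hm : 1 ≤ m) (h θ : ℝ) (hh : h = 1 / (m + 1)) (hθ : 0 < θ) (hθh : θ ≤ h) :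
    Λ (a + 1) ≤ c + C * h + ∑ k ∈ Finset.range m, E (a + θ + k * h) h := by
  have hm' : (1 : ℝ) ≤ m := by exact_mod_cast hm
  have hpos : 0 < h := by rw [hh]; positivity
  have hmh : (m + 1 : ℝ) * h = 1 := by rw [hh]; field_simp
  have hh2 : h ≤ 1 / 2 := by
    rw [hh]
    exact one_div_le_one_div_of_le (by norm_num) (by linarith)
  have key : ∀ j : ℕ, j ≤ m → Λ (a + θ + j * h) ≤
      c + ∑ k ∈ Finset.range j, E (a + θ + k * h) h := by
    intro j
    induction j with
    | zero =>
      intro _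
      simp only [Nat.cast_zero, zero_mul, add_zero, Finset.range_zero, Finset.sum_empty]
      exact hstart _ (by linarith) (by linarith)
    | succ j ih =>
      intro hj
      have h1 := ih (by omega)
      have hjm : (j : ℝ) + 1 ≤ m := by exact_mod_cast hj
      have hjh : ((j : ℝ) + 1) * h ≤ m * h := mul_le_mul_of_nonneg_right hjm hpos.le
      have h2 := hstep (a + θ + j * h) h (by
        have : 0 ≤ (j : ℝ) * h := by positivity
        linarith) hpos (by nlinarith)
      rw [Finset.sum_range_succ]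
      have e : a + θ + ((j + 1 : ℕ) : ℝ) * h = a + θ + j * h + h := by push_cast; ring
      rw [e]
      linarith
  have h1 := key m le_rfl
  have hmh0 : 0 ≤ (m : ℝ) * h := by positivity
  rcases eq_or_lt_of_le hθh with he | hlt
  · have e : a + θ + m * h = a + 1 := by rw [he]; linarith
    rw [e] at h1
    have : 0 ≤ C * h := by positivity
    linarith
  · have h2 := hstep (a + θ + m * h) (h - θ) (by linarith) (by linarith) (by linarith)
    have e : a + θ + m * h + (h - θ) = a + 1 := by linarith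
    rw [e] at h2
    have h3 := hE1 (a + θ + m * h) (h - θ) (by linarith) (by linarith) (by linarith)
    have h4 : C * (h - θ) ≤ C * h := mul_le_mul_of_nonneg_left (by linarith) hC
    linarith

theorem iter {Λ : ℝ → ℝ} {E : ℝ → ℝ → ℝ} {a c C : ℝ} (hC : 0 ≤ C)
    (hstep : ∀ t h, a ≤ t → 0 < h → t + h ≤ a + 1 → Λ (t + h) ≤ Λ t + E t h)
    (hstart : ∀ t, a ≤ t → t ≤ a + 1 / 2 → Λ t ≤ c) (hE0 : ∀ t h, 0 ≤ E t h)
    (hE1 : ∀ t h, a ≤ t → 0 < h → h ≤ 1 → E t h ≤ C * h) (hmeas : ∀ h, Measurable fun t => E t h)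
    (m : ℕ) (hm : 1 ≤ m) :
    Λ (a + 1) ≤ c + C / (m + 1) + ((m : ℝ) + 1) * ∫ t in a..a + 1, E t (1 / (m + 1)) := by
  obtain ⟨h, hh⟩ : ∃ h : ℝ, h = 1 / (m + 1) := ⟨_, rfl⟩
  have hpos : 0 < h := by rw [hh]; positivity
  have hmh : (m + 1 : ℝ) * h = 1 := by rw [hh]; field_simp
  have hh1 : h ≤ 1 := by
    have hm0 : (0 : ℝ) ≤ m := Nat.cast_nonneg m
    nlinarith
  rw [← hh]
  -- integrability
  have hint : ∀ u v : ℝ, a ≤ u → a ≤ v → IntervalIntegrable (fun t => E t h) volume u v := by
    intro u v hu hv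
    refine IntervalIntegrable.mono_fun' (g := fun _ => C * h) intervalIntegrable_const
      (hmeas h).aestronglyMeasurable ?_
    refine (ae_restrict_iff' measurableSet_uIoc).2 (Eventually.of_forall (fun t ht => ?_))
    show ‖E t h‖ ≤ C * h
    rw [Real.norm_of_nonneg (hE0 t h)]
    refine hE1 t h ?_ hpos hh1
    have := (Set.mem_uIoc.1 ht)
    rcases this with h1 | h1 <;> linarith [h1.1]
  -- sum of the shifted integrals
  have hshift : ∀ k : ℕ, ∫ θ in (0 : ℝ)..h, E (a + θ + k * h) h =
      ∫ t in (a + k * h)..(a + (k + 1 : ℕ) * h), E t h := by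
    intro k
    have e1 := intervalIntegral.integral_comp_add_right (a := (0 : ℝ)) (b := h)
      (fun t => E t h) (a + k * h)
    have e2 : (fun θ : ℝ => E (a + θ + k * h) h) = fun θ => E (θ + (a + k * h)) h := by
      funext θ; congr 1; ring
    rw [e2, e1]
    congr 1
    · ring
    · push_cast; ring
  have hkint : ∀ k : ℕ, IntervalIntegrable (fun θ => E (a + θ + k * h) h) volume 0 h := by
    intro k
    refine IntervalIntegrable.mono_fun' (g := fun _ => C * h) intervalIntegrable_const
      ?_ ?_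
    · refine Measurable.aestronglyMeasurable ?_
      exact (hmeas h).comp ((measurable_const.add measurable_id).add_const _)
    · refine (ae_restrict_iff' measurableSet_uIoc).2 (Eventually.of_forall (fun t ht => ?_))
      show ‖E (a + t + k * h) h‖ ≤ C * h
      rw [Real.norm_of_nonneg (hE0 _ h)]
      refine hE1 _ h ?_ hpos hh1
      rw [Set.uIoc_of_le hpos.le] at ht
      have : 0 ≤ (k : ℝ) * h := by positivity
      linarith [ht.1]
  have hsum : ∫ θ in (0 : ℝ)..h, ∑ k ∈ Finset.range m, E (a + θ + k * h) h =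
      ∫ t in a..(a + m * h), E t h := by
    rw [intervalIntegral.integral_finsetSum (fun k _ => hkint k)]
    rw [Finset.sum_congr rfl (fun k _ => hshift k)]
    have := intervalIntegral.sum_integral_adjacent_intervals (μ := volume)
      (f := fun t => E t h) (a := fun k : ℕ => a + k * h) (n := m)
      (fun k _ => hint _ _ (by
        have : 0 ≤ (k : ℝ) * h := by positivity
        linarith) (by
        have : 0 ≤ ((k + 1 : ℕ) : ℝ) * h := by positivity
        linarith))
    rw [this]
    simp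
  have hle : ∫ t in a..(a + m * h), E t h ≤ ∫ t in a..(a + 1), E t h := by
    have hmh0 : 0 ≤ (m : ℝ) * h := by positivity
    rw [← intervalIntegral.integral_add_adjacent_intervals
      (hint a (a + m * h) le_rfl (by linarith)) (hint (a + m * h) (a + 1) (by linarith)
        (by linarith))]
    have : 0 ≤ ∫ t in (a + m * h)..(a + 1), E t h :=
      intervalIntegral.integral_nonneg (by linarith) (fun t _ => hE0 t h)
    linarith
  by_contra hcon
  push Not at hcon
  have hlow : ∀ θ ∈ Set.Ioc (0 : ℝ) h, ((m : ℝ) + 1) * ∫ t in a..a + 1, E t h <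
      ∑ k ∈ Finset.range m, E (a + θ + k * h) h := by
    intro θ hθ
    have h1 := iter_sum hC hstep hstart hE1 m hm h θ hh hθ.1 hθ.2
    have e : C / (m + 1) = C * h := by rw [hh]; ring
    rw [e] at hcon
    linarith
  have hSint : IntervalIntegrable (fun θ => ∑ k ∈ Finset.range m, E (a + θ + k * h) h)
      volume 0 h := by
    have := IntervalIntegrable.sum (Finset.range m) (fun k _ => hkint k)
    refine this.congr ?_
    intro θ _
    simp
  have hlt : ∫ _θ in (0 : ℝ)..h, ((m : ℝ) + 1) * ∫ t in a..a + 1, E t h <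
      ∫ θ in (0 : ℝ)..h, ∑ k ∈ Finset.range m, E (a + θ + k * h) h := by
    refine intervalIntegral.integral_lt_integral_of_ae_le_of_measure_setOfPred_lt_ne_zero hpos.le
      intervalIntegrable_const hSint ?_ ?_
    · refine (ae_restrict_iff' measurableSet_Ioc).2 (Eventually.of_forall (fun θ hθ => ?_))
      exact (hlow θ hθ).le
    · intro h0
      have hsub : Set.Ioc (0 : ℝ) h ⊆ {θ | ((m : ℝ) + 1) * ∫ t in a..a + 1, E t h <
          ∑ k ∈ Finset.range m, E (a + θ + k * h) h} := fun θ hθ => hlow θ hθ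
      have h1 : (volume.restrict (Set.Ioc (0 : ℝ) h)) (Set.Ioc (0 : ℝ) h) = 0 :=
        measure_mono_null hsub h0
      rw [Measure.restrict_apply_self, Real.volume_Ioc] at h1
      have : h - 0 ≤ 0 := ENNReal.ofReal_eq_zero.1 h1
      linarith
  rw [hsum, intervalIntegral.integral_const, smul_eq_mul, sub_zero] at hlt
  have e : h * (((m : ℝ) + 1) * ∫ t in a..a + 1, E t h) = ∫ t in a..a + 1, E t h := by
    rw [← mul_assoc, mul_comm h, hmh, one_mul]
  rw [e] at hlt
  linarith

end Pool.Agent.TH996.HW
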