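import Pool.Agent.TH996.HW.Dual

/-!
# The Lindeberg condition from the continuity of the paths
(job J996-HW-K of helper996, written by helper643)
-/

set_option autoImplicit false

open MeasureTheory ProbabilityTheory Filter
open scoped NNReal ENNReal Topology

namespace Pool.Agent.TH996.HW

variable {n : ℕ}
variable {β : ℝ} {ν : Measure ℝ} {x : Fin n → ℝ} {Ω : Type} [MeasurableSpace Ω]
  {P : Measure Ω} {X : ℝ≥0 → Ω → (Fin n → ℝ)}

namespace Lindeberg

/-- the compensated coordinate -/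
noncomputable def MM (β : ℝ) (X : ℝ≥0 → Ω → (Fin n → ℝ)) (i : Fin n) (t : ℝ≥0) (ω : Ω) : ℝ :=
  X t ω i - β * t

theorem mart (hX : IsHWMotion β ν x P X) (i : Fin n) :
    Martingale (MM β X i) (Filtration.natural X hX.meas) P := by
  have h := hX.maxMart {i} (Finset.singleton_nonempty i)
  have h1 : ∀ y : Fin n → ℝ, fmax {i} (Finset.singleton_nonempty i) y = y i := by
    intro y
    simp [fmax]
  have h2 : ∀ y : Fin n → ℝ, gmax {i} (Finset.singleton_nonempty i) y = 1 := by
    intro y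
    unfold gmax
    rw [h1, Finset.filter_singleton, if_pos rfl, Finset.card_singleton]
  have h3 : betaPlus β ν 1 = β := by
    simp [betaPlus]
  simp only [h1, h2, h3] at h
  have e : (fun (t : ℝ≥0) ω => X t ω i - ∫ _s in (0 : ℝ)..t, β) = MM β X i := by
    funext t ω
    rw [intervalIntegral.integral_const, sub_zero, smul_eq_mul, mul_comm]
    rfl
  rwa [e] at h

theorem sqmart (hX : IsHWMotion β ν x P X) (i : Fin n) :
    Martingale (fun (t : ℝ≥0) ω => MM β X i t ω ^ 2 - (t : ℝ))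
      (Filtration.natural X hX.meas) P := by
  have h := hX.bracket i i
  have e : (fun (t : ℝ≥0) ω => (X t ω i - β * t) * (X t ω i - β * t) -
      ∫ s in (0 : ℝ)..t, if X s.toNNReal ω i = X s.toNNReal ω i then (1 : ℝ) else 0) =
      fun (t : ℝ≥0) ω => MM β X i t ω ^ 2 - (t : ℝ) := by
    funext t ω
    simp only [if_true]
    rw [intervalIntegral.integral_const, sub_zero, smul_eq_mul, mul_one]
    unfold MM
    ring
  rwa [e] at h

theorem memLp [IsProbabilityMeasure P] (hX : IsHWMotion β ν x P X) (i : Fin n) (t : ℝ≥0) :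
    MemLp (MM β X i t) 2 P := (hX.sq t i).sub (memLp_const _)

theorem int_sq [IsProbabilityMeasure P] (hX : IsHWMotion β ν x P X) (i : Fin n) (t : ℝ≥0) :
    Integrable (fun ω => MM β X i t ω ^ 2) P := (memLp hX i t).integrable_sq

theorem int_inc [IsProbabilityMeasure P] (hX : IsHWMotion β ν x P X) (i : Fin n) (s t : ℝ≥0) :
    Integrable (fun ω => (MM β X i t ω - MM β X i s ω) ^ 2) P :=
  ((memLp hX i t).sub (memLp hX i s)).integrable_sq

/-- difference of the second moments on an event of the past -/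
theorem sq_diff [IsProbabilityMeasure P] (hX : IsHWMotion β ν x P X) (i : Fin n) {s t : ℝ≥0}
    (hst : s ≤ t) {B : Set Ω} (hB : MeasurableSet[Filtration.natural X hX.meas s] B) :
    ∫ ω in B, MM β X i t ω ^ 2 ∂P - ∫ ω in B, MM β X i s ω ^ 2 ∂P =
      ((t : ℝ) - s) * P.real B := by
  have h := (sqmart hX i).setIntegral_eq hst hB
  rw [integral_sub (int_sq hX i s).integrableOn (integrable_const _),
    integral_sub (int_sq hX i t).integrableOn (integrable_const _), setIntegral_const,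
    setIntegral_const, smul_eq_mul, smul_eq_mul] at h
  linarith

/-- the martingale property against the past -/
theorem cross [IsProbabilityMeasure P] (hX : IsHWMotion β ν x P X) (i : Fin n) {s t : ℝ≥0}
    (hst : s ≤ t) {B : Set Ω} (hB : MeasurableSet[Filtration.natural X hX.meas s] B) :
    ∫ ω in B, MM β X i s ω * (MM β X i t ω - MM β X i s ω) ∂P = 0 := by
  have hm := mart hX i
  have hint : Integrable (MM β X i s * (MM β X i t - MM β X i s)) P :=
    (memLp hX i s).integrable_mul ((memLp hX i t).sub (memLp hX i s))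
  have hint2 : Integrable (MM β X i t - MM β X i s) P := (hm.integrable t).sub (hm.integrable s)
  have h1 := condExp_mul_of_stronglyMeasurable_left (μ := P)
    (m := Filtration.natural X hX.meas s) (hm.1 s) hint hint2
  have h2 : P[MM β X i t - MM β X i s | Filtration.natural X hX.meas s] =ᵐ[P] 0 := by
    have h3 := condExp_sub (hm.integrable t) (hm.integrable s) (Filtration.natural X hX.meas s)
    filter_upwards [h3, hm.2 s t hst, hm.2 s s le_rfl] with ω g1 g2 g3
    rw [g1, Pi.sub_apply, g2, g3, sub_self]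
    rfl
  have h4 : ∫ ω in B, (MM β X i s * (MM β X i t - MM β X i s)) ω ∂P = 0 := by
    rw [← setIntegral_condExp ((Filtration.natural X hX.meas).le s) hint hB]
    have h5 : P[MM β X i s * (MM β X i t - MM β X i s) | Filtration.natural X hX.meas s]
        =ᵐ[P] 0 := by
      filter_upwards [h1, h2] with ω g1 g2
      rw [g1, Pi.mul_apply, g2]
      simp
    rw [setIntegral_congr_ae (g := fun _ => (0 : ℝ)) ((Filtration.natural X hX.meas).le s B hB)
      (by filter_upwards [h5] with ω g _ using g)]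
    simp
  exact h4

theorem inc_sq [IsProbabilityMeasure P] (hX : IsHWMotion β ν x P X) (i : Fin n) {s t : ℝ≥0}
    (hst : s ≤ t) {B : Set Ω} (hB : MeasurableSet[Filtration.natural X hX.meas s] B) :
    ∫ ω in B, (MM β X i t ω - MM β X i s ω) ^ 2 ∂P = ((t : ℝ) - s) * P.real B := by
  rw [← sq_diff hX i hst hB]
  have hint : Integrable (MM β X i s * (MM β X i t - MM β X i s)) P :=
    (memLp hX i s).integrable_mul ((memLp hX i t).sub (memLp hX i s))
  have hint' : Integrable (fun ω => MM β X i s ω * (MM β X i t ω - MM β X i s ω)) P := hint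
  have e : ∀ ω, (MM β X i t ω - MM β X i s ω) ^ 2 =
      (MM β X i t ω ^ 2 - MM β X i s ω ^ 2) -
        2 * (MM β X i s ω * (MM β X i t ω - MM β X i s ω)) := by
    intro ω
    ring
  have hi1 : Integrable (fun ω => MM β X i t ω ^ 2 - MM β X i s ω ^ 2) P :=
    (int_sq hX i t).sub (int_sq hX i s)
  simp_rw [e]
  rw [integral_sub hi1.integrableOn
    (hint'.const_mul 2).integrableOn, integral_const_mul, cross hX i hst hB, mul_zero, sub_zero,
    integral_sub (int_sq hX i t).integrableOn (int_sq hX i s).integrableOn]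

/-- sums over disjoint sets -/
theorem sum_le {K : ℕ} {C : ℕ → Set Ω} {D : Set Ω} (hC : ∀ k < K, MeasurableSet (C k))
    (hsub : ∀ k < K, C k ⊆ D)
    (hdis : ∀ j k, j < k → k < K → Disjoint (C j) (C k)) {g : Ω → ℝ} (hg : Integrable g P)
    (h0 : ∀ ω, 0 ≤ g ω) : ∑ k ∈ Finset.range K, ∫ ω in C k, g ω ∂P ≤ ∫ ω in D, g ω ∂P := by
  rw [← integral_biUnion_finset (Finset.range K) (fun k hk => hC k (Finset.mem_range.1 hk)) ?_
    (fun k _ => hg.integrableOn)]
  · apply setIntegral_mono_set hg.integrableOn (ae_of_all _ h0)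
    apply LE.le.eventuallyLE
    intro ω hω
    simp only [Set.mem_iUnion, Finset.mem_range] at hω
    obtain ⟨k, hk, h⟩ := hω
    exact hsub k hk h
  · intro j hj k hk hjk
    have hj' := Finset.mem_range.1 hj
    have hk' := Finset.mem_range.1 hk
    rcases lt_or_gt_of_ne hjk with h | h
    · exact hdis j k h hk'
    · exact (hdis k j h hj').symm

theorem disc [IsProbabilityMeasure P] (hX : IsHWMotion β ν x P X) (i : Fin n) {K : ℕ}
    {t : ℕ → ℝ≥0} (ht : Monotone t) {T : ℝ≥0} (hT : t K ≤ T) {ε R : ℝ}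
    {D S : Set Ω}
    (h1 : ∀ k < K, ∀ ω, ε < |MM β X i (t (k + 1)) ω - MM β X i (t k) ω| → ω ∈ D)
    (h2 : ∀ k ≤ K, ∀ ω, R < |MM β X i (t k) ω| → ω ∈ S) :
    ∑ k ∈ Finset.range K, ∫ ω in {ω | ε < |MM β X i (t (k + 1)) ω - MM β X i (t k) ω|},
      (MM β X i (t (k + 1)) ω - MM β X i (t k) ω) ^ 2 ∂P ≤
      ((t K : ℝ) - t 0) * (P.real D + P.real S) +
        ∫ ω in D, (2 * MM β X i T ω ^ 2 + 2 * R ^ 2) ∂P := by
  have hm := mart hX i
  have hME : ∀ j k, j + 1 ≤ k → MeasurableSet[Filtration.natural X hX.meas (t k)]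
      {ω | ε < |MM β X i (t (j + 1)) ω - MM β X i (t j) ω|} := by
    intro j k hjk
    have g1 : StronglyMeasurable[Filtration.natural X hX.meas (t k)] (MM β X i (t (j + 1))) :=
      (hm.1 (t (j + 1))).mono ((Filtration.natural X hX.meas).mono (ht hjk))
    have g2 : StronglyMeasurable[Filtration.natural X hX.meas (t k)] (MM β X i (t j)) :=
      (hm.1 (t j)).mono ((Filtration.natural X hX.meas).mono (ht (by omega)))
    exact StronglyMeasurable.measurableSet_lt stronglyMeasurable_const (g1.sub g2).norm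
  have hMR : ∀ j k, j ≤ k → MeasurableSet[Filtration.natural X hX.meas (t k)]
      {ω | R < |MM β X i (t j) ω|} := by
    intro j k hjk
    have g2 : StronglyMeasurable[Filtration.natural X hX.meas (t k)] (MM β X i (t j)) :=
      (hm.1 (t j)).mono ((Filtration.natural X hX.meas).mono (ht hjk))
    exact StronglyMeasurable.measurableSet_lt stronglyMeasurable_const g2.norm
  obtain ⟨E, hE⟩ : ∃ E : ℕ → Set Ω, E = fun k =>
    {ω | ε < |MM β X i (t (k + 1)) ω - MM β X i (t k) ω|} := ⟨_, rfl⟩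
  obtain ⟨B, hB⟩ : ∃ B : ℕ → Set Ω, B = fun k =>
    (⋃ j : ℕ, ⋃ _ : j < k, E j) ∪ ⋃ j : ℕ, ⋃ _ : j ≤ k, {ω | R < |MM β X i (t j) ω|} := ⟨_, rfl⟩
  have hEm : ∀ j k, j + 1 ≤ k → MeasurableSet[Filtration.natural X hX.meas (t k)] (E j) := by
    intro j k hjk
    rw [hE]
    exact hME j k hjk
  have hBm : ∀ k, MeasurableSet[Filtration.natural X hX.meas (t k)] (B k) := by
    intro k
    rw [hB]
    refine MeasurableSet.union ?_ ?_
    · exact MeasurableSet.iUnion fun j => MeasurableSet.iUnion fun hj => hEm j k hj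
    · exact MeasurableSet.iUnion fun j => MeasurableSet.iUnion fun hj => hMR j k hj
  have hle : ∀ k, Filtration.natural X hX.meas (t k) ≤ (inferInstance : MeasurableSpace Ω) :=
    fun k => (Filtration.natural X hX.meas).le (t k)
  have hCm : ∀ k, MeasurableSet[Filtration.natural X hX.meas (t (k + 1))] (E k \ B k) := by
    intro k
    refine (hEm k (k + 1) le_rfl).diff ?_
    exact (Filtration.natural X hX.meas).mono (ht (Nat.le_succ k)) _ (hBm k)
  have hBsub : ∀ k < K, B k ⊆ D ∪ S := by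
    intro k hk ω hω
    rw [hB] at hω
    rcases hω with hω | hω
    · simp only [Set.mem_iUnion] at hω
      obtain ⟨j, hj, h⟩ := hω
      rw [hE] at h
      exact Or.inl (h1 j (by omega) ω h)
    · simp only [Set.mem_iUnion] at hω
      obtain ⟨j, hj, h⟩ := hω
      exact Or.inr (h2 j (by omega) ω h)
  have hg : Integrable (fun ω => 2 * MM β X i T ω ^ 2 + 2 * R ^ 2) P :=
    ((int_sq hX i T).const_mul 2).add (integrable_const _)
  have hstep : ∀ k ∈ Finset.range K, ∫ ω in {ω | ε < |MM β X i (t (k + 1)) ω -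
      MM β X i (t k) ω|}, (MM β X i (t (k + 1)) ω - MM β X i (t k) ω) ^ 2 ∂P ≤
      ((t (k + 1) : ℝ) - t k) * (P.real D + P.real S) +
        ∫ ω in E k \ B k, (2 * MM β X i T ω ^ 2 + 2 * R ^ 2) ∂P := by
    intro k hk
    have hkK := Finset.mem_range.1 hk
    have hi := int_inc hX i (t k) (t (k + 1))
    have hBk : MeasurableSet (B k) := hle k _ (hBm k)
    have e1 : ∫ ω in E k, (MM β X i (t (k + 1)) ω - MM β X i (t k) ω) ^ 2 ∂P =
        ∫ ω in E k ∩ B k, (MM β X i (t (k + 1)) ω - MM β X i (t k) ω) ^ 2 ∂P +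
        ∫ ω in E k \ B k, (MM β X i (t (k + 1)) ω - MM β X i (t k) ω) ^ 2 ∂P :=
      (integral_inter_add_sdiff hBk hi.integrableOn).symm
    have e2 : ∫ ω in {ω | ε < |MM β X i (t (k + 1)) ω - MM β X i (t k) ω|},
        (MM β X i (t (k + 1)) ω - MM β X i (t k) ω) ^ 2 ∂P =
        ∫ ω in E k, (MM β X i (t (k + 1)) ω - MM β X i (t k) ω) ^ 2 ∂P := by rw [hE]
    rw [e2, e1]
    have hdt : (0 : ℝ) ≤ (t (k + 1) : ℝ) - t k := by
      have : t k ≤ t (k + 1) := ht (Nat.le_succ k)
      have : (t k : ℝ) ≤ t (k + 1) := by exact_mod_cast this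
      linarith
    refine add_le_add ?_ ?_
    · calc ∫ ω in E k ∩ B k, (MM β X i (t (k + 1)) ω - MM β X i (t k) ω) ^ 2 ∂P ≤
            ∫ ω in B k, (MM β X i (t (k + 1)) ω - MM β X i (t k) ω) ^ 2 ∂P :=
            setIntegral_mono_set hi.integrableOn (ae_of_all _ fun ω => sq_nonneg _)
              (LE.le.eventuallyLE Set.inter_subset_right)
        _ = ((t (k + 1) : ℝ) - t k) * P.real (B k) := inc_sq hX i (ht (Nat.le_succ k)) (hBm k)
        _ ≤ ((t (k + 1) : ℝ) - t k) * (P.real D + P.real S) := by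
            refine mul_le_mul_of_nonneg_left ?_ hdt
            exact (measureReal_mono (hBsub k hkK)).trans (measureReal_union_le _ _)
    · have hCk : MeasurableSet (E k \ B k) := hle (k + 1) _ (hCm k)
      have hTk : t (k + 1) ≤ T := (ht hkK).trans hT
      have i1 := sq_diff hX i hTk (hCm k)
      have i2 : 0 ≤ ((T : ℝ) - t (k + 1)) * P.real (E k \ B k) := by
        have : (t (k + 1) : ℝ) ≤ T := by exact_mod_cast hTk
        exact mul_nonneg (by linarith) measureReal_nonneg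
      calc ∫ ω in E k \ B k, (MM β X i (t (k + 1)) ω - MM β X i (t k) ω) ^ 2 ∂P ≤
            ∫ ω in E k \ B k, (2 * MM β X i (t (k + 1)) ω ^ 2 + 2 * R ^ 2) ∂P := by
            refine setIntegral_mono_on hi.integrableOn
              (((int_sq hX i (t (k + 1))).const_mul 2).add (integrable_const _)).integrableOn
              hCk ?_
            intro ω hω
            have hR' : |MM β X i (t k) ω| ≤ R := by
              by_contra hc
              rw [not_le] at hc
              apply hω.2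
              rw [hB]
              right
              simp only [Set.mem_iUnion]
              exact ⟨k, le_rfl, hc⟩
            have h3 : MM β X i (t k) ω ^ 2 ≤ R ^ 2 := by
              rw [← sq_abs]
              exact pow_le_pow_left₀ (abs_nonneg _) hR' 2
            nlinarith [sq_nonneg (MM β X i (t (k + 1)) ω + MM β X i (t k) ω)]
        _ ≤ ∫ ω in E k \ B k, (2 * MM β X i T ω ^ 2 + 2 * R ^ 2) ∂P := by
            have j1 : ∫ ω in E k \ B k, (2 * MM β X i (t (k + 1)) ω ^ 2) ∂P =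
              2 * ∫ ω in E k \ B k, MM β X i (t (k + 1)) ω ^ 2 ∂P := integral_const_mul _ _
            have j2 : ∫ ω in E k \ B k, (2 * MM β X i T ω ^ 2) ∂P =
              2 * ∫ ω in E k \ B k, MM β X i T ω ^ 2 ∂P := integral_const_mul _ _
            rw [integral_add ((int_sq hX i (t (k + 1))).const_mul 2).integrableOn
              (integrable_const _), integral_add ((int_sq hX i T).const_mul 2).integrableOn
              (integrable_const _), j1, j2]
            linarith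
  refine (Finset.sum_le_sum hstep).trans ?_
  rw [Finset.sum_add_distrib, ← Finset.sum_mul]
  refine add_le_add (le_of_eq ?_) ?_
  · rw [Finset.sum_range_sub (fun k => ((t k : ℝ≥0) : ℝ))]
  · refine sum_le (fun k _ => hle (k + 1) _ (hCm k)) ?_ ?_ hg (fun ω => by positivity)
    · intro k hk ω hω
      have := hω.1
      rw [hE] at this
      exact h1 k hk ω this
    · intro j k hjk _
      rw [Set.disjoint_left]
      intro ω hj hk
      apply hk.2
      rw [hB]
      left
      simp only [Set.mem_iUnion]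
      exact ⟨j, hjk, hj.1⟩

/-- large oscillation at rational times -/
def DD (y : ℝ → Ω → ℝ) (T ε : ℝ) (m : ℕ) : Set Ω :=
  {ω | ∃ p q : ℚ, |(p : ℝ)| ≤ T ∧ |(q : ℝ)| ≤ T ∧ |(p : ℝ) - q| ≤ 2 / ((m : ℝ) + 1) ∧
    ε < |y p ω - y q ω|}

/-- large value at a rational time -/
def SS (y : ℝ → Ω → ℝ) (T : ℝ) (R : ℕ) : Set Ω :=
  {ω | ∃ p : ℚ, |(p : ℝ)| ≤ T ∧ (R : ℝ) < |y p ω|}

theorem measDD {y : ℝ → Ω → ℝ} (hy : ∀ s, Measurable (y s)) (T ε : ℝ) (m : ℕ) :
    MeasurableSet (DD y T ε m) := by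
  have e : DD y T ε m = ⋃ p : ℚ, ⋃ q : ℚ, ⋃ _ : (|(p : ℝ)| ≤ T ∧ |(q : ℝ)| ≤ T ∧
      |(p : ℝ) - q| ≤ 2 / ((m : ℝ) + 1)), {ω | ε < |y p ω - y q ω|} := by
    ext ω
    simp only [DD, Set.mem_ofPred_eq, Set.mem_iUnion, exists_prop, and_assoc]
  rw [e]
  refine MeasurableSet.iUnion fun p => MeasurableSet.iUnion fun q => MeasurableSet.iUnion
    fun _ => ?_
  exact measurableSet_lt measurable_const ((hy p).sub (hy q)).norm

theorem measSS {y : ℝ → Ω → ℝ} (hy : ∀ s, Measurable (y s)) (T : ℝ) (R : ℕ) :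
    MeasurableSet (SS y T R) := by
  have e : SS y T R = ⋃ p : ℚ, ⋃ _ : |(p : ℝ)| ≤ T, {ω | (R : ℝ) < |y p ω|} := by
    ext ω
    simp only [SS, Set.mem_ofPred_eq, Set.mem_iUnion, exists_prop]
  rw [e]
  refine MeasurableSet.iUnion fun p => MeasurableSet.iUnion fun _ => ?_
  exact measurableSet_lt measurable_const (hy p).norm

omit [MeasurableSpace Ω] in
theorem antiDD (y : ℝ → Ω → ℝ) (T ε : ℝ) : Antitone (DD y T ε) := by
  intro m m' h ω hω
  obtain ⟨p, q, h1, h2, h3, h4⟩ := hω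
  refine ⟨p, q, h1, h2, h3.trans ?_, h4⟩
  have : (m : ℝ) ≤ m' := by exact_mod_cast h
  have h0 : (0 : ℝ) ≤ m := Nat.cast_nonneg m
  exact div_le_div_of_nonneg_left (by norm_num) (by linarith) (by linarith)

omit [MeasurableSpace Ω] in
theorem antiSS (y : ℝ → Ω → ℝ) (T : ℝ) : Antitone (SS y T) := by
  intro m m' h ω hω
  obtain ⟨p, h1, h2⟩ := hω
  refine ⟨p, h1, lt_of_le_of_lt ?_ h2⟩
  exact_mod_cast h

omit [MeasurableSpace Ω] in
theorem iInterDD {y : ℝ → Ω → ℝ} (hc : ∀ ω, Continuous fun s => y s ω) (T : ℝ) {ε : ℝ}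
    (hε : 0 < ε) : ⋂ m, DD y T ε m = ∅ := by
  rw [Set.eq_empty_iff_forall_notMem]
  intro ω hω
  rw [Set.mem_iInter] at hω
  have hu : UniformContinuousOn (fun s => y s ω) (Set.Icc (-T) T) :=
    isCompact_Icc.uniformContinuousOn_of_continuous (hc ω).continuousOn
  obtain ⟨δ, hδ, h⟩ := Metric.uniformContinuousOn_iff.1 hu ε hε
  obtain ⟨m, hm⟩ := exists_nat_gt (2 / δ)
  have hm2 : 2 / ((m : ℝ) + 1) < δ := by
    rw [div_lt_iff₀ (by positivity)]
    rw [div_lt_iff₀ hδ] at hm
    nlinarith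
  obtain ⟨p, q, h1, h2, h3, h4⟩ := hω m
  have h5 := h p (abs_le.1 h1) q (abs_le.1 h2) (by rw [Real.dist_eq]; linarith)
  rw [Real.dist_eq] at h5
  exact absurd h5 (not_lt.2 h4.le)

omit [MeasurableSpace Ω] in
theorem iInterSS {y : ℝ → Ω → ℝ} (hc : ∀ ω, Continuous fun s => y s ω) (T : ℝ) :
    ⋂ R, SS y T R = ∅ := by
  rw [Set.eq_empty_iff_forall_notMem]
  intro ω hω
  rw [Set.mem_iInter] at hω
  obtain ⟨C, hC⟩ := (isCompact_Icc (a := -T) (b := T)).exists_bound_of_continuousOn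
    (hc ω).continuousOn
  obtain ⟨R, hR⟩ := exists_nat_gt C
  obtain ⟨p, h1, h2⟩ := hω R
  have h3 := hC p (abs_le.1 h1)
  rw [Real.norm_eq_abs] at h3
  linarith

omit [MeasurableSpace Ω] in
theorem hitDD {y : ℝ → Ω → ℝ} {ω : Ω} (hc : Continuous fun s => y s ω) {T ε : ℝ} {m : ℕ}
    {s t : ℝ} (hs : |s| < T) (ht : |t| < T) (hst : |s - t| < 2 / ((m : ℝ) + 1))
    (h : ε < |y s ω - y t ω|) : ω ∈ DD y T ε m := by
  have hd : DenseRange (Prod.map (Rat.cast : ℚ → ℝ) (Rat.cast : ℚ → ℝ)) :=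
    Rat.denseRange_cast.prodMap Rat.denseRange_cast
  have ho : IsOpen {z : ℝ × ℝ | |z.1| < T ∧ |z.2| < T ∧ |z.1 - z.2| < 2 / ((m : ℝ) + 1) ∧
      ε < |y z.1 ω - y z.2 ω|} := by
    have c1 : Continuous fun z : ℝ × ℝ => y z.1 ω := hc.comp continuous_fst
    have c2 : Continuous fun z : ℝ × ℝ => y z.2 ω := hc.comp continuous_snd
    refine (isOpen_lt continuous_fst.abs continuous_const).inter
      ((isOpen_lt continuous_snd.abs continuous_const).inter
      ((isOpen_lt (continuous_fst.sub continuous_snd).abs continuous_const).inter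
      (isOpen_lt continuous_const (c1.sub c2).abs)))
  obtain ⟨⟨p, q⟩, h1, h2, h3, h4⟩ := hd.exists_mem_open ho ⟨(s, t), hs, ht, hst, h⟩
  exact ⟨p, q, h1.le, h2.le, h3.le, h4⟩

omit [MeasurableSpace Ω] in
theorem hitSS {y : ℝ → Ω → ℝ} {ω : Ω} (hc : Continuous fun s => y s ω) {T : ℝ} {R : ℕ}
    {s : ℝ} (hs : |s| < T) (h : (R : ℝ) < |y s ω|) : ω ∈ SS y T R := by
  have ho : IsOpen {z : ℝ | |z| < T ∧ (R : ℝ) < |y z ω|} :=
    (isOpen_lt continuous_abs continuous_const).inter (isOpen_lt continuous_const hc.abs)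
  obtain ⟨p, h1, h2⟩ := Rat.denseRange_cast.exists_mem_open ho ⟨s, hs, h⟩
  exact ⟨p, h1.le, h2⟩

theorem rho_nonneg (x : ℝ) : 0 ≤ rho x := le_min (sq_nonneg x) (pow_nonneg (abs_nonneg x) 3)

theorem rho_le {x ε : ℝ} (hε : 0 ≤ ε) : rho x ≤ ε * x ^ 2 + if ε < |x| then x ^ 2 else 0 := by
  split_ifs with h
  · have h1 : rho x ≤ x ^ 2 := min_le_left _ _
    nlinarith [mul_nonneg hε (sq_nonneg x)]
  · rw [not_lt] at h
    have h1 : rho x ≤ |x| ^ 3 := min_le_right _ _
    have h2 : |x| ^ 3 = |x| * x ^ 2 := by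
      rw [← sq_abs x]
      ring
    rw [add_zero]
    calc rho x ≤ |x| * x ^ 2 := by rw [← h2]; exact h1
      _ ≤ ε * x ^ 2 := mul_le_mul_of_nonneg_right h (sq_nonneg x)

theorem meas_MM (hX : IsHWMotion β ν x P X) (i : Fin n) (t : ℝ≥0) : Measurable (MM β X i t) := by
  have h1 : Measurable (X t) := (hX.meas t).measurable
  exact ((measurable_pi_apply i).comp h1).sub_const _

theorem cont_MM (hX : IsHWMotion β ν x P X) (i : Fin n) (ω : Ω) :
    Continuous fun s : ℝ => MM β X i s.toNNReal ω := by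
  have h1 : Continuous fun t : ℝ≥0 => MM β X i t ω :=
    ((continuous_apply i).comp (hX.cont ω)).sub (continuous_const.mul NNReal.continuous_coe)
  exact h1.comp continuous_real_toNNReal

theorem rho_int [IsProbabilityMeasure P] (hX : IsHWMotion β ν x P X) (i : Fin n) {s t : ℝ≥0}
    (hst : s ≤ t) {ε : ℝ} (hε : 0 ≤ ε) :
    ∫ ω, rho (MM β X i t ω - MM β X i s ω) ∂P ≤ ε * ((t : ℝ) - s) +
      ∫ ω in {ω | ε < |MM β X i t ω - MM β X i s ω|}, (MM β X i t ω - MM β X i s ω) ^ 2 ∂P := by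
  have hi := int_inc hX i s t
  have hm : MeasurableSet {ω | ε < |MM β X i t ω - MM β X i s ω|} :=
    measurableSet_lt measurable_const ((meas_MM hX i t).sub (meas_MM hX i s)).norm
  have h1 : ∫ ω, (MM β X i t ω - MM β X i s ω) ^ 2 ∂P = (t : ℝ) - s := by
    have h := inc_sq hX i hst (B := Set.univ) MeasurableSet.univ
    rw [setIntegral_univ, probReal_univ, mul_one] at h
    exact h
  have hind : Integrable ({ω | ε < |MM β X i t ω - MM β X i s ω|}.indicator
      fun ω => (MM β X i t ω - MM β X i s ω) ^ 2) P := hi.indicator hm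
  calc ∫ ω, rho (MM β X i t ω - MM β X i s ω) ∂P ≤
      ∫ ω, (ε * (MM β X i t ω - MM β X i s ω) ^ 2 +
        ({ω | ε < |MM β X i t ω - MM β X i s ω|}.indicator
          fun ω => (MM β X i t ω - MM β X i s ω) ^ 2) ω) ∂P := by
        refine integral_mono_of_nonneg (ae_of_all _ fun ω => rho_nonneg _)
          ((hi.const_mul ε).add hind) (ae_of_all _ fun ω => ?_)
        have h := rho_le (x := MM β X i t ω - MM β X i s ω) hε
        simp only [Set.indicator_apply, Set.mem_ofPred_eq]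
        exact h
    _ = ε * ((t : ℝ) - s) + ∫ ω in {ω | ε < |MM β X i t ω - MM β X i s ω|},
        (MM β X i t ω - MM β X i s ω) ^ 2 ∂P := by
        rw [integral_add (hi.const_mul ε) hind, integral_const_mul, h1, integral_indicator hm]

/-- the bound for one grid -/
theorem grid [IsProbabilityMeasure P] (hX : IsHWMotion β ν x P X) (i : Fin n) {a : ℝ}
    (ha : 0 ≤ a) {ε : ℝ} (hε : 0 < ε) (R m : ℕ) {u : ℝ} (hu : 0 ≤ u) (hu2 : u ≤ 1 / ((m : ℝ) + 1)) :
    ∑ k ∈ Finset.range (m + 1), ∫ ω,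
      rho (MM β X i (a + k * (1 / ((m : ℝ) + 1)) + u + 1 / ((m : ℝ) + 1)).toNNReal ω -
        MM β X i (a + k * (1 / ((m : ℝ) + 1)) + u).toNNReal ω) ∂P ≤
      ε + P.real (SS (fun s => MM β X i s.toNNReal) (a + 3) R) +
        ∫ ω in DD (fun s => MM β X i s.toNNReal) (a + 3) ε m,
          (2 * MM β X i (a + 3).toNNReal ω ^ 2 + (2 * (R : ℝ) ^ 2 + 1)) ∂P := by
  obtain ⟨h, hh⟩ : ∃ h : ℝ, h = 1 / ((m : ℝ) + 1) := ⟨_, rfl⟩
  rw [← hh] at hu2 ⊢
  have hm0 : (0 : ℝ) < (m : ℝ) + 1 := by positivity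
  have hhp : 0 < h := by rw [hh]; positivity
  have hh1 : ((m : ℝ) + 1) * h = 1 := by rw [hh]; field_simp
  have hhle : h ≤ 1 := by
    have : (0 : ℝ) ≤ m := Nat.cast_nonneg m
    nlinarith
  obtain ⟨t, ht⟩ : ∃ t : ℕ → ℝ≥0, t = fun k : ℕ => (a + k * h + u).toNNReal := ⟨_, rfl⟩
  have hpos : ∀ k : ℕ, 0 ≤ a + k * h + u := by
    intro k
    positivity
  have htc : ∀ k : ℕ, (t k : ℝ) = a + k * h + u := by
    intro k
    rw [ht]
    exact Real.coe_toNNReal _ (hpos k)
  have ht1 : ∀ k : ℕ, t (k + 1) = (a + k * h + u + h).toNNReal := by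
    intro k
    rw [ht]
    simp only
    congr 1
    push_cast
    ring
  have htm : Monotone t := by
    intro j k hjk
    rw [← NNReal.coe_le_coe, htc, htc]
    have : (j : ℝ) ≤ k := by exact_mod_cast hjk
    nlinarith
  have hdiff : (t (m + 1) : ℝ) - t 0 = 1 := by
    rw [htc, htc]
    push_cast
    linarith
  have htT : t (m + 1) ≤ (a + 3).toNNReal := by
    rw [← NNReal.coe_le_coe, htc, Real.coe_toNNReal _ (by linarith)]
    push_cast
    linarith
  have hrange : ∀ k ≤ m + 1, |a + k * h + u| < a + 3 := by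
    intro k hk
    rw [abs_of_nonneg (hpos k)]
    have h1 : (k : ℝ) ≤ (m : ℝ) + 1 := by exact_mod_cast hk
    have h2 : (k : ℝ) * h ≤ 1 := by
      calc (k : ℝ) * h ≤ ((m : ℝ) + 1) * h := mul_le_mul_of_nonneg_right h1 hhp.le
        _ = 1 := hh1
    linarith
  obtain ⟨D, hD⟩ : ∃ D, D = DD (fun s => MM β X i s.toNNReal) (a + 3) ε m := ⟨_, rfl⟩
  obtain ⟨S, hS⟩ : ∃ S, S = SS (fun s => MM β X i s.toNNReal) (a + 3) R := ⟨_, rfl⟩
  rw [← hD, ← hS]
  have h1 : ∀ k < m + 1, ∀ ω, ε < |MM β X i (t (k + 1)) ω - MM β X i (t k) ω| → ω ∈ D := by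
    intro k hk ω hω
    rw [hD]
    have e1 : t (k + 1) = (a + ((k + 1 : ℕ) : ℝ) * h + u).toNNReal := by rw [ht]
    have e2 : t k = (a + k * h + u).toNNReal := by rw [ht]
    rw [e1, e2] at hω
    refine hitDD (y := fun s => MM β X i s.toNNReal) (cont_MM hX i ω)
      (hrange (k + 1) (by omega)) (hrange k (by omega)) ?_ hω
    have e3 : a + ((k + 1 : ℕ) : ℝ) * h + u - (a + k * h + u) = h := by
      push_cast
      ring
    rw [e3, abs_of_pos hhp, hh]
    exact div_lt_div_of_pos_right (by norm_num) hm0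
  have h2 : ∀ k ≤ m + 1, ∀ ω, (R : ℝ) < |MM β X i (t k) ω| → ω ∈ S := by
    intro k hk ω hω
    rw [hS]
    have e2 : t k = (a + k * h + u).toNNReal := by rw [ht]
    rw [e2] at hω
    exact hitSS (y := fun s => MM β X i s.toNNReal) (cont_MM hX i ω) (hrange k hk) hω
  have hdisc := disc hX i htm htT h1 h2
  rw [hdiff, one_mul] at hdisc
  have hstep : ∀ k ∈ Finset.range (m + 1), ∫ ω,
      rho (MM β X i (a + k * h + u + h).toNNReal ω - MM β X i (a + k * h + u).toNNReal ω) ∂P ≤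
      ε * ((t (k + 1) : ℝ) - t k) +
      ∫ ω in {ω | ε < |MM β X i (t (k + 1)) ω - MM β X i (t k) ω|},
        (MM β X i (t (k + 1)) ω - MM β X i (t k) ω) ^ 2 ∂P := by
    intro k _
    have e2 : t k = (a + k * h + u).toNNReal := by rw [ht]
    rw [← ht1 k, ← e2]
    exact rho_int hX i (htm (Nat.le_succ k)) hε.le
  refine (Finset.sum_le_sum hstep).trans ?_
  rw [Finset.sum_add_distrib, ← Finset.mul_sum,
    Finset.sum_range_sub (fun k => ((t k : ℝ≥0) : ℝ)), hdiff, mul_one]
  have hDm : MeasurableSet D := by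
    rw [hD]
    exact measDD (fun s => meas_MM hX i s.toNNReal) _ _ _
  have hg : Integrable (fun ω => 2 * MM β X i (a + 3).toNNReal ω ^ 2 + 2 * (R : ℝ) ^ 2) P :=
    ((int_sq hX i _).const_mul 2).add (integrable_const _)
  have e4 : ∫ ω in D, (2 * MM β X i (a + 3).toNNReal ω ^ 2 + (2 * (R : ℝ) ^ 2 + 1)) ∂P =
      ∫ ω in D, (2 * MM β X i (a + 3).toNNReal ω ^ 2 + 2 * (R : ℝ) ^ 2) ∂P + P.real D := by
    have e5 : ∀ ω, 2 * MM β X i (a + 3).toNNReal ω ^ 2 + (2 * (R : ℝ) ^ 2 + 1) =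
      (2 * MM β X i (a + 3).toNNReal ω ^ 2 + 2 * (R : ℝ) ^ 2) + 1 := fun ω => by ring
    simp_rw [e5]
    rw [integral_add hg.integrableOn (integrable_const _), setIntegral_const, smul_eq_mul,
      mul_one]
  rw [e4]
  linarith

/-- averaging over the grids -/
theorem aver {φ : ℝ → ℝ} {a B : ℝ} (m : ℕ) (hB : 0 ≤ B)
    (h : ∀ u, 0 ≤ u → u ≤ 1 / ((m : ℝ) + 1) →
      ∑ k ∈ Finset.range (m + 1), φ (a + k * (1 / ((m : ℝ) + 1)) + u) ≤ B) :
    ((m : ℝ) + 1) * ∫ s in a..a + 1, φ s ≤ B := by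
  have hm0 : (0 : ℝ) < (m : ℝ) + 1 := by positivity
  by_cases hφ : IntervalIntegrable φ volume a (a + 1)
  swap
  · rw [intervalIntegral.integral_undef hφ, mul_zero]
    exact hB
  obtain ⟨d, hd⟩ : ∃ d : ℝ, d = 1 / ((m : ℝ) + 1) := ⟨_, rfl⟩
  rw [← hd] at h
  have hdp : 0 < d := by rw [hd]; positivity
  have hd1 : ((m : ℝ) + 1) * d = 1 := by rw [hd]; field_simp
  have hsub : ∀ k < m + 1, IntervalIntegrable φ volume (a + k * d) (a + ((k + 1 : ℕ) : ℝ) * d) := by
    intro k hk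
    refine hφ.mono_set ?_
    have h1 : ((k + 1 : ℕ) : ℝ) ≤ (m : ℝ) + 1 := by exact_mod_cast hk
    have h2 : ((k + 1 : ℕ) : ℝ) * d ≤ 1 := by
      calc ((k + 1 : ℕ) : ℝ) * d ≤ ((m : ℝ) + 1) * d := mul_le_mul_of_nonneg_right h1 hdp.le
        _ = 1 := hd1
    have h3 : (0 : ℝ) ≤ k * d := by positivity
    have h4 : a + (k : ℝ) * d ≤ a + ((k + 1 : ℕ) : ℝ) * d := by
      push_cast
      nlinarith
    rw [Set.uIcc_of_le h4, Set.uIcc_of_le (by linarith : a ≤ a + 1)]
    exact Set.Icc_subset_Icc (by linarith) (by linarith)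
  have hsum := intervalIntegral.sum_integral_adjacent_intervals
    (f := φ) (μ := volume) (a := fun k : ℕ => a + k * d) (n := m + 1) hsub
  have e0 : a + ((0 : ℕ) : ℝ) * d = a := by simp
  have e1 : a + ((m + 1 : ℕ) : ℝ) * d = a + 1 := by
    push_cast
    linarith
  rw [e0, e1] at hsum
  rw [← hsum]
  have hshift : ∀ k ∈ Finset.range (m + 1), ∫ s in (a + k * d)..(a + ((k + 1 : ℕ) : ℝ) * d), φ s =
      ∫ u in (0 : ℝ)..d, φ (a + k * d + u) := by
    intro k _
    rw [intervalIntegral.integral_comp_add_left]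
    congr 1
    · ring
    · push_cast
      ring
  rw [Finset.sum_congr rfl hshift]
  have hii : ∀ k ∈ Finset.range (m + 1), IntervalIntegrable (fun u => φ (a + k * d + u)) volume
      0 d := by
    intro k hk
    have h1 := (hsub k (Finset.mem_range.1 hk)).comp_add_left (a + k * d)
    have e2 : a + ((k + 1 : ℕ) : ℝ) * d - (a + k * d) = d := by
      push_cast
      ring
    rw [sub_self, e2] at h1
    exact h1
  rw [← intervalIntegral.integral_finsetSum hii]
  have hle : ∫ u in (0 : ℝ)..d, ∑ k ∈ Finset.range (m + 1), φ (a + k * d + u) ≤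
      ∫ _u in (0 : ℝ)..d, B := by
    refine intervalIntegral.integral_mono_on hdp.le ?_ (by simp) ?_
    · have h9 := IntervalIntegrable.sum _ hii
      have e9 : (∑ i ∈ Finset.range (m + 1), fun u => φ (a + (i : ℝ) * d + u)) =
          fun u => ∑ k ∈ Finset.range (m + 1), φ (a + (k : ℝ) * d + u) := by
        funext u
        rw [Finset.sum_apply]
      rw [e9] at h9
      exact h9
    · intro u hu
      exact h u hu.1 hu.2
  rw [intervalIntegral.integral_const, sub_zero, smul_eq_mul] at hle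
  calc ((m : ℝ) + 1) * ∫ u in (0 : ℝ)..d, ∑ k ∈ Finset.range (m + 1), φ (a + k * d + u) ≤
      ((m : ℝ) + 1) * (d * B) := mul_le_mul_of_nonneg_left hle hm0.le
    _ = B := by rw [← mul_assoc, hd1, one_mul]

theorem bound [IsProbabilityMeasure P] (hX : IsHWMotion β ν x P X) (i : Fin n) {a : ℝ}
    (ha : 0 ≤ a) {ε : ℝ} (hε : 0 < ε) (R m : ℕ) :
    ((m : ℝ) + 1) * ∫ s in a..a + 1, ∫ ω,
      rho ((X (s + 1 / (m + 1)).toNNReal ω i - β * (s + 1 / (m + 1))) -
        (X s.toNNReal ω i - β * s)) ∂P ≤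
      ε + P.real (SS (fun s => MM β X i s.toNNReal) (a + 3) R) +
        ∫ ω in DD (fun s => MM β X i s.toNNReal) (a + 3) ε m,
          (2 * MM β X i (a + 3).toNNReal ω ^ 2 + (2 * (R : ℝ) ^ 2 + 1)) ∂P := by
  have hB : 0 ≤ ε + P.real (SS (fun s => MM β X i s.toNNReal) (a + 3) R) +
        ∫ ω in DD (fun s => MM β X i s.toNNReal) (a + 3) ε m,
          (2 * MM β X i (a + 3).toNNReal ω ^ 2 + (2 * (R : ℝ) ^ 2 + 1)) ∂P := by
    have h1 : 0 ≤ ∫ ω in DD (fun s => MM β X i s.toNNReal) (a + 3) ε m,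
          (2 * MM β X i (a + 3).toNNReal ω ^ 2 + (2 * (R : ℝ) ^ 2 + 1)) ∂P :=
      integral_nonneg fun ω => by positivity
    have h2 : 0 ≤ P.real (SS (fun s => MM β X i s.toNNReal) (a + 3) R) := measureReal_nonneg
    linarith
  refine aver m hB ?_
  intro u hu hu2
  refine le_trans (le_of_eq ?_) (grid hX i ha hε R m hu hu2)
  refine Finset.sum_congr rfl fun k _ => ?_
  have h0 : 0 ≤ a + k * (1 / ((m : ℝ) + 1)) + u := by positivity
  have h1 : 0 ≤ a + k * (1 / ((m : ℝ) + 1)) + u + 1 / ((m : ℝ) + 1) := by positivity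
  unfold MM
  rw [Real.coe_toNNReal _ h0, Real.coe_toNNReal _ h1]

theorem limDD [IsProbabilityMeasure P] (hX : IsHWMotion β ν x P X) (i : Fin n) (a : ℝ)
    {ε : ℝ} (hε : 0 < ε) (R : ℕ) : Tendsto (fun m : ℕ =>
      ∫ ω in DD (fun s => MM β X i s.toNNReal) (a + 3) ε m,
        (2 * MM β X i (a + 3).toNNReal ω ^ 2 + (2 * (R : ℝ) ^ 2 + 1)) ∂P) atTop (𝓝 0) := by
  have hg : Integrable (fun ω => 2 * MM β X i (a + 3).toNNReal ω ^ 2 + (2 * (R : ℝ) ^ 2 + 1)) P :=
    ((int_sq hX i _).const_mul 2).add (integrable_const _)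
  have h := tendsto_setIntegral_of_antitone (μ := P)
    (fun m => measDD (fun s => meas_MM hX i s.toNNReal) (a + 3) ε m)
    (antiDD (fun s => MM β X i s.toNNReal) (a + 3) ε) ⟨0, hg.integrableOn⟩
  rwa [iInterDD (cont_MM hX i) (a + 3) hε, setIntegral_empty] at h

theorem limSS [IsProbabilityMeasure P] (hX : IsHWMotion β ν x P X) (i : Fin n) (a : ℝ) :
    Tendsto (fun R : ℕ => P.real (SS (fun s => MM β X i s.toNNReal) (a + 3) R)) atTop (𝓝 0) := by
  have h := tendsto_setIntegral_of_antitone (μ := P) (f := fun _ => (1 : ℝ))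
    (fun m => measSS (fun s => meas_MM hX i s.toNNReal) (a + 3) m)
    (antiSS (fun s => MM β X i s.toNNReal) (a + 3)) ⟨0, (integrable_const _).integrableOn⟩
  rw [iInterSS (cont_MM hX i) (a + 3), setIntegral_empty] at h
  simpa using h

end Lindeberg

/-- the truncated third moments of the increments vanish in the limit -/
theorem lindeberg [IsProbabilityMeasure P] (hX : IsHWMotion β ν x P X) (i : Fin n) {a : ℝ}
    (ha : 0 ≤ a) :
    Tendsto (fun m : ℕ => ((m : ℝ) + 1) * ∫ s in a..a + 1, ∫ ω,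
      rho ((X (s + 1 / (m + 1)).toNNReal ω i - β * (s + 1 / (m + 1))) -
        (X s.toNNReal ω i - β * s)) ∂P) atTop (𝓝 0) := by
  rw [Metric.tendsto_atTop]
  intro e he
  have he4 : 0 < e / 4 := by linarith
  obtain ⟨R, hR⟩ := ((Lindeberg.limSS hX i a).eventually_lt_const he4).exists
  obtain ⟨N, hN⟩ := Filter.eventually_atTop.1
    ((Lindeberg.limDD hX i a he4 R).eventually_lt_const he4)
  refine ⟨N, fun m hm => ?_⟩
  have h1 := Lindeberg.bound hX i ha he4 R m
  have h2 := hN m hm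
  have h0 : 0 ≤ ((m : ℝ) + 1) * ∫ s in a..a + 1, ∫ ω,
      rho ((X (s + 1 / (m + 1)).toNNReal ω i - β * (s + 1 / (m + 1))) -
        (X s.toNNReal ω i - β * s)) ∂P := by
    refine mul_nonneg (by positivity) ?_
    refine intervalIntegral.integral_nonneg (by linarith) fun s _ => ?_
    exact integral_nonneg fun ω => Lindeberg.rho_nonneg _
  rw [Real.dist_eq, sub_zero, abs_of_nonneg h0]
  linarith

end Pool.Agent.TH996.HW
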