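import Pool.Agent.TH996.HW.Dual

/-!
# The swap inequality (MP_b213bc_pr)
-/

open MeasureTheory ProbabilityTheory Filter
open scoped NNReal ENNReal Topology

namespace Pool.Agent.TH996.HW

variable {n : ℕ} {f : ℝ → ℝ}

/-- the density -/
noncomputable def swapDens (f : ℝ → ℝ) (y y' : ℝ) (z : ℝ × ℝ) : ℝ≥0∞ :=
  ENNReal.ofReal (f (z.1 - y) * f (y' - z.2))

theorem swap_meas (hf : Bump f) (y y' : ℝ) : Measurable (swapDens f y y') := by
  have h1 : Continuous f := hf.smooth.continuous
  unfold swapDens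
  refine Measurable.ennreal_ofReal ?_
  exact (h1.measurable.comp (measurable_fst.sub_const y)).mul
    (h1.measurable.comp (measurable_snd.const_sub y'))

theorem swap_fin (hf : Bump f) (y y' : ℝ) : IsFiniteMeasure (dm f y y') := by
  have h0 : Integrable f := by
    by_contra h
    have h1 := integral_undef h
    rw [hf.int] at h1
    exact one_ne_zero h1
  have h1 : Integrable (fun a => f (a - y)) := h0.comp_sub_right y
  have h2 : Integrable (fun l => f (y' - l)) := h0.comp_sub_left y'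
  have h3 : Integrable (fun z : ℝ × ℝ => f (z.1 - y) * f (y' - z.2))
      ((volume : Measure ℝ).prod (volume : Measure ℝ)) := h1.mul_prod h2
  unfold dm
  exact isFiniteMeasure_withDensity_ofReal h3.2

theorem swap_line (x x' : ℝ) : ∀ᵐ z : ℝ × ℝ, z.1 - x ≠ z.2 - x' := by
  have hm : MeasurableSet {z : ℝ × ℝ | z.1 - x = z.2 - x'} :=
    measurableSet_eq_fun (measurable_fst.sub_const x) (measurable_snd.sub_const x')
  have h : ((volume : Measure ℝ).prod (volume : Measure ℝ)) {z : ℝ × ℝ | z.1 - x = z.2 - x'} = 0 := by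
    rw [Measure.measure_prod_null hm]
    refine Filter.Eventually.of_forall fun a => ?_
    have e : Prod.mk a ⁻¹' {z : ℝ × ℝ | z.1 - x = z.2 - x'} = {a - x + x'} := by
      ext l
      simp only [Set.mem_preimage, Set.mem_ofPred_eq, Set.mem_singleton_iff]
      constructor <;> intro h <;> linarith
    show (volume : Measure ℝ) (Prod.mk a ⁻¹' {z : ℝ × ℝ | z.1 - x = z.2 - x'}) = 0
    rw [e]
    simp
  have h' : (volume : Measure (ℝ × ℝ)) {z : ℝ × ℝ | z.1 - x = z.2 - x'} = 0 := h
  rw [ae_iff]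
  simpa using h'

theorem swap_ae (hf : Bump f) (y y' x x' : ℝ) : ∀ᵐ z ∂(dm f y y'),
    (y - 1 ≤ z.1 ∧ z.2 ≤ y' + 1) ∧ z.1 - x ≠ z.2 - x' := by
  have e : dm f y y' = (volume : Measure (ℝ × ℝ)).withDensity (swapDens f y y') := rfl
  rw [e, ae_withDensity_iff (swap_meas hf y y')]
  filter_upwards [swap_line x x'] with z hz h
  refine ⟨?_, hz⟩
  have h1 : f (z.1 - y) * f (y' - z.2) ≠ 0 := by
    intro h2
    apply h
    unfold swapDens
    rw [h2, ENNReal.ofReal_zero]
  have h2 := hf.supp _ (left_ne_zero_of_mul h1)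
  have h3 := hf.supp _ (right_ne_zero_of_mul h1)
  constructor <;> linarith

theorem swap_trans (hf : Bump f) (y y' x x' : ℝ) (u : Fin n → ℝ) :
    (dm f y y') {z | z.1 - x < z.2 - x' ∧ ∃ i, z.1 - x ≤ u i ∧ u i ≤ z.2 - x'} =
      (dm f (y - x) (y' - x')) {z | z.1 < z.2 ∧ ∃ i, z.1 ≤ u i ∧ u i ≤ z.2} := by
  have hS : MeasurableSet {z : ℝ × ℝ | z.1 < z.2 ∧ ∃ i, z.1 ≤ u i ∧ u i ≤ z.2} := by
    have h1 : MeasurableSet {z : ℝ × ℝ | z.1 < z.2} := measurableSet_lt measurable_fst measurable_snd
    have h2 : MeasurableSet {z : ℝ × ℝ | ∃ i, z.1 ≤ u i ∧ u i ≤ z.2} := by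
      have e : {z : ℝ × ℝ | ∃ i, z.1 ≤ u i ∧ u i ≤ z.2} =
          ⋃ i, {z : ℝ × ℝ | z.1 ≤ u i ∧ u i ≤ z.2} := by
        ext z
        simp
      rw [e]
      refine MeasurableSet.iUnion fun i => ?_
      exact (measurableSet_le measurable_fst measurable_const).inter
        (measurableSet_le measurable_const measurable_snd)
    exact h1.inter h2
  set S : Set (ℝ × ℝ) := {z : ℝ × ℝ | z.1 < z.2 ∧ ∃ i, z.1 ≤ u i ∧ u i ≤ z.2} with hSd
  have hT : MeasurePreserving (fun z : ℝ × ℝ => z - (x, x')) volume volume :=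
    measurePreserving_sub_right volume (x, x')
  have e1 : {z : ℝ × ℝ | z.1 - x < z.2 - x' ∧ ∃ i, z.1 - x ≤ u i ∧ u i ≤ z.2 - x'} =
      (fun z : ℝ × ℝ => z - (x, x')) ⁻¹' S := by
    ext z
    simp [hSd]
  have e2 : dm f (y - x) (y' - x') =
      (volume : Measure (ℝ × ℝ)).withDensity (swapDens f (y - x) (y' - x')) := rfl
  have e3 : dm f y y' = (volume : Measure (ℝ × ℝ)).withDensity (swapDens f y y') := rfl
  rw [e1, e2, e3, withDensity_apply _ hS, withDensity_apply _ (hT.measurable hS),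
    ← hT.setLIntegral_comp_preimage hS (swap_meas hf _ _)]
  refine lintegral_congr fun z => ?_
  unfold swapDens
  have h1 : (z - (x, x')).1 - (y - x) = z.1 - y := by
    simp only [Prod.fst_sub]
    ring
  have h2 : y' - x' - (z - (x, x')).2 = y' - z.2 := by
    simp only [Prod.snd_sub]
    ring
  rw [h1, h2]

open Classical in
theorem UU_swap (hf : Bump f) (y y' x x' : ℝ) (u : Fin n → ℝ) :
    cc f y y' - ∑ D : Finset (Fin n), (if scut u D then
      FF f y y' (lo D (fun i => u i + x) y) (hi D (fun i => u i + x') y') else 0) ≤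
      UU f (y - x) (y' - x') u := by
  have hfin := swap_fin hf y y'
  set m := dm f y y' with hm
  set G : Set (ℝ × ℝ) := {z | z.1 - x < z.2 - x' ∧ ∃ i, z.1 - x ≤ u i ∧ u i ≤ z.2 - x'} with hG
  set E : Finset (Fin n) → Set (ℝ × ℝ) := fun D => if scut u D then
    {z | lo D (fun i => u i + x) y < z.1 ∧ z.1 < z.2 ∧ z.2 < hi D (fun i => u i + x') y'} else ∅
    with hE
  have hGU : m.real G = UU f (y - x) (y' - x') u := by
    unfold UU
    rw [Measure.real, Measure.real, ← swap_trans hf y y' x x' u]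
  have hEF : ∀ D : Finset (Fin n), m.real (E D) = (if scut u D then
      FF f y y' (lo D (fun i => u i + x) y) (hi D (fun i => u i + x') y') else 0) := by
    intro D
    simp only [hE]
    split_ifs
    · rfl
    · simp
  have hsub : {z : ℝ × ℝ | z.1 < z.2} ≤ᵐ[m] (G ∪ ⋃ D ∈ (Finset.univ : Finset (Finset (Fin n))), E D :
      Set (ℝ × ℝ)) := by
    filter_upwards [swap_ae hf y y' x x'] with z hz hlt
    change z.1 < z.2 at hlt
    obtain ⟨⟨hz1, hz2⟩, hz3⟩ := hz
    show z ∈ G ∪ ⋃ D ∈ (Finset.univ : Finset (Finset (Fin n))), E D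
    by_cases hzG : z ∈ G
    · exact Or.inl hzG
    right
    have hD0 : ∀ j, j ∉ Finset.univ.filter (fun i => u i < z.1 - x) → z.1 - x ≤ u j := by
      intro j hj
      by_contra hc
      exact hj (Finset.mem_filter.mpr ⟨Finset.mem_univ _, not_le.mp hc⟩)
    have hD1 : ∀ i, i ∈ Finset.univ.filter (fun i => u i < z.1 - x) → u i < z.1 - x :=
      fun i hi => (Finset.mem_filter.mp hi).2
    set D : Finset (Fin n) := Finset.univ.filter (fun i => u i < z.1 - x) with hD
    have hD2 : ∀ j, j ∉ D → z.2 - x' < u j := by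
      intro j hj
      have h1 := hD0 j hj
      rcases lt_or_gt_of_ne hz3 with h | h
      · by_contra hc
        exact hzG ⟨h, j, h1, not_lt.mp hc⟩
      · linarith
    have hsc : scut u D := fun i hi j hj => lt_of_lt_of_le (hD1 i hi) (hD0 j hj)
    refine Set.mem_iUnion₂.mpr ⟨D, Finset.mem_univ _, ?_⟩
    simp only [hE]
    rw [if_pos hsc]
    refine ⟨?_, hlt, ?_⟩
    · unfold lo
      split_ifs with h
      · rw [Finset.sup'_lt_iff]
        intro i hi
        have := hD1 i hi
        linarith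
      · linarith
    · unfold hi
      split_ifs with h
      · rw [Finset.lt_inf'_iff]
        intro j hj
        have := hD2 j (Finset.mem_sdiff.mp hj).2
        linarith
      · linarith
  have h1 : cc f y y' ≤ m.real (G ∪ ⋃ D ∈ (Finset.univ : Finset (Finset (Fin n))), E D) := by
    unfold cc
    rw [← hm, Measure.real, Measure.real]
    exact ENNReal.toReal_mono (measure_ne_top _ _) (measure_mono_ae hsub)
  have h2 : m.real (G ∪ ⋃ D ∈ (Finset.univ : Finset (Finset (Fin n))), E D) ≤
      m.real G + ∑ D : Finset (Fin n), m.real (E D) := by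
    refine (measureReal_union_le _ _).trans ?_
    gcongr
    exact measureReal_biUnion_finset_le _ _
  rw [← hGU, Finset.sum_congr rfl fun D _ => (hEF D).symm]
  linarith

end Pool.Agent.TH996.HW
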