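import Pool.Agent.TH996.HW.Comb
import Pool.Agent.TH996.HW.Swap
import Pool.Agent.TH996.HW.CutMid
import Pool.Agent.TH996.HW.CutEnd

/-!
# One step inequality (MP_b213bc_pr)
-/

open MeasureTheory ProbabilityTheory Filter
open scoped NNReal ENNReal Topology

namespace Pool.Agent.TH996.HW

variable {n : ℕ} {f : ℝ → ℝ}

theorem step_unit {α : Type*} [MeasurableSpace α] {μ : Measure α} [IsFiniteMeasure μ] {g : α → ℝ}
    (hg : Measurable g) (h0 : ∀ a, 0 ≤ g a) (h1 : ∀ a, g a ≤ 1) : Integrable g μ :=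
  Integrable.of_bound hg.aestronglyMeasurable 1 (ae_of_all _ fun a => by
    rw [Real.norm_of_nonneg (h0 a)]; exact h1 a)

theorem step_FF_nonneg (y y' p p' : ℝ) : 0 ≤ FF f y y' p p' := measureReal_nonneg

theorem step_FF_le (hf : Bump f) (y y' p p' : ℝ) : FF f y y' p p' ≤ 1 := by
  have := isProb_dm hf y y'
  exact measureReal_le_one

theorem step_UU_nonneg (y y' : ℝ) (v : Fin n → ℝ) : 0 ≤ UU f y y' v := measureReal_nonneg

theorem step_UU_le (hf : Bump f) (y y' : ℝ) (v : Fin n → ℝ) : UU f y y' v ≤ 1 := by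
  have := isProb_dm hf y y'
  exact measureReal_le_one

theorem step_lind_nonneg (β : ℝ) {Ω : Type} [MeasurableSpace Ω] (P : Measure Ω)
    (X : ℝ≥0 → Ω → (Fin n → ℝ)) (t h : ℝ≥0) : 0 ≤ lind β P X t h := by
  unfold lind
  apply Finset.sum_nonneg
  intro i _
  apply integral_nonneg
  intro ω
  unfold rho
  exact le_min (sq_nonneg _) (by positivity)

theorem step_mgap (D : Finset (Fin n)) (η : ℝ) :
    MeasurableSet {v : Fin n → ℝ | scut v D ∧ hi D v 0 - lo D v 0 < η} :=
  (measurable_scut D).inter (measurableSet_lt ((measurable_hi D 0).sub (measurable_lo D 0))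
    measurable_const)

open Classical in
/-- the indicator of a small gap -/
noncomputable def step_ind (D : Finset (Fin n)) (η : ℝ) (v : Fin n → ℝ) : ℝ :=
  if D.Nonempty ∧ (Finset.univ \ D).Nonempty ∧ scut v D ∧ hi D v 0 - lo D v 0 < η then 1 else 0

theorem step_ind_nonneg (D : Finset (Fin n)) (η : ℝ) (v : Fin n → ℝ) : 0 ≤ step_ind D η v := by
  unfold step_ind
  split_ifs <;> norm_num

theorem step_ind_le (D : Finset (Fin n)) (η : ℝ) (v : Fin n → ℝ) : step_ind D η v ≤ 1 := by
  unfold step_ind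
  split_ifs <;> norm_num

theorem step_ind_meas (D : Finset (Fin n)) (η : ℝ) : Measurable (step_ind D η) := by
  classical
  unfold step_ind
  apply Measurable.ite _ measurable_const measurable_const
  by_cases h : D.Nonempty ∧ (Finset.univ \ D).Nonempty
  · have h1 : {v : Fin n → ℝ | D.Nonempty ∧ (Finset.univ \ D).Nonempty ∧ scut v D ∧
        hi D v 0 - lo D v 0 < η} = {v | scut v D ∧ hi D v 0 - lo D v 0 < η} := by
      ext v
      simp only [Set.mem_ofPred_eq]
      tauto
    rw [h1]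
    exact step_mgap D η
  · have h1 : {v : Fin n → ℝ | D.Nonempty ∧ (Finset.univ \ D).Nonempty ∧ scut v D ∧
        hi D v 0 - lo D v 0 < η} = ∅ := by
      ext v
      simp only [Set.mem_ofPred_eq, Set.mem_empty_iff_false, iff_false]
      tauto
    rw [h1]
    exact MeasurableSet.empty

theorem step_rr (η : ℝ) (v : Fin n → ℝ) : rr η v = ∑ D : Finset (Fin n), step_ind D η v := by
  unfold rr step_ind
  rfl

open Classical in
theorem step_cut {ν : Measure ℝ} (hν : GoodNu ν) (hf : Bump f) (β : ℝ) (n : ℕ) : ∃ C : ℝ, 0 ≤ C ∧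
    ∀ κ η : ℝ, 0 < κ → 0 < η → ∃ C' : ℝ, 0 ≤ C' ∧ ∀ (x : Fin n → ℝ) (Ω : Type)
      [MeasurableSpace Ω] (P : Measure Ω) [IsProbabilityMeasure P] (X : ℝ≥0 → Ω → (Fin n → ℝ)),
      IsHWMotion β ν x P X → 0 < n → ∀ (D : Finset (Fin n)) (t h : ℝ≥0) (y y' : ℝ), h ≤ 1 →
      ∫ ω, (if scut (X t ω) D then (∫ z, ∫ z', FF f y y' (lo D (fun i => X t ω i + z) y)
        (hi D (fun i => X t ω i + z') y') ∂(gaussianReal (bm β ν * h) h)
          ∂(gaussianReal (bp β ν * h) h)) else 0) ∂P ≤
      ∫ ω, FF f y y' (lo D (X (t + h) ω) y) (hi D (X (t + h) ω) y') ∂P +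
        C * h * (κ + ∫ ω, step_ind D η (X t ω) ∂P) +
        C' * (lind β P X t h + h * √h) := by
  obtain ⟨C1, hC1, H1⟩ := cut_mid hν hf β n
  obtain ⟨C2, hC2, H2⟩ := cut_lo hν hf β n
  obtain ⟨C3, hC3, H3⟩ := cut_hi hν hf β n
  refine ⟨C1 + C2 + C3, by positivity, fun κ η hκ hη => ?_⟩
  obtain ⟨C1', hC1', H1⟩ := H1 κ η hκ hη
  obtain ⟨C2', hC2', H2⟩ := H2 κ hκ
  obtain ⟨C3', hC3', H3⟩ := H3 κ hκ
  refine ⟨C1' + C2' + C3', by positivity, ?_⟩
  intro x Ω _ P _ X hX hn D t h y y' hh
  have hl : 0 ≤ lind β P X t h + h * √h :=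
    add_nonneg (step_lind_nonneg β P X t h) (by positivity)
  have hI : 0 ≤ ∫ ω, step_ind D η (X t ω) ∂P :=
    integral_nonneg fun ω => step_ind_nonneg D η (X t ω)
  have hh0 : (0 : ℝ) ≤ h := h.2
  -- comparison of the constants
  have hcomp : ∀ a a' p : ℝ, 0 ≤ a → a ≤ C1 + C2 + C3 → 0 ≤ a' → a' ≤ C1' + C2' + C3' →
      0 ≤ p → p ≤ ∫ ω, step_ind D η (X t ω) ∂P →
      a * h * (κ + p) + a' * (lind β P X t h + h * √h) ≤
        (C1 + C2 + C3) * h * (κ + ∫ ω, step_ind D η (X t ω) ∂P) +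
          (C1' + C2' + C3') * (lind β P X t h + h * √h) := by
    intro a a' p h1 h2 h3 h4 h5 h6
    apply add_le_add
    · apply mul_le_mul (mul_le_mul_of_nonneg_right h2 hh0) (by linarith) (by linarith)
      positivity
    · exact mul_le_mul_of_nonneg_right h4 hl
  by_cases hD : D.Nonempty
  · by_cases hD' : (Finset.univ \ D).Nonempty
    · have h1 := H1 x Ω P X hX D hD hD' t h y y' hh
      have h2 : P.real {ω | scut (X t ω) D ∧ hi D (X t ω) 0 - lo D (X t ω) 0 < η} =
          ∫ ω, step_ind D η (X t ω) ∂P := by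
        have hm : MeasurableSet {ω | scut (X t ω) D ∧ hi D (X t ω) 0 - lo D (X t ω) 0 < η} :=
          (hX.meas t).measurable (step_mgap D η)
        rw [← integral_indicator_one hm]
        apply integral_congr_ae
        apply ae_of_all
        intro ω
        simp only [Set.indicator_apply, Set.mem_ofPred_eq, Pi.one_apply, step_ind]
        by_cases hc : scut (X t ω) D ∧ hi D (X t ω) 0 - lo D (X t ω) 0 < η
        · rw [if_pos hc, if_pos ⟨hD, hD', hc⟩]
        · rw [if_neg hc, if_neg (fun h => hc h.2.2)]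
      rw [h2] at h1
      have h3 := hcomp C1 C1' (∫ ω, step_ind D η (X t ω) ∂P) hC1 (by linarith) hC1'
        (by linarith) hI le_rfl
      linarith
    · -- `D = univ`
      have hDu : D = Finset.univ := by
        rw [Finset.not_nonempty_iff_eq_empty, Finset.sdiff_eq_empty_iff_subset] at hD'
        exact Finset.univ_subset_iff.1 hD'
      have h1 := H3 x Ω P X hX hn t h y y' hh
      have h2 : ∀ v : Fin n → ℝ, scut v D := by
        intro v i _ j hj
        exact absurd (hDu ▸ Finset.mem_univ j) hj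
      simp only [h2, if_true]
      rw [← hDu] at h1
      have h3 := hcomp C3 C3' 0 hC3 (by linarith) hC3' (by linarith) le_rfl hI
      rw [add_zero] at h3
      linarith
  · -- `D = ∅`
    have hDe : D = ∅ := Finset.not_nonempty_iff_eq_empty.1 hD
    have h1 := H2 x Ω P X hX hn t h y y' hh
    have h2 : ∀ v : Fin n → ℝ, scut v D := by
      intro v i hi'
      rw [hDe] at hi'
      exact absurd hi' (Finset.notMem_empty i)
    simp only [h2, if_true]
    rw [← hDe] at h1
    have h3 := hcomp C2 C2' 0 hC2 (by linarith) hC2' (by linarith) le_rfl hI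
    rw [add_zero] at h3
    linarith

theorem step_shift_meas (m : ℕ) :
    Measurable (fun q : (Fin m → ℝ) × ℝ => fun i => q.1 i + q.2) :=
  measurable_pi_lambda _ fun i => ((measurable_pi_apply i).comp measurable_fst).add measurable_snd

theorem step_mFF (hf : Bump f) {α : Type*} [MeasurableSpace α] {a b : α → ℝ} (ha : Measurable a)
    (hb : Measurable b) (y y' : ℝ) : Measurable (fun ω => FF f y y' (a ω) (b ω)) := by
  have h : Measurable (fun ω => (((y, y') : ℝ × ℝ), ((a ω, b ω) : ℝ × ℝ))) :=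
    measurable_const.prodMk (ha.prodMk hb)
  have h2 := (measurable_FF hf).comp h
  have h3 : (fun ω => FF f y y' (a ω) (b ω)) =
      ((fun z : (ℝ × ℝ) × (ℝ × ℝ) => FF f z.1.1 z.1.2 z.2.1 z.2.2) ∘
        fun ω => (((y, y') : ℝ × ℝ), ((a ω, b ω) : ℝ × ℝ))) := by
    funext ω
    simp only [Function.comp]
  rw [h3]
  exact h2

theorem step_mUU (hf : Bump f) {α : Type*} [MeasurableSpace α] {a b : α → ℝ}
    {v : α → (Fin n → ℝ)} (ha : Measurable a) (hb : Measurable b) (hv : Measurable v) :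
    Measurable (fun ω => UU f (a ω) (b ω) (v ω)) := by
  have h : Measurable (fun ω => (((a ω, b ω) : ℝ × ℝ), v ω)) := (ha.prodMk hb).prodMk hv
  have h2 := (measurable_UU (n := n) hf).comp h
  have h3 : (fun ω => UU f (a ω) (b ω) (v ω)) =
      ((fun z : (ℝ × ℝ) × (Fin n → ℝ) => UU f z.1.1 z.1.2 z.2) ∘
        fun ω => (((a ω, b ω) : ℝ × ℝ), v ω)) := by
    funext ω
    simp only [Function.comp]
  rw [h3]
  exact h2

theorem step_mlo (D : Finset (Fin n)) (y : ℝ) {α : Type*} [MeasurableSpace α]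
    {v : α → (Fin n → ℝ)} {z : α → ℝ} (hv : Measurable v) (hz : Measurable z) :
    Measurable (fun ω => lo D (fun i => v ω i + z ω) y) := by
  have h : Measurable (fun ω => fun i => v ω i + z ω) :=
    (step_shift_meas n).comp (hv.prodMk hz)
  exact (measurable_lo D y).comp h

theorem step_mhi (D : Finset (Fin n)) (y' : ℝ) {α : Type*} [MeasurableSpace α]
    {v : α → (Fin n → ℝ)} {z : α → ℝ} (hv : Measurable v) (hz : Measurable z) :
    Measurable (fun ω => hi D (fun i => v ω i + z ω) y') := by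
  have h : Measurable (fun ω => fun i => v ω i + z ω) :=
    (step_shift_meas n).comp (hv.prodMk hz)
  exact (measurable_hi D y').comp h

open Classical in
/-- the Fubini part -/
theorem step_fub (hf : Bump f) {Ω : Type} [MeasurableSpace Ω] (P : Measure Ω)
    [IsProbabilityMeasure P] (Y : Ω → (Fin n → ℝ)) (hY : Measurable Y) (γ γ' : Measure ℝ)
    [IsProbabilityMeasure γ] [IsProbabilityMeasure γ'] (y y' : ℝ) :
    cc f y y' - ∑ D : Finset (Fin n), ∫ ω, (if scut (Y ω) D then
      (∫ z, ∫ z', FF f y y' (lo D (fun i => Y ω i + z) y) (hi D (fun i => Y ω i + z') y') ∂γ' ∂γ)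
        else 0) ∂P ≤ ∫ z, ∫ z', (∫ ω, UU f (y - z) (y' - z') (Y ω) ∂P) ∂γ' ∂γ := by
  have mG : ∀ D : Finset (Fin n), Measurable (fun p : Ω × (ℝ × ℝ) =>
      FF f y y' (lo D (fun i => Y p.1 i + p.2.1) y) (hi D (fun i => Y p.1 i + p.2.2) y')) := by
    intro D
    exact step_mFF hf (step_mlo D y (hY.comp measurable_fst) (measurable_fst.comp measurable_snd))
      (step_mhi D y' (hY.comp measurable_fst) (measurable_snd.comp measurable_snd)) y y'
  have mS : ∀ D : Finset (Fin n), MeasurableSet {p : Ω × (ℝ × ℝ) | scut (Y p.1) D} := by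
    intro D
    exact (hY.comp measurable_fst) (measurable_scut D)
  have mF : ∀ D : Finset (Fin n), Measurable (fun p : Ω × (ℝ × ℝ) => if scut (Y p.1) D then
      FF f y y' (lo D (fun i => Y p.1 i + p.2.1) y) (hi D (fun i => Y p.1 i + p.2.2) y') else 0) :=
    fun D => Measurable.ite (mS D) (mG D) measurable_const
  have iF : ∀ D : Finset (Fin n), Integrable (fun p : Ω × (ℝ × ℝ) => if scut (Y p.1) D then
      FF f y y' (lo D (fun i => Y p.1 i + p.2.1) y) (hi D (fun i => Y p.1 i + p.2.2) y') else 0)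
      (P.prod (γ.prod γ')) := by
    intro D
    refine step_unit (mF D) (fun p => ?_) (fun p => ?_)
    · split_ifs
      · exact step_FF_nonneg _ _ _ _
      · exact le_rfl
    · split_ifs
      · exact step_FF_le hf _ _ _ _
      · exact zero_le_one
  have mH : Measurable (fun p : Ω × (ℝ × ℝ) => UU f (y - p.2.1) (y' - p.2.2) (Y p.1)) :=
    step_mUU hf (measurable_const.sub (measurable_fst.comp measurable_snd))
      (measurable_const.sub (measurable_snd.comp measurable_snd)) (hY.comp measurable_fst)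
  have iH : Integrable (fun p : Ω × (ℝ × ℝ) => UU f (y - p.2.1) (y' - p.2.2) (Y p.1))
      (P.prod (γ.prod γ')) :=
    step_unit mH (fun p => step_UU_nonneg _ _ _) (fun p => step_UU_le hf _ _ _)
  have eA : ∀ D : Finset (Fin n), ∫ ω, (if scut (Y ω) D then
      (∫ z, ∫ z', FF f y y' (lo D (fun i => Y ω i + z) y) (hi D (fun i => Y ω i + z') y') ∂γ' ∂γ)
        else 0) ∂P = ∫ p, (if scut (Y p.1) D then
      FF f y y' (lo D (fun i => Y p.1 i + p.2.1) y) (hi D (fun i => Y p.1 i + p.2.2) y') else 0)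
        ∂(P.prod (γ.prod γ')) := by
    intro D
    rw [integral_prod _ (iF D)]
    apply integral_congr_ae
    apply ae_of_all
    intro ω
    simp only
    by_cases hc : scut (Y ω) D
    · simp only [if_pos hc]
      rw [integral_prod]
      refine step_unit ?_ (fun p => step_FF_nonneg _ _ _ _) (fun p => step_FF_le hf _ _ _ _)
      exact step_mFF hf (step_mlo D y measurable_const measurable_fst)
        (step_mhi D y' measurable_const measurable_snd) y y'
    · simp only [if_neg hc, integral_zero]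
  have eH : ∫ z, ∫ z', (∫ ω, UU f (y - z) (y' - z') (Y ω) ∂P) ∂γ' ∂γ =
      ∫ p, UU f (y - p.2.1) (y' - p.2.2) (Y p.1) ∂(P.prod (γ.prod γ')) := by
    rw [integral_prod_symm _ iH, integral_prod _ iH.integral_prod_right]
  simp only [eA]
  rw [eH, ← integral_finsetSum _ (fun D _ => iF D)]
  have e1 : cc f y y' = ∫ p, cc f y y' ∂(P.prod (γ.prod γ')) := by
    rw [integral_const, probReal_univ, one_smul]
  rw [e1, ← integral_sub (integrable_const _) (integrable_finsetSum _ (fun D _ => iF D))]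
  apply integral_mono_ae
    ((integrable_const _).sub (integrable_finsetSum _ (fun D _ => iF D))) iH
  apply ae_of_all
  intro p
  exact UU_swap hf y y' p.2.1 p.2.2 (Y p.1)

theorem step_end (hf : Bump f) {Ω : Type} [MeasurableSpace Ω] (P : Measure Ω)
    [IsProbabilityMeasure P] (Y : Ω → (Fin n → ℝ)) (hY : Measurable Y) (y y' : ℝ) :
    ∫ ω, UU f y y' (Y ω) ∂P = cc f y y' - ∑ D : Finset (Fin n),
      ∫ ω, FF f y y' (lo D (Y ω) y) (hi D (Y ω) y') ∂P := by
  have iG : ∀ D : Finset (Fin n), Integrable (fun ω =>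
      FF f y y' (lo D (Y ω) y) (hi D (Y ω) y')) P := by
    intro D
    refine step_unit ?_ (fun p => step_FF_nonneg _ _ _ _) (fun p => step_FF_le hf _ _ _ _)
    exact step_mFF hf ((measurable_lo D y).comp hY) ((measurable_hi D y').comp hY) y y'
  simp only [UU_eq hf]
  rw [integral_sub (integrable_const _) (integrable_finsetSum _ (fun D _ => iG D)),
    integral_const, probReal_univ, one_smul, integral_finsetSum _ (fun D _ => iG D)]

theorem step_rr_int {Ω : Type} [MeasurableSpace Ω] (P : Measure Ω) [IsProbabilityMeasure P]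
    (Y : Ω → (Fin n → ℝ)) (hY : Measurable Y) (η : ℝ) :
    ∫ ω, rr η (Y ω) ∂P = ∑ D : Finset (Fin n), ∫ ω, step_ind D η (Y ω) ∂P := by
  simp only [step_rr]
  rw [integral_finsetSum]
  intro D _
  exact step_unit ((step_ind_meas D η).comp hY) (fun ω => step_ind_nonneg _ _ _)
    (fun ω => step_ind_le _ _ _)

theorem step {ν : Measure ℝ} (hν : GoodNu ν) (hf : Bump f) (β : ℝ) (n : ℕ) : ∃ C : ℝ, 0 ≤ C ∧
    ∀ κ η : ℝ, 0 < κ → 0 < η → ∃ C' : ℝ, 0 ≤ C' ∧ ∀ (x : Fin n → ℝ) (Ω : Type)
      [MeasurableSpace Ω] (P : Measure Ω) [IsProbabilityMeasure P] (X : ℝ≥0 → Ω → (Fin n → ℝ)),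
      IsHWMotion β ν x P X → ∀ (t h : ℝ≥0) (y y' : ℝ), h ≤ 1 →
      ∫ ω, UU f y y' (X (t + h) ω) ∂P ≤
        TT β ν h (fun a b => ∫ ω, UU f a b (X t ω) ∂P) y y' +
        C * h * (κ + ∫ ω, rr η (X t ω) ∂P) + C' * (lind β P X t h + h * √h) := by
  classical
  obtain ⟨C, hC, H⟩ := step_cut hν hf β n
  set N : ℝ := ((Finset.univ : Finset (Finset (Fin n))).card : ℝ) with hN
  have hN1 : 1 ≤ N := by
    rw [hN]
    have : 0 < (Finset.univ : Finset (Finset (Fin n))).card := Finset.card_pos.2 ⟨∅, Finset.mem_univ _⟩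
    exact_mod_cast this
  refine ⟨N * C, by positivity, fun κ η hκ hη => ?_⟩
  obtain ⟨C', hC', H⟩ := H κ η hκ hη
  refine ⟨N * C', by positivity, ?_⟩
  intro x Ω _ P _ X hX t h y y' hh
  have hl : 0 ≤ lind β P X t h + h * √h :=
    add_nonneg (step_lind_nonneg β P X t h) (by positivity)
  have hh0 : (0 : ℝ) ≤ h := h.2
  have hT : 0 ≤ TT β ν h (fun a b => ∫ ω, UU f a b (X t ω) ∂P) y y' := by
    unfold TT
    apply integral_nonneg
    intro z
    apply integral_nonneg
    intro z'
    apply integral_nonneg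
    intro ω
    exact step_UU_nonneg _ _ _
  have hr : 0 ≤ ∫ ω, rr η (X t ω) ∂P := integral_nonneg fun ω => (rr_bounds η (X t ω)).1
  rcases Nat.eq_zero_or_pos n with hn | hn
  · subst hn
    have h0 : ∀ v : Fin 0 → ℝ, UU f y y' v = 0 := by
      intro v
      unfold UU
      have h1 : {z : ℝ × ℝ | z.1 < z.2 ∧ ∃ i : Fin 0, z.1 ≤ v i ∧ v i ≤ z.2} = ∅ := by
        ext z
        simp
      rw [h1, measureReal_empty]
    simp only [h0, integral_zero]
    positivity
  · have hm : ∀ s, Measurable (X s) := fun s => (hX.meas s).measurable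
    have h1 := step_end hf P (X (t + h)) (hm _) y y'
    have h2 := step_fub hf P (X t) (hm t) (gaussianReal (bp β ν * h) h)
      (gaussianReal (bm β ν * h) h) y y'
    have h3 := step_rr_int P (X t) (hm t) η
    have h4 := Finset.sum_le_sum (s := (Finset.univ : Finset (Finset (Fin n))))
      (fun D _ => H x Ω P X hX hn D t h y y' hh)
    rw [Finset.sum_add_distrib, Finset.sum_add_distrib, ← Finset.mul_sum,
      Finset.sum_add_distrib, ← h3, Finset.sum_const, Finset.sum_const, nsmul_eq_mul,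
      nsmul_eq_mul, ← hN] at h4
    have h5 : C * h * (N * κ + ∫ ω, rr η (X t ω) ∂P) ≤
        N * C * h * (κ + ∫ ω, rr η (X t ω) ∂P) := by
      have h6 : 0 ≤ C * h * ((N - 1) * ∫ ω, rr η (X t ω) ∂P) :=
        mul_nonneg (mul_nonneg hC hh0) (mul_nonneg (by linarith) hr)
      nlinarith [h6]
    unfold TT
    rw [h1]
    linarith

end Pool.Agent.TH996.HW
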