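import Pool.Agent.TH996.HW.Comb
import Pool.Agent.TH996.HW.Gauss
import Pool.Agent.TH996.HW.Incr
import Pool.Agent.TH996.HW.Lindeberg
import Pool.Agent.TH996.HW.Step
import Pool.Agent.TH996.HW.Iter

/-!
# Final bound for the n-point motions (MP_b213bc_pr)
-/

open MeasureTheory ProbabilityTheory Filter
open scoped NNReal ENNReal Topology

namespace Pool.Agent.TH996.HW

section hitle

variable {n : ℕ} {f : ℝ → ℝ}
variable {β : ℝ} {ν : Measure ℝ} {x : Fin n → ℝ} {Ω : Type} [MeasurableSpace Ω]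
  {P : Measure Ω} [IsProbabilityMeasure P] {X : ℝ≥0 → Ω → (Fin n → ℝ)}

theorem HitLe_joint (hX : IsHWMotion β ν x P X) :
    Measurable (fun z : ℝ≥0 × Ω => X z.1 z.2) :=
  measurable_uncurry_of_continuous_of_measurable hX.cont (fun t => (hX.meas t).measurable)

theorem HitLe_jointR (hX : IsHWMotion β ν x P X) :
    Measurable (fun z : ℝ × Ω => X z.1.toNNReal z.2) :=
  (HitLe_joint hX).comp ((measurable_real_toNNReal.comp measurable_fst).prodMk measurable_snd)

theorem HitLe_jointRh (hX : IsHWMotion β ν x P X) (h : ℝ≥0) :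
    Measurable (fun z : ℝ × Ω => X (z.1.toNNReal + h) z.2) :=
  (HitLe_joint hX).comp (((measurable_real_toNNReal.comp measurable_fst).add_const h).prodMk
    measurable_snd)

theorem HitLe_rho_nonneg (a : ℝ) : 0 ≤ rho a := le_min (sq_nonneg _) (by positivity)

theorem HitLe_rho_le (a : ℝ) : rho a ≤ a ^ 2 := min_le_left _ _

theorem HitLe_rho_meas : Measurable rho := by
  unfold rho
  exact ((measurable_id.pow_const 2)).min ((measurable_id.abs).pow_const 3)

theorem HitLe_lind_nonneg (β : ℝ) (X : ℝ≥0 → Ω → (Fin n → ℝ)) (t h : ℝ≥0) :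
    0 ≤ lind β P X t h :=
  Finset.sum_nonneg fun i _ => integral_nonneg fun ω => HitLe_rho_nonneg _

theorem HitLe_sq_int (hX : IsHWMotion β ν x P X) (i : Fin n) (t t' : ℝ≥0) :
    Integrable (fun ω => ((X t' ω i - β * t') - (X t ω i - β * t)) ^ 2) P := by
  have h1 : MemLp (fun ω => (X t' ω i - β * t') - (X t ω i - β * t)) 2 P :=
    ((hX.sq t' i).sub (memLp_const _)).sub ((hX.sq t i).sub (memLp_const _))
  exact h1.integrable_sq

theorem HitLe_sq (hX : IsHWMotion β ν x P X) (i : Fin n) (t h : ℝ≥0) :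
    ∫ ω, ((X (t + h) ω i - β * (t + h)) - (X t ω i - β * t)) ^ 2 ∂P = h := by
  have h1 := bracket_inc hX i i (t := t) (t' := t + h) (by simp) (Y := fun _ => 1)
    stronglyMeasurable_const (C := 1) (by simp)
  have h2 : ∫ ω, ((X (t + h) ω i - β * (t + h)) - (X t ω i - β * t)) ^ 2 ∂P =
      ∫ ω, (fun _ => (1 : ℝ)) ω * (((X (t + h) ω i - β * ((t + h : ℝ≥0) : ℝ)) - (X t ω i - β * t)) *
      ((X (t + h) ω i - β * ((t + h : ℝ≥0) : ℝ)) - (X t ω i - β * t))) ∂P := by
    congr 1
    ext ω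
    push_cast
    ring
  rw [h2, h1]
  simp

theorem HitLe_lind_le (hX : IsHWMotion β ν x P X) (t h : ℝ≥0) :
    lind β P X t h ≤ n * h := by
  unfold lind
  have key : ∀ i : Fin n, ∫ ω, rho ((X (t + h) ω i - β * (t + h)) - (X t ω i - β * t)) ∂P ≤
      (h : ℝ) := by
    intro i
    refine le_trans ?_ (HitLe_sq hX i t h).le
    apply integral_mono_of_nonneg
    · exact ae_of_all _ fun ω => HitLe_rho_nonneg _
    · have := HitLe_sq_int hX i t (t + h)
      push_cast at this
      exact this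
    · exact ae_of_all _ fun ω => HitLe_rho_le _
  calc ∑ i, ∫ ω, rho ((X (t + h) ω i - β * (t + h)) - (X t ω i - β * t)) ∂P
      ≤ ∑ i : Fin n, (h : ℝ) := Finset.sum_le_sum fun i _ => key i
    _ = n * h := by simp

theorem HitLe_lindi_meas (hX : IsHWMotion β ν x P X) (h : ℝ≥0) (i : Fin n) :
    Measurable (fun t : ℝ => ∫ ω, rho ((X (t.toNNReal + h) ω i - β * (t.toNNReal + h)) -
      (X t.toNNReal ω i - β * t.toNNReal)) ∂P) := by
  have h0 : Measurable (fun z : ℝ × Ω => rho ((X (z.1.toNNReal + h) z.2 i -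
      β * (z.1.toNNReal + h)) - (X z.1.toNNReal z.2 i - β * z.1.toNNReal))) := by
    apply HitLe_rho_meas.comp
    have e1 : Measurable (fun z : ℝ × Ω => X (z.1.toNNReal + h) z.2 i) :=
      (measurable_pi_apply i).comp (HitLe_jointRh hX h)
    have e2 : Measurable (fun z : ℝ × Ω => X z.1.toNNReal z.2 i) :=
      (measurable_pi_apply i).comp (HitLe_jointR hX)
    have e3 : Measurable (fun z : ℝ × Ω => ((z.1.toNNReal : ℝ≥0) : ℝ)) :=
      (measurable_real_toNNReal.comp measurable_fst).coe_nnreal_real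
    exact (e1.sub ((e3.add_const _).const_mul β)).sub (e2.sub (e3.const_mul β))
  exact (h0.stronglyMeasurable.integral_prod_right').measurable

theorem HitLe_lind_meas (hX : IsHWMotion β ν x P X) (h : ℝ≥0) :
    Measurable (fun t : ℝ => lind β P X t.toNNReal h) := by
  unfold lind
  exact Finset.measurable_sum _ fun i _ => HitLe_lindi_meas hX h i

theorem HitLe_rr_meas (hX : IsHWMotion β ν x P X) (η : ℝ) :
    Measurable (fun t : ℝ => ∫ ω, rr η (X t.toNNReal ω) ∂P) := by
  have h0 : Measurable (fun z : ℝ × Ω => rr η (X z.1.toNNReal z.2)) :=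
    (measurable_rr η).comp (HitLe_jointR hX)
  exact (h0.stronglyMeasurable.integral_prod_right').measurable

theorem HitLe_rr_int (η : ℝ) {Z : Ω → (Fin n → ℝ)} (hZ : Measurable Z) :
    Integrable (fun ω => rr η (Z ω)) P := by
  apply Integrable.of_bound ((measurable_rr η).comp hZ).aestronglyMeasurable (C := 2 ^ n)
  refine ae_of_all _ fun ω => ?_
  have := rr_bounds η (Z ω)
  simp only [Function.comp_apply]
  rw [Real.norm_eq_abs, abs_of_nonneg this.1]
  exact this.2

theorem HitLe_rr_bounds (η : ℝ) {Z : Ω → (Fin n → ℝ)} (hZ : Measurable Z) :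
    0 ≤ ∫ ω, rr η (Z ω) ∂P ∧ ∫ ω, rr η (Z ω) ∂P ≤ 2 ^ n := by
  constructor
  · exact integral_nonneg fun ω => (rr_bounds η (Z ω)).1
  · calc ∫ ω, rr η (Z ω) ∂P ≤ ∫ _, (2 : ℝ) ^ n ∂P :=
        integral_mono (HitLe_rr_int η hZ) (integrable_const _) fun ω => (rr_bounds η (Z ω)).2
      _ = 2 ^ n := by simp

/-- the expectation of the number of small gaps tends to zero -/
theorem HitLe_rr_lim (hX : IsHWMotion β ν x P X) (b : ℝ) :
    Tendsto (fun k : ℕ => ∫ t in b..b + 1, ∫ ω, rr (1 / ((k : ℝ) + 1)) (X t.toNNReal ω) ∂P)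
      atTop (𝓝 0) := by
  have h1 : ∀ t : ℝ, Tendsto (fun k : ℕ => ∫ ω, rr (1 / ((k : ℝ) + 1)) (X t.toNNReal ω) ∂P)
      atTop (𝓝 (∫ _, (0 : ℝ) ∂P)) := by
    intro t
    apply tendsto_integral_of_dominated_convergence (fun _ => (2 : ℝ) ^ n)
    · intro k
      exact ((measurable_rr _).comp (hX.meas _).measurable).aestronglyMeasurable
    · exact integrable_const _
    · intro k
      refine ae_of_all _ fun ω => ?_
      have := rr_bounds (1 / ((k : ℝ) + 1)) (X t.toNNReal ω)
      rw [Real.norm_eq_abs, abs_of_nonneg this.1]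
      exact this.2
    · refine ae_of_all _ fun ω => ?_
      obtain ⟨η₀, h0, h1⟩ := rr_zero (X t.toNNReal ω)
      apply tendsto_const_nhds.congr'
      have h2 := tendsto_one_div_add_atTop_nhds_zero_nat (𝕜 := ℝ)
      filter_upwards [h2.eventually_le_const h0] with k hk
      exact (h1 _ hk).symm
  have h2 : Tendsto (fun k : ℕ => ∫ t in b..b + 1, ∫ ω, rr (1 / ((k : ℝ) + 1)) (X t.toNNReal ω) ∂P)
      atTop (𝓝 (∫ t in b..b + 1, ∫ _, (0 : ℝ) ∂P)) := by
    apply intervalIntegral.tendsto_integral_filter_of_dominated_convergence (fun _ => (2 : ℝ) ^ n)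
    · exact Eventually.of_forall fun k => (HitLe_rr_meas hX _).aestronglyMeasurable
    · refine Eventually.of_forall fun k => ae_of_all _ fun t _ => ?_
      have := HitLe_rr_bounds (P := P) (1 / ((k : ℝ) + 1)) (hX.meas t.toNNReal).measurable
      rw [Real.norm_eq_abs, abs_of_nonneg this.1]
      exact this.2
    · exact intervalIntegrable_const
    · exact ae_of_all _ fun t _ => h1 t
  simpa using h2

/-- values of `UU` -/
theorem HitLe_UU_bounds (hf : Bump f) (y y' : ℝ) (v : Fin n → ℝ) :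
    0 ≤ UU f y y' v ∧ UU f y y' v ≤ 1 ∧ UU f y y' v ≤ cc f y y' := by
  haveI := isProb_dm hf y y'
  refine ⟨measureReal_nonneg, measureReal_le_one, ?_⟩
  unfold UU cc
  exact measureReal_mono (fun z hz => hz.1) (measure_ne_top _ _)

theorem HitLe_cc_bounds (hf : Bump f) (y y' : ℝ) : 0 ≤ cc f y y' ∧ cc f y y' ≤ 1 := by
  haveI := isProb_dm hf y y'
  exact ⟨measureReal_nonneg, measureReal_le_one⟩

theorem HitLe_UU_int (hf : Bump f) (y y' : ℝ) {Z : Ω → (Fin n → ℝ)} (hZ : Measurable Z) :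
    Integrable (fun ω => UU f y y' (Z ω)) P := by
  have hg : Measurable (fun ω => ((y, y'), Z ω)) := measurable_const.prodMk hZ
  have h0 := (measurable_UU hf).comp hg
  simp only [Function.comp_def] at h0
  apply Integrable.of_bound h0.aestronglyMeasurable (C := 1)
  refine ae_of_all _ fun ω => ?_
  have := HitLe_UU_bounds hf y y' (Z ω)
  rw [Real.norm_eq_abs, abs_of_nonneg this.1]
  exact this.2.1

theorem HitLe_e_bounds (hf : Bump f) (y y' : ℝ) {Z : Ω → (Fin n → ℝ)} (hZ : Measurable Z) :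
    0 ≤ ∫ ω, UU f y y' (Z ω) ∂P ∧ ∫ ω, UU f y y' (Z ω) ∂P ≤ 1 ∧
      ∫ ω, UU f y y' (Z ω) ∂P ≤ cc f y y' := by
  refine ⟨integral_nonneg fun ω => (HitLe_UU_bounds hf y y' (Z ω)).1, ?_, ?_⟩
  · calc ∫ ω, UU f y y' (Z ω) ∂P ≤ ∫ _, (1 : ℝ) ∂P :=
        integral_mono (HitLe_UU_int hf y y' hZ) (integrable_const _)
          fun ω => (HitLe_UU_bounds hf y y' (Z ω)).2.1
      _ = 1 := by simp
  · calc ∫ ω, UU f y y' (Z ω) ∂P ≤ ∫ _, cc f y y' ∂P :=
        integral_mono (HitLe_UU_int hf y y' hZ) (integrable_const _)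
          fun ω => (HitLe_UU_bounds hf y y' (Z ω)).2.2
      _ = cc f y y' := by simp

theorem HitLe_e_meas (hf : Bump f) {Z : Ω → (Fin n → ℝ)} (hZ : Measurable Z) :
    Measurable (fun z : ℝ × ℝ => ∫ ω, UU f z.1 z.2 (Z ω) ∂P) := by
  have hg : Measurable (fun z : (ℝ × ℝ) × Ω => (z.1, Z z.2)) :=
    measurable_fst.prodMk (hZ.comp measurable_snd)
  have h0 := (measurable_UU hf).comp hg
  simp only [Function.comp_def] at h0
  exact (h0.stronglyMeasurable.integral_prod_right').measurable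

theorem HitLe_TT_bound (β : ℝ) (ν : Measure ℝ) (s : ℝ≥0) {φ : ℝ → ℝ → ℝ} {B : ℝ}
    (hφB : ∀ y y', |φ y y'| ≤ B) (y y' : ℝ) : |TT β ν s φ y y'| ≤ B := by
  unfold TT
  have h1 : ∀ x : ℝ, ‖∫ x', φ (y - x) (y' - x') ∂(gaussianReal (bm β ν * s) s)‖ ≤ B := by
    intro x
    have := norm_integral_le_of_norm_le_const (μ := gaussianReal (bm β ν * s) s)
      (f := fun x' => φ (y - x) (y' - x')) (C := B) (ae_of_all _ fun x' => hφB _ _)
    simpa using this
  have := norm_integral_le_of_norm_le_const (μ := gaussianReal (bp β ν * s) s)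
    (f := fun x => ∫ x', φ (y - x) (y' - x') ∂(gaussianReal (bm β ν * s) s)) (C := B)
    (ae_of_all _ h1)
  simpa using this

theorem HitLe_ii {g : ℝ → ℝ} (hg : Measurable g) {B : ℝ} (hB : ∀ t, |g t| ≤ B) (a b : ℝ) :
    IntervalIntegrable g volume a b := by
  apply (intervalIntegrable_const (c := B)).mono_fun' hg.aestronglyMeasurable
  exact ae_of_all _ fun t => hB t

theorem HitLe_main (hf : Bump f) {δ : ℝ}
    (hδ : ∀ (s : ℝ≥0) (y : ℝ), 1 / 2 ≤ s → s ≤ 1 → TT β ν s (cc f) y (y + 1) ≤ 1 - δ)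
    {C κ η C' : ℝ} (hC : 0 ≤ C) (hκ : 0 < κ) (hC' : 0 ≤ C')
    (hst : ∀ (t h : ℝ≥0) (y y' : ℝ), h ≤ 1 →
      ∫ ω, UU f y y' (X (t + h) ω) ∂P ≤
        TT β ν h (fun a b => ∫ ω, UU f a b (X t ω) ∂P) y y' +
        C * h * (κ + ∫ ω, rr η (X t ω) ∂P) + C' * (lind β P X t h + h * √h))
    (hX : IsHWMotion β ν x P X) (T : ℝ≥0) (a : ℝ) (hT : 1 ≤ T) (m : ℕ) (hm : 1 ≤ m) :
    ∫ ω, UU f a (a + 1) (X T ω) ∂P ≤
      (1 - δ) + (C * (κ + 2 ^ n) + C' * (n + 1)) / (m + 1) +
      (C * (κ + ∫ t in ((T : ℝ) - 1)..((T : ℝ) - 1 + 1), ∫ ω, rr η (X t.toNNReal ω) ∂P) +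
        C' * (((m : ℝ) + 1) * (∫ t in ((T : ℝ) - 1)..((T : ℝ) - 1 + 1),
          lind β P X t.toNNReal (1 / ((m : ℝ) + 1)).toNNReal) + √(1 / ((m : ℝ) + 1)))) := by
  have hb0 : (0 : ℝ) ≤ (T : ℝ) - 1 := by
    have : (1 : ℝ) ≤ T := by exact_mod_cast hT
    linarith
  set b : ℝ := (T : ℝ) - 1 with hb
  have hXm : ∀ t, Measurable (X t) := fun t => (hX.meas t).measurable
  set R : ℝ → ℝ := fun t => ∫ ω, rr η (X t.toNNReal ω) ∂P with hR
  have hRb : ∀ t, 0 ≤ R t ∧ R t ≤ 2 ^ n := fun t => HitLe_rr_bounds η (hXm _)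
  set Λ : ℝ → ℝ := fun t => TT β ν (T - t.toNNReal) (fun y y' => ∫ ω, UU f y y'
    (X t.toNNReal ω) ∂P) a (a + 1) with hΛ
  set E : ℝ → ℝ → ℝ := fun t h => C * h.toNNReal * (κ + R t) +
    C' * (lind β P X t.toNNReal h.toNNReal + h.toNNReal * √(h.toNNReal)) with hE
  have hem : ∀ t : ℝ≥0, Measurable (fun z : ℝ × ℝ => ∫ ω, UU f z.1 z.2 (X t ω) ∂P) :=
    fun t => HitLe_e_meas hf (hXm t)
  have heb : ∀ (t : ℝ≥0) (y y' : ℝ), |∫ ω, UU f y y' (X t ω) ∂P| ≤ 1 := by
    intro t y y'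
    have := HitLe_e_bounds (P := P) hf y y' (hXm t)
    rw [abs_of_nonneg this.1]
    exact this.2.1
  have hstep : ∀ t h, b ≤ t → 0 < h → t + h ≤ b + 1 → Λ (t + h) ≤ Λ t + E t h := by
    intro t h ht hh hth
    have ht0 : 0 ≤ t := hb0.trans ht
    have hT' : b + 1 = T := by rw [hb]; ring
    rw [hT'] at hth
    have e1 : (t + h).toNNReal = t.toNNReal + h.toNNReal := Real.toNNReal_add ht0 hh.le
    have e2 : t.toNNReal + h.toNNReal ≤ T := by
      rw [← e1, Real.toNNReal_le_iff_le_coe]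
      exact hth
    have e3 : T - (t.toNNReal + h.toNNReal) + h.toNNReal = T - t.toNNReal := by
      rw [← tsub_tsub]
      exact tsub_add_cancel_of_le (le_tsub_of_add_le_left e2)
    have hh1 : h.toNNReal ≤ 1 := by
      rw [Real.toNNReal_le_iff_le_coe]
      push_cast
      linarith [hT', hb0]
    have hTTb : ∀ y y', |TT β ν h.toNNReal (fun y y' => ∫ ω, UU f y y' (X t.toNNReal ω) ∂P)
        y y'| ≤ 1 := fun y y' => HitLe_TT_bound β ν _ (heb _) y y'
    have hTTm := TT_meas β ν h.toNNReal (φ := fun y y' => ∫ ω, UU f y y' (X t.toNNReal ω) ∂P)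
      (hem t.toNNReal)
    have hE0 : 0 ≤ E t h := by
      have h1 := HitLe_lind_nonneg (P := P) β X t.toNNReal h.toNNReal
      have h2 := (hRb t).1
      simp only [hE]
      positivity
    calc Λ (t + h) = TT β ν (T - (t.toNNReal + h.toNNReal)) (fun y y' => ∫ ω, UU f y y'
          (X (t.toNNReal + h.toNNReal) ω) ∂P) a (a + 1) := by simp only [hΛ, e1]
      _ ≤ TT β ν (T - (t.toNNReal + h.toNNReal)) (fun y y' =>
          TT β ν h.toNNReal (fun y y' => ∫ ω, UU f y y' (X t.toNNReal ω) ∂P) y y' + E t h)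
          a (a + 1) := by
          apply TT_mono (B := 1 + E t h) β ν _ (hem _) (hTTm.add_const _)
          · intro y y'
            exact (heb _ y y').trans (by linarith)
          · intro y y'
            calc |TT β ν h.toNNReal (fun y y' => ∫ ω, UU f y y' (X t.toNNReal ω) ∂P) y y' +
                  E t h| ≤ |TT β ν h.toNNReal (fun y y' => ∫ ω, UU f y y'
                  (X t.toNNReal ω) ∂P) y y'| + |E t h| := abs_add_le _ _
              _ ≤ 1 + E t h := by
                  rw [abs_of_nonneg hE0]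
                  linarith [hTTb y y']
          · intro y y'
            have := hst t.toNNReal h.toNNReal y y' hh1
            simp only [hE, hR]
            linarith
      _ = TT β ν (T - (t.toNNReal + h.toNNReal)) (TT β ν h.toNNReal
          (fun y y' => ∫ ω, UU f y y' (X t.toNNReal ω) ∂P)) a (a + 1) + E t h :=
          TT_add_const β ν _ hTTm hTTb _ _ _
      _ = Λ t + E t h := by
          rw [TT_semigroup β ν _ _ (hem _) (heb _), e3]
  have hstart : ∀ t, b ≤ t → t ≤ b + 1 / 2 → Λ t ≤ 1 - δ := by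
    intro t ht ht2
    have ht0 : 0 ≤ t := hb0.trans ht
    have e1 : t.toNNReal ≤ T := by
      rw [Real.toNNReal_le_iff_le_coe]
      linarith [hb]
    have e2 : ((T - t.toNNReal : ℝ≥0) : ℝ) = T - t := by
      rw [NNReal.coe_sub e1, Real.coe_toNNReal _ ht0]
    refine le_trans ?_ (hδ (T - t.toNNReal) a ?_ ?_)
    · apply TT_mono (B := 1) β ν _ (hem _) (measurable_cc hf) (heb _)
      · intro y y'
        have := HitLe_cc_bounds hf y y'
        rw [abs_of_nonneg this.1]
        exact this.2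
      · intro y y'
        exact (HitLe_e_bounds hf y y' (hXm _)).2.2
    · rw [← NNReal.coe_le_coe, e2]
      push_cast
      linarith
    · rw [← NNReal.coe_le_coe, e2]
      push_cast
      linarith
  have hE0 : ∀ t h, 0 ≤ E t h := by
    intro t h
    have h1 := HitLe_lind_nonneg (P := P) β X t.toNNReal h.toNNReal
    have h2 := (hRb t).1
    simp only [hE]
    positivity
  have hC2 : 0 ≤ C * (κ + 2 ^ n) + C' * (n + 1) := by positivity
  have hE1 : ∀ t h, b ≤ t → 0 < h → h ≤ 1 → E t h ≤ (C * (κ + 2 ^ n) + C' * (n + 1)) * h := by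
    intro t h _ hh hh1
    have h1 := HitLe_lind_le hX t.toNNReal h.toNNReal
    have h2 := (hRb t).2
    have h3 : ((h.toNNReal : ℝ≥0) : ℝ) = h := Real.coe_toNNReal _ hh.le
    simp only [hE]
    rw [h3] at h1 ⊢
    have h4 : √h ≤ 1 := Real.sqrt_le_one.mpr hh1
    have h5 : h * √h ≤ h := by nlinarith
    have h6 : C * h * (κ + R t) ≤ C * h * (κ + 2 ^ n) := by
      apply mul_le_mul_of_nonneg_left _ (by positivity)
      linarith
    have h7 : C' * (lind β P X t.toNNReal h.toNNReal + h * √h) ≤ C' * (n * h + h) := by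
      apply mul_le_mul_of_nonneg_left _ hC'
      linarith
    nlinarith
  have hmeas : ∀ h, Measurable fun t => E t h := by
    intro h
    simp only [hE]
    exact (((HitLe_rr_meas hX η).const_add κ).const_mul _).add
      (((HitLe_lind_meas hX _).add_const _).const_mul _)
  have hit := iter hC2 hstep hstart hE0 hE1 hmeas m hm
  have hΛT : Λ (b + 1) = ∫ ω, UU f a (a + 1) (X T ω) ∂P := by
    have e1 : (b + 1).toNNReal = T := by
      rw [hb]
      simp
    simp only [hΛ, e1, tsub_self, TT_zero]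
  rw [hΛT] at hit
  refine hit.trans ?_
  apply add_le_add_right
  have hm0 : (0 : ℝ) < (m : ℝ) + 1 := by positivity
  have hh0 : (0 : ℝ) ≤ 1 / ((m : ℝ) + 1) := by positivity
  have hRi : IntervalIntegrable R volume b (b + 1) :=
    HitLe_ii (HitLe_rr_meas hX η) (B := 2 ^ n) (fun t => by
      rw [abs_of_nonneg (hRb t).1]; exact (hRb t).2) _ _
  have hLi : IntervalIntegrable (fun t : ℝ => lind β P X t.toNNReal
      (1 / ((m : ℝ) + 1)).toNNReal) volume b (b + 1) :=
    HitLe_ii (HitLe_lind_meas hX _) (B := n * (1 / ((m : ℝ) + 1)).toNNReal) (fun t => by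
      rw [abs_of_nonneg (HitLe_lind_nonneg _ _ _ _)]
      exact HitLe_lind_le hX _ _) _ _
  have e5 : ∫ t in b..(b + 1), E t (1 / ((m : ℝ) + 1)) =
      C * (1 / ((m : ℝ) + 1)) * (κ + ∫ t in b..(b + 1), R t) +
      C' * ((∫ t in b..(b + 1), lind β P X t.toNNReal (1 / ((m : ℝ) + 1)).toNNReal) +
        (1 / ((m : ℝ) + 1)) * √(1 / ((m : ℝ) + 1))) := by
    simp only [hE, Real.coe_toNNReal _ hh0]
    rw [intervalIntegral.integral_add
      (((intervalIntegrable_const).add hRi).const_mul _)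
      ((hLi.add intervalIntegrable_const).const_mul _),
      intervalIntegral.integral_const_mul, intervalIntegral.integral_const_mul,
      intervalIntegral.integral_add intervalIntegrable_const hRi,
      intervalIntegral.integral_add hLi intervalIntegrable_const]
    simp
  rw [e5]
  apply le_of_eq
  field_simp

end hitle

theorem hit_le {ν : Measure ℝ} (hν : GoodNu ν) (β : ℝ) : ∃ δ : ℝ, 0 < δ ∧
    ∀ (n : ℕ) (x : Fin n → ℝ) (Ω : Type) [MeasurableSpace Ω] (P : Measure Ω)
      [IsProbabilityMeasure P] (X : ℝ≥0 → Ω → (Fin n → ℝ)), IsHWMotion β ν x P X →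
      ∀ (T : ℝ≥0) (a : ℝ), 1 ≤ T →
      P.real {ω | ∃ i, X T ω i ∈ Set.Icc a (a + 1)} ≤ 1 - δ := by
  obtain ⟨f, hf⟩ := exists_bump
  obtain ⟨δ, hδ0, hδ⟩ := TT_cc hf β ν
  refine ⟨δ, hδ0, ?_⟩
  intro n x Ω _ P _ X hX T a hT
  obtain ⟨C, hC, hstep⟩ := step hν hf β n
  have hb0 : (0 : ℝ) ≤ (T : ℝ) - 1 := by
    have : (1 : ℝ) ≤ T := by exact_mod_cast hT
    linarith
  -- the limit m → ∞
  have key1 : ∀ κ η : ℝ, 0 < κ → 0 < η → ∫ ω, UU f a (a + 1) (X T ω) ∂P ≤
      (1 - δ) + C * (κ + ∫ t in ((T : ℝ) - 1)..((T : ℝ) - 1 + 1),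
        ∫ ω, rr η (X t.toNNReal ω) ∂P) := by
    intro κ η hκ hη
    obtain ⟨C', hC', hst⟩ := hstep κ η hκ hη
    have hst' := hst x Ω P X hX
    have hmain := fun m hm => HitLe_main hf hδ hC hκ hC' hst' hX T a hT m hm
    have hl1 : Tendsto (fun m : ℕ => (C * (κ + 2 ^ n) + C' * (n + 1)) / ((m : ℝ) + 1)) atTop
        (𝓝 0) := by
      have := (tendsto_one_div_add_atTop_nhds_zero_nat (𝕜 := ℝ)).const_mul
        (C * (κ + 2 ^ n) + C' * (n + 1))
      simp only [mul_zero] at this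
      refine this.congr fun m => ?_
      ring
    have hl2 : Tendsto (fun m : ℕ => √(1 / ((m : ℝ) + 1))) atTop (𝓝 0) := by
      have := (tendsto_one_div_add_atTop_nhds_zero_nat (𝕜 := ℝ)).sqrt
      simpa using this
    have hl3 : Tendsto (fun m : ℕ => ((m : ℝ) + 1) * (∫ t in ((T : ℝ) - 1)..((T : ℝ) - 1 + 1),
          lind β P X t.toNNReal (1 / ((m : ℝ) + 1)).toNNReal)) atTop (𝓝 0) := by
      have h1 : Tendsto (fun m : ℕ => ∑ i : Fin n, ((m : ℝ) + 1) *
          ∫ s in ((T : ℝ) - 1)..((T : ℝ) - 1 + 1), ∫ ω,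
          rho ((X (s + 1 / (m + 1)).toNNReal ω i - β * (s + 1 / (m + 1))) -
          (X s.toNNReal ω i - β * s)) ∂P) atTop (𝓝 (∑ i : Fin n, 0)) :=
        tendsto_finsetSum _ fun i _ => lindeberg hX i hb0
      simp only [Finset.sum_const_zero] at h1
      refine h1.congr fun m => ?_
      rw [← Finset.mul_sum]
      congr 1
      have hh0 : (0 : ℝ) ≤ 1 / ((m : ℝ) + 1) := by positivity
      unfold lind
      rw [intervalIntegral.integral_finsetSum]
      · apply Finset.sum_congr rfl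
        intro i _
        apply intervalIntegral.integral_congr
        intro s hs
        rw [Set.uIcc_of_le (by linarith)] at hs
        have hs0 : 0 ≤ s := hb0.trans hs.1
        simp only [Real.toNNReal_add hs0 hh0, Real.coe_toNNReal _ hs0, Real.coe_toNNReal _ hh0]
      · intro i _
        apply HitLe_ii (HitLe_lindi_meas hX _ i) (B := (1 / ((m : ℝ) + 1)).toNNReal)
        intro t
        rw [abs_of_nonneg (integral_nonneg fun ω => HitLe_rho_nonneg _)]
        refine le_trans ?_ (HitLe_sq hX i t.toNNReal (1 / ((m : ℝ) + 1)).toNNReal).le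
        apply integral_mono_of_nonneg
        · exact ae_of_all _ fun ω => HitLe_rho_nonneg _
        · have := HitLe_sq_int hX i t.toNNReal (t.toNNReal + (1 / ((m : ℝ) + 1)).toNNReal)
          push_cast at this
          exact this
        · exact ae_of_all _ fun ω => HitLe_rho_le _
    have hlim := ((hl1.const_add (1 - δ)).add (((hl3.add hl2).const_mul C').const_add
      (C * (κ + ∫ t in ((T : ℝ) - 1)..((T : ℝ) - 1 + 1), ∫ ω, rr η (X t.toNNReal ω) ∂P))))
    simp only [add_zero, mul_zero] at hlim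
    apply ge_of_tendsto hlim
    filter_upwards [eventually_ge_atTop 1] with m hm
    exact hmain m hm
  -- the limit κ, η → 0
  have key2 : ∫ ω, UU f a (a + 1) (X T ω) ∂P ≤ 1 - δ := by
    have hl := ((tendsto_one_div_add_atTop_nhds_zero_nat (𝕜 := ℝ)).add
      (HitLe_rr_lim hX ((T : ℝ) - 1))).const_mul C
    have hl' := hl.const_add (1 - δ)
    simp only [add_zero, mul_zero] at hl'
    apply ge_of_tendsto' hl'
    intro k
    exact key1 _ _ (by positivity) (by positivity)
  refine le_trans ?_ key2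
  have hXT : Measurable (X T) := (hX.meas T).measurable
  have hA : MeasurableSet {ω | ∃ i, X T ω i ∈ Set.Icc a (a + 1)} := by
    have : {ω | ∃ i, X T ω i ∈ Set.Icc a (a + 1)} =
        ⋃ i, (fun ω => X T ω i) ⁻¹' Set.Icc a (a + 1) := by
      ext ω; simp
    rw [this]
    exact MeasurableSet.iUnion fun i =>
      ((measurable_pi_apply i).comp hXT) measurableSet_Icc
  rw [← integral_indicator_one hA]
  apply integral_mono _ (HitLe_UU_int hf a (a + 1) hXT)
  · intro ω
    by_cases h : ω ∈ {ω | ∃ i, X T ω i ∈ Set.Icc a (a + 1)}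
    · obtain ⟨i, hi⟩ := h
      have h1 := UU_hit hf (v := X T ω) (by linarith : a < a + 1) ⟨i, hi.1, hi.2⟩
      simp only
      rw [Set.indicator_of_mem (show ω ∈ {ω | ∃ i, X T ω i ∈ Set.Icc a (a + 1)} from ⟨i, hi⟩), h1]
      simp
    · simp only
      rw [Set.indicator_of_notMem h]
      exact (HitLe_UU_bounds hf a (a + 1) (X T ω)).1
  · exact (integrable_const (1 : ℝ)).indicator hA

end Pool.Agent.TH996.HW
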